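import Mathlib
import Pool.Agent.Lib.MP_44a246_ntF.F14

/-!
Spaces of functionals on several forms which contain some combinations of the vectors of the
monomials of a point: a line of small height, lower bounds for the heights.
-/

namespace Pool.Agent.Lib.MP_44a246_ntR

open Pool.Agent.Lib.MP_44a246_ntF
open Pool.Agent.Lib.MP_44a246_nt
open Pool.Agent.Lib.MP_44a246_ntL
open Pool.Agent.Lib.MP_44a246_ntS
open Pool.Agent.Lib.MP_44a246_ntK
open Pool.Agent.Lib.MP_e52354_nt
open WithZero Module

section

variable {L : Type*} [Field L] {n p : ℕ}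

/-- the space spanned by the vectors of the monomials in the blocks -/
noncomputable def xsp (d : Fin p → ℕ) (x : Fin n → L) : Submodule L (ES n d → L) :=
  Submodule.span L (Set.range fun j => xB d j x)

theorem xB_mem_xsp {d : Fin p → ℕ} (x : Fin n → L) (j : Fin p) : xB d j x ∈ xsp d x :=
  Submodule.subset_span ⟨j, rfl⟩

theorem resB_xsp {d : Fin p → ℕ} {x : Fin n → L} {u : ES n d → L} (hu : u ∈ xsp d x) (j : Fin p) :
    resB j u ∈ Submodule.span L {xm (d j) x} := by
  have h1 : xsp d x ≤ (Submodule.span L {xm (d j) x}).comap (resB j) := by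
    unfold xsp
    rw [Submodule.span_le]
    rintro _ ⟨i, rfl⟩
    rw [SetLike.mem_coe, Submodule.mem_comap]
    beta_reduce
    rcases eq_or_ne j i with rfl | hji
    · rw [resB_xB_self]
      exact Submodule.mem_span_singleton_self _
    · rw [resB_xB_ne hji]
      exact Submodule.zero_mem _
  exact h1 hu

theorem xsp_le_SdB {d : Fin p → ℕ} {E : Submodule L (Fin n → L)} {x : Fin n → L} (hx : x ∈ E) :
    xsp d x ≤ SdB E d := by
  unfold xsp
  rw [Submodule.span_le]
  rintro _ ⟨j, rfl⟩
  exact xB_mem_SdB hx j

theorem xsp_le_comap {d : Fin p → ℕ} {x : Fin n → L} (j : Fin p) (φ : EX n (d j)) :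
    xsp (fun j => d j + 1) x ≤ (Submodule.span L {x}).comap (cmB j φ) := by
  unfold xsp
  rw [Submodule.span_le]
  rintro _ ⟨i, rfl⟩
  rw [SetLike.mem_coe, Submodule.mem_comap, cmB_eq]
  beta_reduce
  rcases eq_or_ne j i with rfl | hji
  · rw [resB_xB_self, cm_xm]
    exact Submodule.smul_mem _ _ (Submodule.mem_span_singleton_self x)
  · rw [resB_xB_ne hji, map_zero]
    exact Submodule.zero_mem _

end

section

variable {κ L : Type*} [Field κ] [IsAlgClosed κ] [CharZero κ] [Field L] [Algebra κ L] {n p : ℕ}

/-- the blocks in which a space contains the vector of the monomials -/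
theorem exists_blocks (h : IsFF κ L) {d : Fin p → ℕ} {x : Fin n → L}
    {W : Submodule L (ES n d → L)} {ρ : ℕ}
    (hW : ρ ≤ finrank L (W ⊓ xsp d x : Submodule L (ES n d → L))) :
    ∃ A : Finset (Fin p), A.card = ρ ∧ ∀ j ∈ A, xm (d j) x ∈ piece κ (W ⊓ xsp d x) j := by
  classical
  set Q : Submodule L (ES n d → L) := W ⊓ xsp d x with hQ
  have h1 := finrank_piece h Q
  have h2 : ∀ j, piece κ Q j ≤ Submodule.span L {xm (d j) x} := by
    intro j
    rintro _ ⟨u, hu, rfl⟩
    rw [Matrix.mulVecLin_apply, prj_mulVec]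
    exact resB_xsp hu.1.2 j
  have h3 : ∀ j, finrank L (piece κ Q j) ≤ 1 := fun j =>
    (Submodule.finrank_mono (h2 j)).trans ((finrank_span_le_card _).trans (by simp))
  set A' : Finset (Fin p) := Finset.univ.filter fun j => finrank L (piece κ Q j) ≠ 0 with hA'
  have h4 : finrank L Q ≤ A'.card := by
    rw [← h1, Finset.card_eq_sum_ones, hA', Finset.sum_filter]
    refine Finset.sum_le_sum fun j _ => ?_
    split_ifs with h5
    · exact h3 j
    · rw [not_not] at h5
      exact h5.le
  obtain ⟨A, hA, hAc⟩ := Finset.exists_subset_card_eq (hW.trans h4)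
  refine ⟨A, hAc, fun j hj => ?_⟩
  have h5 : finrank L (piece κ Q j) ≠ 0 := (Finset.mem_filter.1 (hA hj)).2
  have h6 : piece κ Q j = Submodule.span L {xm (d j) x} := by
    refine Submodule.eq_of_le_of_finrank_le (h2 j) ?_
    refine (finrank_span_le_card _).trans ?_
    simp only [Set.toFinset_singleton, Finset.card_singleton]
    omega
  rw [h6]
  exact Submodule.mem_span_singleton_self _

/-- the reduced rank of a piece -/
noncomputable def rk (κ : Type*) [Field κ] [Algebra κ L] {d : Fin p → ℕ} (A : Finset (Fin p))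
    (W : Submodule L (ES n d → L)) (j : Fin p) : ℕ := by
  classical
  exact finrank L (piece κ W j) - if j ∈ A then 1 else 0

omit [IsAlgClosed κ] [CharZero κ] in
theorem one_le_piece {d : Fin p → ℕ} {x : Fin n → L} (hx : x ≠ 0) {W : Submodule L (ES n d → L)}
    {j : Fin p} (h : xm (d j) x ∈ piece κ W j) : 1 ≤ finrank L (piece κ W j) := by
  rw [Nat.one_le_iff_ne_zero, Ne, Submodule.finrank_eq_zero]
  intro h0
  rw [h0, Submodule.mem_bot] at h
  exact xm_ne_zero hx h

theorem finrank_eq_rk (h : IsFF κ L) {d : Fin p → ℕ} {x : Fin n → L} (hx : x ≠ 0)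
    {W : Submodule L (ES n d → L)} {A : Finset (Fin p)}
    (hA : ∀ j ∈ A, xm (d j) x ∈ piece κ W j) :
    finrank L W = ∑ j, rk κ A W j + A.card := by
  classical
  have h1 : (A.card : ℕ) = ∑ j : Fin p, if j ∈ A then 1 else 0 := by
    rw [Finset.sum_ite_mem, Finset.univ_inter, Finset.card_eq_sum_ones]
  rw [← finrank_piece h W, h1, ← Finset.sum_add_distrib]
  refine Finset.sum_congr rfl fun j _ => ?_
  unfold rk
  split_ifs with hj
  · have h2 := one_le_piece (κ := κ) hx (hA j hj)
    omega
  · omega

theorem rk_mono {d : Fin p → ℕ} {A : Finset (Fin p)} {U V : Submodule L (ES n d → L)}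
    (h : U ≤ V) (j : Fin p) : rk κ A U j ≤ rk κ A V j := by
  unfold rk
  exact Nat.sub_le_sub_right (Submodule.finrank_mono (piece_mono (κ := κ) h j)) _

/-- **A line of small height through the point**, for a space of functionals on several forms. -/
theorem exists_lineR (h : IsFF κ L) {d : Fin p → ℕ} {x : Fin n → L} (hx : x ≠ 0) {ν : ℤ}
    (hν : height κ x ≤ ν) {ρ m : ℕ}
    (hm : ∀ A : Finset (Fin p), A.card = ρ → m ≤ ∑ j ∈ A, (d j + 1)) :
    ∀ (r : ℕ) (V : Submodule L (ES n (fun j => d j + 1) → L)),
    finrank L V = r → ρ ≤ finrank L (V ⊓ xsp (fun j => d j + 1) x :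
      Submodule L (ES n (fun j => d j + 1) → L)) →
    2 * ht κ V + ((r : ℤ) - ρ) * ν < 2 * (m * height κ x) →
    ∃ E : Submodule L (Fin n → L), x ∈ E ∧ finrank L E = 2 ∧
      2 * ht κ E + ν < 2 * height κ x := by
  intro r
  induction r using Nat.strong_induction_on with
  | _ r ih =>
    intro V hr hxV hV
    have hh := h.height_nonneg hx
    by_cases hall : ∀ j (φ : EX n (d j)), V.map (cmB j φ) ≤ Submodule.span L {x}
    · -- then the pieces of `V` are spanned by the vectors of the monomials
      exfalso
      obtain ⟨A, hAc, hA⟩ := exists_blocks h hxV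
      have h1 : ∀ j ∈ A, ht κ (piece κ V j) = ((d j + 1 : ℕ) : ℤ) * height κ x := by
        intro j hj
        have h1 : piece κ V j = Submodule.span L {xm (d j + 1) x} := by
          refine le_antisymm ?_ ?_
          · rintro _ ⟨u, hu, rfl⟩
            rw [Matrix.mulVecLin_apply, prj_mulVec]
            exact mem_span_xm hx fun φ => hall j φ ⟨u, hu.1, rfl⟩
          · rw [Submodule.span_singleton_le_iff_mem]
            exact piece_mono (κ := κ) inf_le_left j (hA j hj)
        rw [h1, ht_single h (xm_ne_zero hx), height_xm h _ hx]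
      obtain ⟨h2, -⟩ := ht_piece h V
      have h3 : (m : ℤ) * height κ x ≤ ht κ V := by
        refine le_trans ?_ h2
        refine le_trans ?_ (Finset.sum_le_sum_of_subset_of_nonneg (Finset.subset_univ A)
          fun j _ _ => ht_nonneg h _)
        rw [Finset.sum_congr rfl h1, ← Finset.sum_mul, ← Nat.cast_sum]
        exact mul_le_mul_of_nonneg_right (by exact_mod_cast hm A hAc) hh
      have h4 : (ρ : ℤ) ≤ r := by
        have h5 : finrank L (V ⊓ xsp (fun j => d j + 1) x :
          Submodule L (ES n (fun j => d j + 1) → L)) ≤ finrank L V :=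
          Submodule.finrank_mono inf_le_left
        rw [hr] at h5
        exact_mod_cast hxV.trans h5
      have h6 : 0 ≤ ((r : ℤ) - ρ) * ν := mul_nonneg (by linarith) (by linarith)
      linarith
    · push Not at hall
      obtain ⟨j, φ, hφ⟩ := hall
      set F : Submodule L (Fin n → L) := Submodule.span L {x} ⊔ V.map (cmB j φ) with hF
      set V₁ : Submodule L (ES n (fun j => d j + 1) → L) :=
        V ⊓ (Submodule.span L {x}).comap (cmB j φ) with hV₁
      have h1 := ht_contr h (McmB κ j φ) (McmB_eq j φ) V (Submodule.span L {x})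
      have h2 := rank_contr (cmB j φ) V (Submodule.span L {x})
      rw [← hF, ← hV₁, ht_single h hx] at h1
      rw [← hF, ← hV₁, finrank_span_singleton hx, hr] at h2
      have hxF : x ∈ F := Submodule.mem_sup_left (Submodule.mem_span_singleton_self x)
      have hFr : 2 ≤ finrank L F := by
        have h3 : Submodule.span L {x} < F := by
          refine lt_of_le_of_ne le_sup_left fun h4 => hφ ?_
          rw [h4]
          exact le_sup_right
        have h4 := Submodule.finrank_lt_finrank_of_lt h3
        rw [finrank_span_singleton hx] at h4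
        omega
      have hxV₁ : ρ ≤ finrank L (V₁ ⊓ xsp (fun j => d j + 1) x :
          Submodule L (ES n (fun j => d j + 1) → L)) := by
        refine hxV.trans (Submodule.finrank_mono ?_)
        exact le_inf (le_inf inf_le_left (inf_le_right.trans (xsp_le_comap j φ))) inf_le_right
      by_cases hc : finrank L F = 2 ∧ 2 * ht κ F + ν < 2 * height κ x
      · exact ⟨F, hxF, hc.1, hc.2⟩
      · -- the height of `F` is large
        have hFh : 2 * height κ x ≤ 2 * ht κ F + ((finrank L F : ℤ) - 1) * ν := by
          rcases eq_or_ne (finrank L F) 2 with h3 | h3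
          · have h4 : ¬ 2 * ht κ F + ν < 2 * height κ x := fun h4 => hc ⟨h3, h4⟩
            rw [h3]
            push_cast
            linarith
          · have h4 : (3 : ℤ) ≤ finrank L F := by
              have : 3 ≤ finrank L F := by omega
              exact_mod_cast this
            have h5 := ht_nonneg h F
            have h6 : 0 ≤ ν := by linarith
            nlinarith
        have h3 : finrank L V₁ < r := by omega
        refine ih _ h3 V₁ rfl hxV₁ ?_
        have h4 : (finrank L V₁ : ℤ) = 1 + r - finrank L F := by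
          have : (finrank L F : ℤ) + finrank L V₁ = 1 + r := by exact_mod_cast h2
          linarith
        rw [h4]
        linarith [mul_comm ((r : ℤ) - ρ) ν]

variable {E : Submodule L (Fin n → L)} {k l : Fin n} {e f : Fin n → L}

/-- **Lower bound for the height of a space of functionals supported on a line**, which contains
the vectors of the monomials of a point in some blocks. -/
theorem le_ht_xmR (hC : Chart E k l e f) (h : IsFF κ L) {d : Fin p → ℕ} {x : Fin n → L}
    (hx : x ≠ 0) (hle : ht κ E ≤ height κ x) {W : Submodule L (ES n d → L)} (hW : W ≤ SdB E d)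
    {A : Finset (Fin p)} (hA : ∀ j ∈ A, xm (d j) x ∈ piece κ W j) :
    (∑ j ∈ A, (d j : ℤ) - ∑ j, (rk κ A W j : ℤ)) * height κ x +
      (∑ j, (rk κ A W j : ℤ) + ∑ j, ((rk κ A W j).choose 2 : ℤ)) * ht κ E ≤ ht κ W := by
  classical
  obtain ⟨h1, -⟩ := ht_piece h W
  refine le_trans ?_ h1
  have hl0 := ht_nonneg h E
  have h2 : ∑ j ∈ A, (d j : ℤ) = ∑ j : Fin p, if j ∈ A then (d j : ℤ) else 0 := by
    rw [Finset.sum_ite_mem, Finset.univ_inter]
  rw [h2, ← Finset.sum_sub_distrib, ← Finset.sum_add_distrib, Finset.sum_mul, Finset.sum_mul,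
    ← Finset.sum_add_distrib]
  refine Finset.sum_le_sum fun j _ => ?_
  by_cases hj : j ∈ A
  · rw [if_pos hj]
    have h3 := one_le_piece (κ := κ) hx (hA j hj)
    have h4 : finrank L (piece κ W j) = rk κ A W j + 1 := by
      unfold rk
      rw [if_pos hj]
      omega
    have h5 := hC.le_ht_xm h hx (d j) _ (piece_le_Sd (κ := κ) hW j) (hA j hj) (rk κ A W j) h4
    have h6 : (((rk κ A W j + 1).choose 2 : ℕ) : ℤ) =
        (rk κ A W j : ℤ) + ((rk κ A W j).choose 2 : ℤ) := by
      rw [Nat.choose_succ_succ' (rk κ A W j) 1, Nat.choose_one_right]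
      push_cast
      ring
    rw [h6] at h5
    exact h5
  · rw [if_neg hj]
    have h4 : finrank L (piece κ W j) = rk κ A W j := by
      unfold rk
      rw [if_neg hj]
      omega
    have h5 := hC.le_ht h (d j) _ (piece_le_Sd (κ := κ) hW j)
    rw [h4] at h5
    have h6 : (rk κ A W j : ℤ) * ht κ E ≤ rk κ A W j * height κ x :=
      mul_le_mul_of_nonneg_left hle (by positivity)
    linarith

end

end Pool.Agent.Lib.MP_44a246_ntR
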