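import Mathlib
import Pool.Agent.Lib.MP_44a246_ntF.F09
import Pool.Agent.Lib.MP_44a246_ntF.F21
import Pool.Agent.Lib.MP_44a246_ntR.R01

/-!
The spaces attached to a line through the point, with logarithmic rows.
-/

namespace Pool.Agent.Lib.MP_44a246_ntR

open Pool.Agent.Lib.MP_44a246_ntF
open Pool.Agent.Lib.MP_44a246_nt
open Pool.Agent.Lib.MP_44a246_ntL
open Pool.Agent.Lib.MP_44a246_ntS
open Pool.Agent.Lib.MP_44a246_ntX
open Pool.Agent.Lib.MP_e52354_nt
open WithZero Module

section

variable {κ L : Type*} [Field κ] [IsAlgClosed κ] [CharZero κ] [Field L] [Algebra κ L]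

variable {E : Type*} [Fintype E] {D : E → Derivation ℤ L L} {δ ρ : Place κ L → ℕ}

/-- the rows of the coordinates, of the integral elements and the logarithmic rows -/
noncomputable def rows3 (D : E → Derivation ℤ L L) {n : ℕ} (x : Fin n → L) (J : Finset (Fin n))
    {γ Λ : Type*} (β : γ → L) (η : Λ → L) : ↥J ⊕ (γ ⊕ Λ) → E → L :=
  fun p => Sum.elim (fun j : ↥J => rowD D (x j.1))
    (Sum.elim (fun t => rowD D (β t)) (fun k => lrowD D (η k))) p

/-- **The spaces attached to a line through the point.** -/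
theorem exists_spacesR (h : IsFF κ L) (hδ : (Function.support δ).Finite)
    (hρ : (Function.support ρ).Finite) (hD : MinorBound κ D Set.univ δ ρ) {n : ℕ} {x : Fin n → L}
    (hx1 : ∀ w : Place κ L, 1 ≤ vmax w.1 x) {ξ₀ : Fin n → κ}
    (h0 : ∑ j, algebraMap κ L (ξ₀ j) * x j = 1) {J : Finset (Fin n)} (hJ : J.Nonempty)
    {γ Λ : Type*} [Fintype γ] [Fintype Λ] {β : γ → L} (hβ : ∀ t, ∀ w : Place κ L, w.1 (β t) ≤ 1)
    {η : Λ → L} (hη : ∀ k, η k ≠ 0) {t : Λ → ℕ} {ε : Place κ L → ℕ}
    (hε : (Function.support ε).Finite)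
    (hηε : ∀ w : Place κ L, (∀ k, w.1 (η k) = vmax w.1 x ^ t k) ∨ 1 ≤ ε w)
    {F : Submodule L (Fin n → L)} (hxF : x ∈ F) (hF : finrank L F = 2) :
    ∃ V' V : Submodule L (E → L), V' ≤ V ∧
      Submodule.span L (Set.range (rows3 D x J β η)) ≤ V ∧
      finrank L V ≤ finrank L V' + 1 + Fintype.card Λ ∧
      finrank L V' + 2 ≤ 2 * J.card + Fintype.card γ ∧
      ht κ V' ≤ (J.card + 1) * ht κ F + finrank L V' * ∑ᶠ w, (δ w : ℤ) + ∑ᶠ w, (ρ w : ℤ) ∧
      ht κ V ≤ 2 * height κ x + (J.card + 1) * ht κ F +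
        (finrank L V' + 1 + Fintype.card Λ) * ∑ᶠ w, (δ w : ℤ) +
        (∑ᶠ w, (ρ w : ℤ) + ∑ᶠ w, (ε w : ℤ)) := by
  classical
  have hΔ : 0 ≤ ∑ᶠ w, (δ w : ℤ) := finsum_nonneg fun w => Int.natCast_nonneg _
  have hx0 : x ≠ 0 := by
    rintro rfl
    simp at h0
  -- the projection of the line
  let P : Matrix (Option ↥J) (Fin n) κ := Matrix.of fun o m =>
    o.elim (ξ₀ m) (fun j => if m = j.1 then 1 else 0)
  set F₀ := F.map (P.map (algebraMap κ L)).mulVecLin with hF₀
  set y : Option ↥J → L := fun o => o.elim 1 fun j => x j.1 with hy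
  have hyF₀ : y ∈ F₀ := by
    refine ⟨x, hxF, ?_⟩
    funext o
    rw [Matrix.mulVecLin_apply]
    rcases o with _ | j
    · exact h0
    · show ∑ m, algebraMap κ L (if m = j.1 then 1 else 0) * x m = x j.1
      rw [Finset.sum_eq_single j.1]
      · rw [if_pos rfl, map_one, one_mul]
      · intro m _ hm
        rw [if_neg hm, map_zero, zero_mul]
      · intro hm
        exact absurd (Finset.mem_univ _) hm
  have hrF₀ : finrank L F₀ ≤ 2 := by
    rw [hF₀, ← hF]
    exact Submodule.finrank_map_le _ _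
  have hhF₀ : ht κ F₀ ≤ ht κ F := ht_map_const_le h P F
  obtain ⟨j₀, hj₀⟩ := hJ
  obtain ⟨F₁, hF₁, hrF₁, hhF₁⟩ := exists_rank_two h (i₀ := none) (j₀ := some ⟨j₀, hj₀⟩) hyF₀
    (by rw [hy]; exact one_ne_zero) (by simp) hrF₀
  obtain ⟨i₁, e, f, hC⟩ := exists_chart_at hrF₁ (hF₁ hyF₀) (k := none)
    (by rw [hy]; exact one_ne_zero)
  obtain ⟨j₁, rfl⟩ : ∃ j₁, i₁ = some j₁ := by
    rcases i₁ with _ | j₁
    · exact absurd rfl hC.ne
    · exact ⟨j₁, rfl⟩
  have hcard : Fintype.card (Option ↥J) = J.card + 1 := by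
    rw [Fintype.card_option, Fintype.card_coe]
  obtain ⟨V', hV'⟩ : ∃ V' : Submodule L (E → L), V' = Submodule.span L
      (Set.range fun p : (Fin 2 × Option ↥J) ⊕ γ =>
        Sum.elim (fun p : Fin 2 × Option ↥J =>
          rowD D ((![e, f] : Fin 2 → Option ↥J → L) p.1 p.2)) (fun t => rowD D (β t)) p) :=
    ⟨_, rfl⟩
  let Ξ : Unit ⊕ (γ ⊕ Λ) → E → L := Sum.elim (fun _ => rowD D (x j₁.1))
    (Sum.elim (fun t => rowD D (β t)) (fun k => lrowD D (η k)))
  obtain ⟨V, hV⟩ : ∃ V : Submodule L (E → L), V = Submodule.span L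
      (Set.range fun p : (Fin 2 × Option ↥J) ⊕ (Unit ⊕ (γ ⊕ Λ)) =>
        Sum.elim (fun p : Fin 2 × Option ↥J =>
          rowD D ((![e, f] : Fin 2 → Option ↥J → L) p.1 p.2)) Ξ p) := ⟨_, rfl⟩
  set Vx : Submodule L (E → L) := Submodule.span L
    (Set.range (Sum.elim (fun _ => rowD D (x j₁.1)) (fun k => lrowD D (η k)) : Unit ⊕ Λ → E → L))
    with hVx
  have hVV : V = V' ⊔ Vx := by
    apply le_antisymm
    · rw [hV, Submodule.span_le]
      rintro _ ⟨p, rfl⟩
      rcases p with p | _ | t | k
      · exact Submodule.mem_sup_left (by rw [hV']; exact Submodule.subset_span ⟨Sum.inl p, rfl⟩)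
      · exact Submodule.mem_sup_right (Submodule.subset_span ⟨Sum.inl (), rfl⟩)
      · exact Submodule.mem_sup_left (by rw [hV']; exact Submodule.subset_span ⟨Sum.inr t, rfl⟩)
      · exact Submodule.mem_sup_right (Submodule.subset_span ⟨Sum.inr k, rfl⟩)
    · refine sup_le ?_ ?_
      · rw [hV', hV, Submodule.span_le]
        rintro _ ⟨p, rfl⟩
        rcases p with p | t
        · exact Submodule.subset_span ⟨Sum.inl p, rfl⟩
        · exact Submodule.subset_span ⟨Sum.inr (Sum.inr (Sum.inl t)), rfl⟩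
      · rw [hVx, hV, Submodule.span_le]
        rintro _ ⟨p, rfl⟩
        rcases p with _ | k
        · exact Submodule.subset_span ⟨Sum.inr (Sum.inl ()), rfl⟩
        · exact Submodule.subset_span ⟨Sum.inr (Sum.inr (Sum.inr k)), rfl⟩
  -- the heights
  have s2 : (Function.support fun w : Place κ L => (ρ w : ℤ)).Finite := by
    refine hρ.subset fun w hw h1 => hw ?_
    simp only
    rw [h1, Nat.cast_zero]
  have s3 : (Function.support fun w : Place κ L => (ε w : ℤ)).Finite := by
    refine hε.subset fun w hw h1 => hw ?_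
    simp only
    rw [h1, Nat.cast_zero]
  have s23 := (s2.union s3).subset (Function.support_add _ _)
  have s1 : (Function.support fun w : Place κ L => 2 * log (vmax w.1 x)).Finite := by
    refine (h.vmax_support hx0).subset fun w hw h1 => hw ?_
    simp only at h1 ⊢
    rw [h1, mul_zero]
  have h1 := ht_chart_ext_le h hδ hC (D := D) (Ξ := fun t => rowD D (β t))
    (g := fun w => (ρ w : ℤ)) s2 (fun w r K s hs => by
      have h2 := hD w r K (fun i => Sum.elim id β (s i)) (fun _ => Set.mem_univ _) (fun i => by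
        rcases hsi : s i with a | t
        · exact hs i a hsi
        · exact hβ t w)
      rw [← Matrix.det_transpose] at h2
      refine le_trans (le_of_eq ?_) (h2.trans (le_of_eq ?_))
      · congr 2
        ext i j
        rw [Matrix.transpose_apply, Matrix.of_apply, Matrix.of_apply]
        rcases s i with a | t
        · rfl
        · rfl
      · congr 1
        push_cast
        ring) hV'
  have h1' := ht_chart_ext_le h hδ hC (D := D) (Ξ := Ξ)
    (g := fun w => 2 * log (vmax w.1 x) + ((ρ w : ℤ) + (ε w : ℤ)))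
    ((s1.union s23).subset (Function.support_add _ _)) (fun w r K s hs => by
      have h2 := mix_le w (D := D) (minor_t hD w r) (hx1 w) (J := {j₁.1})
        hη (hηε w) K (fun i => Sum.elim Sum.inl (Sum.elim
          (fun _ => Sum.inr (Sum.inl ⟨j₁.1, Finset.mem_singleton_self _⟩))
          (Sum.elim (fun t => Sum.inl (β t)) (fun k => Sum.inr (Sum.inr k)))) (s i)) ?_
      · refine le_trans (le_of_eq ?_) (h2.trans (le_of_eq ?_))
        · congr 2
          ext i j
          rw [Matrix.of_apply, Matrix.of_apply]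
          rcases s i with a | _ | t | k
          · rfl
          · rfl
          · rfl
          · rfl
        · have n1 : vmax w.1 x ≠ 0 := by
            rw [Ne, vmax_eq_zero_iff]
            exact hx0
          have e1 : (exp (2 * log (vmax w.1 x)) : ℤᵐ⁰) = vmax w.1 x ^ 2 := by
            rw [show (2 : ℤ) * log (vmax w.1 x) = 2 • log (vmax w.1 x) by simp,
              exp_nsmul, exp_log n1]
          rw [Finset.card_singleton, ← e1, ← exp_add, ← exp_add]
          congr 1
          push_cast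
          ring
      · intro i a hi
        rcases hsi : s i with a' | _ | t | k
        · rw [hsi] at hi
          simp only [Sum.elim_inl, Sum.inl.injEq] at hi
          rw [← hi]
          exact hs i a' hsi
        · rw [hsi] at hi
          simp at hi
        · rw [hsi] at hi
          simp only [Sum.elim_inr, Sum.elim_inl, Sum.inl.injEq] at hi
          rw [← hi]
          exact hβ t w
        · rw [hsi] at hi
          simp at hi) hV
  have hV'' : V' = Submodule.span L (Set.range fun p : (Fin 2 × Option ↥J) ⊕ γ =>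
      rowD D (Sum.elim (fun p : Fin 2 × Option ↥J =>
        (![e, f] : Fin 2 → Option ↥J → L) p.1 p.2) β p)) := by
    rw [hV']
    congr 1
    congr 1
    funext p
    rcases p with p | t <;> rfl
  have h2 := finrank_chart_le hC hV''
  have h5 : finrank L V ≤ finrank L V' + 1 + Fintype.card Λ := by
    rw [hVV]
    refine (Submodule.finrank_add_le_finrank_add_finrank _ _).trans ?_
    have h6 : finrank L Vx ≤ Fintype.card (Unit ⊕ Λ) := finrank_range_le_card _
    rw [Fintype.card_sum, Fintype.card_unit] at h6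
    omega
  have h8 : (finrank L V : ℤ) * ∑ᶠ w, (δ w : ℤ) ≤
      (finrank L V' + 1 + Fintype.card Λ) * ∑ᶠ w, (δ w : ℤ) :=
    mul_le_mul_of_nonneg_right (by exact_mod_cast h5) hΔ
  refine ⟨V', V, by rw [hVV]; exact le_sup_left, ?_, h5, ?_, ?_, ?_⟩
  · rw [hVV, Submodule.span_le]
    rintro _ ⟨p, rfl⟩
    rcases p with j | t | k
    · -- `x j = e j + x j₁ * f j`
      have h7 := hC.mem_apply (hF₁ hyF₀) (some j)
      have h8 : x j.1 = e (some j) + x j₁.1 * f (some j) := by
        have h9 : y (some j) = x j.1 := rfl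
        have h10 : y none = 1 := rfl
        have h11 : y (some j₁) = x j₁.1 := rfl
        rw [h9, h10, h11, one_mul] at h7
        exact h7
      show rowD D (x j.1) ∈ V' ⊔ Vx
      rw [h8, rowD_add, rowD_mul]
      refine Submodule.add_mem _ (Submodule.mem_sup_left ?_) (Submodule.add_mem _
        (Submodule.smul_mem _ _ (Submodule.mem_sup_left ?_))
        (Submodule.smul_mem _ _ (Submodule.mem_sup_right (Submodule.subset_span
          ⟨Sum.inl (), rfl⟩))))
      · rw [hV']
        exact Submodule.subset_span ⟨Sum.inl (0, some j), rfl⟩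
      · rw [hV']
        exact Submodule.subset_span ⟨Sum.inl (1, some j), rfl⟩
    · refine Submodule.mem_sup_left ?_
      rw [hV']
      exact Submodule.subset_span ⟨Sum.inr t, rfl⟩
    · exact Submodule.mem_sup_right (Submodule.subset_span ⟨Sum.inr k, rfl⟩)
  · rw [hcard] at h2
    omega
  · rw [hcard] at h1
    have h7 := mul_le_mul_of_nonneg_left (hhF₁.trans hhF₀)
      (show (0 : ℤ) ≤ (J.card : ℤ) + 1 by positivity)
    push_cast at h1
    linarith
  · have e2 : ∑ᶠ w : Place κ L, (2 * log (vmax w.1 x) + ((ρ w : ℤ) + (ε w : ℤ))) =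
        2 * height κ x + (∑ᶠ w, (ρ w : ℤ) + ∑ᶠ w, (ε w : ℤ)) := by
      rw [finsum_add_distrib s1 s23, finsum_add_distrib s2 s3, ← mul_finsum]
      rfl
    rw [hcard, e2] at h1'
    have h7 := mul_le_mul_of_nonneg_left (hhF₁.trans hhF₀)
      (show (0 : ℤ) ≤ (J.card : ℤ) + 1 by positivity)
    push_cast at h1'
    linarith

end

end Pool.Agent.Lib.MP_44a246_ntR
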