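import Mathlib
import Pool.Agent.Lib.MP_44a246_ntR.R02

/-!
A line of bounded height through a point of large height, with logarithmic rows.
-/

namespace Pool.Agent.Lib.MP_44a246_ntR

open Pool.Agent.Lib.MP_44a246_ntF
open Pool.Agent.Lib.MP_44a246_nt
open Pool.Agent.Lib.MP_44a246_ntL
open Pool.Agent.Lib.MP_44a246_ntS
open Pool.Agent.Lib.MP_44a246_ntX
open Pool.Agent.Lib.MP_44a246_ntK
open Pool.Agent.Lib.MP_e52354_nt
open WithZero Module

/-- the second step -/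
theorem numR2 {N c p ρ u m W : ℕ} {h l S T : ℤ} (hN : 3 * N + 3 + c ≤ 2 * m + ρ)
    (hC : N + p + 2 ≤ m ∨ 2 * N + c + 2 ≤ m + ρ)
    (hW : W ≤ p) (huW : ρ + W ≤ u) (hu : u ≤ N + c) (hS : 0 ≤ S) (hT : 0 ≤ T) (hl0 : 0 ≤ l)
    (hl : 2 * l + T < h) (hbig : 2 * (u * S) + u * T < h)
    (h1 : ((m : ℤ) - W) * h + W * l ≤ (N + 1) * h + u * S + (u - (W + ρ)) * l) : False := by
  have hN' : 3 * (N : ℤ) + 3 + c ≤ 2 * m + ρ := by exact_mod_cast hN
  have hu' : (u : ℤ) ≤ N + c := by exact_mod_cast hu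
  have huW' : (ρ : ℤ) + W ≤ u := by exact_mod_cast huW
  have huS : 0 ≤ (u : ℤ) * S := by positivity
  have huT : 0 ≤ (u : ℤ) * T := by positivity
  have hh : 0 < h := by linarith
  have h2 : ((m : ℤ) - W - N - 1) * h ≤ u * S + (u - ρ - 2 * W) * l := by linarith
  rcases le_or_gt 0 ((u : ℤ) - ρ - 2 * W) with hB | hB
  · have h3 : ((u : ℤ) - ρ - 2 * W) * (2 * l) ≤ (u - ρ - 2 * W) * h :=
      mul_le_mul_of_nonneg_left (by linarith) hB
    have h4 : 1 * h ≤ (2 * (m : ℤ) + ρ - 2 * N - 2 - u) * h :=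
      mul_le_mul_of_nonneg_right (by linarith) hh.le
    nlinarith
  · have h3 : ((u : ℤ) - ρ - 2 * W) * l ≤ 0 := mul_nonpos_of_nonpos_of_nonneg hB.le hl0
    have h5 : 1 ≤ (m : ℤ) - W - N - 1 := by
      rcases hC with hC | hC
      · have h6 : (N : ℤ) + p + 2 ≤ m := by exact_mod_cast hC
        have h7 : (W : ℤ) ≤ p := by exact_mod_cast hW
        linarith
      · have h6 : 2 * (N : ℤ) + c + 2 ≤ m + ρ := by exact_mod_cast hC
        linarith
    have h4 : 1 * h ≤ ((m : ℤ) - W - N - 1) * h := mul_le_mul_of_nonneg_right h5 hh.le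
    linarith

/-- the last step -/
theorem numR4 {N c p ρ r m B : ℕ} {l S R Q : ℤ} (hN : 3 * N + 3 + c ≤ 2 * m + ρ)
    (hr : r + 2 ≤ 2 * N + c) (hB : m + ρ ≤ B + 3) (hpm : p + 3 ≤ m + ρ) (hS : 0 ≤ S)
    (hl0 : 0 ≤ l) (hQ : (B : ℤ) * (B - p) ≤ 2 * p * Q)
    (h1 : Q * l ≤ (N + 1) * l + r * S + R + (r - B) * l) :
    (((m : ℤ) + ρ) ^ 2 + 9 + 5 * p - (p + 6) * (m + ρ) - 2 * p * m) * l ≤
      2 * p * ((2 * N + c) * S + R) := by
  have hN' : 3 * (N : ℤ) + 3 + c ≤ 2 * m + ρ := by exact_mod_cast hN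
  have hr' : (r : ℤ) + 2 ≤ 2 * N + c := by exact_mod_cast hr
  have hB' : (m : ℤ) + ρ ≤ B + 3 := by exact_mod_cast hB
  have hpm' : (p : ℤ) + 3 ≤ m + ρ := by exact_mod_cast hpm
  have hp0 : (0 : ℤ) ≤ p := by positivity
  have hg : (0 : ℤ) ≤ (m : ℤ) + ρ - 3 - p := by linarith
  have h2 : ((m : ℤ) + ρ - 3) * (m + ρ - 3 - p) ≤ B * (B - p) :=
    mul_le_mul (by linarith) (by linarith) hg (by positivity)
  have h4 : (p : ℤ) * (N + 1 + r - B) ≤ p * (m - 1) :=
    mul_le_mul_of_nonneg_left (by linarith) hp0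
  have h5 : (((m : ℤ) + ρ) ^ 2 + 9 + 5 * p - (p + 6) * (m + ρ) - 2 * p * m) ≤
      2 * p * Q - 2 * (p * (N + 1 + r - B)) := by
    nlinarith
  have h6 := mul_le_mul_of_nonneg_right h5 hl0
  have h7 : (r : ℤ) * S ≤ (2 * N + c) * S := mul_le_mul_of_nonneg_right (by linarith) hS
  have h8 : 2 * (p : ℤ) * (Q * l) ≤ 2 * p * ((N + 1) * l + r * S + R + (r - B) * l) :=
    mul_le_mul_of_nonneg_left h1 (by linarith)
  have h9 : 2 * (p : ℤ) * (r * S + R) ≤ 2 * p * ((2 * N + c) * S + R) :=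
    mul_le_mul_of_nonneg_left (by linarith) (by linarith)
  nlinarith

section

variable {κ L : Type*} [Field κ] [IsAlgClosed κ] [CharZero κ] [Field L] [Algebra κ L] {n p : ℕ}
  {d : Fin p → ℕ}
  {D : ES n (fun j => d j + 1) → Derivation ℤ L L} {δ ρ' : Place κ L → ℕ}

/-- **A line of bounded height through a point of large height.** -/
theorem exists_small_lineR (h : IsFF κ L) (hδ : (Function.support δ).Finite)
    (hρ' : (Function.support ρ').Finite) (hD : MinorBound κ D Set.univ δ ρ') {x : Fin n → L}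
    (hx1 : ∀ w : Place κ L, 1 ≤ vmax w.1 x) {ξ₀ : Fin n → κ}
    (h0 : ∑ j, algebraMap κ L (ξ₀ j) * x j = 1) {J : Finset (Fin n)} (hJ : J.Nonempty)
    {γ Λ : Type*} [Fintype γ] [Fintype Λ] {β : γ → L} (hβ : ∀ t, ∀ w : Place κ L, w.1 (β t) ≤ 1)
    {η : Λ → L} (hη : ∀ k, η k ≠ 0) {t : Λ → ℕ} {ε : Place κ L → ℕ}
    (hε : (Function.support ε).Finite)
    (hηε : ∀ w : Place κ L, (∀ k, w.1 (η k) = vmax w.1 x ^ t k) ∨ 1 ≤ ε w)
    {m s ρ : ℕ} {E₀ : ℤ} (hE₀ : 0 ≤ E₀)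
    (hms : ∀ A : Finset (Fin p), A.card = ρ + Fintype.card Λ → m + s ≤ ∑ j ∈ A, (d j + 1))
    (hR : ∑ᶠ w, (ρ' w : ℤ) + ∑ᶠ w, (ε w : ℤ) ≤ s * height κ x + E₀)
    (hN : 3 * J.card + 3 + Fintype.card γ ≤ 2 * m + ρ) (hpm : p + 3 ≤ m + ρ)
    (hρ1 : 1 ≤ ρ + Fintype.card Λ)
    (hC : J.card + p + 2 ≤ m ∨ 2 * J.card + Fintype.card γ + 2 ≤ m + ρ ∨
      3 * J.card + 4 + Fintype.card γ ≤ 2 * m + ρ)
    (hxU : ρ + Fintype.card Λ ≤ finrank L (Submodule.span L (Set.range (rows3 D x J β η)) ⊓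
      xsp (fun j => d j + 1) x : Submodule L (ES n (fun j => d j + 1) → L))) :
    height κ x ≤ (J.card + Fintype.card γ + Fintype.card Λ) *
        (2 * (∑ᶠ w, (δ w : ℤ) + E₀) + 2 * ((2 * J.card + Fintype.card γ + Fintype.card Λ) *
          (∑ᶠ w, (δ w : ℤ) + E₀))) ∨
      ∃ F : Submodule L (Fin n → L), x ∈ F ∧ finrank L F = 2 ∧
        m + ρ ≤ 2 * J.card + Fintype.card γ + 1 ∧
        (((m : ℤ) + ρ) ^ 2 + 9 + 5 * p - (p + 6) * (m + ρ) - 2 * p * m) * ht κ F ≤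
          2 * p * ((2 * J.card + Fintype.card γ) * ∑ᶠ w, (δ w : ℤ) + ∑ᶠ w, (ρ' w : ℤ)) := by
  classical
  have hS : 0 ≤ ∑ᶠ w, (δ w : ℤ) := finsum_nonneg fun w => Int.natCast_nonneg _
  generalize hSe : ∑ᶠ w, (δ w : ℤ) = S at hS
  generalize hRe : ∑ᶠ w, (ρ' w : ℤ) = R at hR
  generalize hNe : ∑ᶠ w, (ε w : ℤ) = Nt at hR
  have hx0 : x ≠ 0 := by
    rintro rfl
    simp at h0
  obtain ⟨S', hS'⟩ : ∃ S', S' = S + E₀ := ⟨_, rfl⟩
  have hS'0 : 0 ≤ S' := by linarith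
  rw [← hS']
  obtain ⟨q, hq⟩ : ∃ q, q = Fintype.card Λ := ⟨_, rfl⟩
  rw [← hq] at hms hρ1 hxU ⊢
  obtain ⟨U, hU⟩ : ∃ U : Submodule L (ES n (fun j => d j + 1) → L), U = Submodule.span L
      (Set.range (rows3 D x J β η)) := ⟨_, rfl⟩
  have hUh := ht_rows_log_le h hδ hρ' hD hx1 hx0 (J := J) hβ hη hε hηε (U := U) hU
  rw [hSe, hRe, hNe] at hUh
  rw [← hU] at hxU
  have hUr : finrank L U ≤ J.card + Fintype.card γ + q := by
    rw [hU, hq]
    refine (finrank_range_le_card _).trans ?_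
    rw [Fintype.card_sum, Fintype.card_coe, Fintype.card_sum]
    omega
  obtain ⟨u, hu⟩ : ∃ u, u = finrank L U := ⟨_, rfl⟩
  rw [← hu] at hUh hUr
  obtain ⟨A, hAc, hAU⟩ := exists_blocks h (x := x) hxU
  have hup : ρ + q ≤ u := by
    rw [hu]
    exact hxU.trans (Submodule.finrank_mono inf_le_left)
  have hu1 : (1 : ℤ) ≤ u := by exact_mod_cast hρ1.trans hup
  set T : ℤ := 2 * ((2 * J.card + Fintype.card γ + q) * S') with hT
  have hT0 : 0 ≤ T := by positivity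
  rcases le_or_gt (height κ x) ((J.card + Fintype.card γ + q) * (2 * S' + T)) with hle | hbig
  · exact Or.inl hle
  right
  have huS : (u : ℤ) * S + E₀ ≤ u * S' := by
    rw [hS']
    nlinarith
  have hbig' : 2 * (u * S') + u * T < height κ x := by
    have h1 : (u : ℤ) * (2 * S' + T) ≤ (J.card + Fintype.card γ + q) * (2 * S' + T) :=
      mul_le_mul_of_nonneg_right (by exact_mod_cast hUr) (by linarith)
    linarith
  have hh0 := h.height_nonneg hx0
  -- the line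
  obtain ⟨F, hxF, hF, hFh⟩ : ∃ F : Submodule L (Fin n → L), x ∈ F ∧ finrank L F = 2 ∧
      2 * ht κ F + T < height κ x := by
    obtain ⟨F, h4, h5, h6⟩ := exists_lineR h hx0 (ν := height κ x + T) (by linarith) (m := m + s)
      (ρ := ρ + q) hms u U hu.symm hxU (by
        have hN' : 3 * (J.card : ℤ) + 3 + Fintype.card γ ≤ 2 * m + ρ := by exact_mod_cast hN
        have hUr' : (u : ℤ) ≤ J.card + Fintype.card γ + q := by exact_mod_cast hUr
        have h8 : 1 * height κ x ≤ (2 * (m : ℤ) - 2 * (J.card + 1) - (u - (ρ + q))) *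
            height κ x := mul_le_mul_of_nonneg_right (by linarith) hh0
        have h9 : 0 ≤ ((ρ : ℤ) + q) * T := by positivity
        push_cast
        nlinarith)
    exact ⟨F, h4, h5, by linarith⟩
  refine ⟨F, hxF, hF, ?_⟩
  have hl0 := ht_nonneg h F
  have hlh : ht κ F ≤ height κ x := by linarith
  obtain ⟨k, l, e, f, hCh⟩ := exists_chart hF
  have hmA : (m : ℤ) + s ≤ ∑ j ∈ A, (((d j + 1 : ℕ) : ℤ)) := by
    rw [← Nat.cast_sum]
    exact_mod_cast hms A hAc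
  -- the part which is supported on the line
  have hblk : ∀ W : Submodule L (ES n (fun j => d j + 1) → L),
      U ⊓ xsp (fun j => d j + 1) x ≤ W →
      finrank L (W ⊓ SdB F (fun j => d j + 1) : Submodule L (ES n (fun j => d j + 1) → L)) =
        ∑ j, rk κ A (W ⊓ SdB F (fun j => d j + 1)) j + (ρ + q) ∧
      ((m : ℤ) + s - ∑ j, (rk κ A (W ⊓ SdB F (fun j => d j + 1)) j : ℤ)) * height κ x +
        (∑ j, (rk κ A (W ⊓ SdB F (fun j => d j + 1)) j : ℤ) +
          ∑ j, ((rk κ A (W ⊓ SdB F (fun j => d j + 1)) j).choose 2 : ℤ)) * ht κ F ≤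
        ht κ W + ((finrank L W : ℤ) -
          (∑ j, (rk κ A (W ⊓ SdB F (fun j => d j + 1)) j : ℤ) + (ρ + q))) * ht κ F := by
    intro W hQW
    have hWA : ∀ j ∈ A, xm (d j + 1) x ∈ piece κ (W ⊓ SdB F (fun j => d j + 1)) j := fun j hj =>
      piece_mono (κ := κ) (le_inf hQW (inf_le_right.trans (xsp_le_SdB hxF))) j (hAU j hj)
    have h1 := finrank_eq_rk h hx0 hWA
    rw [hAc] at h1
    have h2 := le_ht_xmR hCh h hx0 hlh (W := W ⊓ SdB F (fun j => d j + 1)) inf_le_right hWA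
    have h3 := ht_on_leB h F (finrank L W) W rfl
    refine ⟨h1, ?_⟩
    rw [h1] at h3
    have h4 : ((m : ℤ) + s - ∑ j, (rk κ A (W ⊓ SdB F (fun j => d j + 1)) j : ℤ)) * height κ x ≤
        (∑ j ∈ A, (((d j + 1 : ℕ) : ℤ)) -
          ∑ j, (rk κ A (W ⊓ SdB F (fun j => d j + 1)) j : ℤ)) * height κ x :=
      mul_le_mul_of_nonneg_right (by linarith) hh0
    push_cast at h2 h3 h4 ⊢
    linarith
  -- the part of `U` which is supported on the line
  have hZ1 : 3 * J.card + 4 + Fintype.card γ ≤ 2 * m + ρ ∨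
      ∃ j, 2 ≤ rk κ A (U ⊓ SdB F (fun j => d j + 1)) j := by
    rcases or_assoc.2 hC with hC | hC
    swap
    · exact Or.inl hC
    right
    obtain ⟨h1, h2⟩ := hblk U inf_le_left
    by_contra hcon
    push Not at hcon
    have h4 : ∑ j, ((rk κ A (U ⊓ SdB F (fun j => d j + 1)) j).choose 2 : ℤ) = 0 :=
      Finset.sum_eq_zero fun j _ => by
        rw [Nat.choose_eq_zero_of_lt (by have := hcon j; omega), Nat.cast_zero]
    have h5 : ∑ j, rk κ A (U ⊓ SdB F (fun j => d j + 1)) j ≤ p := by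
      refine (Finset.sum_le_sum (g := fun _ => 1) fun j _ => by have := hcon j; omega).trans ?_
      rw [Finset.sum_const, Finset.card_univ, Fintype.card_fin, smul_eq_mul, mul_one]
    have h6 : (ρ + q) + ∑ j, rk κ A (U ⊓ SdB F (fun j => d j + 1)) j ≤ u := by
      have h7 : finrank L (U ⊓ SdB F (fun j => d j + 1) :
        Submodule L (ES n (fun j => d j + 1) → L)) ≤ finrank L U :=
        Submodule.finrank_mono inf_le_left
      omega
    rw [h4, add_zero, ← Nat.cast_sum, ← hu] at h2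
    refine numR2 (N := J.card) (c := Fintype.card γ + q) (p := p) (ρ := ρ + q) (m := m)
      (W := ∑ j, rk κ A (U ⊓ SdB F (fun j => d j + 1)) j) (by omega) (by omega) h5 h6
      (by omega) hS'0 hT0 hl0 hFh hbig' ?_
    push_cast at h2 ⊢
    linarith
  -- the spaces attached to the line
  obtain ⟨V', V, hVV, hUV, hVr, hVr', hVh', hVh⟩ :=
    exists_spacesR h hδ hρ' hD hx1 h0 hJ hβ hη hε hηε hxF hF
  rw [← hU] at hUV
  rw [hSe, hRe] at hVh hVh'
  rw [hNe] at hVh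
  rw [← hq] at hVr hVh
  obtain ⟨r, hr⟩ : ∃ r, r = finrank L V' := ⟨_, rfl⟩
  rw [← hr] at hVr hVr' hVh' hVh
  obtain ⟨hwr, hwh⟩ := hblk V (inf_le_left.trans hUV)
  obtain ⟨w, hw⟩ : ∃ w : Fin p → ℕ, w = rk κ A (V ⊓ SdB F (fun j => d j + 1)) := ⟨_, rfl⟩
  rw [← hw] at hwr hwh
  have hbd : m ≤ ∑ j, w j + 2 := by
    have h4 : (finrank L V : ℤ) ≤ r + 1 + q := by exact_mod_cast hVr
    have h5 := mul_le_mul_of_nonneg_right h4 hl0
    have h6 : ((r : ℤ) + 1 + q) * S + E₀ ≤ (r + 1 + q) * S' := by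
      rw [hS']
      have h7 : (1 : ℤ) * E₀ ≤ (r + 1 + q) * E₀ :=
        mul_le_mul_of_nonneg_right (by linarith [(Int.natCast_nonneg r), (Int.natCast_nonneg q)])
          hE₀
      linarith
    refine numP3 (N := J.card) (c := Fintype.card γ + q) (p := ρ + q) (m := m) (W := ∑ j, w j)
      (Z := ∑ j, ((w j).choose 2 : ℤ)) (r := r + q)
      (l := ht κ F) (h := height κ x) (S := S') (by omega)
      (Finset.sum_nonneg fun j _ => Int.natCast_nonneg _)
      (hZ1.imp (fun h => by omega) ?_) (by omega) hS'0 hl0 (by push_cast; linarith) ?_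
    · rintro ⟨j, hj⟩
      have h6 : 2 ≤ w j := by
        rw [hw]
        exact hj.trans (rk_mono (inf_le_inf_right _ hUV) j)
      have h7 : (1 : ℤ) ≤ ((w j).choose 2 : ℤ) := by
        have : 0 < (w j).choose 2 := Nat.choose_pos (by omega)
        exact_mod_cast this
      exact h7.trans (Finset.single_le_sum (f := fun j => ((w j).choose 2 : ℤ))
        (fun j _ => Int.natCast_nonneg _) (Finset.mem_univ j))
    · push_cast
      linarith
  have hbV : ∑ j, w j + (ρ + q) ≤ finrank L V := by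
    rw [← hwr]
    exact Submodule.finrank_mono inf_le_left
  refine ⟨by omega, ?_⟩
  -- the smaller space
  obtain ⟨B, hB⟩ : ∃ B, B = finrank L (V' ⊓ SdB F (fun j => d j + 1) :
    Submodule L (ES n (fun j => d j + 1) → L)) := ⟨_, rfl⟩
  have hbb : m + ρ ≤ B + 3 := by
    have h1 := Submodule.finrank_sup_add_finrank_inf_eq (V ⊓ SdB F (fun j => d j + 1)) V'
    have h2 : (V ⊓ SdB F (fun j => d j + 1)) ⊓ V' = V' ⊓ SdB F (fun j => d j + 1) := by
      rw [inf_comm, ← inf_assoc, inf_eq_left.2 hVV]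
    have h3 : finrank L ((V ⊓ SdB F (fun j => d j + 1)) ⊔ V' :
        Submodule L (ES n (fun j => d j + 1) → L)) ≤ finrank L V :=
      Submodule.finrank_mono (sup_le inf_le_left hVV)
    rw [h2, hwr, ← hB, ← hr] at h1
    omega
  have h1 := ht_on_leB h F r V' hr.symm
  have h2 := hCh.le_htB h (W := V' ⊓ SdB F (fun j => d j + 1)) inf_le_right
  have h3 := le_sum_choose fun j => finrank L (piece κ (V' ⊓ SdB F (fun j => d j + 1)) j)
  rw [← Nat.cast_sum, finrank_piece h] at h3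
  rw [← hB] at h1 h3
  exact numR4 (m := m) (B := B) (r := r) hN hVr' hbb hpm hS hl0 h3 (by linarith)

end

end Pool.Agent.Lib.MP_44a246_ntR
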