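import Mathlib
import Pool.Agent.Lib.MP_44a246_ntF.F16
import Pool.Agent.Lib.MP_44a246_ntR.R03

/-!
The height theorem with logarithmic rows: the points of large height lie on lines.
-/

namespace Pool.Agent.Lib.MP_44a246_ntR

open Pool.Agent.Lib.MP_44a246_ntF
open Pool.Agent.Lib.MP_44a246_nt
open Pool.Agent.Lib.MP_44a246_ntL
open Pool.Agent.Lib.MP_44a246_ntS
open Pool.Agent.Lib.MP_44a246_ntX
open Pool.Agent.Lib.MP_44a246_ntG
open Pool.Agent.Lib.MP_44a246_ntK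
open Pool.Agent.Lib.MP_e52354_nt
open WithZero Module

private theorem r04_sq {a b : ℤ} (ha : 1 ≤ a) (hb : 0 ≤ b) : a * b ≤ a * a * b := by
  linarith [mul_nonneg (mul_nonneg (zero_le_one.trans ha) hb) (sub_nonneg.2 ha)]

/-- the space spanned by the logarithmic rows -/
noncomputable def fL {κ L : Type*} [Field κ] [Field L] [Algebra κ L] {n p : ℕ} {d : Fin p → ℕ}
    (X : DatC κ (L := L) n d) {Λ : Type*} (η : Λ → L) : Submodule L (ES (n + 1) d → L) :=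
  Submodule.span L (Set.range fun k => lrowD (fD X) (η k))

/-- **The height theorem**: a point of large height lies on a line contained in the variety. -/
theorem height_FR {κ L : Type*} [Field κ] [IsAlgClosed κ] [CharZero κ] [Field L] [Algebra κ L]
    (h : IsFF κ L) {n p r ρ c s m P M Q : ℕ} {d : Fin p → ℕ} (hr1 : 1 ≤ r) (hd1 : ∀ j, 1 ≤ d j)
    {Λ : Type*} [Fintype Λ] (hρ1 : 1 ≤ ρ + Fintype.card Λ)
    (hms : ∀ A : Finset (Fin p), A.card = ρ + Fintype.card Λ → m + s ≤ ∑ j ∈ A, d j)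
    (hN : 3 * r + 3 + c ≤ 2 * m + ρ) (hpm : p + 3 ≤ m + ρ)
    (hC : r + p + 2 ≤ m ∨ 2 * r + c + 2 ≤ m + ρ ∨ 3 * r + 4 + c ≤ 2 * m + ρ)
    (hQ : (p + 6) * (m + ρ) + 2 * p * m + Q = (m + ρ) ^ 2 + 9 + 5 * p)
    (X : DatC κ (L := L) n d) {γ : Type*} [Fintype γ] {β : γ → L}
    (hβ : ∀ t, ∀ w : Place κ L, w.1 (β t) ≤ 1)
    {η : Λ → L} (hη : ∀ k, η k ≠ 0) {t : Λ → ℕ} {ε : Place κ L → ℕ}
    (hε : (Function.support ε).Finite)
    (hηε : ∀ w : Place κ L, (∀ k, w.1 (η k) = vmax w.1 X.x ^ t k) ∨ 1 ≤ ε w)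
    (hv : ρ + Fintype.card Λ ≤ finrank L ((fU X ⊔ fB X β ⊔ fL X η) ⊓ xsp d X.x :
      Submodule L (ES (n + 1) d → L)))
    (hr : finrank L (fU X) ≤ r) (hc : Fintype.card γ ≤ c) {E₀ : ℤ} (hE₀ : 0 ≤ E₀)
    (hR : X.R + ∑ᶠ w, (ε w : ℤ) ≤ s * height κ X.x + E₀)
    {τ : Place κ L → ℕ} (hτ : (Function.support τ).Finite)
    {ι : Type*} {e : ι → ℕ} {a : ι → (Fin (n + 1) →₀ ℕ) → L}
    (he : ∀ i, 2 * p * s * (e i + 1) < Q ∨ 2 * p * (e i + 1) ≤ P ∨ 2 * r + c + 2 ≤ m + ρ)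
    (heM : ∀ i, e i ≤ M)
    (ha : ∀ i, ∀ I ∈ expo (Fin (n + 1)) (e i), ∀ w : Place κ L, w.1 (a i I) ≤ exp (τ w : ℤ))
    (hz : ∀ i, Fval (e i) (a i) X.x = 0) :
    (Q : ℤ) * height κ X.x ≤
        (((m + ρ) ^ 2 + 9 + 5 * p) * ((r + (c + Fintype.card Λ)) *
            (4 * r + 2 * (c + Fintype.card Λ) + 2)) + P * (2 * r + (c + 1)) +
          ((m + ρ) ^ 2 + 9 + 5 * p) * (2 * p * (M + 1) * (2 * r + (c + 1))) +
          ((m + ρ) ^ 2 + 9 + 5 * p) * ((m + ρ) ^ 2 + 9 + 5 * p) : ℕ) *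
          (X.Δ + E₀ + ∑ᶠ w, (τ w : ℤ)) + P * X.R ∨
      OnLine e a X.x := by
  classical
  obtain ⟨d, rfl⟩ : ∃ d' : Fin p → ℕ, d = fun j => d' j + 1 :=
    ⟨fun j => d j - 1, funext fun j => (Nat.sub_add_cancel (hd1 j)).symm⟩
  obtain ⟨J, hJ, hJr, hJU⟩ := exists_Jf X hr1 hr
  have hx1 : ∀ w : Place κ L, 1 ≤ vmax w.1 X.x := by
    intro w
    have h1 := X.h0
    by_contra hcon
    rw [not_le] at hcon
    have h2 : w.1 (∑ j, (X.ξ₀ j : L) * X.x j) < 1 := by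
      refine Valuation.map_sum_lt w.1 one_ne_zero fun j _ => ?_
      rw [map_mul]
      calc w.1 (X.ξ₀ j : L) * w.1 (X.x j) ≤ 1 * w.1 (X.x j) :=
            mul_le_mul' (natCast_mem w.1.integer _) le_rfl
        _ = w.1 (X.x j) := one_mul _
        _ ≤ vmax w.1 X.x := le_vmax w.1 X.x j
        _ < 1 := hcon
    rw [h1, map_one] at h2
    exact lt_irrefl _ h2
  have h0 : ∑ j, algebraMap κ L (X.ξ₀ j : κ) * X.x j = 1 := by
    rw [← X.h0]
    exact Finset.sum_congr rfl fun j _ => by rw [map_natCast]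
  have hx0 : X.x ≠ 0 := by
    intro h1
    have h2 := X.h0
    rw [h1] at h2
    simp at h2
  set U : Submodule L (ES (n + 1) (fun j => d j + 1) → L) :=
    Submodule.span L (Set.range (rows3 (fD X) X.x J β η)) with hU
  have hU1 : fU X ⊔ fB X β ⊔ fL X η ≤ U := by
    refine sup_le (sup_le (hJU.trans (Submodule.span_mono ?_)) (Submodule.span_mono ?_))
      (Submodule.span_mono ?_)
    · rintro _ ⟨j, rfl⟩
      exact ⟨Sum.inl j, rfl⟩
    · rintro _ ⟨t, rfl⟩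
      exact ⟨Sum.inr (Sum.inl t), rfl⟩
    · rintro _ ⟨k, rfl⟩
      exact ⟨Sum.inr (Sum.inr k), rfl⟩
  have hxU := hv.trans (Submodule.finrank_mono (inf_le_inf_right (xsp (fun j => d j + 1) X.x) hU1))
  have hmain := exists_small_lineR h X.hδ X.hρ (fD_minor X) hx1 h0 hJ hβ hη hε hηε hE₀ hms hR
    (ρ := ρ) (by omega) hpm hρ1 (by omega) hxU
  have hS : ∑ᶠ w, (X.δ w : ℤ) = X.Δ := rfl
  have hRe : ∑ᶠ w, (X.ρ w : ℤ) = X.R := rfl
  rw [hS, hRe] at hmain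
  have hΔ := X.Δ_nonneg
  have hR0 := X.R_nonneg
  have hNt : 0 ≤ ∑ᶠ w, (ε w : ℤ) := finsum_nonneg fun w => Int.natCast_nonneg _
  have hΘ : 0 ≤ ∑ᶠ w, (τ w : ℤ) := finsum_nonneg fun w => Int.natCast_nonneg _
  have hh0 := h.height_nonneg hx0
  generalize hΘe : ∑ᶠ w, (τ w : ℤ) = Θ at hΘ
  obtain ⟨Q₀, hQ₀⟩ : ∃ Q₀, Q₀ = (m + ρ) ^ 2 + 9 + 5 * p := ⟨_, rfl⟩
  rw [← hQ₀] at hQ ⊢
  have hqQ : Q ≤ Q₀ := by omega
  have hqZ : (((m : ℤ) + ρ) ^ 2 + 9 + 5 * p - (p + 6) * (m + ρ) - 2 * p * m) = Q := by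
    have h1 : (((p + 6) * (m + ρ) + 2 * p * m + Q : ℕ) : ℤ) =
        (((m + ρ) ^ 2 + 9 + 5 * p : ℕ) : ℤ) := by rw [hQ, hQ₀]
    push_cast at h1
    linarith
  rw [hqZ] at hmain
  obtain ⟨S', hS'⟩ : ∃ S', S' = X.Δ + E₀ := ⟨_, rfl⟩
  have hS'0 : 0 ≤ S' := by linarith
  rw [← hS'] at hmain ⊢
  obtain ⟨g1, hg1⟩ : ∃ g : ℕ, g = Q₀ * ((r + (c + Fintype.card Λ)) *
    (4 * r + 2 * (c + Fintype.card Λ) + 2)) := ⟨_, rfl⟩
  obtain ⟨g2, hg2⟩ : ∃ g : ℕ, g = P * (2 * r + (c + 1)) := ⟨_, rfl⟩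
  obtain ⟨g3, hg3⟩ : ∃ g : ℕ, g = Q₀ * (2 * p * (M + 1) * (2 * r + (c + 1))) := ⟨_, rfl⟩
  rw [← hg1, ← hg2, ← hg3]
  have hPR : 0 ≤ (P : ℤ) * X.R := by positivity
  have n1 : 0 ≤ (g1 : ℤ) * S' := by positivity
  have n2 : 0 ≤ (g2 : ℤ) * S' := by positivity
  have n3 : 0 ≤ (g3 : ℤ) * S' := by positivity
  have n4 : 0 ≤ ((Q₀ * Q₀ : ℕ) : ℤ) * S' := by positivity
  have m1 : 0 ≤ (g1 : ℤ) * Θ := by positivity
  have m2 : 0 ≤ (g2 : ℤ) * Θ := by positivity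
  have m3 : 0 ≤ (g3 : ℤ) * Θ := by positivity
  have m4 : 0 ≤ ((Q₀ * Q₀ : ℕ) : ℤ) * Θ := by positivity
  have hexp : ((g1 + g2 + g3 + Q₀ * Q₀ : ℕ) : ℤ) * (S' + Θ) + P * X.R =
      g1 * S' + g2 * S' + g3 * S' + ((Q₀ * Q₀ : ℕ) : ℤ) * S' + (g1 * Θ + g2 * Θ + g3 * Θ +
        ((Q₀ * Q₀ : ℕ) : ℤ) * Θ) + P * X.R := by
    push_cast
    ring
  rw [hexp]
  rcases hmain with h4 | ⟨F, hxF, hF, hm2, hFh⟩
  · left
    have h5 := numQ1 (r := r) (c := c + Fintype.card Λ) (u := J.card)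
      (v := Fintype.card γ + Fintype.card Λ) hqQ (by omega) (by omega) hS'0
      (h := height κ X.x) (by
        push_cast
        push_cast at h4
        linarith)
    rw [← hg1] at h5
    linarith
  · rcases line_of_height h hx0 hxF hF hτ ha hz with ⟨i, h5⟩ | h5
    · left
      rw [hΘe] at h5
      rcases he i with h6 | h6 | h6
      · have h7 := numQ3 (r := r) (c := c + 1) (N := 2 * J.card + Fintype.card γ + 1)
          (R := s * height κ X.x) (S := S') hqQ (by omega) hS'0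
          hh0 hΘ h6 (heM i) le_rfl (l := ht κ F) (by
            refine hFh.trans (mul_le_mul_of_nonneg_left ?_ (by positivity))
            have h8 : (2 * (J.card : ℤ) + Fintype.card γ) * X.Δ ≤
                (2 * (J.card : ℤ) + Fintype.card γ) * S' :=
              mul_le_mul_of_nonneg_left (by linarith) (by positivity)
            push_cast
            linarith) h5
        rw [← hg3] at h7
        linarith
      · have h7 := numQ2 (r := r) (c := c + 1) (N := 2 * J.card + Fintype.card γ + 1)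
          (R := X.R) (S := S') hqQ (by omega) hS'0
          hR0 hΘ h6 (l := ht κ F) (by
            refine hFh.trans (mul_le_mul_of_nonneg_left ?_ (by positivity))
            have h8 : (2 * (J.card : ℤ) + Fintype.card γ) * X.Δ ≤
                (2 * (J.card : ℤ) + Fintype.card γ) * S' :=
              mul_le_mul_of_nonneg_left (by linarith) (by positivity)
            push_cast
            linarith) h5
        rw [← hg2] at h7
        have h9 : (Q₀ : ℤ) * Θ ≤ ((Q₀ * Q₀ : ℕ) : ℤ) * Θ := by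
          have h10 : (1 : ℤ) ≤ Q₀ := by
            have : 1 ≤ Q₀ := by omega
            exact_mod_cast this
          push_cast
          exact r04_sq h10 hΘ
        linarith
      · exfalso
        omega
    · exact Or.inr h5

end Pool.Agent.Lib.MP_44a246_ntR
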