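import Mathlib
import Pool.Agent.Lib.MP_44a246_nt.Defs

/-!
Divisors of a function field of one variable, Riemann-Roch spaces, the genus.
-/

namespace Pool.Agent.Lib.MP_44a246_ntR

open Pool.Agent.Lib.MP_44a246_nt
open WithZero

section

variable {κ L : Type*} [Field κ] [Field L] [Algebra κ L]

/-- The Riemann-Roch space of a divisor `D`: the functions `f` with `div f + D ≥ 0`. -/
def rr (D : Place κ L →₀ ℤ) : Submodule κ L where
  carrier := {f | ∀ v : Place κ L, v.1 f ≤ exp (D v)}
  add_mem' := by
    intro f g hf hg v
    exact (v.1.map_add f g).trans (max_le (hf v) (hg v))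
  zero_mem' := by
    intro v
    rw [map_zero]
    exact zero_le
  smul_mem' := by
    intro c f hf v
    rw [Algebra.smul_def, map_mul]
    rcases eq_or_ne c 0 with h | h
    · rw [h, map_zero, map_zero, zero_mul]
      exact zero_le
    · rw [v.2.2 c h, one_mul]
      exact hf v

/-- The degree of a divisor. -/
def divDeg (D : Place κ L →₀ ℤ) : ℤ := D.sum fun _ n => n

variable (κ L)

/-- The genus: the least `g` such that `l(D) ≥ deg D + 1 - g` for all divisors `D`. -/
noncomputable def genus : ℕ :=
  sInf {g : ℕ | ∀ D : Place κ L →₀ ℤ, divDeg D + 1 - g ≤ Module.finrank κ (rr D)}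

end

end Pool.Agent.Lib.MP_44a246_ntR
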