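import Mathlib
import Pool.Agent.Lib.MP_44a246_ntR.GDefs
import Pool.Agent.Lib.MP_44a246_ntL.LFF

/-!
Riemann-Roch spaces: finiteness, comparison of dimensions.
-/

namespace Pool.Agent.Lib.MP_44a246_ntR

open Pool.Agent.Lib.MP_44a246_nt Pool.Agent.Lib.MP_44a246_ntL
open WithZero

variable {κ L : Type*} [Field κ] [IsAlgClosed κ] [CharZero κ] [Field L] [Algebra κ L]

omit [IsAlgClosed κ] [CharZero κ] in
theorem rr_mono {D D' : Place κ L →₀ ℤ} (h : D ≤ D') : rr D ≤ rr D' := by
  intro f hf v
  exact (hf v).trans (exp_le_exp.mpr (h v))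

omit [IsAlgClosed κ] [CharZero κ] in
theorem divDeg_add (D D' : Place κ L →₀ ℤ) : divDeg (D + D') = divDeg D + divDeg D' := by
  unfold divDeg
  exact Finsupp.sum_add_index' (fun _ => rfl) (fun _ _ _ => rfl)

omit [IsAlgClosed κ] [CharZero κ] in
theorem divDeg_single (v : Place κ L) (n : ℤ) : divDeg (Finsupp.single v n) = n := by
  unfold divDeg
  exact Finsupp.sum_single_index rfl

omit [IsAlgClosed κ] [CharZero κ] in
private theorem divDeg_sub (D D' : Place κ L →₀ ℤ) : divDeg (D' - D) = divDeg D' - divDeg D := by
  have h := divDeg_add (D' - D) D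
  rw [sub_add_cancel] at h
  omega

omit [IsAlgClosed κ] [CharZero κ] in
private theorem divDeg_nonneg {D : Place κ L →₀ ℤ} (h : 0 ≤ D) : 0 ≤ divDeg D := by
  unfold divDeg
  exact Finset.sum_nonneg fun v _ => h v

omit [IsAlgClosed κ] [CharZero κ] in
private theorem divDeg_eq_zero {D : Place κ L →₀ ℤ} (h : 0 ≤ D) (h0 : divDeg D = 0) : D = 0 := by
  unfold divDeg Finsupp.sum at h0
  rw [Finset.sum_eq_zero_iff_of_nonneg fun v _ => h v] at h0
  ext v
  by_contra hv
  exact hv (h0 v (Finsupp.mem_support_iff.mpr hv))

theorem exists_place (h : IsFF κ L) : Nonempty (Place κ L) := by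
  refine h.ind ?_
  intro _ _ _ _ _ _ _ _ _
  have tow : IsScalarTower κ (RatFunc κ) L := by
    refine IsScalarTower.of_algebraMap_eq fun c => ?_
    rw [IsScalarTower.algebraMap_apply κ (Polynomial κ) L,
      IsScalarTower.algebraMap_apply (Polynomial κ) (RatFunc κ) L,
      IsScalarTower.algebraMap_apply κ (Polynomial κ) (RatFunc κ)]
  have hX : (Ideal.span {(Polynomial.X : Polynomial κ)}).IsPrime :=
    (Ideal.span_singleton_prime Polynomial.X_ne_zero).mpr Polynomial.prime_X
  let P : IsDedekindDomain.HeightOneSpectrum (Polynomial κ) :=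
    ⟨Ideal.span {Polynomial.X}, hX, by
      rw [Ne, Ideal.span_singleton_eq_bot]
      exact Polynomial.X_ne_zero⟩
  let v : Place κ (RatFunc κ) := placeOf κ (RatFunc κ) P
  obtain ⟨w, -⟩ := overFin_nonempty (L := L) v
  exact ⟨w⟩

/-- a divisor of negative degree has no sections -/
theorem rr_of_neg (h : IsFF κ L) {D : Place κ L →₀ ℤ} (hD : divDeg D < 0) : rr D = ⊥ := by
  rw [eq_bot_iff]
  intro f hf
  rw [Submodule.mem_bot]
  by_contra hf0
  have h1 := h.product_formula hf0
  have h2 : (Function.support fun v : Place κ L => D v).Finite := D.hasFiniteSupport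
  have h3 : ∑ᶠ v : Place κ L, log (v.1 f) ≤ ∑ᶠ v : Place κ L, D v :=
    finsum_mono (h.place_support hf0) h2 fun v =>
      (log_le_iff_le_exp ((v.1.ne_zero_iff).mpr hf0)).mpr (hf v)
  have h4 : ∑ᶠ v : Place κ L, D v = divDeg D := by
    unfold divDeg Finsupp.sum
    refine finsum_eq_sum_of_support_subset _ fun v hv => ?_
    rw [Finset.mem_coe, Finsupp.mem_support_iff]
    exact hv
  omega

private theorem lt_exp_succ {x : ℤᵐ⁰} {n : ℤ} : x < exp (n + 1) ↔ x ≤ exp n := by
  rw [exp_add]
  exact lt_mul_exp_iff_le exp_ne_zero

/-- adding one point adds at most one dimension -/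
private theorem rr_step (h : IsFF κ L) (D : Place κ L →₀ ℤ) (P : Place κ L) :
    ∃ g : L, rr (D + Finsupp.single P 1) ≤ rr D ⊔ Submodule.span κ {g} := by
  by_cases hc : rr (D + Finsupp.single P 1) ≤ rr D
  · exact ⟨0, hc.trans le_sup_left⟩
  · obtain ⟨g, hg, hg'⟩ := SetLike.not_le_iff_exists.mp hc
    have hne : ∀ v : Place κ L, v ≠ P → (D + Finsupp.single P 1 : Place κ L →₀ ℤ) v = D v := by
      intro v hv
      rw [Finsupp.add_apply, Finsupp.single_eq_of_ne hv, add_zero]
    have heq : (D + Finsupp.single P 1 : Place κ L →₀ ℤ) P = D P + 1 := by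
      rw [Finsupp.add_apply, Finsupp.single_eq_same]
    have hgP : P.1 g = exp (D P + 1) := by
      apply le_antisymm
      · have := hg P
        rwa [heq] at this
      · by_contra hlt
        apply hg'
        intro v
        by_cases hv : v = P
        · rw [hv]
          exact lt_exp_succ.mp (not_le.mp hlt)
        · have := hg v
          rwa [hne v hv] at this
    have hg0 : g ≠ 0 := by
      rintro rfl
      exact hg' (Submodule.zero_mem _)
    refine ⟨g, fun f hf => ?_⟩
    have hfP : P.1 (f / g) ≤ 1 := by
      rw [map_div₀, hgP]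
      have := hf P
      rw [heq] at this
      exact div_le_one_of_le₀ this zero_le
    obtain ⟨c, hcP⟩ := h.place_residue P hfP
    have hmem : f - c • g ∈ rr D := by
      intro v
      by_cases hv : v = P
      · rw [hv]
        apply lt_exp_succ.mp
        have e : f - c • g = (f / g - algebraMap κ L c) * g := by
          rw [Algebra.smul_def, sub_mul, div_mul_cancel₀ _ hg0]
        rw [e, map_mul, hgP]
        calc P.1 (f / g - algebraMap κ L c) * exp (D P + 1) < 1 * exp (D P + 1) :=
              mul_lt_mul_of_pos_right hcP exp_pos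
          _ = exp (D P + 1) := one_mul _
      · have h1 : f - c • g ∈ rr (D + Finsupp.single P 1) :=
          Submodule.sub_mem _ hf (Submodule.smul_mem _ c hg)
        have := h1 v
        rwa [hne v hv] at this
    have e : f = (f - c • g) + c • g := by ring
    rw [e]
    exact Submodule.add_mem_sup hmem (Submodule.smul_mem _ c (Submodule.mem_span_singleton_self g))

theorem finite_rr (h : IsFF κ L) (D : Place κ L →₀ ℤ) : FiniteDimensional κ (rr D) := by
  have key : ∀ m : ℕ, ∀ D : Place κ L →₀ ℤ, divDeg D < m → FiniteDimensional κ (rr D) := by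
    intro m
    induction m with
    | zero =>
      intro D hD
      rw [rr_of_neg h (by simpa using hD)]
      infer_instance
    | succ m ih =>
      intro D hD
      obtain ⟨P⟩ := exists_place h
      have h1 : divDeg (D - Finsupp.single P 1) < m := by
        rw [divDeg_sub, divDeg_single]
        push_cast at hD
        omega
      have h2 := ih _ h1
      obtain ⟨g, hg⟩ := rr_step h (D - Finsupp.single P 1) P
      rw [sub_add_cancel] at hg
      exact Submodule.finiteDimensional_of_le hg
  exact key ((divDeg D).toNat + 1) D (by push_cast; omega)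

theorem finrank_rr_le (h : IsFF κ L) {D D' : Place κ L →₀ ℤ} (hle : D ≤ D') :
    (Module.finrank κ (rr D') : ℤ) ≤ Module.finrank κ (rr D) + (divDeg D' - divDeg D) := by
  have key : ∀ n : ℕ, ∀ D : Place κ L →₀ ℤ, D ≤ D' → divDeg D' - divDeg D ≤ n →
      (Module.finrank κ (rr D') : ℤ) ≤ Module.finrank κ (rr D) + (divDeg D' - divDeg D) := by
    intro n
    induction n with
    | zero =>
      intro D hD hn
      have h1 : 0 ≤ D' - D := sub_nonneg.mpr hD
      have h2 : divDeg (D' - D) = 0 := by
        have := divDeg_nonneg h1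
        rw [divDeg_sub] at this ⊢
        push_cast at hn
        omega
      have h3 := divDeg_eq_zero h1 h2
      rw [sub_eq_zero] at h3
      rw [h3]
      simp
    | succ n ih =>
      intro D hD hn
      by_cases heq : D = D'
      · rw [heq]
        simp
      · obtain ⟨P, hP⟩ : ∃ P, D P < D' P := by
          by_contra hcon
          push Not at hcon
          exact heq (le_antisymm hD hcon)
        have h1 : D + Finsupp.single P 1 ≤ D' := by
          intro v
          by_cases hv : v = P
          · rw [hv, Finsupp.add_apply, Finsupp.single_eq_same]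
            omega
          · rw [Finsupp.add_apply, Finsupp.single_eq_of_ne hv, add_zero]
            exact hD v
        have h2 : divDeg (D + Finsupp.single P 1) = divDeg D + 1 := by
          rw [divDeg_add, divDeg_single]
        have h3 := ih _ h1 (by rw [h2]; push_cast at hn; omega)
        obtain ⟨g, hg⟩ := rr_step h D P
        have hf := finite_rr h D
        have h4 : Module.finrank κ (rr (D + Finsupp.single P 1)) ≤
            Module.finrank κ (rr D) + 1 := by
          refine (Submodule.finrank_mono hg).trans ?_
          refine (Submodule.finrank_add_le_finrank_add_finrank _ _).trans ?_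
          gcongr
          exact (finrank_span_le_card {g}).trans (by simp)
        rw [h2] at h3
        have h5 : (Module.finrank κ (rr (D + Finsupp.single P 1)) : ℤ) ≤
            (Module.finrank κ (rr D) : ℤ) + 1 := by exact_mod_cast h4
        omega
  exact key (divDeg D' - divDeg D).toNat D hle (Int.self_le_toNat _)

/-- functions without poles are constant -/
theorem const_of_rr_zero (h : IsFF κ L) {f : L} (hf : ∀ v : Place κ L, v.1 f ≤ 1) :
    ∃ c : κ, algebraMap κ L c = f := by
  obtain ⟨P⟩ := exists_place h
  obtain ⟨c, hc⟩ := h.place_residue P (hf P)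
  refine ⟨c, ?_⟩
  have hmem : f - algebraMap κ L c ∈ rr (Finsupp.single P (-1)) := by
    intro v
    by_cases hv : v = P
    · rw [hv, Finsupp.single_eq_same]
      apply lt_exp_succ.mp
      simpa using hc
    · rw [Finsupp.single_eq_of_ne hv, exp_zero]
      refine (v.1.map_sub _ _).trans (max_le (hf v) ?_)
      rcases eq_or_ne c 0 with h0 | h0
      · rw [h0, map_zero, map_zero]
        exact zero_le
      · exact (v.2.2 c h0).le
  rw [rr_of_neg h (by rw [divDeg_single]; norm_num), Submodule.mem_bot, sub_eq_zero] at hmem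
  exact hmem.symm

end Pool.Agent.Lib.MP_44a246_ntR
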