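import Mathlib
import Pool.Agent.Lib.MP_44a246_ntR.GDefs
import Pool.Agent.Lib.MP_44a246_ntL.LFF

/-!
Linearly equivalent divisors.
-/

namespace Pool.Agent.Lib.MP_44a246_ntR

open Pool.Agent.Lib.MP_44a246_nt Pool.Agent.Lib.MP_44a246_ntL
open WithZero

variable {κ L : Type*} [Field κ] [IsAlgClosed κ] [CharZero κ] [Field L] [Algebra κ L]

/-- the degree as a finsum -/
theorem divDeg_eq_finsum_gr2 (D : Place κ L →₀ ℤ) : divDeg D = ∑ᶠ v : Place κ L, D v := by
  unfold divDeg
  rw [finsum_eq_sum_of_support_subset (s := D.support) _ (by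
    intro v hv
    rw [Finset.mem_coe, Finsupp.mem_support_iff]
    exact hv)]
  rfl

/-- the divisor `D - div z` -/
theorem rr_shift (h : IsFF κ L) (D : Place κ L →₀ ℤ) {z : L} (hz : z ≠ 0) :
    ∃ D' : Place κ L →₀ ℤ, (∀ v, D' v = D v + log (v.1 z)) ∧ divDeg D' = divDeg D ∧
      Module.finrank κ (rr D') = Module.finrank κ (rr D) := by
  classical
  have hsupp := h.place_support hz
  let Z : Place κ L →₀ ℤ := Finsupp.ofSupportFinite (fun v : Place κ L => log (v.1 z)) hsupp
  have hZ : ∀ v : Place κ L, Z v = log (v.1 z) := fun v => rfl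
  have hD' : ∀ v : Place κ L, (D + Z) v = D v + log (v.1 z) := by
    intro v
    rw [Finsupp.add_apply, hZ]
  refine ⟨D + Z, hD', ?_, ?_⟩
  · rw [divDeg_eq_finsum_gr2, divDeg_eq_finsum_gr2, finsum_congr hD',
      finsum_add_distrib (by exact D.finite_support) hsupp, h.product_formula hz, add_zero]
  · have hne : ∀ v : Place κ L, v.1 z ≠ 0 := fun v => (v.1.ne_zero_iff).mpr hz
    have key : ∀ (v : Place κ L), exp ((D + Z) v) = v.1 z * exp (D v) := by
      intro v
      rw [hD' v, exp_add, exp_log (hne v), mul_comm]
    have hmem : ∀ f : L, z * f ∈ rr (D + Z) ↔ f ∈ rr D := by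
      intro f
      constructor
      · intro hf v
        have h1 := hf v
        rw [key v, map_mul] at h1
        exact le_of_mul_le_mul_left h1 (zero_lt_iff.mpr (hne v))
      · intro hf v
        rw [key v, map_mul]
        exact mul_le_mul_right (hf v) _
    let e : rr D ≃ₗ[κ] rr (D + Z) :=
      { toFun := fun f => ⟨z * f.1, (hmem f.1).mpr f.2⟩
        map_add' := fun a b => by
          apply Subtype.ext
          exact mul_add z a.1 b.1
        map_smul' := fun c a => by
          apply Subtype.ext
          exact mul_smul_comm c z a.1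
        invFun := fun f => ⟨z⁻¹ * f.1, by
          rw [← hmem, mul_inv_cancel_left₀ hz]
          exact f.2⟩
        left_inv := fun a => by
          apply Subtype.ext
          exact inv_mul_cancel_left₀ hz a.1
        right_inv := fun a => by
          apply Subtype.ext
          exact mul_inv_cancel_left₀ hz a.1 }
    exact e.finrank_eq.symm

end Pool.Agent.Lib.MP_44a246_ntR
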