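import Mathlib
import Pool.Agent.Lib.MP_44a246_ntR.GDefs
import Pool.Agent.Lib.MP_44a246_ntL.LFF
import Pool.Agent.Lib.MP_44a246_nt.Places
import Pool.Agent.Lib.MP_44a246_nt.RamBound

/-!
The pole divisor of the variable.
-/

namespace Pool.Agent.Lib.MP_44a246_ntR

open Pool.Agent.Lib.MP_44a246_nt Pool.Agent.Lib.MP_44a246_ntL
open WithZero Polynomial

variable {κ L : Type*} [Field κ] [Field L] [Algebra κ L] [Algebra (RatFunc κ) L]

variable (κ L) in
/-- the image of the variable -/
noncomputable def tL : L := algebraMap (RatFunc κ) L RatFunc.X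

variable (κ) in
/-- the image of a polynomial -/
noncomputable def pL (L : Type*) [Field L] [Algebra (RatFunc κ) L] (p : κ[X]) : L :=
  algebraMap (RatFunc κ) L (algebraMap κ[X] (RatFunc κ) p)

variable [IsScalarTower κ (RatFunc κ) L]

theorem aeval_tL (p : κ[X]) : aeval (tL κ L) p = pL κ L p := by
  unfold tL pL
  rw [aeval_algebraMap_apply]
  congr 1
  have h := aeval_algebraMap_apply (A := κ[X]) (RatFunc κ) (X : κ[X]) p
  rw [RatFunc.algebraMap_X, aeval_X_left_apply] at h
  exact h

theorem transcendental_tL : Transcendental κ (tL κ L) := by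
  rw [transcendental_iff]
  intro p hp
  rw [aeval_tL] at hp
  unfold pL at hp
  have h1 := (algebraMap (RatFunc κ) L).injective (hp.trans (map_zero _).symm)
  exact (IsFractionRing.injective κ[X] (RatFunc κ)) (h1.trans (map_zero _).symm)

private theorem gr3_ff (κ : Type*) [Field κ] : IsFF κ (RatFunc κ) := by
  refine ⟨RatFunc.X, ?_, ?_⟩
  · exact transcendental_tL (κ := κ) (L := RatFunc κ)
  · rw [RatFunc.adjoin_X]
    exact Module.finite_of_finrank_pos (by rw [IntermediateField.finrank_top]; exact one_pos)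

private theorem gr3_t0 : tL κ L ≠ 0 := by
  intro h
  exact transcendental_tL (κ := κ) (L := L) (h ▸ isAlgebraic_zero)

private theorem gr3_log {x : ℤᵐ⁰} : log (max 1 x) = max 0 (log x) := by
  rcases le_or_gt x 1 with h | h
  · rw [max_eq_left h, log_one]
    rcases eq_or_ne x 0 with h0 | h0
    · rw [h0, log_zero, max_self]
    · have : log x ≤ 0 := by
        rw [log_le_iff_le_exp h0, exp_zero]
        exact h
      rw [max_eq_left this]
  · rw [max_eq_right h.le]
    have : 0 ≤ log x := by
      rw [le_log_iff_exp_le (zero_lt_one.trans h).ne', exp_zero]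
      exact h.le
    rw [max_eq_right this]

variable [IsAlgClosed κ] [CharZero κ] [FiniteDimensional (RatFunc κ) L]

variable (κ L) in
theorem isFF_of_ratFunc : IsFF κ L := (gr3_ff κ).of_finite

variable (κ) in
/-- the rational function field itself -/
theorem isFF_ratFunc : IsFF κ (RatFunc κ) := gr3_ff κ

variable (κ) in
/-- the height of the variable -/
theorem height_ratFunc_X : height κ ![1, (RatFunc.X : RatFunc κ)] = 1 := by
  classical
  have h := sum_infinite_places (κ := κ) (L := RatFunc κ) (x := RatFunc.X) RatFunc.X_ne_zero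
  rw [Algebra.norm_self, MonoidHom.id_apply, RatFunc.intDegree_X] at h
  have h2 : ∀ v : Place κ (RatFunc κ), log (vmax v.1 ![1, (RatFunc.X : RatFunc κ)]) =
      -(if v.1 (algebraMap κ[X] (RatFunc κ) X) ≤ 1 then 0 else -log (v.1 RatFunc.X)) := by
    intro v
    rw [vmax_pair, gr3_log, RatFunc.algebraMap_X]
    split_ifs with h3
    · rw [neg_zero]
      have : log (v.1 RatFunc.X) ≤ 0 := by
        rw [log_le_iff_le_exp ((v.1.ne_zero_iff).2 RatFunc.X_ne_zero), exp_zero]
        exact h3
      exact max_eq_left this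
    · push Not at h3
      rw [neg_neg]
      have : 0 ≤ log (v.1 RatFunc.X) := by
        rw [le_log_iff_exp_le ((v.1.ne_zero_iff).2 RatFunc.X_ne_zero), exp_zero]
        exact h3.le
      exact max_eq_right this
  unfold height
  rw [finsum_congr h2, finsum_neg_distrib]
  have e1 : ∑ᶠ v : Place κ (RatFunc κ), (if v.1 (algebraMap κ[X] (RatFunc κ) X) ≤ 1 then 0
      else -log (v.1 RatFunc.X)) = -1 := by
    rw [← h]
  rw [e1, neg_neg]

variable (κ L) in
theorem finrank_eq_height : (Module.finrank (RatFunc κ) L : ℤ) = height κ ![1, tL κ L] := by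
  have hx : (![1, (RatFunc.X : RatFunc κ)]) ≠ 0 := by
    intro h
    have := congrFun h 0
    simp at this
  have h := IsFF.height_ext (K := RatFunc κ) (isFF_of_ratFunc κ L) hx
  rw [height_ratFunc_X, mul_one] at h
  rw [← h]
  congr 1
  funext i
  fin_cases i
  · exact map_one _
  · rfl

/-- pole divisor of the variable -/
def IsPole (P : Place κ L →₀ ℤ) : Prop := ∀ v : Place κ L, P v = max 0 (log (v.1 (tL κ L)))

variable (κ L) in
theorem exists_pole : ∃ P : Place κ L →₀ ℤ, IsPole P := by
  have hf := (isFF_of_ratFunc κ L).place_support (gr3_t0 (κ := κ) (L := L))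
  have hf2 : (Function.support fun v : Place κ L => max 0 (log (v.1 (tL κ L)))).Finite := by
    refine hf.subset fun v hv h => hv ?_
    simp only at h ⊢
    rw [h, max_self]
  exact ⟨Finsupp.ofSupportFinite _ hf2, fun v => rfl⟩

theorem IsPole.nonneg {P : Place κ L →₀ ℤ} (hP : IsPole P) (v : Place κ L) : 0 ≤ P v := by
  rw [hP v]
  exact le_max_left _ _

theorem IsPole.deg {P : Place κ L →₀ ℤ} (hP : IsPole P) :
    divDeg P = Module.finrank (RatFunc κ) L := by
  rw [finrank_eq_height κ L]
  unfold height divDeg Finsupp.sum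
  rw [← finsum_eq_sum_of_support_subset (s := P.support) (fun v => P v)
    (fun v hv => Finsupp.mem_support_iff.2 hv)]
  refine finsum_congr fun v => ?_
  rw [hP v, vmax_pair, gr3_log]

/-- a polynomial in the variable which moves the poles to the poles of the variable -/
theorem clear_poles {P : Place κ L →₀ ℤ} (hP : IsPole P) (D : Place κ L →₀ ℤ) :
    ∃ p : κ[X], p ≠ 0 ∧ ∃ m : ℕ, ∀ v : Place κ L,
      D v + log (v.1 (pL κ L p)) ≤ m * P v := by
  classical
  have ht0 := gr3_t0 (κ := κ) (L := L)
  have hFF := isFF_of_ratFunc κ L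
  choose! c hc using fun (v : Place κ L) (hv : v.1 (tL κ L) ≤ 1) => hFF.place_residue v hv
  let S : Finset (Place κ L) := D.support.filter fun v => v.1 (tL κ L) ≤ 1
  let p : κ[X] := ∏ w ∈ S, (X - C (c w)) ^ (D w).natAbs
  have hne : ∀ a : κ, tL κ L - algebraMap κ L a ≠ 0 := by
    intro a h
    refine transcendental_tL (κ := κ) (L := L) ⟨X - C a, X_sub_C_ne_zero a, ?_⟩
    rw [map_sub, aeval_X, aeval_C]
    exact h
  have hpL : pL κ L p = ∏ w ∈ S, (tL κ L - algebraMap κ L (c w)) ^ (D w).natAbs := by
    rw [← aeval_tL, map_prod]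
    refine Finset.prod_congr rfl fun w _ => ?_
    rw [map_pow, map_sub, aeval_X, aeval_C]
  have hcl : ∀ (v : Place κ L) (a : κ), v.1 (algebraMap κ L a) ≤ 1 := by
    intro v a
    by_cases ha : a = 0
    · rw [ha, map_zero, map_zero]; exact zero_le_one
    · rw [v.2.2 a ha]
  let M : ℕ := ∑ w ∈ D.support, (D w).natAbs
  let N : ℕ := ∑ w ∈ S, (D w).natAbs
  refine ⟨p, ?_, N + M, fun v => ?_⟩
  · exact Finset.prod_ne_zero_iff.2 fun w _ => pow_ne_zero _ (X_sub_C_ne_zero _)
  have hp0 : v.1 (pL κ L p) ≠ 0 := by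
    rw [v.1.ne_zero_iff, hpL]
    exact Finset.prod_ne_zero_iff.2 fun w _ => pow_ne_zero _ (hne _)
  have hvt0 : v.1 (tL κ L) ≠ 0 := (v.1.ne_zero_iff).2 ht0
  rcases le_or_gt (v.1 (tL κ L)) 1 with hv | hv
  · have hPv : P v = 0 := by
      rw [hP v]
      refine max_eq_left ?_
      rw [log_le_iff_le_exp hvt0, exp_zero]
      exact hv
    rw [hPv, mul_zero]
    have hfac : ∀ w, v.1 ((tL κ L - algebraMap κ L (c w)) ^ (D w).natAbs) ≤ 1 := by
      intro w
      rw [map_pow]
      refine pow_le_one' ?_ _
      exact (v.1.map_sub _ _).trans (max_le hv (hcl v _))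
    by_cases hvS : v ∈ S
    · have h1 : v.1 (pL κ L p) ≤ exp (-((D v).natAbs : ℤ)) := by
        rw [hpL, ← Finset.mul_prod_erase S _ hvS, map_mul, map_prod]
        have h2 : v.1 ((tL κ L - algebraMap κ L (c v)) ^ (D v).natAbs) ≤
            exp (-((D v).natAbs : ℤ)) := by
          rw [map_pow]
          have h3 : v.1 (tL κ L - algebraMap κ L (c v)) ≤ exp (-1 : ℤ) := by
            have h4 := hc v hv
            have h5 : v.1 (tL κ L - algebraMap κ L (c v)) ≠ 0 := (v.1.ne_zero_iff).2 (hne _)
            rw [← log_le_iff_le_exp h5]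
            have h6 : log (v.1 (tL κ L - algebraMap κ L (c v))) < 0 := by
              rw [log_lt_iff_lt_exp h5, exp_zero]
              exact h4
            omega
          refine (pow_le_pow_left' h3 _).trans (le_of_eq ?_)
          rw [← exp_nsmul]
          congr 1
          simp
        have h7 : ∏ w ∈ S.erase v, v.1 ((tL κ L - algebraMap κ L (c w)) ^ (D w).natAbs) ≤ 1 :=
          Finset.prod_le_one' fun w _ => hfac w
        calc _ ≤ exp (-((D v).natAbs : ℤ)) * 1 := mul_le_mul' h2 h7
          _ = _ := mul_one _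
      have h8 : log (v.1 (pL κ L p)) ≤ -((D v).natAbs : ℤ) := (log_le_iff_le_exp hp0).2 h1
      omega
    · have hD : D v = 0 := by
        by_contra h9
        exact hvS (Finset.mem_filter.2 ⟨Finsupp.mem_support_iff.2 h9, hv⟩)
      have h1 : v.1 (pL κ L p) ≤ 1 := by
        rw [hpL, map_prod]
        exact Finset.prod_le_one' fun w _ => hfac w
      have h8 : log (v.1 (pL κ L p)) ≤ 0 := (log_le_iff_le_exp hp0).2 (by rwa [exp_zero])
      omega
  · have hlog : 1 ≤ log (v.1 (tL κ L)) := by
      have : 0 < log (v.1 (tL κ L)) := by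
        rw [lt_log_iff_exp_lt hvt0, exp_zero]
        exact hv
      omega
    have hPv : P v = log (v.1 (tL κ L)) := by
      rw [hP v]
      exact max_eq_right (by omega)
    have h1 : v.1 (pL κ L p) = v.1 (tL κ L) ^ N := by
      rw [hpL, map_prod]
      have : ∀ w ∈ S, v.1 ((tL κ L - algebraMap κ L (c w)) ^ (D w).natAbs) =
          v.1 (tL κ L) ^ (D w).natAbs := by
        intro w _
        rw [map_pow, Valuation.map_sub_eq_of_lt_left _ ((hcl v _).trans_lt hv)]
      rw [Finset.prod_congr rfl this, Finset.prod_pow_eq_pow_sum]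
    have h2 : log (v.1 (pL κ L p)) = N * log (v.1 (tL κ L)) := by
      rw [h1, log_pow, nsmul_eq_mul]
    have h3 : D v ≤ M := by
      by_cases hD : D v = 0
      · rw [hD]; positivity
      · have : (D v).natAbs ≤ M := Finset.single_le_sum (f := fun w => (D w).natAbs)
          (fun _ _ => Nat.zero_le _) (Finsupp.mem_support_iff.2 hD)
        omega
    rw [h2, hPv]
    have h4 : (M : ℤ) ≤ M * log (v.1 (tL κ L)) := le_mul_of_one_le_right (by positivity) hlog
    push_cast
    linarith

end Pool.Agent.Lib.MP_44a246_ntR
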