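import Mathlib
import Pool.Agent.Lib.MP_44a246_ntR.GR1
import Pool.Agent.Lib.MP_44a246_ntR.GR2
import Pool.Agent.Lib.MP_44a246_ntR.GR3

/-!
The theorem of Riemann.
-/

namespace Pool.Agent.Lib.MP_44a246_ntR

open Pool.Agent.Lib.MP_44a246_nt Pool.Agent.Lib.MP_44a246_ntL
open WithZero Polynomial

variable {κ L : Type*} [Field κ] [IsAlgClosed κ] [CharZero κ] [Field L] [Algebra κ L]

section Aux

variable [Algebra (RatFunc κ) L] [IsScalarTower κ (RatFunc κ) L]
  [FiniteDimensional (RatFunc κ) L]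

omit [IsAlgClosed κ] [CharZero κ] [Algebra (RatFunc κ) L] [IsScalarTower κ (RatFunc κ) L]
  [FiniteDimensional (RatFunc κ) L] in
theorem gr4_le_exp (v : Place κ L) {x : L} {n : ℤ} (h : x ≠ 0 → log (v.1 x) ≤ n) :
    v.1 x ≤ exp n := by
  by_cases hx : x = 0
  · rw [hx, map_zero]
    exact zero_le
  · have hv : v.1 x ≠ 0 := (v.1.ne_zero_iff).mpr hx
    have h1 := h hx
    rw [← exp_log hv]
    exact exp_le_exp.mpr h1

omit [IsAlgClosed κ] [CharZero κ] [Algebra κ L] [IsScalarTower κ (RatFunc κ) L]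
  [FiniteDimensional (RatFunc κ) L] in
theorem gr4_pL_ne {p : κ[X]} (hp : p ≠ 0) : pL κ L p ≠ 0 := by
  unfold pL
  intro h
  have h1 := (algebraMap (RatFunc κ) L).injective (h.trans (map_zero _).symm)
  exact hp (RatFunc.algebraMap_injective κ (h1.trans (map_zero _).symm))

theorem gr4_basis {P : Place κ L →₀ ℤ} (hP : IsPole P) :
    ∃ c : ℕ, ∃ y : Fin (Module.finrank (RatFunc κ) L) → L,
      LinearIndependent (RatFunc κ) y ∧ ∀ i, ∀ v : Place κ L, y i ≠ 0 →
        log (v.1 (y i)) ≤ c * P v := by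
  classical
  have hF : IsFF κ L := isFF_of_ratFunc κ L
  let b := Module.finBasis (RatFunc κ) L
  have key : ∀ i, ∃ p : κ[X], p ≠ 0 ∧ ∃ m : ℕ, ∀ v : Place κ L,
      log (v.1 (b i)) + log (v.1 (pL κ L p)) ≤ m * P v := by
    intro i
    have hb : b i ≠ 0 := b.ne_zero i
    have hfin : (Function.support fun v : Place κ L => max 0 (log (v.1 (b i)))).Finite := by
      refine (hF.place_support hb).subset ?_
      intro v hv h1
      apply hv
      simp only at h1 ⊢
      rw [h1, max_self]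
    obtain ⟨p, hp, m, hm⟩ := clear_poles hP (Finsupp.ofSupportFinite _ hfin)
    refine ⟨p, hp, m, fun v => ?_⟩
    have h1 := hm v
    have h2 : log (v.1 (b i)) ≤ (Finsupp.ofSupportFinite _ hfin) v := by
      rw [Finsupp.ofSupportFinite_coe]
      exact le_max_right _ _
    omega
  choose p hp m hm using key
  refine ⟨∑ i, m i, fun i => pL κ L (p i) * b i, ?_, ?_⟩
  · have h1 : ∀ i, algebraMap κ[X] (RatFunc κ) (p i) ≠ 0 := by
      intro i h
      exact hp i (RatFunc.algebraMap_injective κ (h.trans (map_zero _).symm))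
    have h2 := b.linearIndependent.units_smul (fun i => Units.mk0 _ (h1 i))
    have h3 : (fun i => pL κ L (p i) * b i) = (fun i => Units.mk0 _ (h1 i)) • (b : _ → L) := by
      funext i
      rw [Pi.smul_apply', Units.smul_def, Algebra.smul_def]
      rfl
    rw [h3]
    exact h2
  · intro i v hy
    have hb : b i ≠ 0 := b.ne_zero i
    have hv1 : v.1 (pL κ L (p i)) ≠ 0 := (v.1.ne_zero_iff).mpr (gr4_pL_ne (hp i))
    have hv2 : v.1 (b i) ≠ 0 := (v.1.ne_zero_iff).mpr hb
    rw [map_mul, log_mul hv1 hv2]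
    have h1 := hm i v
    have h2 : (m i : ℤ) * P v ≤ ((∑ i, m i : ℕ) : ℤ) * P v := by
      apply mul_le_mul_of_nonneg_right _ (hP.nonneg v)
      exact_mod_cast Finset.single_le_sum (f := m) (fun _ _ => Nat.zero_le _) (Finset.mem_univ i)
    omega

omit [IsAlgClosed κ] [CharZero κ] in
theorem gr4_pow_indep : LinearIndependent κ fun j : ℕ => (RatFunc.X : RatFunc κ) ^ j := by
  have h1 := (Polynomial.basisMonomials κ).linearIndependent.map'
    (IsScalarTower.toAlgHom κ κ[X] (RatFunc κ)).toLinearMap (by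
      rw [LinearMap.ker_eq_bot]
      exact RatFunc.algebraMap_injective κ)
  have h2 : (fun j : ℕ => (RatFunc.X : RatFunc κ) ^ j) =
      ((IsScalarTower.toAlgHom κ κ[X] (RatFunc κ)).toLinearMap ∘ (Polynomial.basisMonomials κ)) := by
    funext j
    simp [Polynomial.coe_basisMonomials, ← Polynomial.X_pow_eq_monomial]
  rw [h2]
  exact h1

theorem gr4_lower {P : Place κ L →₀ ℤ} (hP : IsPole P) {c : ℕ}
    {y : Fin (Module.finrank (RatFunc κ) L) → L} (hy : LinearIndependent (RatFunc κ) y)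
    (hyc : ∀ i, ∀ v : Place κ L, y i ≠ 0 → log (v.1 (y i)) ≤ c * P v) (N : ℕ) :
    (Module.finrank (RatFunc κ) L) * (N + 1) ≤ Module.finrank κ (rr ((N + c) • P)) := by
  have hF : IsFF κ L := isFF_of_ratFunc κ L
  have hfd : FiniteDimensional κ (rr ((N + c) • P)) := finite_rr hF _
  have h1 : LinearIndependent κ fun p : ℕ × Fin (Module.finrank (RatFunc κ) L) =>
      (RatFunc.X : RatFunc κ) ^ p.1 • y p.2 := linearIndependent_smul gr4_pow_indep hy
  have h2 : LinearIndependent κ fun p : Fin (N + 1) × Fin (Module.finrank (RatFunc κ) L) =>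
      (RatFunc.X : RatFunc κ) ^ (p.1 : ℕ) • y p.2 := by
    have h3 := h1.comp (fun p : Fin (N + 1) × Fin (Module.finrank (RatFunc κ) L) =>
      ((p.1 : ℕ), p.2)) (by
        intro a b hab
        simp only [Prod.mk.injEq] at hab
        exact Prod.ext (Fin.ext hab.1) hab.2)
    exact h3
  have hmem : ∀ p : Fin (N + 1) × Fin (Module.finrank (RatFunc κ) L),
      (RatFunc.X : RatFunc κ) ^ (p.1 : ℕ) • y p.2 ∈ rr ((N + c) • P) := by
    intro p v
    apply gr4_le_exp
    intro _
    have hy0 : y p.2 ≠ 0 := hy.ne_zero p.2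
    have ht : tL κ L ≠ 0 := by
      unfold tL
      intro h
      exact RatFunc.X_ne_zero ((algebraMap (RatFunc κ) L).injective (h.trans (map_zero _).symm))
    have e1 : (RatFunc.X : RatFunc κ) ^ (p.1 : ℕ) • y p.2 = tL κ L ^ (p.1 : ℕ) * y p.2 := by
      rw [Algebra.smul_def, map_pow]
      rfl
    have hv1 : v.1 (tL κ L) ≠ 0 := (v.1.ne_zero_iff).mpr ht
    have hv2 : v.1 (y p.2) ≠ 0 := (v.1.ne_zero_iff).mpr hy0
    rw [e1, map_mul, map_pow, log_mul (pow_ne_zero _ hv1) hv2, log_pow]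
    have h4 := hyc p.2 v hy0
    have h5 : log (v.1 (tL κ L)) ≤ P v := by
      rw [hP v]
      exact le_max_right _ _
    have h6 : ((p.1 : ℕ) : ℤ) ≤ N := by
      have := p.1.2
      omega
    have h7 := hP.nonneg v
    have h8 : ((N + c) • P) v = ((N : ℤ) + c) * P v := by
      simp
    rw [h8]
    have h9 : ((p.1 : ℕ) : ℤ) * log (v.1 (tL κ L)) ≤ ((p.1 : ℕ) : ℤ) * P v :=
      mul_le_mul_of_nonneg_left h5 (by omega)
    have h10 : ((p.1 : ℕ) : ℤ) * P v ≤ N * P v := mul_le_mul_of_nonneg_right h6 h7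
    rw [nsmul_eq_mul]
    linarith
  have h3 : LinearIndependent κ fun p : Fin (N + 1) × Fin (Module.finrank (RatFunc κ) L) =>
      (⟨(RatFunc.X : RatFunc κ) ^ (p.1 : ℕ) • y p.2, hmem p⟩ : rr ((N + c) • P)) := by
    apply LinearIndependent.of_comp (Submodule.subtype _)
    exact h2
  have h4 := h3.fintype_card_le_finrank
  rw [Fintype.card_prod, Fintype.card_fin, Fintype.card_fin, mul_comm] at h4
  exact h4

theorem gr4_riemann :
    ∃ g : ℕ, ∀ D : Place κ L →₀ ℤ, divDeg D + 1 - g ≤ Module.finrank κ (rr D) := by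
  have hF : IsFF κ L := isFF_of_ratFunc κ L
  obtain ⟨P, hP⟩ := exists_pole κ L
  obtain ⟨c, y, hy, hyc⟩ := gr4_basis hP
  have hlow := gr4_lower hP hy hyc
  have hdeg : ∀ m : ℕ, divDeg (m • P) = m * Module.finrank (RatFunc κ) L := by
    intro m
    induction m with
    | zero => simp [divDeg]
    | succ k ih =>
      rw [succ_nsmul, divDeg_add, ih, hP.deg]
      push_cast
      ring
  refine ⟨Module.finrank (RatFunc κ) L * c + 1, fun D => ?_⟩
  obtain ⟨p, hp, m, hm⟩ := clear_poles hP D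
  obtain ⟨D', hD', hdeg', hfr⟩ := rr_shift hF D (gr4_pL_ne (L := L) hp)
  have hle : D' ≤ m • P := by
    intro v
    rw [hD' v]
    have := hm v
    simpa using this
  have h1 := finrank_rr_le hF hle
  rw [hdeg m, hdeg', hfr] at h1
  have h2 : (m : ℤ) * Module.finrank (RatFunc κ) L - Module.finrank (RatFunc κ) L * c ≤
      Module.finrank κ (rr (m • P)) := by
    rcases Nat.lt_or_ge m c with hmc | hmc
    · have h3 : (m : ℤ) * Module.finrank (RatFunc κ) L ≤ Module.finrank (RatFunc κ) L * c := by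
        rw [mul_comm]
        apply mul_le_mul_of_nonneg_left
        · exact_mod_cast hmc.le
        · exact Int.natCast_nonneg _
      have h4 : (0 : ℤ) ≤ Module.finrank κ (rr (m • P)) := Int.natCast_nonneg _
      linarith
    · have h3 := hlow (m - c)
      rw [Nat.sub_add_cancel hmc] at h3
      have h4 : (((Module.finrank (RatFunc κ) L) * (m - c + 1) : ℕ) : ℤ) ≤
        Module.finrank κ (rr (m • P)) := by exact_mod_cast h3
      have h5 : ((m - c : ℕ) : ℤ) = m - c := by omega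
      push_cast [h5] at h4
      have h6 : (0 : ℤ) ≤ Module.finrank (RatFunc κ) L := Int.natCast_nonneg _
      nlinarith
  push_cast
  linarith

end Aux

theorem riemann (h : IsFF κ L) :
    ∃ g : ℕ, ∀ D : Place κ L →₀ ℤ, divDeg D + 1 - g ≤ Module.finrank κ (rr D) := by
  refine h.ind ?_
  intro _ _ _ _ _ _ _ _ _
  have hst : IsScalarTower κ (RatFunc κ) L := by
    refine IsScalarTower.of_algebraMap_eq fun x => ?_
    rw [IsScalarTower.algebraMap_apply κ κ[X] L, IsScalarTower.algebraMap_apply κ κ[X] (RatFunc κ),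
      ← IsScalarTower.algebraMap_apply κ[X] (RatFunc κ) L]
  exact gr4_riemann

theorem genus_spec (h : IsFF κ L) (D : Place κ L →₀ ℤ) :
    divDeg D + 1 - genus κ L ≤ Module.finrank κ (rr D) :=
  Nat.sInf_mem (s := {g : ℕ | ∀ D : Place κ L →₀ ℤ,
    divDeg D + 1 - g ≤ Module.finrank κ (rr D)}) (riemann h) D

end Pool.Agent.Lib.MP_44a246_ntR
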