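import Mathlib
import Pool.Agent.Lib.MP_44a246_ntK.K12
import Pool.Agent.Lib.MP_44a246_ntR.R01

/-!
The image of a weighted projective variety in the projective space, the Jacobian matrix with
respect to the variables `t_j` and the combinations of the vectors of the monomials.
-/

namespace Pool.Agent.Lib.MP_44a246_ntR

open Pool.Agent.Lib.MP_44a246_ntF
open Pool.Agent.Lib.MP_44a246_nt
open Pool.Agent.Lib.MP_44a246_ntL
open Pool.Agent.Lib.MP_44a246_ntS
open Pool.Agent.Lib.MP_44a246_ntK
open Pool.Agent.Lib.MP_44a246_ntU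
open Pool.Agent.Lib.MP_e52354_nt
open Module MvPolynomial

section

variable {k : Type*} [Field k] {n p : ℕ}

/-- the ideal of the closure of the image, in the projective space, of the variety with the
equations `f i` -/
noncomputable def imI {ι : Type*} (f : ι → MvPolynomial (Fin p ⊕ Fin n) k) :
    Ideal (MvPolynomial (Fin n) k) :=
  (Ideal.span (Set.range f)).comap (rename (Sum.inr : Fin n → Fin p ⊕ Fin n)).toRingHom

theorem mem_imI {ι : Type*} {f : ι → MvPolynomial (Fin p ⊕ Fin n) k} {g : MvPolynomial (Fin n) k} :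
    g ∈ imI f ↔ rename (Sum.inr : Fin n → Fin p ⊕ Fin n) g ∈ Ideal.span (Set.range f) := Iff.rfl

/-- **Algebraically independent affine coordinates of a point of a weighted projective
variety.** -/
theorem card_le_of_dimI {M : Type*} [Field M] [Algebra k M] {r : ℕ}
    {d : Fin p → ℕ} {ι : Type*} {f : ι → MvPolynomial (Fin p ⊕ Fin n) k} {e : ι → ℕ}
    (hf : ∀ i, (f i).IsWeightedHomogeneous (wtP n d) (e i))
    (hI : ringKrullDim (MvPolynomial (Fin n) k ⧸ imI f) ≤ ((r + 1 : ℕ) : ℕ))
    {γ : Fin n → M} {η : Fin p → M} (hγ : ∀ i, aeval (Sum.elim η γ : Fin p ⊕ Fin n → M) (f i) = 0)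
    {l : Fin n} (hl : γ l ≠ 0) {q : ℕ}
    {j : Fin q → Fin n} (hj : AlgebraicIndependent k (fun i => γ (j i) / γ l)) : q ≤ r := by
  have h1 := indep_scale hj
  set c : RatFunc M := RatFunc.X * algebraMap M (RatFunc M) (γ l)⁻¹ with hc
  set γ' : Fin p ⊕ Fin n → RatFunc M := Sum.elim (fun j => c ^ d j * algebraMap M (RatFunc M) (η j))
    (fun i => c * algebraMap M (RatFunc M) (γ i)) with hγ'
  have h2 : (Fin.cons RatFunc.X
      (fun i => RatFunc.X * algebraMap M (RatFunc M) (γ (j i) / γ l)) : Fin (q + 1) → RatFunc M)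
      = fun i => aeval (γ' ∘ Sum.inr) ((Fin.cons (X l) (fun i => X (j i)) :
        Fin (q + 1) → MvPolynomial (Fin n) k) i) := by
    funext i
    refine Fin.cases ?_ (fun i => ?_) i
    · simp only [hγ', Fin.cons_zero, aeval_X, Function.comp, Sum.elim_inr, hc]
      rw [mul_assoc, ← map_mul, inv_mul_cancel₀ hl, map_one, mul_one]
    · simp only [hγ', Fin.cons_succ, aeval_X, Function.comp, Sum.elim_inr, hc, div_eq_mul_inv,
        map_mul]
      ring
  rw [h2] at h1
  have h3 : ∀ g ∈ Ideal.span (Set.range f), aeval γ' g = 0 := by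
    intro g hg
    refine Submodule.span_induction (p := fun g _ => aeval γ' g = 0) ?_ (by simp) ?_ ?_ hg
    · rintro _ ⟨i, rfl⟩
      rw [hγ', aeval_scaleP (hf i)]
      have h6 : aeval (Sum.elim (fun j => algebraMap M (RatFunc M) (η j))
          (fun t => algebraMap M (RatFunc M) (γ t)) : Fin p ⊕ Fin n → RatFunc M) (f i) = 0 := by
        have h7 : (Sum.elim (fun j => algebraMap M (RatFunc M) (η j))
            (fun t => algebraMap M (RatFunc M) (γ t)) : Fin p ⊕ Fin n → RatFunc M) =
            fun t => algebraMap M (RatFunc M) ((Sum.elim η γ : Fin p ⊕ Fin n → M) t) := by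
          funext t
          rcases t with t | t <;> rfl
        rw [h7]
        change aeval (algebraMap M (RatFunc M) ∘ (Sum.elim η γ : Fin p ⊕ Fin n → M)) (f i) = 0
        rw [MvPolynomial.aeval_algebraMap_apply, hγ i, map_zero]
      rw [h6, mul_zero]
    · intro a b _ _ ha hb
      rw [map_add, ha, hb, add_zero]
    · intro a b _ hb
      rw [smul_eq_mul, map_mul, hb, mul_zero]
  have h6 := card_le_of_dim_genG hI (γ := γ' ∘ Sum.inr) (fun g hg => by
    rw [← aeval_rename]
    exact h3 _ (mem_imI.1 hg)) h1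
  omega

/-- the same for a normalised point -/
theorem card_le_of_dimI_norm {M : Type*} [Field M] [Algebra k M] {r : ℕ}
    {d : Fin p → ℕ} {ι : Type*} {f : ι → MvPolynomial (Fin p ⊕ Fin n) k} {e : ι → ℕ}
    (hf : ∀ i, (f i).IsWeightedHomogeneous (wtP n d) (e i))
    (hI : ringKrullDim (MvPolynomial (Fin n) k ⧸ imI f) ≤ ((r + 1 : ℕ) : ℕ))
    {γ : Fin n → M} {η : Fin p → M} (hγ : ∀ i, aeval (Sum.elim η γ : Fin p ⊕ Fin n → M) (f i) = 0)
    {ξ : Fin n → ℕ} (hξ : ∑ j, (ξ j : M) * γ j = 1) {q : ℕ} {j : Fin q → Fin n}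
    (hj : AlgebraicIndependent k (fun i => γ (j i))) : q ≤ r := by
  have h1 := indep_scale hj
  set γ' : Fin p ⊕ Fin n → RatFunc M := Sum.elim
    (fun j => RatFunc.X ^ d j * algebraMap M (RatFunc M) (η j))
    (fun i => RatFunc.X * algebraMap M (RatFunc M) (γ i)) with hγ'
  have h2 : (Fin.cons RatFunc.X
      (fun i => RatFunc.X * algebraMap M (RatFunc M) (γ (j i))) : Fin (q + 1) → RatFunc M)
      = fun i => aeval (γ' ∘ Sum.inr) ((Fin.cons (∑ l : Fin n, C (ξ l : k) * X l)
          (fun i => X (j i)) : Fin (q + 1) → MvPolynomial (Fin n) k) i) := by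
    funext i
    refine Fin.cases ?_ (fun i => ?_) i
    · simp only [Fin.cons_zero, map_sum, map_mul, aeval_C, aeval_X, hγ', Function.comp,
        Sum.elim_inr]
      have h3 : algebraMap M (RatFunc M) (∑ l, (ξ l : M) * γ l) = 1 := by rw [hξ, map_one]
      rw [map_sum] at h3
      calc (RatFunc.X : RatFunc M) = RatFunc.X * 1 := (mul_one _).symm
        _ = RatFunc.X * ∑ l, algebraMap M (RatFunc M) ((ξ l : M) * γ l) := by rw [h3]
        _ = _ := by
          rw [Finset.mul_sum]
          refine Finset.sum_congr rfl fun l _ => ?_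
          rw [map_mul, map_natCast, map_natCast]
          ring
    · simp only [Fin.cons_succ, aeval_X, hγ', Function.comp, Sum.elim_inr]
  rw [h2] at h1
  have h3 : ∀ g ∈ Ideal.span (Set.range f), aeval γ' g = 0 := by
    intro g hg
    refine Submodule.span_induction (p := fun g _ => aeval γ' g = 0) ?_ (by simp) ?_ ?_ hg
    · rintro _ ⟨i, rfl⟩
      rw [hγ', aeval_scaleP (hf i)]
      have h6 : aeval (Sum.elim (fun j => algebraMap M (RatFunc M) (η j))
          (fun t => algebraMap M (RatFunc M) (γ t)) : Fin p ⊕ Fin n → RatFunc M) (f i) = 0 := by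
        have h7 : (Sum.elim (fun j => algebraMap M (RatFunc M) (η j))
            (fun t => algebraMap M (RatFunc M) (γ t)) : Fin p ⊕ Fin n → RatFunc M) =
            fun t => algebraMap M (RatFunc M) ((Sum.elim η γ : Fin p ⊕ Fin n → M) t) := by
          funext t
          rcases t with t | t <;> rfl
        rw [h7]
        change aeval (algebraMap M (RatFunc M) ∘ (Sum.elim η γ : Fin p ⊕ Fin n → M)) (f i) = 0
        rw [MvPolynomial.aeval_algebraMap_apply, hγ i, map_zero]
      rw [h6, mul_zero]
    · intro a b _ _ ha hb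
      rw [map_add, ha, hb, add_zero]
    · intro a b _ hb
      rw [smul_eq_mul, map_mul, hb, mul_zero]
  have h6 := card_le_of_dim_genG hI (γ := γ' ∘ Sum.inr) (fun g hg => by
    rw [← aeval_rename]
    exact h3 _ (mem_imI.1 hg)) h1
  omega

end

section

variable {L : Type*} [Field L] {n p : ℕ} {d : Fin p → ℕ}

/-- the vectors of the monomials in the blocks are independent -/
theorem xB_indep {x : Fin n → L} (hx : x ≠ 0) : LinearIndependent L (fun j => xB d j x) := by
  classical
  rw [Fintype.linearIndependent_iff]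
  intro g hg j
  have h1 := congrArg (resB j) hg
  rw [map_sum, map_zero, Finset.sum_eq_single j] at h1
  · rw [map_smul, resB_xB_self] at h1
    exact (smul_eq_zero.1 h1).resolve_right (xm_ne_zero hx)
  · intro i _ hi
    rw [map_smul, resB_xB_ne hi.symm, smul_zero]
  · intro h
    exact absurd (Finset.mem_univ _) h

theorem finrank_xsp {x : Fin n → L} (hx : x ≠ 0) : finrank L (xsp d x) = p := by
  unfold xsp
  rw [finrank_span_eq_card (xB_indep hx), Fintype.card_fin]

/-- the rank of a space which contains combinations of the vectors of the monomials -/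
theorem le_finrank_rel {V : Submodule L (ES n d → L)} {x : Fin n → L} (hx : x ≠ 0) {σ : Type*}
    {G : σ → Fin p → L} (hG : ∀ a, ∑ j, G a j • xB d j x ∈ V) {ρ : ℕ} {i : Fin ρ → σ}
    {jj : Fin ρ → Fin p} (hdet : (Matrix.of fun a b => G (i a) (jj b)).det ≠ 0) :
    ρ ≤ finrank L (V ⊓ xsp d x : Submodule L (ES n d → L)) := by
  classical
  let Φ : (Fin p → L) →ₗ[L] (ES n d → L) := Fintype.linearCombination L (fun j => xB d j x)
  have hΦ : ∀ c, Φ c = ∑ j, c j • xB d j x := fun c => rfl
  have hΦi : Function.Injective Φ := (xB_indep hx).fintypeLinearCombination_injective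
  have h1 : LinearIndependent L (fun a : Fin ρ => G (i a)) := by
    have h2 := Matrix.linearIndependent_rows_of_det_ne_zero hdet
    refine LinearIndependent.of_comp (LinearMap.funLeft L L jj) ?_
    exact h2
  have h2 : LinearIndependent L (fun a : Fin ρ => Φ (G (i a))) :=
    h1.map' Φ (LinearMap.ker_eq_bot.2 hΦi)
  have h3 := finrank_span_eq_card h2
  rw [Fintype.card_fin] at h3
  rw [← h3]
  refine Submodule.finrank_mono ?_
  rw [Submodule.span_le]
  rintro _ ⟨a, rfl⟩
  refine ⟨hG (i a), ?_⟩
  rw [SetLike.mem_coe]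
  show Φ (G (i a)) ∈ xsp d x
  rw [hΦ]
  exact Submodule.sum_mem _ fun j _ => Submodule.smul_mem _ _ (xB_mem_xsp x j)

/-- the chain rule for the rows -/
theorem rowD_aeval {E : Type*} {D : E → Derivation ℤ L L} {k : Type*} [Field k] [Algebra k L]
    (hD : ∀ s, ∀ u : k, D s (algebraMap k L u) = 0) {σ : Type*} [Fintype σ] (y : σ → L)
    (q : MvPolynomial σ k) :
    rowD D (aeval y q) = ∑ s, aeval y (pderiv s q) • rowD D (y s) := by
  funext K
  rw [Finset.sum_apply]
  exact der_aevalG (D K) (hD K) y q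

end

end Pool.Agent.Lib.MP_44a246_ntR
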