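import Mathlib
import Pool.Agent.Lib.MP_44a246_ntF.F17
import Pool.Agent.Lib.MP_44a246_ntR.R04
import Pool.Agent.Lib.MP_44a246_ntR.R05

/-!
The rank of the space of the rows in the span of the vectors of the monomials of a point.
-/

namespace Pool.Agent.Lib.MP_44a246_ntR

open Pool.Agent.Lib.MP_44a246_ntD
open Pool.Agent.Lib.MP_44a246_ntF
open Pool.Agent.Lib.MP_44a246_ntQ
open Pool.Agent.Lib.MP_44a246_nt
open Pool.Agent.Lib.MP_44a246_ntL
open Pool.Agent.Lib.MP_44a246_ntV
open Pool.Agent.Lib.MP_44a246_ntS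
open Pool.Agent.Lib.MP_44a246_ntX
open Pool.Agent.Lib.MP_44a246_ntG
open Pool.Agent.Lib.MP_44a246_ntU
open Pool.Agent.Lib.MP_44a246_ntK
open Pool.Agent.Lib.MP_e52354_nt
open WithZero Module MvPolynomial

/-- some minor of order `ρ` of the matrix of the derivatives with respect to the variables `t_j`
of the polynomials `g i` is not zero at the point -/
def JRank {k L : Type*} [Field k] [Field L] [Algebra k L] {n p : ℕ} {ι : Type*} (ρ : ℕ)
    (g : ι → MvPolynomial (Fin p ⊕ Fin n) k) (y : Fin p ⊕ Fin n → L) : Prop :=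
  ∃ (i : Fin ρ → ι) (j : Fin ρ → Fin p),
    (Matrix.of fun a b => aeval y (pderiv (Sum.inl (j b)) (g (i a)))).det ≠ 0

section

variable {κ L : Type*} [Field κ] [Field L] [Algebra κ L] {n p : ℕ} {d : Fin p → ℕ}
  (X : DatC κ (L := L) n d) {k₀ : Type*} [Field k₀] [Algebra k₀ L]

/-- **The rank of the rows** of a point. -/
theorem finrank_fU_leI [CharZero k₀]
    (hDk : ∀ s, s.2 ∈ expo (Fin (n + 1)) (d s.1) → ∀ u : k₀,
      X.D s (algebraMap k₀ L u) = 0) {r : ℕ}
    {ι : Type*} {f : ι → MvPolynomial (Fin p ⊕ Fin (n + 1)) k₀} {e : ι → ℕ}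
    (hf : ∀ i, (f i).IsWeightedHomogeneous (wtP (n + 1) d) (e i))
    (hI : ringKrullDim (MvPolynomial (Fin (n + 1)) k₀ ⧸ imI f) ≤ ((r + 1 : ℕ) : ℕ)) {η : Fin p → L}
    (hz : ∀ i, MvPolynomial.aeval (Sum.elim η X.x : Fin p ⊕ Fin (n + 1) → L) (f i) = 0) :
    finrank L (fU X) ≤ r := by
  classical
  obtain ⟨q, j, c, hq, hc⟩ := exists_der_comb (k := k₀) (γ := X.x) (r := r)
    fun q j hj => card_le_of_dimI_norm hf hI hz X.h0 hj
  have hrow : ∀ i, rowD (fD X) (X.x i) = ∑ t, c i t • rowD (fD X) (X.x (j t)) := by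
    intro i
    funext K
    rw [Finset.sum_apply]
    exact hc (fD X K) (fun u => hDk (K.1, K.2.1) K.2.2 u) i
  have hle : fU X ≤ Submodule.span L (Set.range fun t => rowD (fD X) (X.x (j t))) := by
    unfold fU
    rw [Submodule.span_le]
    rintro _ ⟨i, rfl⟩
    simp only [SetLike.mem_coe]
    rw [hrow i]
    exact Submodule.sum_mem _ fun t _ => Submodule.smul_mem _ _ (Submodule.subset_span ⟨t, rfl⟩)
  refine (Submodule.finrank_mono hle).trans ((finrank_range_le_card _).trans ?_)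
  rw [Fintype.card_fin]
  exact hq

/-- the rows of the values of the forms and the vectors of the monomials -/
theorem xB_sub_rowD_mem {V : Submodule L (ES (n + 1) d → L)} (hV : fU X ≤ V) {j : Fin p} {u w : L}
    (hv : X.v j = u + w) (hw : rowD (fD X) w ∈ V) : xB d j X.x - rowD (fD X) u ∈ V := by
  have h2 : xB d j X.x - rowD (fD X) (X.v j) ∈ V := by
    have h1 : xB d j X.x = rowD (fD X) (X.v j) -
        ∑ l, grad (d j) (X.a j) X.x l • rowD (fD X) (X.x l) := by
      funext s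
      obtain ⟨i, I⟩ := s
      rw [Pi.sub_apply, Finset.sum_apply]
      have h2 := D_Fval (d j) (X.a j) (fD X ⟨i, I⟩) X.x
      have h3 : ∑ J ∈ expo (Fin (n + 1)) (d j), fD X ⟨i, I⟩ (X.a j J) * mon X.x J =
          xB d j X.x ⟨i, I⟩ := by
        unfold xB
        rcases eq_or_ne i j with rfl | hij
        · simp only [if_true]
          rw [Finset.sum_eq_single I.1]
          · have h4 : fD X ⟨i, I⟩ (X.a i I.1) = 1 := by
              have h5 := X.hDa (i, I.1) I.2 (i, I.1) I.2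
              rw [if_pos rfl] at h5
              exact h5
            rw [h4, one_mul]
            rfl
          · intro J hJ hIJ
            have h4 : fD X ⟨i, I⟩ (X.a i J) = 0 := by
              have h5 := X.hDa (i, I.1) I.2 (i, J) hJ
              rw [if_neg (fun h => hIJ (congrArg Prod.snd h).symm)] at h5
              exact h5
            rw [h4, zero_mul]
          · intro h
            exact absurd I.2 h
        · simp only [if_neg hij]
          refine Finset.sum_eq_zero fun J hJ => ?_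
          have h4 : fD X ⟨i, I⟩ (X.a j J) = 0 := by
            have h5 := X.hDa (i, I.1) I.2 (j, J) hJ
            rw [if_neg (fun h => hij (congrArg Prod.fst h))] at h5
            exact h5
          rw [h4, zero_mul]
      rw [h3] at h2
      show xB d j X.x ⟨i, I⟩ = fD X ⟨i, I⟩ (Fval (d j) (X.a j) X.x) -
        ∑ l, grad (d j) (X.a j) X.x l * fD X ⟨i, I⟩ (X.x l)
      rw [h2]
      ring
    rw [h1, sub_sub_cancel_left]
    exact V.neg_mem (V.sum_mem fun l _ => V.smul_mem _ (hV (Submodule.subset_span ⟨l, rfl⟩)))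
  rw [hv, rowD_add] at h2
  have h3 : xB d j X.x - rowD (fD X) u =
      (xB d j X.x - (rowD (fD X) u + rowD (fD X) w)) + rowD (fD X) w := by
    rw [← sub_sub, sub_add_cancel]
  rw [h3]
  exact V.add_mem h2 hw

/-- a polynomial whose value has its row in the space gives a combination of the vectors of the
monomials in the space -/
theorem comb_mem (hDk : ∀ s, s.2 ∈ expo (Fin (n + 1)) (d s.1) → ∀ u : k₀,
      X.D s (algebraMap k₀ L u) = 0) {V : Submodule L (ES (n + 1) d → L)} (hV : fU X ≤ V)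
    {η : Fin p → L} (hη : ∀ j, xB d j X.x - rowD (fD X) (η j) ∈ V)
    {g : MvPolynomial (Fin p ⊕ Fin (n + 1)) k₀}
    (hg : rowD (fD X) (aeval (Sum.elim η X.x : Fin p ⊕ Fin (n + 1) → L) g) ∈ V) :
    ∑ j, aeval (Sum.elim η X.x : Fin p ⊕ Fin (n + 1) → L) (pderiv (Sum.inl j) g) •
      xB d j X.x ∈ V := by
  have h1 := rowD_aeval (D := fD X) (k := k₀) (fun s u => hDk (s.1, s.2.1) s.2.2 u)
    (Sum.elim η X.x : Fin p ⊕ Fin (n + 1) → L) g
  rw [Fintype.sum_sum_type] at h1
  simp only [Sum.elim_inl, Sum.elim_inr] at h1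
  have h2 : ∑ j, aeval (Sum.elim η X.x : Fin p ⊕ Fin (n + 1) → L) (pderiv (Sum.inl j) g) •
      xB d j X.x = rowD (fD X) (aeval (Sum.elim η X.x : Fin p ⊕ Fin (n + 1) → L) g) +
      ∑ j, aeval (Sum.elim η X.x : Fin p ⊕ Fin (n + 1) → L) (pderiv (Sum.inl j) g) •
        (xB d j X.x - rowD (fD X) (η j)) -
      ∑ l, aeval (Sum.elim η X.x : Fin p ⊕ Fin (n + 1) → L) (pderiv (Sum.inr l) g) •
        rowD (fD X) (X.x l) := by
    rw [h1]
    simp only [smul_sub, Finset.sum_sub_distrib]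
    abel
  rw [h2]
  refine V.sub_mem (V.add_mem hg (V.sum_mem fun j _ => V.smul_mem _ (hη j)))
    (V.sum_mem fun l _ => V.smul_mem _ (hV (Submodule.subset_span ⟨l, rfl⟩)))

/-- **The rank condition.** -/
theorem le_finrank_J (hDk : ∀ s, s.2 ∈ expo (Fin (n + 1)) (d s.1) → ∀ u : k₀,
      X.D s (algebraMap k₀ L u) = 0) {V : Submodule L (ES (n + 1) d → L)} (hV : fU X ≤ V)
    {η : Fin p → L} (hη : ∀ j, xB d j X.x - rowD (fD X) (η j) ∈ V) {σ : Type*}
    {g : σ → MvPolynomial (Fin p ⊕ Fin (n + 1)) k₀}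
    (hg : ∀ a, rowD (fD X) (aeval (Sum.elim η X.x : Fin p ⊕ Fin (n + 1) → L) (g a)) ∈ V)
    {ρ : ℕ} (hJ : JRank ρ g (Sum.elim η X.x : Fin p ⊕ Fin (n + 1) → L)) :
    ρ ≤ finrank L (V ⊓ xsp d X.x : Submodule L (ES (n + 1) d → L)) := by
  obtain ⟨i, j, hdet⟩ := hJ
  have hx0 : X.x ≠ 0 := by
    intro h1
    have h2 := X.h0
    rw [h1] at h2
    simp at h2
  exact le_finrank_rel hx0 (G := fun a j => aeval (Sum.elim η X.x : Fin p ⊕ Fin (n + 1) → L)
    (pderiv (Sum.inl j) (g a))) (fun a => comb_mem X hDk hV hη (hg a)) hdet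

/-- the case of a finite projection -/
theorem le_finrank_N {V : Submodule L (ES (n + 1) d → L)}
    {η : Fin p → L} (hη : ∀ j, xB d j X.x - rowD (fD X) (η j) ∈ V)
    (hr : ∀ j, rowD (fD X) (η j) ∈ V) :
    p ≤ finrank L (V ⊓ xsp d X.x : Submodule L (ES (n + 1) d → L)) := by
  have hx0 : X.x ≠ 0 := by
    intro h1
    have h2 := X.h0
    rw [h1] at h2
    simp at h2
  have h1 : xsp d X.x ≤ V := by
    unfold xsp
    rw [Submodule.span_le]
    rintro _ ⟨j, rfl⟩
    have h2 := V.add_mem (hη j) (hr j)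
    rwa [sub_add_cancel] at h2
  rw [inf_eq_right.2 h1, finrank_xsp hx0]

end

section

variable {k L : Type*} [Field k] [Field L] [Algebra k L] {n p : ℕ}

theorem isWeightedHomogeneous_pderiv {d : Fin p → ℕ} {g : MvPolynomial (Fin p ⊕ Fin n) k} {E : ℕ}
    (hg : g.IsWeightedHomogeneous (wtP n d) E) (j : Fin p) {c : L} (y : Fin p ⊕ Fin n → L) :
    c ^ d j * aeval (Sum.elim (fun j => c ^ d j * y (Sum.inl j)) (fun l => c * y (Sum.inr l)) :
      Fin p ⊕ Fin n → L) (pderiv (Sum.inl j) g) = c ^ E * aeval y (pderiv (Sum.inl j) g) := by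
  classical
  rw [← MvPolynomial.support_sum_monomial_coeff g]
  simp only [map_sum, Finset.mul_sum]
  refine Finset.sum_congr rfl fun I hI => ?_
  rw [pderiv_monomial]
  rcases eq_or_ne (I (Sum.inl j)) 0 with h0 | h0
  · rw [h0, Nat.cast_zero, mul_zero, monomial_zero, map_zero, map_zero, mul_zero, mul_zero]
  have h1 : Finsupp.weight (wtP n d) I = E := hg (mem_support_iff.1 hI)
  set I' := I - Finsupp.single (Sum.inl j) 1 with hI'
  have h2 : I = I' + Finsupp.single (Sum.inl j) 1 := by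
    rw [hI', tsub_add_cancel_of_le]
    rw [Finsupp.single_le_iff]
    omega
  have h3 : Finsupp.weight (wtP n d) I' + d j = E := by
    rw [← h1, h2, map_add]
    congr 1
    rw [Finsupp.weight_single]
    simp [wtP]
  rw [aeval_monomial, aeval_monomial, ← h3]
  have h4 : (I'.prod fun i k => (Sum.elim (fun j => c ^ d j * y (Sum.inl j))
      (fun l => c * y (Sum.inr l)) : Fin p ⊕ Fin n → L) i ^ k) =
      c ^ Finsupp.weight (wtP n d) I' * I'.prod fun i k => y i ^ k := by
    rw [Finsupp.weight_apply, Finsupp.sum_fintype _ _ (by simp),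
      Finsupp.prod_fintype _ _ (by simp), Finsupp.prod_fintype _ _ (by simp),
      ← Finset.prod_pow_eq_pow_sum, ← Finset.prod_mul_distrib]
    refine Finset.prod_congr rfl fun i _ => ?_
    rcases i with i | i
    · simp only [Sum.elim_inl, wtP, smul_eq_mul, mul_pow, ← pow_mul]
      rw [mul_comm (d i) (I' (Sum.inl i))]
    · simp only [Sum.elim_inr, wtP, smul_eq_mul, mul_pow, mul_one]
  rw [h4, pow_add]
  ring

/-- the rank condition and homotheties -/
theorem JRank.smul {d : Fin p → ℕ} {ι : Type*} {e : ι → ℕ} {ρ : ℕ}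
    {f : ι → MvPolynomial (Fin p ⊕ Fin n) k}
    (hf : ∀ i, (f i).IsWeightedHomogeneous (wtP n d) (e i)) {y : Fin p ⊕ Fin n → L}
    (h : JRank ρ f y) {c : L} (hc : c ≠ 0) :
    JRank ρ f (Sum.elim (fun j => c ^ d j * y (Sum.inl j)) (fun l => c * y (Sum.inr l)) :
      Fin p ⊕ Fin n → L) := by
  obtain ⟨i, j, hdet⟩ := h
  refine ⟨i, j, fun h0 => hdet ?_⟩
  set M : Matrix (Fin ρ) (Fin ρ) L := Matrix.of fun a b => aeval (Sum.elim
    (fun j => c ^ d j * y (Sum.inl j)) (fun l => c * y (Sum.inr l)) :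
      Fin p ⊕ Fin n → L) (pderiv (Sum.inl (j b)) (f (i a))) with hM
  have h1 : Matrix.diagonal (fun a => c ^ e (i a)) * (Matrix.of fun a b =>
      aeval y (pderiv (Sum.inl (j b)) (f (i a)))) = M * Matrix.diagonal (fun b => c ^ d (j b)) := by
    ext a b
    rw [Matrix.diagonal_mul, Matrix.mul_diagonal, Matrix.of_apply, hM, Matrix.of_apply,
      mul_comm _ (c ^ d (j b))]
    exact (isWeightedHomogeneous_pderiv (hf (i a)) (j b) y).symm
  have h2 := congrArg Matrix.det h1
  rw [Matrix.det_mul, Matrix.det_mul, h0, zero_mul, Matrix.det_diagonal, mul_eq_zero] at h2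
  refine h2.resolve_left ?_
  exact Finset.prod_ne_zero_iff.2 fun a _ => pow_ne_zero _ hc

/-- the rank condition in an extension -/
theorem JRank.map {M : Type*} [Field M] [Algebra k M] (φ : L →ₐ[k] M) {ι : Type*} {ρ : ℕ}
    {f : ι → MvPolynomial (Fin p ⊕ Fin n) k} {y : Fin p ⊕ Fin n → L}
    (h : JRank ρ f y) : JRank ρ f (fun s => φ (y s)) := by
  obtain ⟨i, j, hdet⟩ := h
  refine ⟨i, j, ?_⟩
  have h1 : (Matrix.of fun a b => aeval (fun s => φ (y s)) (pderiv (Sum.inl (j b)) (f (i a)))) =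
      φ.toRingHom.mapMatrix (Matrix.of fun a b => aeval y (pderiv (Sum.inl (j b)) (f (i a)))) := by
    ext a b
    rw [RingHom.mapMatrix_apply, Matrix.map_apply, Matrix.of_apply, Matrix.of_apply]
    exact (comp_aeval_apply (f := y) φ _).symm
  rw [h1, ← RingHom.map_det]
  intro h2
  exact hdet (φ.toRingHom.injective (h2.trans (map_zero _).symm))

end

end Pool.Agent.Lib.MP_44a246_ntR
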