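import Mathlib
import Pool.Agent.Lib.MP_44a246_ntL.LPoly
import Pool.Agent.Lib.MP_44a246_ntR.R06

/-!
The data over the base field for the height theorems: rows, logarithmic rows, rank condition.
-/

namespace Pool.Agent.Lib.MP_44a246_ntR

open Pool.Agent.Lib.MP_44a246_ntD
open Pool.Agent.Lib.MP_44a246_ntF
open Pool.Agent.Lib.MP_44a246_ntQ
open Pool.Agent.Lib.MP_44a246_nt
open Pool.Agent.Lib.MP_44a246_ntL
open Pool.Agent.Lib.MP_44a246_ntV
open Pool.Agent.Lib.MP_44a246_ntS
open Pool.Agent.Lib.MP_44a246_ntX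
open Pool.Agent.Lib.MP_44a246_ntG
open Pool.Agent.Lib.MP_44a246_ntU
open Pool.Agent.Lib.MP_44a246_ntZ
open Pool.Agent.Lib.MP_44a246_ntK
open Pool.Agent.Lib.MP_e52354_nt
open WithZero Module

universe u v w

section

variable {κ L : Type*} [Field κ] [IsAlgClosed κ] [CharZero κ] [Field L] [Algebra κ L]

/-- the places counted by the truncated counting function are finitely many -/
theorem trunc_finite (hL : IsFF κ L) {n : ℕ} {x : Fin (n + 1) → L} (hx : x ≠ 0) {Λ : Type*}
    [Finite Λ] {η : Λ → L} (hη : ∀ k, η k ≠ 0) (E : Λ → ℕ) :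
    {w : Place κ L | ∃ k, w.1 (η k) < vmax w.1 x ^ E k}.Finite := by
  have h1 : {w : Place κ L | ∃ k, w.1 (η k) < vmax w.1 x ^ E k} ⊆
      (⋃ k, {w : Place κ L | w.1 (η k) ≠ 1}) ∪
        Function.support (fun w : Place κ L => log (vmax w.1 x)) := by
    rintro w ⟨k, hk⟩
    by_contra hcon
    rw [Set.mem_union, not_or, Set.mem_iUnion, not_exists] at hcon
    obtain ⟨h2, h3⟩ := hcon
    have h4 : w.1 (η k) = 1 := not_not.1 (h2 k)
    have h5 : log (vmax w.1 x) = 0 := Function.notMem_support.1 h3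
    have h6 : vmax w.1 x = 1 := by
      rw [← exp_log (vmax_ne_zero w.1 hx), h5, exp_zero]
    rw [h4, h6, one_pow] at hk
    exact lt_irrefl _ hk
  exact ((Set.finite_iUnion fun k => hL.place_finite (hη k)).union
    (hL.vmax_support hx)).subset h1

end

/-- **The data over the base field.** -/
theorem exists_dataR {κ : Type u} {K : Type v} [Field κ] [IsAlgClosed κ] [CharZero κ] [Field K]
    [CharZero K] [Algebra κ K] (hK : IsFF κ K) (htr : Cardinal.aleph0 ≤ Algebra.trdeg ℚ κ)
    {k : Type*} [Field k] [CharZero k] [Algebra k K]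
    (hk : Algebra.trdeg ℚ k < Cardinal.aleph0) {n p r ρ : ℕ} {d : Fin p → ℕ}
    {Λ : Type*} [Fintype Λ] {ι : Type*} [Finite ι] {e : ι → ℕ}
    {f : ι → MvPolynomial (Fin p ⊕ Fin (n + 1)) k}
    (hf : ∀ i, (f i).IsWeightedHomogeneous (wtP (n + 1) d) (e i))
    (hI : ringKrullDim (MvPolynomial (Fin (n + 1)) k ⧸ imI f) ≤ ((r + 1 : ℕ) : ℕ))
    {g : Λ → MvPolynomial (Fin p ⊕ Fin (n + 1)) k} {E : Λ → ℕ}
    (hg : ∀ l, (g l).IsWeightedHomogeneous (wtP (n + 1) d) (E l))
    {S : Set (Place κ K)} (hS : S.Finite)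
    {a : Fin p → (Fin (n + 1) →₀ ℕ) → K} {G : Finset (Fin p × (Fin (n + 1) →₀ ℕ))}
    (ha : AlgebraicIndependent k (fun s : {s // s ∈ jexpo n d ∧ s ∉ G} => a s.1.1 s.1.2)) :
    ∃ (C : ℕ) (b : ↥G → κ), ∀ (L : Type w) [Field L] [Algebra K L] [FiniteDimensional K L]
      [Algebra κ L] [IsScalarTower κ K L] [Algebra k L] [IsScalarTower k K L]
      (x : Fin (n + 1) → L), x ≠ 0 →
      (∀ i, Fval (e i) (aWP d (fun j I => algebraMap K L (a j I)) f i) x = 0) →
      (∀ l, Fval (E l) (aWP d (fun j I => algebraMap K L (a j I)) g l) x ≠ 0) →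
      (JRank (ρ + Fintype.card Λ) (Sum.elim f g) (Sum.elim
        (fun j => Fval (d j) (fun I => algebraMap K L (a j I)) x) x : Fin p ⊕ Fin (n + 1) → L) ∨
        (Fintype.card Λ = 0 ∧ ρ = p ∧ NDegP f x)) →
      ∃ (Y : DatC κ (L := L) n d) (c' : L) (ε τ : Place κ L → ℕ) (η : Λ → L),
        c' ≠ 0 ∧ Y.x = (fun l => c' * x l) ∧ height κ Y.x = height κ x ∧
        Y.Δ ≤ C * finrank K L ∧ Y.R = ramDeg κ L K ∧ (∀ l, η l ≠ 0) ∧
        (Function.support ε).Finite ∧
        (∀ w : Place κ L, (∀ l, w.1 (η l) = vmax w.1 Y.x ^ E l) ∨ 1 ≤ ε w) ∧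
        (∑ᶠ w, (ε w : ℤ) ≤ Set.ncard {w : Place κ L |
          (∀ v ∈ S, ¬ (w.1.comap (algebraMap K L)).IsEquiv v.1) ∧
          ∃ l, w.1 (Fval (E l) (aWP d (fun j I => algebraMap K L (a j I)) g l) x) <
            vmax w.1 x ^ E l} + C * finrank K L) ∧
        ρ + Fintype.card Λ ≤ finrank L ((fU Y ⊔ fB Y (fun s : ↥G => algebraMap κ L (b s)) ⊔
          fL Y η) ⊓ xsp d Y.x : Submodule L (ES (n + 1) d → L)) ∧
        finrank L (fU Y) ≤ r ∧ (Function.support τ).Finite ∧
        ∑ᶠ w, (τ w : ℤ) ≤ C * finrank K L ∧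
        (∀ i, ∀ I ∈ expo (Fin (n + 1)) (e i), ∀ w : Place κ L,
          w.1 (aWP d (fun j I => algebraMap K L (a j I)) f i I) ≤ exp (τ w : ℤ)) ∧
        (∀ i, Fval (e i) (aWP d (fun j I => algebraMap K L (a j I)) f i) Y.x = 0) := by
  classical
  have := Fintype.ofFinite ι
  obtain ⟨b, hb0, hb⟩ := exists_modif (κ := κ) htr hk (jexpo n d) G
    (a := fun s => a s.1 s.2) ha
  obtain ⟨X, hXa, hXk⟩ := exists_baseS hK htr hk
    (a := fun s : Fin p × (Fin (n + 1) →₀ ℕ) => a s.1 s.2 + algebraMap κ K (b s)) hb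
  -- the poles of the coefficients
  let θ : Type _ := (Σ i : ι, ↥(expo (Fin (n + 1)) (e i)))
  obtain ⟨A, hAs, hA⟩ := Pool.Agent.Lib.MP_44a246_ntV.exists_polesA hK
    (fun t : θ => aWP d a f t.1 t.2.1)
  let θ' : Type _ := (Σ l : Λ, ↥(expo (Fin (n + 1)) (E l)))
  obtain ⟨A', hAs', hA'⟩ := Pool.Agent.Lib.MP_44a246_ntV.exists_polesA hK
    (fun t : θ' => aWP d a g t.1 t.2.1)
  obtain ⟨A₁, hA₁⟩ : ∃ A₁ : Place κ K → ℕ, A₁ = fun v => A' v + if v ∈ S then 1 else 0 := ⟨_, rfl⟩
  have hAs₁ : (Function.support A₁).Finite := by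
    refine (hAs'.union hS).subset fun v hv => ?_
    rw [Set.mem_union]
    by_contra hcon
    rw [not_or] at hcon
    refine hv ?_
    rw [hA₁]
    beta_reduce
    rw [Function.notMem_support.1 hcon.1, if_neg hcon.2, add_zero]
  refine ⟨(∑ᶠ v, X.B v) + (∑ᶠ v, A v) + ∑ᶠ v, A₁ v, fun s => b s.1, ?_⟩
  intro L _ _ _ _ _ _ _ x hx hfx hgx hne
  have hL : IsFF κ L := hK.of_finite
  have hchar : CharZero L := charZero_of_injective_algebraMap (algebraMap K L).injective
  obtain ⟨Y, c', hc, hYa, hYx, hYδ, hYρ, hYD⟩ := exists_datC X hK hx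
  obtain ⟨hA1, hA2⟩ := mason_sum_over hL hAs
  obtain ⟨hB1, hB2⟩ := mason_sum_over hL X.hB
  obtain ⟨hE1, hE2⟩ := mason_sum_over hL hAs₁
  have hτ : (Function.support fun w : Place κ L => ramIdx K w.1 * A (below K w)).Finite := by
    refine hA1.subset fun w hw h0 => hw ?_
    exact Int.natCast_eq_zero.1 h0
  have hε₁ : (Function.support fun w : Place κ L => ramIdx K w.1 * A₁ (below K w)).Finite := by
    refine hE1.subset fun w hw h0 => hw ?_
    exact Int.natCast_eq_zero.1 h0
  have hfx' : ∀ i, Fval (e i) (aWP d (fun j I => algebraMap K L (a j I)) f i) Y.x = 0 := by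
    intro i
    rw [hYx, Fval_smul, hfx i, mul_zero]
  set η : Fin p → L := fun j => Fval (d j) (fun I => algebraMap K L (a j I)) Y.x with hη
  set ηΛ : Λ → L := fun l => Fval (E l) (aWP d (fun j I => algebraMap K L (a j I)) g l) Y.x
    with hηΛ
  have hηx : ∀ l, ηΛ l = c' ^ E l *
      Fval (E l) (aWP d (fun j I => algebraMap K L (a j I)) g l) x := by
    intro l
    rw [hηΛ]
    beta_reduce
    rw [hYx, Fval_smul]
  have hηΛ0 : ∀ l, ηΛ l ≠ 0 := fun l => by
    rw [hηx]
    exact mul_ne_zero (pow_ne_zero _ hc) (hgx l)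
  have hzero : ∀ i, MvPolynomial.aeval (Sum.elim η Y.x : Fin p ⊕ Fin (n + 1) → L) (f i) = 0 := by
    intro i
    rw [← hfx' i, Fval_aWP' hf]
  have hval : ∀ l, MvPolynomial.aeval (Sum.elim η Y.x : Fin p ⊕ Fin (n + 1) → L) (g l) = ηΛ l := by
    intro l
    rw [hηΛ]
    beta_reduce
    rw [Fval_aWP' hg]
  have hDk : ∀ s, s.2 ∈ expo (Fin (n + 1)) (d s.1) → ∀ u : k, Y.D s (algebraMap k L u) = 0 := by
    intro s hs u
    rw [IsScalarTower.algebraMap_apply k K L, hYD, hXk s (mem_jexpo.2 hs) u, map_zero]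
  have hv : ∀ j, Y.v j = η j + Fval (d j) (fun I => algebraMap κ L (b (j, I))) Y.x := by
    intro j
    show Fval (d j) (Y.a j) Y.x = _
    rw [hη, hYa, hXa]
    unfold Fval
    rw [← Finset.sum_add_distrib]
    refine Finset.sum_congr rfl fun I _ => ?_
    show algebraMap K L (a j I + algebraMap κ K (b (j, I))) * mon Y.x I =
      algebraMap K L (a j I) * mon Y.x I + algebraMap κ L (b (j, I)) * mon Y.x I
    rw [map_add, add_mul, ← IsScalarTower.algebraMap_apply κ K L]
  set V : Submodule L (ES (n + 1) d → L) :=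
    fU Y ⊔ fB Y (fun s : ↥G => algebraMap κ L (b s.1)) ⊔ fL Y ηΛ with hV
  have hUV : fU Y ≤ V := le_sup_left.trans le_sup_left
  have hBV : fB Y (fun s : ↥G => algebraMap κ L (b s.1)) ≤ V := le_sup_right.trans le_sup_left
  have hLV : fL Y ηΛ ≤ V := le_sup_right
  have hrow : ∀ j, xB d j Y.x - rowD (fD Y) (η j) ∈ V := by
    intro j
    refine xB_sub_rowD_mem Y hUV (hv j) ?_
    refine rowD_Fval_mem Y (fun l => hUV (Submodule.subset_span ⟨l, rfl⟩)) fun I _ => ?_
    by_cases hI : (j, I) ∈ G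
    · exact hBV (Submodule.subset_span ⟨⟨(j, I), hI⟩, rfl⟩)
    · rw [hb0 _ hI, map_zero, rowD_zero]
      exact Submodule.zero_mem _
  have h3 : Y.R = ramDeg κ L K := by
    unfold DatC.R
    rw [hYρ]
    exact (mason_sum_ram (K := K) hL).2
  have h1 : height κ Y.x = height κ x := by
    rw [hYx]
    exact hL.height_smul hc
  have h2 : Y.Δ = ((∑ᶠ v, X.B v : ℕ) : ℤ) * Module.finrank K L := by
    unfold DatC.Δ
    rw [hYδ, ← hB2]
  have hfr : (0 : ℤ) ≤ Module.finrank K L := Int.natCast_nonneg _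
  have hC : ∀ u : ℕ, u ≤ (∑ᶠ v, X.B v) + (∑ᶠ v, A v) + ∑ᶠ v, A₁ v →
      (u : ℤ) * Module.finrank K L ≤
        (((∑ᶠ v, X.B v) + (∑ᶠ v, A v) + ∑ᶠ v, A₁ v : ℕ) : ℤ) * Module.finrank K L :=
    fun u hu => mul_le_mul_of_nonneg_right (by exact_mod_cast hu) hfr
  -- the places which are counted
  set T : Set (Place κ L) := {w : Place κ L |
    (∀ v ∈ S, ¬ (w.1.comap (algebraMap K L)).IsEquiv v.1) ∧
    ∃ l, w.1 (Fval (E l) (aWP d (fun j I => algebraMap K L (a j I)) g l) x) <
      vmax w.1 x ^ E l} with hT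
  have hTf : T.Finite := (trunc_finite hL hx hgx E).subset fun w hw => hw.2
  have hTsum : (Function.support fun w : Place κ L => ((if w ∈ T then 1 else 0 : ℕ) : ℤ)).Finite ∧
      ∑ᶠ w : Place κ L, ((if w ∈ T then 1 else 0 : ℕ) : ℤ) = T.ncard := by
    constructor
    · refine hTf.subset fun w hw => ?_
      by_contra hcon
      rw [Function.mem_support, if_neg hcon] at hw
      exact hw rfl
    · rw [finsum_eq_sum_of_support_subset (s := hTf.toFinset) _ (fun w hw => by
        rw [Set.Finite.coe_toFinset]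
        by_contra hcon
        rw [Function.mem_support, if_neg hcon] at hw
        exact hw rfl), Set.ncard_eq_toFinset_card T hTf, Finset.card_eq_sum_ones, Nat.cast_sum]
      refine Finset.sum_congr rfl fun w hw => ?_
      rw [Set.Finite.mem_toFinset] at hw
      rw [if_pos hw]
  set ε : Place κ L → ℕ := fun w => (if w ∈ T then 1 else 0) + ramIdx K w.1 * A₁ (below K w)
    with hε
  have hεf : (Function.support ε).Finite := by
    refine (hTf.union hε₁).subset fun w hw => ?_
    rw [Set.mem_union]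
    by_contra hcon
    rw [not_or] at hcon
    refine hw ?_
    rw [hε]
    beta_reduce
    rw [if_neg hcon.1, Function.notMem_support.1 hcon.2, add_zero]
  have hεsum : ∑ᶠ w, (ε w : ℤ) = T.ncard + ((∑ᶠ v, A₁ v : ℕ) : ℤ) * Module.finrank K L := by
    rw [← hE2, ← hTsum.2, ← finsum_add_distrib hTsum.1 hE1]
    refine finsum_congr fun w => ?_
    rw [hε]
    beta_reduce
    rw [Nat.cast_add]
  have hηε : ∀ w : Place κ L, (∀ l, w.1 (ηΛ l) = vmax w.1 Y.x ^ E l) ∨ 1 ≤ ε w := by
    intro w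
    rcases Nat.eq_zero_or_pos (ε w) with h0 | h0
    · left
      intro l
      rw [hε] at h0
      beta_reduce at h0
      obtain ⟨h4, h5⟩ := Nat.add_eq_zero_iff.1 h0
      have h6 : w ∉ T := by
        intro h6
        rw [if_pos h6] at h4
        exact one_ne_zero h4
      have h7 : A₁ (below K w) = 0 := by
        rcases Nat.mul_eq_zero.1 h5 with h | h
        · have := one_le_ramIdx (K := K) w.1 w.2.1
          omega
        · exact h
      rw [hA₁] at h7
      beta_reduce at h7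
      obtain ⟨h8, h9⟩ := Nat.add_eq_zero_iff.1 h7
      have h10 : below K w ∉ S := by
        intro h10
        rw [if_pos h10] at h9
        exact one_ne_zero h9
      have h11 : ∀ v ∈ S, ¬ (w.1.comap (algebraMap K L)).IsEquiv v.1 := by
        intro v hv h11
        rw [Pool.Agent.Lib.MP_44a246_ntL.below_equiv] at h11
        exact h10 (h11 ▸ hv)
      have h12 : ¬ w.1 (Fval (E l) (aWP d (fun j I => algebraMap K L (a j I)) g l) x) <
          vmax w.1 x ^ E l := fun h12 => h6 ⟨h11, l, h12⟩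
      have h13 : w.1 (Fval (E l) (aWP d (fun j I => algebraMap K L (a j I)) g l) x) ≤
          vmax w.1 x ^ E l := by
        unfold Fval
        refine Valuation.map_sum_le w.1 fun I hI => ?_
        rw [map_mul]
        have h14 : aWP d (fun j I => algebraMap K L (a j I)) g l I =
            algebraMap K L (aWP d a g l I) :=
          (map_aWP d a (algebraMap K L) (fun u =>
            (IsScalarTower.algebraMap_apply k K L u).symm) g l I).symm
        have h15 := coef_le A' (fun v => hA' ⟨l, ⟨I, hI⟩⟩ v) w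
        rw [h8, mul_zero, Nat.cast_zero, exp_zero] at h15
        rw [h14]
        refine (mul_le_mul' h15 ?_).trans (le_of_eq (one_mul _))
        have h16 : ∑ j, I j = E l := by
          have := mem_expo.1 hI
          rwa [Finsupp.degree_eq_sum] at this
        unfold mon
        rw [map_prod, ← h16, ← Finset.prod_pow_eq_pow_sum]
        refine Finset.prod_le_prod' fun j _ => ?_
        rw [map_pow]
        exact pow_le_pow_left₀ zero_le (le_vmax w.1 x j) _
      have h14 := le_antisymm h13 (not_lt.1 h12)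
      rw [hηx, map_mul, map_pow, h14, hYx]
      have h15 : vmax w.1 (fun l => c' * x l) = w.1 c' * vmax w.1 x := by
        have := vmax_smul w.1 c' x
        exact this
      rw [h15, mul_pow]
    · exact Or.inr h0
  refine ⟨Y, c', ε, fun w => ramIdx K w.1 * A (below K w), ηΛ, hc, hYx, h1, ?_, h3, hηΛ0, hεf,
    hηε, ?_, ?_, finrank_fU_leI Y hDk hf hI hzero, hτ, ?_, ?_, hfx'⟩
  · rw [h2]
    exact hC _ (by omega)
  · rw [hεsum]
    have h4 := hC (∑ᶠ v, A₁ v) (by omega)
    linarith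
  · rcases hne with hJ | ⟨hΛ, hρ, hN⟩
    · refine le_finrank_J Y hDk hUV hrow (g := Sum.elim f g) ?_ ?_
      · rintro (i | l)
        · rw [Sum.elim_inl, hzero i, rowD_zero]
          exact Submodule.zero_mem _
        · rw [Sum.elim_inr, hval l]
          have h4 : rowD (fD Y) (ηΛ l) = ηΛ l • lrowD (fD Y) (ηΛ l) := by
            funext s
            show fD Y s (ηΛ l) = ηΛ l * ((ηΛ l)⁻¹ * fD Y s (ηΛ l))
            rw [← mul_assoc, mul_inv_cancel₀ (hηΛ0 l), one_mul]
          rw [h4]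
          exact V.smul_mem _ (hLV (Submodule.subset_span ⟨l, rfl⟩))
      · have h4 := hJ.smul (e := Sum.elim e E) (d := d) (by
          rintro (i | l)
          · exact hf i
          · exact hg l) hc
        have h5 : (Sum.elim η Y.x : Fin p ⊕ Fin (n + 1) → L) = Sum.elim
            (fun j => c' ^ d j * (Sum.elim (fun j => Fval (d j) (fun I => algebraMap K L (a j I)) x)
              x : Fin p ⊕ Fin (n + 1) → L) (Sum.inl j))
            (fun l => c' * (Sum.elim (fun j => Fval (d j) (fun I => algebraMap K L (a j I)) x)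
              x : Fin p ⊕ Fin (n + 1) → L) (Sum.inr l)) := by
          funext s
          rcases s with j | l
          · simp only [Sum.elim_inl]
            rw [hη]
            beta_reduce
            rw [hYx, Fval_smul]
          · simp only [Sum.elim_inr]
            rw [hYx]
        rw [h5]
        exact h4
    · rw [hΛ, add_zero, hρ]
      have hneY : NDegP f Y.x := by
        rw [hYx]
        exact hN.smul hf hc
      exact le_finrank_N Y hrow fun j => hUV (rowD_mem_fU Y hDk hf hzero hneY j)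
  · rw [hA2]
    exact hC _ (by omega)
  · intro i I hI w
    have h1 : aWP d (fun j I => algebraMap K L (a j I)) f i I = algebraMap K L (aWP d a f i I) :=
      (map_aWP d a (algebraMap K L) (fun u =>
        (IsScalarTower.algebraMap_apply k K L u).symm) f i I).symm
    rw [h1]
    exact coef_le A (fun v => hA ⟨i, ⟨I, hI⟩⟩ v) w

end Pool.Agent.Lib.MP_44a246_ntR
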