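import Mathlib
import Pool.Agent.Lib.MP_44a246_ntR.GR3

/-!
A function field as a finite extension of the rational function field.
-/

namespace Pool.Agent.Lib.MP_44a246_ntR

open Pool.Agent.Lib.MP_44a246_nt Pool.Agent.Lib.MP_44a246_ntL
open WithZero Polynomial

variable {κ L : Type*} [Field κ] [IsAlgClosed κ] [CharZero κ] [Field L] [Algebra κ L]

omit [IsAlgClosed κ] [CharZero κ] in
/-- a function field of one variable is algebraic over the field generated by any of its
transcendental elements -/
theorem alg_over_adjoin (h : IsFF κ L) {f : L} (hf : Transcendental κ f) :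
    Algebra.IsAlgebraic (IntermediateField.adjoin κ {f}) L := by
  obtain ⟨t, ht, hfin⟩ := h
  have halg : Algebra.IsAlgebraic (Algebra.adjoin κ ({t} : Set L)) L := by
    have h1 : Algebra.IsAlgebraic (IntermediateField.adjoin κ {t}) L :=
      Algebra.IsAlgebraic.of_finite _ _
    refine ⟨fun x => ?_⟩
    exact IntermediateField.isAlgebraic_adjoin_iff.mp (h1.isAlgebraic x)
  have htr : Algebra.trdeg κ L ≤ 1 := by
    have h2 := Algebra.IsAlgebraic.trdeg_le_cardinalMk κ ({t} : Set L)
    simpa using h2
  let x : PUnit → L := fun _ => f
  have hx : AlgebraicIndependent κ x := by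
    rw [algebraicIndependent_unique_type_iff]
    exact hf
  have hb : IsTranscendenceBasis κ x := by
    apply hx.isTranscendenceBasis_of_trdeg_le_of_finite
    simpa using htr
  have h3 := hb.isAlgebraic_field
  have h4 : Set.range x = {f} := Set.range_const
  rw [h4] at h3
  exact h3

omit [IsAlgClosed κ] [CharZero κ] in
/-- a function field of one variable is finite over the field generated by any of its
transcendental elements -/
theorem finite_over_adjoin (h : IsFF κ L) {f : L} (hf : Transcendental κ f) :
    FiniteDimensional (IntermediateField.adjoin κ {f}) L := by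
  have halg := alg_over_adjoin h hf
  obtain ⟨t, ht, hfin⟩ := h
  have h1 : Algebra.EssFiniteType κ (IntermediateField.adjoin κ {t}) := by
    rw [IntermediateField.essFiniteType_iff]
    exact IntermediateField.fg_adjoin_of_finite (Set.finite_singleton t)
  have h2 : Algebra.EssFiniteType κ L :=
    Algebra.EssFiniteType.comp κ (IntermediateField.adjoin κ {t}) L
  have h3 : Algebra.EssFiniteType (IntermediateField.adjoin κ {f}) L :=
    Algebra.EssFiniteType.of_comp κ (IntermediateField.adjoin κ {f}) L
  exact Algebra.finite_of_essFiniteType_of_isAlgebraic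

/-- every transcendental element gives the structure of a finite extension of the rational
function field -/
theorem with_ratFunc (h : IsFF κ L) {f : L} (hf : Transcendental κ f) {P : Prop}
    (hP : ∀ (_ : Algebra (RatFunc κ) L) (_ : IsScalarTower κ (RatFunc κ) L)
      (_ : FiniteDimensional (RatFunc κ) L), algebraMap (RatFunc κ) L RatFunc.X = f → P) : P := by
  have hfd : FiniteDimensional (IntermediateField.adjoin κ {f}) L := finite_over_adjoin h hf
  let F₁ := IntermediateField.adjoin κ {f}
  let E := (RatFunc.algEquivOfTranscendental f hf).toRingEquiv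
  have hE : ∀ g : Polynomial κ, ((E (algebraMap _ _ g) : F₁) : L) = Polynomial.aeval f g := by
    intro g
    show ((RatFunc.algEquivOfTranscendental f hf (algebraMap _ _ g)) : L) = _
    rw [RatFunc.algEquivOfTranscendental_algebraMap]
    exact (Polynomial.aeval_algebraMap_apply L (IntermediateField.AdjoinSimple.gen _ f) g).symm
  let iK : Algebra (RatFunc κ) L := ((algebraMap F₁ L).comp (E : RatFunc κ →+* F₁)).toAlgebra
  have t3 : IsScalarTower κ (RatFunc κ) L := IsScalarTower.of_algebraMap_eq fun u => by
    have h5 := hE (Polynomial.C u)
    rw [Polynomial.aeval_C] at h5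
    exact h5.symm
  have hfin : FiniteDimensional (RatFunc κ) L :=
    Module.Finite.of_equiv_equiv (A₁ := F₁) (B₁ := L) E.symm (RingEquiv.refl L) (by
      ext x
      show algebraMap F₁ L (E (E.symm x)) = algebraMap F₁ L x
      rw [RingEquiv.apply_symm_apply])
  refine hP iK t3 hfin ?_
  have h6 := hE Polynomial.X
  rw [Polynomial.aeval_X, RatFunc.algebraMap_X] at h6
  exact h6

end Pool.Agent.Lib.MP_44a246_ntR
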