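import Mathlib
import Pool.Agent.Lib.MP_44a246_ntR.GDefs
import Pool.Agent.Lib.MP_44a246_ntL.LFF

/-!
The trace and the ramification.
-/

namespace Pool.Agent.Lib.MP_44a246_ntR

open Pool.Agent.Lib.MP_44a246_nt Pool.Agent.Lib.MP_44a246_ntL
open WithZero Polynomial

private theorem le_one_of_log {a : ℤᵐ⁰} (ha : a ≠ 0) (h : log a ≤ 0) : a ≤ 1 := by
  rw [← exp_log ha, ← exp_zero, exp_le_exp]
  exact h

private theorem log_nonpos' {a : ℤᵐ⁰} (ha : a ≠ 0) (h : a ≤ 1) : log a ≤ 0 := by
  rw [← log_one]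
  exact (log_le_log ha one_ne_zero).2 h

private theorem le_exp_of {a : ℤᵐ⁰} {m : ℤ} (h : exp (-(m + 1)) * a < 1) : a ≤ exp m := by
  by_cases ha : a = 0
  · rw [ha]
    exact zero_le
  · rw [← exp_log ha, ← exp_add, ← exp_zero, exp_lt_exp] at h
    rw [← exp_log ha, exp_le_exp]
    omega

section Red

variable {κ K : Type*} [Field κ] [Field K] [Algebra κ K]

private theorem pl_le (v : Place κ K) (c : κ) : v.1 (algebraMap κ K c) ≤ 1 := by
  by_cases hc : c = 0
  · rw [hc, map_zero, map_zero]; exact zero_le_one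
  · exact (v.2.2 c hc).le

private theorem pl_lt (v : Place κ K) {c : κ} (h : v.1 (algebraMap κ K c) < 1) : c = 0 := by
  by_contra hc
  rw [v.2.2 c hc] at h
  exact lt_irrefl _ h

variable [IsAlgClosed κ] [CharZero κ]

/-- reduction of polynomials -/
private theorem red (h : IsFF κ K) (v : Place κ K) (p : K[X]) (hp : ∀ i, v.1 (p.coeff i) ≤ 1) :
    ∃ q : κ[X], (∀ i, v.1 (p.coeff i - algebraMap κ K (q.coeff i)) < 1) ∧
      q.natDegree ≤ p.natDegree ∧
      ∀ c : κ, v.1 (p.eval (algebraMap κ K c) - algebraMap κ K (q.eval c)) < 1 := by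
  choose c hc using fun i => h.place_residue v (hp i)
  let q : κ[X] := ∑ i ∈ Finset.range (p.natDegree + 1), monomial i (c i)
  have hq : ∀ i, q.coeff i = if i < p.natDegree + 1 then c i else 0 := by
    intro i
    simp only [q, finsetSum_coeff, coeff_monomial]
    rw [Finset.sum_ite_eq' (Finset.range (p.natDegree + 1)) i]
    simp only [Finset.mem_range]
  have hqd : q.natDegree ≤ p.natDegree := by
    rw [natDegree_le_iff_coeff_eq_zero]
    intro i hi
    rw [hq, if_neg (by omega)]
  have h1 : ∀ i, v.1 (p.coeff i - algebraMap κ K (q.coeff i)) < 1 := by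
    intro i
    rw [hq]
    split_ifs with hi
    · exact hc i
    · rw [coeff_eq_zero_of_natDegree_lt (by omega), map_zero, sub_zero, map_zero]
      exact zero_lt_one
  refine ⟨q, h1, hqd, ?_⟩
  intro a
  rw [eval_eq_sum_range' (show p.natDegree < p.natDegree + 1 by omega),
    eval_eq_sum_range' (show q.natDegree < p.natDegree + 1 by omega), map_sum,
    ← Finset.sum_sub_distrib]
  refine v.1.map_sum_lt one_ne_zero fun i _ => ?_
  have h2 : p.coeff i * algebraMap κ K a ^ i - algebraMap κ K (q.coeff i * a ^ i) =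
      (p.coeff i - algebraMap κ K (q.coeff i)) * algebraMap κ K (a ^ i) := by
    rw [map_mul, map_pow]
    ring
  rw [h2, map_mul]
  calc v.1 (p.coeff i - algebraMap κ K (q.coeff i)) * v.1 (algebraMap κ K (a ^ i))
      ≤ v.1 (p.coeff i - algebraMap κ K (q.coeff i)) * 1 := by
        gcongr
        exact pl_le v _
    _ < 1 := by rw [mul_one]; exact h1 i

/-- a polynomial with integral values at the constants has integral coefficients -/
private theorem coeff_le (h : IsFF κ K) (v : Place κ K) (f : K[X])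
    (hf : ∀ c : κ, v.1 (f.eval (algebraMap κ K c)) ≤ 1) (i : ℕ) : v.1 (f.coeff i) ≤ 1 := by
  obtain ⟨i0, hi0, hmax⟩ := Finset.exists_max_image (Finset.range (f.natDegree + 1))
    (fun i => v.1 (f.coeff i)) ⟨0, by simp⟩
  have hmax' : ∀ i, v.1 (f.coeff i) ≤ v.1 (f.coeff i0) := by
    intro i
    by_cases hi : i < f.natDegree + 1
    · exact hmax i (Finset.mem_range.2 hi)
    · rw [coeff_eq_zero_of_natDegree_lt (by omega), map_zero]
      exact zero_le
  refine (hmax' i).trans ?_
  by_contra hcon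
  push Not at hcon
  have h0 : f.coeff i0 ≠ 0 := by
    intro h1
    rw [h1, map_zero] at hcon
    exact absurd hcon (not_lt.2 zero_le)
  have hv0 : v.1 (f.coeff i0) ≠ 0 := (v.1.ne_zero_iff).2 h0
  obtain ⟨q, h1, -, h2⟩ := red h v (C (f.coeff i0)⁻¹ * f) (by
    intro j
    rw [coeff_C_mul, map_mul, map_inv₀]
    calc (v.1 (f.coeff i0))⁻¹ * v.1 (f.coeff j) ≤ (v.1 (f.coeff i0))⁻¹ * v.1 (f.coeff i0) := by
          gcongr
          exact hmax' j
      _ = 1 := inv_mul_cancel₀ hv0)
  have hq0 : q = 0 := by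
    apply Polynomial.funext
    intro c
    rw [eval_zero]
    apply pl_lt v
    have h3 := h2 c
    have h4 : v.1 ((C (f.coeff i0)⁻¹ * f).eval (algebraMap κ K c)) < 1 := by
      rw [eval_mul, eval_C, map_mul, map_inv₀]
      calc (v.1 (f.coeff i0))⁻¹ * v.1 (f.eval (algebraMap κ K c)) ≤ (v.1 (f.coeff i0))⁻¹ * 1 := by
            gcongr
            exact hf c
        _ < 1 := by
            rw [mul_one]
            exact inv_lt_one_of_one_lt₀ hcon
    have h5 : algebraMap κ K (q.eval c) = (C (f.coeff i0)⁻¹ * f).eval (algebraMap κ K c) -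
        ((C (f.coeff i0)⁻¹ * f).eval (algebraMap κ K c) - algebraMap κ K (q.eval c)) := by ring
    rw [h5]
    exact v.1.map_sub_lt h4 h3
  have h6 := h1 i0
  rw [hq0, coeff_zero, map_zero, sub_zero, coeff_C_mul, inv_mul_cancel₀ h0, map_one] at h6
  exact lt_irrefl _ h6

/-- a monic polynomial whose reduction has no root except zero -/
private theorem coeff_lt (h : IsFF κ K) (v : Place κ K) (f : K[X]) (hm : f.Monic)
    (hf : ∀ c : κ, v.1 (f.eval (algebraMap κ K c)) ≤ 1)
    (hf1 : ∀ c : κ, c ≠ 0 → v.1 (f.eval (algebraMap κ K c)) = 1) {i : ℕ} (hi : i < f.natDegree) :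
    v.1 (f.coeff i) < 1 := by
  obtain ⟨q, h1, h2, h3⟩ := red h v f (coeff_le h v f hf)
  have hq1 : q.coeff f.natDegree = 1 := by
    have h4 := h1 f.natDegree
    rw [hm.coeff_natDegree, ← (algebraMap κ K).map_one, ← map_sub] at h4
    have h5 := pl_lt v h4
    exact (sub_eq_zero.1 h5).symm
  have hqm : q.Monic := monic_of_natDegree_le_of_coeff_eq_one _ h2 hq1
  have hqd : q.natDegree = f.natDegree := by
    apply le_antisymm h2
    apply le_natDegree_of_ne_zero
    rw [hq1]
    exact one_ne_zero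
  have hroot : ∀ c, q.eval c = 0 → c = 0 := by
    intro c hc
    by_contra hc0
    have h4 := h3 c
    rw [hc, map_zero, sub_zero, hf1 c hc0] at h4
    exact lt_irrefl _ h4
  have hqX : q = X ^ f.natDegree := by
    have h4 : q.roots = Multiset.replicate (Multiset.card q.roots) 0 := by
      rw [Multiset.eq_replicate_card]
      intro c hc
      exact hroot c (Polynomial.isRoot_of_mem_roots hc)
    have h5 := (IsAlgClosed.splits q).eq_prod_roots_of_monic hqm
    rw [h4] at h5
    rw [h5, ← hqd]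
    have h6 : Multiset.card q.roots = q.natDegree := IsAlgClosed.card_roots_eq_natDegree
    rw [h6]
    simp
  have h7 := h1 i
  rw [hqX, coeff_X_pow, if_neg hi.ne, map_zero, sub_zero] at h7
  exact h7

end Red

variable {κ K L : Type*} [Field κ] [IsAlgClosed κ] [CharZero κ] [Field K] [Algebra κ K]
  [Field L] [Algebra κ L] [Algebra K L] [IsScalarTower κ K L] [FiniteDimensional K L]

private theorem norm_form (h : IsFF κ K) (v : Place κ K) :
    ∃ S : Finset (Place κ L), (∀ w, w ∈ S ↔ below K w = v) ∧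
    (∀ y : L, y ≠ 0 → log (v.1 (Algebra.norm K y)) = ∑ w ∈ S, log (w.1 y)) := by
  refine (h.of_finite (L := L)).ind ?_
  intro _ _ _ _ _ _ _ _ _
  obtain ⟨S, h1, h2, -⟩ := local_main (L := L) v
  exact ⟨S, h1, h2⟩

/-- the trace of an element with small values at the places above -/
theorem trace_lt (h : IsFF κ K) (v : Place κ K) {z : L}
    (hz : ∀ w : Place κ L, below K w = v → w.1 z < 1) : v.1 (Algebra.trace K L z) < 1 := by
  classical
  by_cases hz0 : z = 0
  · rw [hz0, map_zero, map_zero]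
    exact zero_lt_one
  obtain ⟨S, hS, hN⟩ := norm_form (L := L) h v
  obtain ⟨T, ⟨w0, hw0⟩, hT, -⟩ := (h.of_finite (L := L)).exists_over v
  have hw0' : below K w0 = v := (hT w0).1 hw0
  let b := Module.finBasis K L
  set M := Algebra.leftMulMatrix b z with hM
  have hn : 0 < Module.finrank K L := Module.finrank_pos
  have hne : Nonempty (Fin (Module.finrank K L)) := ⟨⟨0, hn⟩⟩
  have heval : ∀ c : κ, M.charpoly.eval (algebraMap κ K c) =
      Algebra.norm K (algebraMap κ L c - z) := by
    intro c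
    rw [Matrix.eval_charpoly, Algebra.norm_eq_matrix_det b, map_sub,
      IsScalarTower.algebraMap_apply κ K L, AlgHom.commutes]
    rfl
  have h1 : ∀ c : κ, c ≠ 0 → v.1 (M.charpoly.eval (algebraMap κ K c)) = 1 := by
    intro c hc
    have hw : ∀ w : Place κ L, below K w = v → w.1 (algebraMap κ L c - z) = 1 := by
      intro w hw
      have h2 : w.1 z < w.1 (algebraMap κ L c) := by
        rw [w.2.2 c hc]
        exact hz w hw
      rw [Valuation.map_sub_eq_of_lt_left _ h2, w.2.2 c hc]
    have hy0 : algebraMap κ L c - z ≠ 0 := by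
      intro h3
      have h4 := hw w0 hw0'
      rw [h3, map_zero] at h4
      exact zero_ne_one h4
    have h5 := hN _ hy0
    rw [Finset.sum_eq_zero (fun w hw' => by rw [hw w ((hS w).1 hw'), log_one])] at h5
    rw [heval]
    have h6 : v.1 (Algebra.norm K (algebraMap κ L c - z)) ≠ 0 :=
      (v.1.ne_zero_iff).2 (Algebra.norm_ne_zero_iff.2 hy0)
    rw [← exp_log h6, h5, exp_zero]
  have h0 : ∀ c : κ, v.1 (M.charpoly.eval (algebraMap κ K c)) ≤ 1 := by
    intro c
    by_cases hc : c = 0
    · subst hc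
      rw [heval]
      have hy0 : algebraMap κ L 0 - z ≠ 0 := by
        rw [map_zero, zero_sub]
        exact neg_ne_zero.2 hz0
      have h6 : v.1 (Algebra.norm K (algebraMap κ L 0 - z)) ≠ 0 :=
        (v.1.ne_zero_iff).2 (Algebra.norm_ne_zero_iff.2 hy0)
      apply le_one_of_log h6
      rw [hN _ hy0]
      refine Finset.sum_nonpos fun w hw => ?_
      have h7 : w.1 (algebraMap κ L 0 - z) ≠ 0 := (w.1.ne_zero_iff).2 hy0
      apply log_nonpos' h7
      rw [map_zero, zero_sub, Valuation.map_neg]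
      exact (hz w ((hS w).1 hw)).le
    · exact (h1 c hc).le
  have hd : M.charpoly.natDegree = Module.finrank K L := by
    rw [Matrix.charpoly_natDegree_eq_dim, Fintype.card_fin]
  have h8 := coeff_lt h v M.charpoly M.charpoly_monic h0 h1
    (i := Fintype.card (Fin (Module.finrank K L)) - 1) (by
      rw [hd, Fintype.card_fin]
      omega)
  rw [Algebra.trace_eq_matrix_trace b, Matrix.trace_eq_neg_charpoly_coeff, Valuation.map_neg]
  exact h8

/-- the poles of the trace -/
theorem trace_le (h : IsFF κ K) (v : Place κ K) {y : L} {m : ℤ}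
    (hy : ∀ w : Place κ L, below K w = v →
      w.1 y ≤ exp ((ramIdx K w.1 : ℤ) * m + ((ramIdx K w.1 - 1 : ℕ) : ℤ))) :
    v.1 (Algebra.trace K L y) ≤ exp m := by
  obtain ⟨π, hπ⟩ := v.2.1 (exp (-1 : ℤ))
  have hπ0 : π ≠ 0 := by
    rintro rfl
    rw [map_zero] at hπ
    exact exp_ne_zero hπ.symm
  set s : K := π ^ (m + 1) with hs
  have hvs : v.1 s = exp (-(m + 1)) := by
    rw [hs, map_zpow₀, hπ, ← exp_zsmul]
    congr 1
    simp
  have hs0 : s ≠ 0 := zpow_ne_zero _ hπ0
  have h1 : v.1 (Algebra.trace K L (s • y)) < 1 := by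
    apply trace_lt h v
    intro w hw
    have he := one_le_ramIdx (K := K) w.1 w.2.1
    rw [Algebra.smul_def, map_mul, below_pow, hw, hvs, ← exp_nsmul]
    calc exp (ramIdx K w.1 • -(m + 1)) * w.1 y
        ≤ exp (ramIdx K w.1 • -(m + 1)) *
          exp ((ramIdx K w.1 : ℤ) * m + ((ramIdx K w.1 - 1 : ℕ) : ℤ)) := by
          gcongr
          exact hy w hw
      _ = exp (-1) := by
          rw [← exp_add]
          congr 1
          rw [nsmul_eq_mul, Nat.cast_sub he]
          push_cast
          ring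
      _ < 1 := by
          rw [← exp_zero, exp_lt_exp]
          norm_num
  rw [map_smul, smul_eq_mul, map_mul, hvs] at h1
  exact le_exp_of h1

end Pool.Agent.Lib.MP_44a246_ntR
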