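import Mathlib

/-!
Spaces of vectors of rational functions whose products are polynomials of bounded degree.
-/

namespace Pool.Agent.Lib.MP_44a246_ntR

open Polynomial

variable {κ : Type*} [Field κ]

/-- polynomials of degree at most `N`, as rational functions -/
def PN (N : ℕ) (z : RatFunc κ) : Prop :=
  ∃ p : κ[X], p.natDegree ≤ N ∧ algebraMap κ[X] (RatFunc κ) p = z

/-- A space of polynomials whose nonzero elements have degree in `[m, m + k)`. -/
private theorem finrank_le_of_degrees {A : Submodule κ κ[X]} {m k : ℕ}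
    (h : ∀ p ∈ A, p ≠ 0 → m ≤ p.natDegree ∧ p.natDegree < m + k) : Module.finrank κ A ≤ k := by
  let φ : A →ₗ[κ] (Fin k → κ) :=
    LinearMap.pi fun i : Fin k => (Polynomial.lcoeff κ (m + i)).comp A.subtype
  have hφ : Function.Injective φ := by
    rw [injective_iff_map_eq_zero]
    rintro ⟨p, hp⟩ hp0
    by_contra hne
    have hne' : p ≠ 0 := fun h0 => hne (Subtype.ext h0)
    obtain ⟨h1, h2⟩ := h p hp hne'
    have h3 := congrFun hp0 ⟨p.natDegree - m, by omega⟩
    have h4 : p.coeff (m + (p.natDegree - m)) = 0 := h3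
    rw [Nat.add_sub_cancel' h1] at h4
    exact hne' (Polynomial.leadingCoeff_eq_zero.1 h4)
  have := LinearMap.finrank_le_finrank_of_injective hφ
  simpa using this

/-- Clearing denominators. -/
private theorem clear_den (A : Submodule κ (RatFunc κ)) [FiniteDimensional κ A] :
    ∃ (q : κ[X]) (A' : Submodule κ κ[X]), q ≠ 0 ∧ Module.finrank κ A' = Module.finrank κ A ∧
      ∀ p ∈ A', ∃ a ∈ A, algebraMap κ[X] (RatFunc κ) p = algebraMap κ[X] (RatFunc κ) q * a := by
  obtain ⟨S, hS⟩ : A.FG := Module.Finite.iff_fg.1 inferInstance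
  obtain ⟨q, hq⟩ := IsLocalization.exist_integer_multiples_of_finset (nonZeroDivisors κ[X]) S
  have hq0 : (q : κ[X]) ≠ 0 := nonZeroDivisors.ne_zero q.2
  let Q : RatFunc κ := algebraMap κ[X] (RatFunc κ) q
  have hQ0 : Q ≠ 0 := by
    intro h
    exact hq0 ((FaithfulSMul.algebraMap_eq_zero_iff κ[X] (RatFunc κ)).1 h)
  let M : RatFunc κ →ₗ[κ] RatFunc κ := LinearMap.mulLeft κ Q
  have hM : Function.Injective M := fun a b h => mul_left_cancel₀ hQ0 h
  let F : κ[X] →ₗ[κ] RatFunc κ := (IsScalarTower.toAlgHom κ κ[X] (RatFunc κ)).toLinearMap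
  have hF : Function.Injective F := IsFractionRing.injective κ[X] (RatFunc κ)
  have hle : A.map M ≤ LinearMap.range F := by
    rw [← hS, Submodule.map_span, Submodule.span_le]
    rintro _ ⟨a, ha, rfl⟩
    obtain ⟨p, hp⟩ := hq a ha
    refine ⟨p, ?_⟩
    change algebraMap κ[X] (RatFunc κ) p = Q * a
    rw [hp, Algebra.smul_def]
  refine ⟨q, (A.map M).comap F, hq0, ?_, ?_⟩
  · have h1 : ((A.map M).comap F).map F = A.map M := by
      rw [Submodule.map_comap_eq, inf_eq_right]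
      exact hle
    have h2 := (Submodule.equivMapOfInjective F hF ((A.map M).comap F)).finrank_eq
    have h3 := (Submodule.equivMapOfInjective M hM A).finrank_eq
    rw [h2, h1, ← h3]
  · rintro p ⟨a, ha, hp⟩
    exact ⟨a, ha, hp.symm⟩

theorem dim_one {A B : Submodule κ (RatFunc κ)} [FiniteDimensional κ A] [FiniteDimensional κ B]
    (hA : A ≠ ⊥) (hB : B ≠ ⊥) {N : ℕ} (h : ∀ a ∈ A, ∀ b ∈ B, PN N (a * b)) :
    Module.finrank κ A + Module.finrank κ B ≤ N + 2 := by
  obtain ⟨q, A', hq, hA', hqA⟩ := clear_den A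
  obtain ⟨r, B', hr, hB', hrB⟩ := clear_den B
  have key : ∀ α ∈ A', α ≠ 0 → ∀ β ∈ B', β ≠ 0 →
      q.natDegree + r.natDegree ≤ α.natDegree + β.natDegree ∧
      α.natDegree + β.natDegree ≤ q.natDegree + r.natDegree + N := by
    intro α hα hα0 β hβ hβ0
    obtain ⟨a, ha, h1⟩ := hqA α hα
    obtain ⟨b, hb, h2⟩ := hrB β hβ
    obtain ⟨p, hpN, hp⟩ := h a ha b hb
    have h3 : α * β = q * r * p := by
      apply IsFractionRing.injective κ[X] (RatFunc κ)
      rw [map_mul, map_mul, map_mul, h1, h2, hp]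
      ring
    have hp0 : p ≠ 0 := by
      rintro rfl
      rw [mul_zero] at h3
      exact (mul_ne_zero hα0 hβ0) h3
    have h4 := congrArg Polynomial.natDegree h3
    rw [Polynomial.natDegree_mul hα0 hβ0, Polynomial.natDegree_mul (mul_ne_zero hq hr) hp0,
      Polynomial.natDegree_mul hq hr] at h4
    omega
  have hne : ∀ (C : Submodule κ (RatFunc κ)) (C' : Submodule κ κ[X]) [FiniteDimensional κ C],
      C ≠ ⊥ → Module.finrank κ C' = Module.finrank κ C → ∃ γ ∈ C', γ ≠ 0 := by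
    intro C C' _ hC hCC
    apply (Submodule.ne_bot_iff C').1
    rintro rfl
    apply hC
    rw [finrank_bot] at hCC
    exact Submodule.finrank_eq_zero.1 hCC.symm
  obtain ⟨α₀, hα₀, hα₀'⟩ := hne A A' hA hA'
  obtain ⟨β₀, hβ₀, hβ₀'⟩ := hne B B' hB hB'
  let TA : Set ℕ := {d | ∃ α ∈ A', α ≠ 0 ∧ α.natDegree = d}
  let TB : Set ℕ := {d | ∃ β ∈ B', β ≠ 0 ∧ β.natDegree = d}
  have hTA : TA.Nonempty := ⟨_, α₀, hα₀, hα₀', rfl⟩
  have hTB : TB.Nonempty := ⟨_, β₀, hβ₀, hβ₀', rfl⟩
  have bA : BddAbove TA := ⟨q.natDegree + r.natDegree + N, by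
    rintro _ ⟨α, h1, h2, rfl⟩
    have := (key α h1 h2 β₀ hβ₀ hβ₀').2
    omega⟩
  have bB : BddAbove TB := ⟨q.natDegree + r.natDegree + N, by
    rintro _ ⟨β, h1, h2, rfl⟩
    have := (key α₀ hα₀ hα₀' β h1 h2).2
    omega⟩
  obtain ⟨α₁, a1, a2, a3⟩ := Nat.sSup_mem hTA bA
  obtain ⟨β₁, b1, b2, b3⟩ := Nat.sSup_mem hTB bB
  obtain ⟨α₂, a4, a5, a6⟩ := Nat.sInf_mem hTA
  obtain ⟨β₂, b4, b5, b6⟩ := Nat.sInf_mem hTB
  have e1 := (key α₁ a1 a2 β₁ b1 b2).2
  have e2 := (key α₂ a4 a5 β₂ b4 b5).1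
  have mA : sInf TA ≤ sSup TA := Nat.sInf_le ⟨α₁, a1, a2, a3⟩
  have mB : sInf TB ≤ sSup TB := Nat.sInf_le ⟨β₁, b1, b2, b3⟩
  have f1 : Module.finrank κ A' ≤ sSup TA - sInf TA + 1 := by
    apply finrank_le_of_degrees (m := sInf TA)
    intro p hp hp0
    have g1 : p.natDegree ∈ TA := ⟨p, hp, hp0, rfl⟩
    have g2 := Nat.sInf_le g1
    have g3 := le_csSup bA g1
    omega
  have f2 : Module.finrank κ B' ≤ sSup TB - sInf TB + 1 := by
    apply finrank_le_of_degrees (m := sInf TB)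
    intro p hp hp0
    have g1 : p.natDegree ∈ TB := ⟨p, hp, hp0, rfl⟩
    have g2 := Nat.sInf_le g1
    have g3 := le_csSup bB g1
    omega
  omega

private theorem finrank_split {M M₁ M₂ : Type*} [AddCommGroup M] [Module κ M] [AddCommGroup M₁]
    [Module κ M₁] [AddCommGroup M₂] [Module κ M₂] (V : Submodule κ M) [FiniteDimensional κ V]
    (f : M →ₗ[κ] M₁) (g : M →ₗ[κ] M₂) (h : ∀ x, f x = 0 → g x = 0 → x = 0) :
    Module.finrank κ V = Module.finrank κ (V.map f) +
      Module.finrank κ ((V ⊓ LinearMap.ker f).map g) := by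
  have h1 := LinearMap.finrank_range_add_finrank_ker (f.domRestrict V)
  rw [LinearMap.range_domRestrict] at h1
  rw [← h1]
  congr 1
  have hinj : Function.Injective ((g ∘ₗ V.subtype).domRestrict
      (LinearMap.ker (f.domRestrict V))) := by
    rw [injective_iff_map_eq_zero]
    rintro ⟨⟨x, hx⟩, hx1⟩ hx2
    have : x = 0 := h x hx1 hx2
    subst this
    rfl
  have h2 := LinearMap.finrank_range_of_inj hinj
  rw [LinearMap.range_domRestrict] at h2
  have h3 : (LinearMap.ker (f.domRestrict V)).map (g ∘ₗ V.subtype) =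
      (V ⊓ LinearMap.ker f).map g := by
    ext y
    constructor
    · rintro ⟨⟨x, hx⟩, hx1, rfl⟩
      exact ⟨x, ⟨hx, hx1⟩, rfl⟩
    · rintro ⟨x, ⟨hx, hx1⟩, rfl⟩
      exact ⟨⟨x, hx⟩, hx1, rfl⟩
  rw [h3] at h2
  exact h2.symm

theorem dim_dot {n : ℕ} {V W : Submodule κ (Fin n → RatFunc κ)} [FiniteDimensional κ V]
    [FiniteDimensional κ W] {N : ℕ} (h : ∀ v ∈ V, ∀ w ∈ W, PN N (v ⬝ᵥ w))
    (hV : ∀ i, Pi.single i 1 ∈ V) {q : RatFunc κ} (hq : q ≠ 0) (hW : ∀ i, Pi.single i q ∈ W) :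
    Module.finrank κ V + Module.finrank κ W ≤ n * (N + 2) := by
  induction n with
  | zero =>
    have h1 : Module.finrank κ V = 0 := Module.finrank_zero_of_subsingleton
    have h2 : Module.finrank κ W = 0 := Module.finrank_zero_of_subsingleton
    omega
  | succ n ih =>
    let f : (Fin (n + 1) → RatFunc κ) →ₗ[κ] RatFunc κ := LinearMap.proj 0
    let g : (Fin (n + 1) → RatFunc κ) →ₗ[κ] (Fin n → RatFunc κ) :=
      LinearMap.funLeft κ (RatFunc κ) Fin.succ
    have hfg : ∀ x : Fin (n + 1) → RatFunc κ, f x = 0 → g x = 0 → x = 0 := by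
      intro x h1 h2
      funext i
      refine Fin.cases h1 (fun j => ?_) i
      exact congrFun h2 j
    have hdot : ∀ v w : Fin (n + 1) → RatFunc κ, v ⬝ᵥ w = f v * f w + g v ⬝ᵥ g w := by
      intro v w
      rw [dotProduct, Fin.sum_univ_succ]
      rfl
    have hfs : ∀ x : RatFunc κ, f (Pi.single 0 x) = x := fun x => by
      change (Pi.single 0 x : Fin (n + 1) → RatFunc κ) 0 = x
      simp
    have hgs : ∀ x : RatFunc κ, g (Pi.single 0 x) = 0 := fun x => by
      funext j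
      change (Pi.single 0 x : Fin (n + 1) → RatFunc κ) j.succ = 0
      simp
    have hfs' : ∀ (i : Fin n) (x : RatFunc κ), f (Pi.single i.succ x) = 0 := fun i x => by
      change (Pi.single i.succ x : Fin (n + 1) → RatFunc κ) 0 = 0
      rw [Pi.single_eq_of_ne (Fin.succ_ne_zero i).symm]
    have hgs' : ∀ (i : Fin n) (x : RatFunc κ), g (Pi.single i.succ x) = Pi.single i x :=
      fun i x => by
        funext j
        change (Pi.single i.succ x : Fin (n + 1) → RatFunc κ) j.succ =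
          (Pi.single i x : Fin n → RatFunc κ) j
        by_cases hij : j = i
        · subst hij
          simp
        · rw [Pi.single_eq_of_ne hij, Pi.single_eq_of_ne (fun h => hij (Fin.succ_injective _ h))]
    have e1 := finrank_split V f g hfg
    have e2 := finrank_split W g f (fun x h1 h2 => hfg x h2 h1)
    have d1 : Module.finrank κ (V.map f) +
        Module.finrank κ ((W ⊓ LinearMap.ker g).map f) ≤ N + 2 := by
      apply dim_one
      · rw [Submodule.ne_bot_iff]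
        exact ⟨1, ⟨_, hV 0, hfs 1⟩, one_ne_zero⟩
      · rw [Submodule.ne_bot_iff]
        exact ⟨q, ⟨_, ⟨hW 0, hgs q⟩, hfs q⟩, hq⟩
      · rintro _ ⟨v, hv, rfl⟩ _ ⟨w, ⟨hw, hw0⟩, rfl⟩
        have h1 := h v hv w hw
        have hw0' : g w = 0 := hw0
        rwa [hdot, hw0', dotProduct_zero, add_zero] at h1
    have d2 : Module.finrank κ ((V ⊓ LinearMap.ker f).map g) +
        Module.finrank κ (W.map g) ≤ n * (N + 2) := by
      apply ih
      · rintro _ ⟨v, ⟨hv, hv0⟩, rfl⟩ _ ⟨w, hw, rfl⟩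
        have h1 := h v hv w hw
        have hv0' : f v = 0 := hv0
        rwa [hdot, hv0', zero_mul, zero_add] at h1
      · intro i
        exact ⟨_, ⟨hV i.succ, hfs' i 1⟩, hgs' i 1⟩
      · intro i
        exact ⟨_, hW i.succ, hgs' i q⟩
    rw [e1, e2]
    have : (n + 1) * (N + 2) = n * (N + 2) + (N + 2) := by ring
    omega

end Pool.Agent.Lib.MP_44a246_ntR
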