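import Mathlib
import Pool.Agent.Lib.MP_44a246_ntR.GR4
import Pool.Agent.Lib.MP_44a246_ntR.GR7
import Pool.Agent.Lib.MP_44a246_ntR.GR8

/-!
The bound for the ramification by the genus.
-/

set_option linter.unusedSectionVars false

namespace Pool.Agent.Lib.MP_44a246_ntR

open Pool.Agent.Lib.MP_44a246_nt Pool.Agent.Lib.MP_44a246_ntL
open WithZero Polynomial

variable {κ L : Type*} [Field κ] [Field L] [Algebra κ L] [Algebra (RatFunc κ) L]
  [IsScalarTower κ (RatFunc κ) L] [IsAlgClosed κ] [CharZero κ] [FiniteDimensional (RatFunc κ) L]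

omit [IsAlgClosed κ] [CharZero κ] in
/-- the place at infinity -/
private theorem exists_infty : ∃ v : Place κ (RatFunc κ), v.1 RatFunc.X = exp 1 ∧
    ∀ p : κ[X], p ≠ 0 → v.1 (algebraMap κ[X] (RatFunc κ) p) = exp (p.natDegree : ℤ) := by
  classical
  refine ⟨⟨RatFunc.inftyValuation κ, ?_, ?_⟩, RatFunc.inftyValuation.X κ, fun p hp =>
    RatFunc.inftyValuation.polynomial κ hp⟩
  · intro a
    rcases eq_or_ne a 0 with h | h
    · exact ⟨0, by rw [h, map_zero]⟩
    · refine ⟨RatFunc.X ^ (log a), ?_⟩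
      rw [RatFunc.inftyValuation.X_zpow, exp_log h]
  · intro c hc
    rw [RatFunc.algebraMap_eq_C]
    exact RatFunc.inftyValuation.C κ hc

/-- rational functions with poles only at infinity -/
theorem pn_of_places {z : RatFunc κ} {N : ℕ}
    (h : ∀ v : Place κ (RatFunc κ), v.1 z ≤ exp ((N : ℤ) * max 0 (log (v.1 RatFunc.X)))) :
    PN N z := by
  have h1 : ∀ P : IsDedekindDomain.HeightOneSpectrum κ[X], P.valuation (RatFunc κ) z ≤ 1 := by
    intro P
    have h2 := h (placeOf κ (RatFunc κ) P)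
    have h3 : (placeOf κ (RatFunc κ) P).1 (RatFunc.X : RatFunc κ) ≤ 1 := by
      have h5 : P.valuation (RatFunc κ) (algebraMap κ[X] (RatFunc κ) X) ≤ 1 :=
        P.valuation_le_one X
      rwa [RatFunc.algebraMap_X] at h5
    have h4 : log ((placeOf κ (RatFunc κ) P).1 (RatFunc.X : RatFunc κ)) ≤ 0 := by
      have h5 := (log_le_log ((Valuation.ne_zero_iff _).mpr RatFunc.X_ne_zero) one_ne_zero).2 h3
      rwa [log_one] at h5
    rw [max_eq_left h4, mul_zero, exp_zero] at h2
    exact h2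
  obtain ⟨p, hp⟩ := IsDedekindDomain.HeightOneSpectrum.mem_integers_of_valuation_le_one
    (RatFunc κ) z h1
  refine ⟨p, ?_, hp⟩
  rcases eq_or_ne p 0 with h0 | h0
  · rw [h0, natDegree_zero]
    exact Nat.zero_le _
  obtain ⟨v, hv1, hv2⟩ := exists_infty (κ := κ)
  have h2 := h v
  rw [← hp, hv2 p h0, hv1, log_exp, exp_le_exp] at h2
  have h3 : max (0:ℤ) 1 = 1 := by norm_num
  rw [h3, mul_one] at h2
  exact_mod_cast h2

omit [Algebra κ L] [IsScalarTower κ (RatFunc κ) L] [IsAlgClosed κ] [CharZero κ]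
  [FiniteDimensional (RatFunc κ) L] in
private theorem pL_ne_zero {p : κ[X]} (hp : p ≠ 0) : pL κ L p ≠ 0 := by
  unfold pL
  rw [Ne, map_eq_zero, ← map_zero (algebraMap κ[X] (RatFunc κ))]
  exact fun h => hp (IsFractionRing.injective κ[X] (RatFunc κ) h)

private theorem clear_family {P : Place κ L →₀ ℤ} (hP : IsPole P) {ι : Type} [Fintype ι]
    (y : ι → L) (hy : ∀ i, y i ≠ 0) :
    ∃ p : κ[X], p ≠ 0 ∧ ∃ m : ℕ, ∀ i, pL κ L p * y i ∈ rr (m • P) := by
  classical
  have hFF := isFF_of_ratFunc κ L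
  let D : ι → Place κ L →₀ ℤ := fun i =>
    Finsupp.onFinset (hFF.place_support (hy i)).toFinset (fun v => max 0 (log (v.1 (y i)))) (by
      intro v hv
      rw [Set.Finite.mem_toFinset, Function.mem_support]
      intro h
      exact hv (by rw [h]; rfl))
  have hD : ∀ i v, D i v = max 0 (log (v.1 (y i))) := fun i v => rfl
  obtain ⟨p, hp, m, hm⟩ := clear_poles hP (∑ i, D i)
  refine ⟨p, hp, m, fun i v => ?_⟩
  have hpL : pL κ L p ≠ 0 := pL_ne_zero hp
  have h1 := hm v
  have h2 : D i v ≤ (∑ i, D i) v := by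
    rw [Finsupp.finsetSum_apply]
    exact Finset.single_le_sum (f := fun j => D j v) (fun j _ => by
      simp only [hD]
      exact le_max_left _ _) (Finset.mem_univ i)
  have h3 : log (v.1 (y i)) ≤ D i v := by
    rw [hD]
    exact le_max_right _ _
  rw [map_mul, ← exp_log ((Valuation.ne_zero_iff v.1).2 hpL),
    ← exp_log ((Valuation.ne_zero_iff v.1).2 (hy i)), ← exp_add, exp_le_exp, Finsupp.smul_apply,
    nsmul_eq_mul]
  linarith

private theorem trace_pn {P : Place κ L →₀ ℤ} (hP : IsPole P) {R : Place κ L →₀ ℤ}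
    (hR : ∀ w : Place κ L, R w = ((ramIdx (RatFunc κ) w.1 - 1 : ℕ) : ℤ)) {m m' : ℕ} {x y : L}
    (hx : x ∈ rr (m • P)) (hy : y ∈ rr (m' • P + R)) :
    PN (m + m') (Algebra.trace (RatFunc κ) L (x * y)) := by
  apply pn_of_places
  intro v
  apply trace_le (isFF_ratFunc κ) v
  intro w hw
  have h1 := hx w
  have h2 := hy w
  have h3 : P w = (ramIdx (RatFunc κ) w.1 : ℤ) * max 0 (log (v.1 RatFunc.X)) := by
    rw [hP w]
    have h4 : w.1 (tL κ L) = v.1 RatFunc.X ^ ramIdx (RatFunc κ) w.1 := by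
      rw [← hw]
      exact below_pow w _
    rw [h4, log_pow, nsmul_eq_mul, mul_max_of_nonneg _ _ (Nat.cast_nonneg _), mul_zero]
  rw [map_mul]
  refine (mul_le_mul' h1 h2).trans ?_
  rw [← exp_add, exp_le_exp, Finsupp.add_apply, Finsupp.smul_apply, Finsupp.smul_apply, nsmul_eq_mul,
    nsmul_eq_mul, h3, hR]
  push_cast
  apply le_of_eq
  ring

variable (κ L) in
private theorem exists_ramDiv : ∃ R : Place κ L →₀ ℤ,
    (∀ w : Place κ L, R w = ((ramIdx (RatFunc κ) w.1 - 1 : ℕ) : ℤ)) ∧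
      divDeg R = ramDeg κ L (RatFunc κ) := by
  classical
  have hFF := isFF_of_ratFunc κ L
  have hfin : {v : Place κ L | ramIdx (RatFunc κ) v.1 ≠ 1}.Finite := hFF.ramIdx_finite
  have hs : ∀ v : Place κ L, ramIdx (RatFunc κ) v.1 - 1 ≠ 0 → v ∈ hfin.toFinset := by
    intro v hv
    rw [Set.Finite.mem_toFinset]
    intro h
    rw [h] at hv
    exact hv rfl
  refine ⟨Finsupp.onFinset hfin.toFinset (fun w => ((ramIdx (RatFunc κ) w.1 - 1 : ℕ) : ℤ))
    (fun v hv => hs v (by exact_mod_cast hv)), fun w => rfl, ?_⟩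
  unfold divDeg ramDeg
  rw [Finsupp.onFinset_sum _ (fun _ => rfl), finsum_eq_sum_of_support_subset (s := hfin.toFinset)]
  · push_cast
    rfl
  · intro v hv
    exact hs v hv

omit [Algebra (RatFunc κ) L] [IsScalarTower κ (RatFunc κ) L] [IsAlgClosed κ] [CharZero κ]
  [FiniteDimensional (RatFunc κ) L] in
private theorem divDeg_nsmul (m : ℕ) (D : Place κ L →₀ ℤ) : divDeg (m • D) = m * divDeg D := by
  induction m with
  | zero =>
    rw [zero_smul, Nat.cast_zero, zero_mul]
    rfl
  | succ m ih =>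
    rw [succ_nsmul, divDeg_add, ih]
    push_cast
    ring

variable (κ L) in
theorem ramDeg_le : (ramDeg κ L (RatFunc κ) : ℤ) ≤
    2 * genus κ L - 2 + 2 * Module.finrank (RatFunc κ) L := by
  classical
  have hFF := isFF_of_ratFunc κ L
  obtain ⟨P, hP⟩ := exists_pole κ L
  obtain ⟨R, hR, hRdeg⟩ := exists_ramDiv κ L
  have hR0 : 0 ≤ R := fun w => by
    rw [hR]
    exact Nat.cast_nonneg _
  set n := Module.finrank (RatFunc κ) L with hn
  let b0 : Module.Basis (Fin n) (RatFunc κ) L := Module.finBasis (RatFunc κ) L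
  obtain ⟨p, hp, m, hpm⟩ := clear_family hP b0 (fun i => b0.ne_zero i)
  have hp' : algebraMap κ[X] (RatFunc κ) p ≠ 0 := by
    intro h
    rw [← map_zero (algebraMap κ[X] (RatFunc κ))] at h
    exact hp (IsFractionRing.injective κ[X] (RatFunc κ) h)
  let b : Module.Basis (Fin n) (RatFunc κ) L :=
    b0.map (LinearEquiv.smulOfNeZero (RatFunc κ) L _ hp')
  have hb : ∀ i, b i = pL κ L p * b0 i := by
    intro i
    rw [Module.Basis.map_apply, LinearEquiv.smulOfNeZero_apply, Algebra.smul_def]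
    rfl
  have hbm : ∀ i, b i ∈ rr (m • P) := fun i => by
    rw [hb]
    exact hpm i
  have hB : (Algebra.traceForm (RatFunc κ) L).Nondegenerate := traceForm_nondegenerate _ _
  let bd := (Algebra.traceForm (RatFunc κ) L).dualBasis hB b
  obtain ⟨q, hq, m', hqm⟩ := clear_family hP bd (fun i => bd.ne_zero i)
  have hq' : algebraMap κ[X] (RatFunc κ) q ≠ 0 := by
    intro h
    rw [← map_zero (algebraMap κ[X] (RatFunc κ))] at h
    exact hq (IsFractionRing.injective κ[X] (RatFunc κ) h)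
  let φ : L ≃ₗ[κ] (Fin n → RatFunc κ) := b.equivFun.restrictScalars κ
  let ψ : L ≃ₗ[κ] (Fin n → RatFunc κ) := bd.equivFun.restrictScalars κ
  have hdot : ∀ x y, φ x ⬝ᵥ ψ y = Algebra.trace (RatFunc κ) L (x * y) := by
    intro x y
    have h1 : ∀ i, ψ y i = Algebra.trace (RatFunc κ) L (y * b i) := fun i =>
      LinearMap.BilinForm.dualBasis_repr_apply hB b y i
    have h2 : ∑ i, φ x i • b i = x := b.sum_equivFun x
    have h3 : Algebra.trace (RatFunc κ) L (x * y) =
        Algebra.trace (RatFunc κ) L (y * ∑ i, φ x i • b i) := by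
      rw [h2, mul_comm]
    rw [h3, Finset.mul_sum, map_sum]
    unfold dotProduct
    refine Finset.sum_congr rfl fun i _ => ?_
    rw [h1, mul_smul_comm, map_smul, smul_eq_mul]
  let V : Submodule κ (Fin n → RatFunc κ) := (rr (m • P)).map (φ : L →ₗ[κ] (Fin n → RatFunc κ))
  let W : Submodule κ (Fin n → RatFunc κ) :=
    (rr (m' • P + R)).map (ψ : L →ₗ[κ] (Fin n → RatFunc κ))
  have f1 : FiniteDimensional κ (rr (m • P)) := finite_rr hFF _
  have f2 : FiniteDimensional κ (rr (m' • P + R)) := finite_rr hFF _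
  have f3 : FiniteDimensional κ V := inferInstance
  have f4 : FiniteDimensional κ W := inferInstance
  have e1 : Module.finrank κ V = Module.finrank κ (rr (m • P)) := LinearEquiv.finrank_map_eq φ _
  have e2 : Module.finrank κ W = Module.finrank κ (rr (m' • P + R)) :=
    LinearEquiv.finrank_map_eq ψ _
  have h := dim_dot (V := V) (W := W) (N := m + m') (by
      rintro v ⟨x, hx, rfl⟩ w ⟨y, hy, rfl⟩
      have h1 : PN (m + m') (φ x ⬝ᵥ ψ y) := by
        rw [hdot]
        exact trace_pn hP hR hx hy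
      exact h1)
    (fun i => ⟨b i, hbm i, by
      show b.equivFun (b i) = _
      funext j
      rw [Module.Basis.equivFun_self, Pi.single_apply]
      simp [eq_comm]⟩) hq'
    (fun i => ⟨pL κ L q * bd i, rr_mono (le_add_of_nonneg_right hR0) (hqm i), by
      show bd.equivFun (pL κ L q * bd i) = _
      have h1 : pL κ L q * bd i = (algebraMap κ[X] (RatFunc κ) q) • bd i := by
        rw [Algebra.smul_def]
        rfl
      rw [h1, map_smul]
      funext j
      rw [Pi.single_apply, Pi.smul_apply, smul_eq_mul, Module.Basis.equivFun_self]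
      by_cases hij : i = j
      · simp [hij]
      · simp [hij, Ne.symm hij]⟩)
  have g1 := genus_spec hFF (m • P)
  have g2 := genus_spec hFF (m' • P + R)
  rw [divDeg_nsmul, hP.deg] at g1
  rw [divDeg_add, divDeg_nsmul, hP.deg, hRdeg] at g2
  rw [e1, e2] at h
  have h' : ((Module.finrank κ (rr (m • P)) : ℤ) + Module.finrank κ (rr (m' • P + R))) ≤
      n * ((m + m' : ℕ) + 2) := by exact_mod_cast h
  push_cast at h'
  rw [← hn] at g1 g2
  linarith

end Pool.Agent.Lib.MP_44a246_ntR
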