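import Mathlib
import Pool.Agent.Lib.MP_44a246_ntR.GR4
import Pool.Agent.Lib.MP_44a246_ntR.GR5

/-!
The bound for the gonality by the genus.
-/

namespace Pool.Agent.Lib.MP_44a246_ntR

open Pool.Agent.Lib.MP_44a246_nt Pool.Agent.Lib.MP_44a246_ntL
open WithZero Polynomial

variable {κ L : Type*} [Field κ] [IsAlgClosed κ] [CharZero κ] [Field L] [Algebra κ L]

omit [CharZero κ] in
private theorem const_of_algebraic {f : L} (hf : IsAlgebraic κ f) :
    ∃ c : κ, algebraMap κ L c = f := by
  have h1 : (minpoly κ f).degree = 1 :=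
    IsAlgClosed.degree_eq_one_of_irreducible κ (minpoly.irreducible hf.isIntegral)
  obtain ⟨c, hc⟩ := minpoly.mem_range_of_degree_eq_one κ f h1
  exact ⟨c, hc⟩

theorem exists_gon (h : IsFF κ L) :
    ∃ f : L, Transcendental κ f ∧ height κ ![1, f] ≤ genus κ L + 1 := by
  classical
  obtain ⟨P0⟩ := exists_place h
  set g := genus κ L with hg
  set D : Place κ L →₀ ℤ := Finsupp.single P0 ((g : ℤ) + 1) with hD
  have h1 : (2 : ℤ) ≤ Module.finrank κ (rr D) := by
    have h2 := genus_spec h D
    rw [hD, divDeg_single] at h2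
    rw [← hD] at h2
    omega
  have := finite_rr h D
  obtain ⟨f, hf, hfc⟩ : ∃ f ∈ rr D, ¬ ∃ c : κ, algebraMap κ L c = f := by
    by_contra hcon
    push Not at hcon
    have h2 : rr D ≤ Submodule.span κ {(1 : L)} := by
      intro f hf
      obtain ⟨c, hc⟩ := hcon f hf
      rw [Submodule.mem_span_singleton]
      exact ⟨c, by rw [Algebra.smul_def, mul_one, hc]⟩
    have h3 := Submodule.finrank_mono h2
    have h4 : Module.finrank κ (Submodule.span κ {(1 : L)}) ≤ 1 := by
      have := finrank_span_le_card (R := κ) ({(1 : L)} : Set L)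
      simpa using this
    omega
  refine ⟨f, fun hf' => hfc (const_of_algebraic hf'), ?_⟩
  have hD0 : ∀ v, 0 ≤ D v := by
    intro v
    rw [hD, Finsupp.single_apply]
    split_ifs <;> omega
  have hx : (![1, f] : Fin 2 → L) ≠ 0 := by
    intro h0
    have := congrFun h0 0
    simp at this
  have hsum : ∑ᶠ v : Place κ L, D v = (g : ℤ) + 1 := by
    rw [finsum_eq_single _ P0]
    · rw [hD, Finsupp.single_eq_same]
    · intro v hv
      rw [hD, Finsupp.single_eq_of_ne hv]
  rw [← hsum]
  unfold height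
  refine finsum_mono (h.vmax_support hx) ?_ ?_
  · exact (Finsupp.hasFiniteSupport D)
  · intro v
    have h5 : vmax v.1 ![1, f] ≤ exp (D v) := by
      rw [vmax_pair]
      refine max_le ?_ (hf v)
      rw [← exp_zero]
      exact exp_le_exp.mpr (hD0 v)
    have h6 : vmax v.1 ![1, f] ≠ 0 := by
      rw [Ne, vmax_eq_zero_iff]
      exact hx
    have h7 := (log_le_log h6 (exp_ne_zero)).2 h5
    rwa [log_exp] at h7

end Pool.Agent.Lib.MP_44a246_ntR
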