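import Mathlib
import Pool.Agent.Lib.MP_44a246_ntR.R07

/-!
The height theorem over the base field, with logarithmic rows: points of large height lie on lines.
-/

namespace Pool.Agent.Lib.MP_44a246_ntR

open Pool.Agent.Lib.MP_44a246_ntD
open Pool.Agent.Lib.MP_44a246_ntF
open Pool.Agent.Lib.MP_44a246_ntQ
open Pool.Agent.Lib.MP_44a246_nt
open Pool.Agent.Lib.MP_44a246_ntL
open Pool.Agent.Lib.MP_44a246_ntV
open Pool.Agent.Lib.MP_44a246_ntS
open Pool.Agent.Lib.MP_44a246_ntX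
open Pool.Agent.Lib.MP_44a246_ntG
open Pool.Agent.Lib.MP_44a246_ntU
open Pool.Agent.Lib.MP_44a246_ntZ
open Pool.Agent.Lib.MP_44a246_ntK
open Pool.Agent.Lib.MP_e52354_nt
open WithZero Module

universe u v w

/-- **The height theorem over the base field**: points of large height lie on lines. -/
theorem heightR_base {κ : Type u} {K : Type v} [Field κ] [IsAlgClosed κ] [CharZero κ] [Field K]
    [CharZero K] [Algebra κ K] (hK : IsFF κ K) (htr : Cardinal.aleph0 ≤ Algebra.trdeg ℚ κ)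
    {k : Type*} [Field k] [CharZero k] [Algebra k K]
    (hk : Algebra.trdeg ℚ k < Cardinal.aleph0) {n p r ρ c s m P Q : ℕ} {d : Fin p → ℕ}
    (hr1 : 1 ≤ r) (hd1 : ∀ j, 1 ≤ d j)
    {Λ : Type*} [Fintype Λ] (hρ1 : 1 ≤ ρ + Fintype.card Λ)
    (hms : ∀ A : Finset (Fin p), A.card = ρ + Fintype.card Λ → m + s ≤ ∑ j ∈ A, d j)
    (hN : 3 * r + 3 + c ≤ 2 * m + ρ) (hpm : p + 3 ≤ m + ρ)
    (hC : r + p + 2 ≤ m ∨ 2 * r + c + 2 ≤ m + ρ ∨ 3 * r + 4 + c ≤ 2 * m + ρ)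
    (hQ : (p + 6) * (m + ρ) + 2 * p * m + Q = (m + ρ) ^ 2 + 9 + 5 * p)
    {ι : Type*} [Finite ι] {e : ι → ℕ}
    (he : ∀ i, 2 * p * s * (e i + 1) < Q ∨ 2 * p * (e i + 1) ≤ P ∨ 2 * r + c + 2 ≤ m + ρ)
    {f : ι → MvPolynomial (Fin p ⊕ Fin (n + 1)) k}
    (hf : ∀ i, (f i).IsWeightedHomogeneous (wtP (n + 1) d) (e i))
    (hI : ringKrullDim (MvPolynomial (Fin (n + 1)) k ⧸ imI f) ≤ ((r + 1 : ℕ) : ℕ))
    {g : Λ → MvPolynomial (Fin p ⊕ Fin (n + 1)) k} {E : Λ → ℕ}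
    (hg : ∀ l, (g l).IsWeightedHomogeneous (wtP (n + 1) d) (E l))
    {S : Set (Place κ K)} (hS : S.Finite)
    {a : Fin p → (Fin (n + 1) →₀ ℕ) → K} {G : Finset (Fin p × (Fin (n + 1) →₀ ℕ))}
    (hcc : G.card ≤ c)
    (ha : AlgebraicIndependent k (fun s : {s // s ∈ jexpo n d ∧ s ∉ G} => a s.1.1 s.1.2)) :
    ∃ C : ℕ, ∀ (L : Type w) [Field L] [Algebra K L] [FiniteDimensional K L]
      [Algebra κ L] [IsScalarTower κ K L] [Algebra k L] [IsScalarTower k K L]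
      (x : Fin (n + 1) → L), x ≠ 0 →
      (∀ i, Fval (e i) (aWP d (fun j I => algebraMap K L (a j I)) f i) x = 0) →
      (∀ l, Fval (E l) (aWP d (fun j I => algebraMap K L (a j I)) g l) x ≠ 0) →
      (JRank (ρ + Fintype.card Λ) (Sum.elim f g) (Sum.elim
        (fun j => Fval (d j) (fun I => algebraMap K L (a j I)) x) x : Fin p ⊕ Fin (n + 1) → L) ∨
        (Fintype.card Λ = 0 ∧ ρ = p ∧ NDegP f x)) →
      s * height κ x < Set.ncard {w : Place κ L |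
          (∀ v ∈ S, ¬ (w.1.comap (algebraMap K L)).IsEquiv v.1) ∧
          ∃ l, w.1 (Fval (E l) (aWP d (fun j I => algebraMap K L (a j I)) g l) x) <
            vmax w.1 x ^ E l} + ramDeg κ L K ∨
        (Q : ℤ) * height κ x ≤ C * finrank K L + P * ramDeg κ L K ∨
        OnLine e (aWP d (fun j I => algebraMap K L (a j I)) f) x := by
  classical
  have := Fintype.ofFinite ι
  obtain ⟨M, hM⟩ : ∃ M, ∀ i, e i ≤ M :=
    ⟨∑ i, e i, fun i => Finset.single_le_sum (f := e) (fun _ _ => Nat.zero_le _)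
      (Finset.mem_univ i)⟩
  obtain ⟨C, b, hCb⟩ := exists_dataR.{u, v, w} (ρ := ρ) hK htr hk hf hI hg hS ha
  obtain ⟨C₀, hC₀⟩ : ∃ C₀ : ℕ, C₀ = ((m + ρ) ^ 2 + 9 + 5 * p) * ((r + (c + Fintype.card Λ)) *
            (4 * r + 2 * (c + Fintype.card Λ) + 2)) + P * (2 * r + (c + 1)) +
          ((m + ρ) ^ 2 + 9 + 5 * p) * (2 * p * (M + 1) * (2 * r + (c + 1))) +
          ((m + ρ) ^ 2 + 9 + 5 * p) * ((m + ρ) ^ 2 + 9 + 5 * p) := ⟨_, rfl⟩
  refine ⟨C₀ * (3 * C), ?_⟩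
  intro L _ _ _ _ _ _ _ x hx hfx hgx hne
  obtain ⟨Y, c', ε, τ, η, hc, hYx, hh, hΔ, hR, hη, hε, hηε, hεs, hv, hr, hτ, hτs, hco, hz⟩ :=
    hCb L x hx hfx hgx hne
  have hL : IsFF κ L := hK.of_finite
  set N := Set.ncard {w : Place κ L |
          (∀ v ∈ S, ¬ (w.1.comap (algebraMap K L)).IsEquiv v.1) ∧
          ∃ l, w.1 (Fval (E l) (aWP d (fun j I => algebraMap K L (a j I)) g l) x) <
            vmax w.1 x ^ E l} with hNdef
  rcases lt_or_ge (s * height κ x) ((N : ℤ) + (ramDeg κ L K : ℤ)) with hle | hgt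
  · exact Or.inl hle
  right
  have hE₀ : (0 : ℤ) ≤ C * finrank K L := by positivity
  have hmain := height_FR hL (P := P) (M := M) hr1 hd1 hρ1 hms hN hpm hC hQ Y
    (β := fun s : ↥G => algebraMap κ L (b s)) (fun s w => place_const_le w _) hη hε hηε hv hr
    (by rwa [Fintype.card_coe]) hE₀ (by rw [hR, hh]; linarith) hτ (e := e)
    (a := aWP d (fun j I => algebraMap K L (a j I)) f) he hM hco hz
  rw [← hC₀] at hmain
  rcases hmain with h | h
  · left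
    rw [hh, hR] at h
    refine h.trans ?_
    have h1 : Y.Δ + C * finrank K L + ∑ᶠ w, (τ w : ℤ) ≤ 3 * (C * finrank K L) := by linarith
    have h2 := mul_le_mul_of_nonneg_left h1 (show (0 : ℤ) ≤ C₀ by positivity)
    push_cast
    linarith
  · right
    rw [hYx] at h
    obtain ⟨p', q', hpq, ⟨u', v', huv⟩, hz'⟩ := h
    refine ⟨p', q', hpq, ⟨c'⁻¹ * u', c'⁻¹ * v', ?_⟩, hz'⟩
    have h4 : x = c'⁻¹ • (fun j => c' * x j) := by
      funext j
      rw [Pi.smul_apply, smul_eq_mul, ← mul_assoc, inv_mul_cancel₀ hc, one_mul]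
    rw [h4, huv, smul_add, smul_smul, smul_smul]

end Pool.Agent.Lib.MP_44a246_ntR
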