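import Mathlib
import Pool.Agent.Lib.MP_44a246_ntR.R06

/-!
Lines contained in a section: a lower bound for the rank of the rows of the coordinates of the line.
-/

namespace Pool.Agent.Lib.MP_44a246_ntR

open Pool.Agent.Lib.MP_44a246_ntF
open Pool.Agent.Lib.MP_44a246_nt
open Pool.Agent.Lib.MP_44a246_ntL
open Pool.Agent.Lib.MP_44a246_ntS
open Pool.Agent.Lib.MP_44a246_ntK
open Pool.Agent.Lib.MP_e52354_nt
open Module MvPolynomial

section

variable {M : Type*} [Field M] {n p : ℕ} {d : Fin p → ℕ}

theorem mon_two {k l : Fin n} (hkl : k ≠ l) (y : Fin n → M) (s t : ℕ) :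
    mon y (Finsupp.single k s + Finsupp.single l t) = y k ^ s * y l ^ t := by
  rw [mon_add, mon_single, mon_single]

/-- Independent vectors in a space which contains combinations of the vectors of the monomials of
the points of a line. -/
theorem le_finrank_line [CharZero M] {Z : Submodule M (ES n d → M)} {y : ℕ → Fin n → M}
    {k l : Fin n} (hk : ∀ v, y v k = 1) (hl : ∀ v, y v l = v) {ρ : ℕ} {jj : Fin ρ → Fin p}
    (hjj : Function.Injective jj) {B : Set ℕ} (hB : B.Infinite)
    (h : ∀ v ∈ B, ∀ b : Fin ρ, ∃ c : Fin p → M, (∀ b', c (jj b') = if b' = b then 1 else 0) ∧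
      ∑ j, c j • xB d j (y v) ∈ Z) :
    ∑ b, (d (jj b) + 1) ≤ finrank M Z := by
  classical
  have hkl : k ≠ l := by
    intro h1
    have h2 := hk 0
    rw [h1, hl 0, Nat.cast_zero] at h2
    exact zero_ne_one h2
  set w : ℕ → ℕ := fun i => (Set.Infinite.natEmbedding B hB i).1 with hw
  have hwB : ∀ i, w i ∈ B := fun i => (Set.Infinite.natEmbedding B hB i).2
  have hwi : Function.Injective w := fun i i' hi => (Set.Infinite.natEmbedding B hB).injective (Subtype.ext hi)
  choose c hc hcZ using h
  set z : (Σ b : Fin ρ, Fin (d (jj b) + 1)) → (ES n d → M) := fun s =>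
    ∑ j, c (w s.2) (hwB s.2) s.1 j • xB d j (y (w s.2)) with hz
  have hres : ∀ (b : Fin ρ) (s : Σ b : Fin ρ, Fin (d (jj b) + 1)), resB (jj b) (z s) =
      (if b = s.1 then (1 : M) else 0) • xm (d (jj b)) (y (w s.2)) := by
    intro b s
    rw [hz]
    beta_reduce
    rw [map_sum, Finset.sum_eq_single (jj b)]
    · rw [map_smul, resB_xB_self, hc]
    · intro j _ hj
      rw [map_smul, resB_xB_ne hj.symm, smul_zero]
    · intro h
      exact absurd (Finset.mem_univ _) h
  have hli : LinearIndependent M z := by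
    rw [Fintype.linearIndependent_iff]
    rintro g hg ⟨b, i⟩
    have h1 : ∀ t : Fin (d (jj b) + 1), ∑ i' : Fin (d (jj b) + 1), g ⟨b, i'⟩ *
        ((w i' : ℕ) : M) ^ (t : ℕ) = 0 := by
      intro t
      have hI : (Finsupp.single k (d (jj b) - t) + Finsupp.single l (t : ℕ) : Fin n →₀ ℕ) ∈
          expo (Fin n) (d (jj b)) := by
        rw [mem_expo]
        have h2 := t.2
        simp only [map_add, Finsupp.degree_single]
        omega
      have h2 := congrFun (congrArg (resB (jj b)) hg) ⟨_, hI⟩
      rw [map_sum, map_zero, Finset.sum_apply, Pi.zero_apply] at h2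
      simp only [map_smul, hres, Pi.smul_apply, smul_eq_mul] at h2
      rw [Fintype.sum_sigma, Finset.sum_eq_single b] at h2
      · rw [← h2]
        refine Finset.sum_congr rfl fun i' _ => ?_
        rw [if_pos rfl, one_mul]
        congr 1
        show _ = mon (y (w i')) _
        rw [mon_two hkl, hk, hl, one_pow, one_mul]
      · intro b' _ hb'
        refine Finset.sum_eq_zero fun i' _ => ?_
        rw [if_neg hb'.symm, zero_mul, mul_zero]
      · intro h
        exact absurd (Finset.mem_univ _) h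
    have h2 := Matrix.eq_zero_of_forall_pow_sum_mul_pow_eq_zero
      (f := fun i' : Fin (d (jj b) + 1) => ((w i' : ℕ) : M)) (v := fun i' => g ⟨b, i'⟩)
      (fun i₁ i₂ h => by
        have h3 : w i₁ = w i₂ := Nat.cast_injective h
        exact Fin.ext (hwi h3)) h1
    exact congrFun h2 i
  have h1 := finrank_span_eq_card hli
  rw [Fintype.card_sigma] at h1
  simp only [Fintype.card_fin] at h1
  rw [← h1]
  refine Submodule.finrank_mono ?_
  rw [Submodule.span_le]
  rintro _ ⟨s, rfl⟩
  exact hcZ _ _ _

/-- the exponents not in a finite set -/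
abbrev EP (n : ℕ) {p : ℕ} (d : Fin p → ℕ) (P : Finset (Fin p × (Fin n →₀ ℕ))) : Type :=
  {s : ES n d // (s.1, s.2.1) ∉ P}

theorem card_EP (P : Finset (Fin p × (Fin n →₀ ℕ))) :
    Fintype.card (ES n d) ≤ Fintype.card (EP n d P) + P.card := by
  classical
  have h1 := Fintype.card_congr (Equiv.sumCompl (fun s : ES n d => (s.1, s.2.1) ∈ P))
  rw [Fintype.card_sum] at h1
  have h2 : Fintype.card {s : ES n d // (s.1, s.2.1) ∈ P} ≤ P.card := by
    rw [← Fintype.card_coe]
    refine Fintype.card_le_of_injective (fun s => ⟨(s.1.1, s.1.2.1), s.2⟩) ?_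
    rintro ⟨⟨i, I⟩, hs⟩ ⟨⟨i', I'⟩, hs'⟩ h
    simp only [Subtype.mk.injEq, Prod.mk.injEq] at h
    obtain ⟨rfl, h⟩ := h
    have h3 : I = I' := Subtype.ext h
    subst h3
    rfl
  have h3 : Fintype.card {s : ES n d // ¬ (s.1, s.2.1) ∈ P} = Fintype.card (EP n d P) :=
    Fintype.card_congr (Equiv.refl _)
  omega

variable {m : ℕ} {P : Finset (Fin p × (Fin n →₀ ℕ))}
  {D : EP n d P ⊕ Fin m → Derivation ℤ M M} {a : Fin p → (Fin n →₀ ℕ) → M}

/-- combinations of the rows of the coefficients -/
noncomputable def cR (D : EP n d P ⊕ Fin m → Derivation ℤ M M) (a : Fin p → (Fin n →₀ ℕ) → M) :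
    (ES n d → M) →ₗ[M] (EP n d P ⊕ Fin m → M) :=
  Fintype.linearCombination M (fun s : ES n d => rowD D (a s.1 s.2.1))

theorem cR_apply (c : ES n d → M) : cR D a c = ∑ s, c s • rowD D (a s.1 s.2.1) := rfl

/-- the rank of the space of the combinations of the rows of the coefficients in a given space -/
theorem finrank_comap_cR
    (hW : ∀ s s' : EP n d P, D (Sum.inl s) (a s'.1.1 s'.1.2.1) = if s = s' then 1 else 0)
    (hδ : ∀ (i : Fin m) (s : ES n d), D (Sum.inr i) (a s.1 s.2.1) = 0) {x u v : Fin n → M} {z : M}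
    (hx : ∀ l, x l = u l + z * v l)
    (hind : LinearIndependent M (fun (i : Fin m) (l : Fin n) => D (Sum.inr i) (x l)))
    {V : Submodule M (EP n d P ⊕ Fin m → M)} (hu : ∀ l, rowD D (u l) ∈ V)
    (hv : ∀ l, rowD D (v l) ∈ V) :
    finrank M (V.comap (cR D a) : Submodule M (ES n d → M)) + m ≤ P.card + finrank M V + 1 := by
  classical
  have h1 := rank_contr (cR D a) ⊤ V
  rw [top_inf_eq, finrank_top, Module.finrank_fintype_fun_eq_card] at h1
  set R : Submodule M (EP n d P ⊕ Fin m → M) := V ⊔ Submodule.map (cR D a) ⊤ with hR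
  have htop : R ⊔ Submodule.span M {rowD D z} = ⊤ := by
    by_contra hne
    obtain ⟨f, hf0, hf⟩ := Submodule.exists_le_ker_of_lt_top _ (lt_top_iff_ne_top.2 hne)
    have hfR : ∀ w ∈ R, f w = 0 := fun w hw =>
      LinearMap.mem_ker.1 (hf (Submodule.mem_sup_left hw))
    have hfz : f (rowD D z) = 0 :=
      LinearMap.mem_ker.1 (hf (Submodule.mem_sup_right (Submodule.mem_span_singleton_self _)))
    have hinl : ∀ s : EP n d P, f (Pi.single (Sum.inl s) 1) = 0 := by
      intro s
      refine hfR _ (Submodule.mem_sup_right ⟨Pi.single s.1 1, trivial, ?_⟩)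
      rw [cR_apply, Finset.sum_eq_single s.1]
      · rw [Pi.single_eq_same, one_smul]
        funext t
        rcases t with s' | i
        · show D (Sum.inl s') (a s.1.1 s.1.2.1) = _
          rw [hW]
          rcases eq_or_ne s' s with rfl | hne
          · rw [if_pos rfl, Pi.single_eq_same]
          · rw [if_neg hne, Pi.single_eq_of_ne (fun h => hne (Sum.inl.inj h))]
        · show D (Sum.inr i) (a s.1.1 s.1.2.1) = _
          rw [hδ, Pi.single_eq_of_ne (by simp)]
      · intro s' _ hs'
        rw [Pi.single_eq_of_ne hs', zero_smul]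
      · intro h
        exact absurd (Finset.mem_univ _) h
    have hexp : ∀ w, f w = ∑ i, w (Sum.inr i) * f (Pi.single (Sum.inr i) 1) := by
      intro w
      have h2 : w = ∑ t, w t • (Pi.single t 1 : EP n d P ⊕ Fin m → M) := by
        funext t
        rw [Finset.sum_apply, Finset.sum_eq_single t]
        · simp
        · intro t' _ ht'
          rw [Pi.smul_apply, Pi.single_eq_of_ne ht'.symm, smul_zero]
        · intro h
          exact absurd (Finset.mem_univ _) h
      conv_lhs => rw [h2]
      rw [map_sum, Fintype.sum_sum_type]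
      simp only [map_smul, smul_eq_mul, hinl, mul_zero, Finset.sum_const_zero, zero_add]
    have hx0 : ∀ l, ∑ i, f (Pi.single (Sum.inr i) 1) * D (Sum.inr i) (x l) = 0 := by
      intro l
      have h2 : rowD D (x l) = rowD D (u l) + z • rowD D (v l) + v l • rowD D z := by
        rw [hx l, rowD_add, rowD_mul, add_assoc]
      have h3 : f (rowD D (x l)) = 0 := by
        rw [h2, map_add, map_add, map_smul, map_smul, hfz,
          hfR _ (Submodule.mem_sup_left (hu l)), hfR _ (Submodule.mem_sup_left (hv l)),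
          smul_zero, smul_zero, add_zero, add_zero]
      rw [hexp] at h3
      rw [← h3]
      exact Finset.sum_congr rfl fun i _ => mul_comm _ _
    have hinr := Fintype.linearIndependent_iff.1 hind (fun i => f (Pi.single (Sum.inr i) 1)) (by
      funext l
      rw [Finset.sum_apply, Pi.zero_apply]
      exact hx0 l)
    refine hf0 (LinearMap.ext fun w => ?_)
    rw [hexp, LinearMap.zero_apply]
    exact Finset.sum_eq_zero fun i _ => by rw [hinr i, mul_zero]
  have h2 : Fintype.card (EP n d P) + m ≤ finrank M R + 1 := by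
    have h3 : finrank M (R ⊔ Submodule.span M {rowD D z} :
        Submodule M (EP n d P ⊕ Fin m → M)) = Fintype.card (EP n d P) + m := by
      rw [htop, finrank_top, Module.finrank_fintype_fun_eq_card, Fintype.card_sum,
        Fintype.card_fin]
    rw [← h3]
    refine (Submodule.finrank_add_le_finrank_add_finrank _ _).trans ?_
    refine Nat.add_le_add_left ?_ _
    refine (finrank_span_le_card _).trans ?_
    simp
  have h3 := card_EP (d := d) P
  omega

/-- the vectors of the monomials and the rows -/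
theorem cR_xB (a : Fin p → (Fin n →₀ ℕ) → M) (j : Fin p) (y : Fin n → M) :
    cR D a (xB d j y) = rowD D (Fval (d j) (a j) y) - ∑ l, grad (d j) (a j) y l • rowD D (y l) := by
  classical
  funext t
  rw [Pi.sub_apply, Finset.sum_apply]
  show (cR D a (xB d j y)) t = D t (Fval (d j) (a j) y) - ∑ l, grad (d j) (a j) y l * D t (y l)
  rw [D_Fval, add_sub_cancel_right, cR_apply, Finset.sum_apply, Fintype.sum_sigma,
    Finset.sum_eq_single j]
  · rw [← Finset.sum_coe_sort (expo (Fin n) (d j))]
    refine Finset.sum_congr rfl fun I _ => ?_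
    show xB d j y ⟨j, I⟩ * D t (a j I.1) = D t (a j I.1) * mon y I.1
    unfold xB
    rw [if_pos rfl, mul_comm]
    rfl
  · intro i _ hi
    refine Finset.sum_eq_zero fun I _ => ?_
    show xB d j y ⟨i, I⟩ * D t (a i I.1) = 0
    unfold xB
    rw [if_neg hi, zero_mul]
  · intro h
    exact absurd (Finset.mem_univ _) h

/-- a polynomial whose value has its row in the space -/
theorem comb_mem_cR {k₀ : Type*} [Field k₀] [Algebra k₀ M]
    (hDk : ∀ t, ∀ u : k₀, D t (algebraMap k₀ M u) = 0)
    {V : Submodule M (EP n d P ⊕ Fin m → M)} {y : Fin n → M} (hy : ∀ l, rowD D (y l) ∈ V)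
    {g : MvPolynomial (Fin p ⊕ Fin n) k₀}
    (hg : rowD D (aeval (Sum.elim (fun j => Fval (d j) (a j) y) y : Fin p ⊕ Fin n → M) g) ∈ V) :
    ∑ j, aeval (Sum.elim (fun j => Fval (d j) (a j) y) y : Fin p ⊕ Fin n → M)
      (pderiv (Sum.inl j) g) • xB d j y ∈ V.comap (cR D a) := by
  have h1 := rowD_aeval (D := D) (k := k₀) hDk
    (Sum.elim (fun j => Fval (d j) (a j) y) y : Fin p ⊕ Fin n → M) g
  rw [Fintype.sum_sum_type] at h1
  simp only [Sum.elim_inl, Sum.elim_inr] at h1
  rw [Submodule.mem_comap, map_sum]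
  simp only [map_smul, cR_xB, smul_sub, Finset.sum_sub_distrib]
  have h2 : ∑ j, aeval (Sum.elim (fun j => Fval (d j) (a j) y) y : Fin p ⊕ Fin n → M)
      (pderiv (Sum.inl j) g) • rowD D (Fval (d j) (a j) y) =
      rowD D (aeval (Sum.elim (fun j => Fval (d j) (a j) y) y : Fin p ⊕ Fin n → M) g) -
      ∑ l, aeval (Sum.elim (fun j => Fval (d j) (a j) y) y : Fin p ⊕ Fin n → M)
        (pderiv (Sum.inr l) g) • rowD D (y l) := by
    rw [h1]
    abel
  rw [h2]
  refine V.sub_mem (V.sub_mem hg (V.sum_mem fun l _ => V.smul_mem _ (hy l)))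
    (V.sum_mem fun j _ => V.smul_mem _ (V.sum_mem fun l _ => V.smul_mem _ (hy l)))

/-- **The lower bound for a line**: the rank condition at a point of the line. -/
theorem line_lowerJ [CharZero M] {k₀ : Type*} [Field k₀] [Algebra k₀ M]
    (hDk : ∀ t, ∀ u : k₀, D t (algebraMap k₀ M u) = 0)
    (hW : ∀ s s' : EP n d P, D (Sum.inl s) (a s'.1.1 s'.1.2.1) = if s = s' then 1 else 0)
    (hδ : ∀ (i : Fin m) (s : ES n d), D (Sum.inr i) (a s.1 s.2.1) = 0) {x u v : Fin n → M} {z : M}
    (hx : ∀ l, x l = u l + z * v l)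
    (hind : LinearIndependent M (fun (i : Fin m) (l : Fin n) => D (Sum.inr i) (x l)))
    {V : Submodule M (EP n d P ⊕ Fin m → M)} (hu : ∀ l, rowD D (u l) ∈ V)
    (hv : ∀ l, rowD D (v l) ∈ V) {k l : Fin n} (huk : u k = 1) (hul : u l = 0) (hvk : v k = 0)
    (hvl : v l = 1) {σ : Type*} {g : σ → MvPolynomial (Fin p ⊕ Fin n) k₀}
    (hg : ∀ i, ∀ᶠ N : ℕ in Filter.cofinite, rowD D (aeval (Sum.elim
      (fun j => Fval (d j) (a j) (fun l => u l + N * v l)) (fun l => u l + N * v l) :
        Fin p ⊕ Fin n → M) (g i)) ∈ V) {ρ : ℕ}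
    (hJ : JRank ρ g (Sum.elim (fun j => Fval (d j) (a j) x) x : Fin p ⊕ Fin n → M)) :
    ∃ A : Finset (Fin p), A.card = ρ ∧ ∑ j ∈ A, (d j + 1) + m ≤ P.card + finrank M V + 1 := by
  classical
  obtain ⟨i, jj, hdet⟩ := hJ
  have hjj : Function.Injective jj := by
    intro b b' hb
    by_contra hne
    refine hdet (Matrix.det_zero_of_column_eq hne fun a => ?_)
    rw [Matrix.of_apply, Matrix.of_apply, hb]
  -- the minor as a polynomial
  set yX : Fin n → Polynomial M := fun l => Polynomial.C (u l) + Polynomial.X * Polynomial.C (v l)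
    with hyX
  set ηX : Fin p → Polynomial M := fun j => ∑ I ∈ expo (Fin n) (d j), Polynomial.C (a j I) *
    ∏ l, yX l ^ I l with hηX
  set MX : Matrix (Fin ρ) (Fin ρ) (Polynomial M) := Matrix.of fun a b =>
    aeval (Sum.elim ηX yX : Fin p ⊕ Fin n → Polynomial M) (pderiv (Sum.inl (jj b)) (g (i a)))
    with hMX
  have hev : ∀ w : M, Polynomial.eval w MX.det = (Matrix.of fun a' b =>
      aeval (Sum.elim (fun j => Fval (d j) (a j) (fun l => u l + w * v l))
        (fun l => u l + w * v l) : Fin p ⊕ Fin n → M) (pderiv (Sum.inl (jj b)) (g (i a')))).det := by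
    intro w
    let φ : Polynomial M →ₐ[k₀] M := (Polynomial.aeval w).restrictScalars k₀
    have hφ : ∀ q, φ q = Polynomial.eval w q := fun q => by
      show Polynomial.aeval w q = _
      rw [Polynomial.aeval_def, Algebra.algebraMap_self, Polynomial.eval₂_id]
    rw [← hφ]
    show φ.toRingHom MX.det = _
    rw [RingHom.map_det]
    congr 1
    ext a' b
    rw [RingHom.mapMatrix_apply, Matrix.map_apply, hMX, Matrix.of_apply, Matrix.of_apply]
    refine (comp_aeval_apply (f := (Sum.elim ηX yX : Fin p ⊕ Fin n → Polynomial M)) φ _).trans ?_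
    congr 1
    congr 1
    funext t
    rcases t with j | l
    · simp only [Sum.elim_inl]
      rw [hφ, hηX]
      beta_reduce
      unfold Fval mon
      rw [Polynomial.eval_finset_sum]
      refine Finset.sum_congr rfl fun I _ => ?_
      rw [Polynomial.eval_mul, Polynomial.eval_C, Polynomial.eval_prod]
      congr 1
      refine Finset.prod_congr rfl fun l _ => ?_
      rw [Polynomial.eval_pow, hyX]
      beta_reduce
      rw [Polynomial.eval_add, Polynomial.eval_mul, Polynomial.eval_C, Polynomial.eval_C,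
        Polynomial.eval_X]
    · simp only [Sum.elim_inr]
      rw [hφ, hyX]
      beta_reduce
      rw [Polynomial.eval_add, Polynomial.eval_mul, Polynomial.eval_C, Polynomial.eval_C,
        Polynomial.eval_X]
  have hMX0 : MX.det ≠ 0 := by
    intro h0
    apply hdet
    have h1 := hev z
    rw [h0, Polynomial.eval_zero] at h1
    have h2 : x = fun l => u l + z * v l := funext hx
    rw [h2]
    exact h1.symm
  set B : Set ℕ := {N : ℕ | Polynomial.eval (N : M) MX.det ≠ 0 ∧ ∀ a', rowD D (aeval (Sum.elim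
      (fun j => Fval (d j) (a j) (fun l => u l + N * v l)) (fun l => u l + N * v l) :
        Fin p ⊕ Fin n → M) (g (i a'))) ∈ V} with hB
  have hBc : ∀ᶠ N : ℕ in Filter.cofinite, N ∈ B := by
    have h1 : ∀ᶠ N : ℕ in Filter.cofinite, Polynomial.eval (N : M) MX.det ≠ 0 := by
      rw [Filter.eventually_cofinite]
      have h2 := (Polynomial.finite_setOf_isRoot hMX0)
      refine (h2.preimage (f := fun N : ℕ => (N : M)) (Nat.cast_injective.injOn)).subset ?_
      intro N hN
      rw [Set.mem_setOf_eq, not_not] at hN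
      exact hN
    have h2 : ∀ᶠ N : ℕ in Filter.cofinite, ∀ a', rowD D (aeval (Sum.elim
        (fun j => Fval (d j) (a j) (fun l => u l + N * v l)) (fun l => u l + N * v l) :
        Fin p ⊕ Fin n → M) (g (i a'))) ∈ V := by
      rw [Filter.eventually_all]
      exact fun a' => hg (i a')
    filter_upwards [h1, h2] with N h3 h4
    exact ⟨h3, h4⟩
  have hBi : B.Infinite := by
    have h1 : Bᶜ.Finite := hBc
    exact Set.infinite_of_finite_compl h1
  have hyV : ∀ (N : ℕ) l, rowD D (u l + N * v l) ∈ V := by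
    intro N l
    rw [rowD_add, rowD_mul]
    have h1 : rowD D ((N : ℕ) : M) = 0 := by
      funext t
      exact (D t).map_natCast N
    rw [h1, smul_zero, add_zero]
    exact V.add_mem (hu l) (V.smul_mem _ (hv l))
  have h1 := le_finrank_line (Z := V.comap (cR D a)) (y := fun N l => u l + (N : M) * v l)
    (k := k) (l := l) (fun N => by rw [huk, hvk, mul_zero, add_zero])
    (fun N => by rw [hul, hvl, mul_one, zero_add]) hjj hBi (fun N hN b => by
      obtain ⟨hN1, hN2⟩ := hN
      rw [hev] at hN1
      set Mv : Matrix (Fin ρ) (Fin ρ) M := Matrix.of fun a' b =>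
        aeval (Sum.elim (fun j => Fval (d j) (a j) (fun l => u l + (N : M) * v l))
        (fun l => u l + (N : M) * v l) : Fin p ⊕ Fin n → M) (pderiv (Sum.inl (jj b)) (g (i a')))
        with hMv
      refine ⟨fun j => ∑ a', Mv⁻¹ b a' * aeval (Sum.elim
        (fun j => Fval (d j) (a j) (fun l => u l + (N : M) * v l))
        (fun l => u l + (N : M) * v l) : Fin p ⊕ Fin n → M) (pderiv (Sum.inl j) (g (i a'))),
        fun b' => ?_, ?_⟩
      · have h2 : (Mv⁻¹ * Mv) b b' = if b' = b then 1 else 0 := by
          rw [Matrix.nonsing_inv_mul _ (isUnit_iff_ne_zero.2 hN1), Matrix.one_apply]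
          simp only [eq_comm]
        rw [← h2, Matrix.mul_apply]
        rfl
      · have h2 : ∑ j, (∑ a', Mv⁻¹ b a' * aeval (Sum.elim
            (fun j => Fval (d j) (a j) (fun l => u l + (N : M) * v l))
            (fun l => u l + (N : M) * v l) : Fin p ⊕ Fin n → M) (pderiv (Sum.inl j) (g (i a')))) •
            xB d j (fun l => u l + (N : M) * v l) = ∑ a', Mv⁻¹ b a' • ∑ j, aeval (Sum.elim
            (fun j => Fval (d j) (a j) (fun l => u l + (N : M) * v l))
            (fun l => u l + (N : M) * v l) : Fin p ⊕ Fin n → M) (pderiv (Sum.inl j) (g (i a'))) •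
            xB d j (fun l => u l + (N : M) * v l) := by
          simp only [Finset.sum_smul, Finset.smul_sum, smul_smul]
          exact Finset.sum_comm
        rw [h2]
        exact Submodule.sum_mem _ fun a' _ => Submodule.smul_mem _ _
          (comb_mem_cR hDk (hyV N) (hN2 a')))
  have h2 := finrank_comap_cR hW hδ hx hind hu hv
  refine ⟨Finset.univ.image jj, ?_, ?_⟩
  · rw [Finset.card_image_of_injective _ hjj, Finset.card_univ, Fintype.card_fin]
  · rw [Finset.sum_image hjj.injOn]
    omega

/-- **The lower bound for a line**, the case of a finite projection. -/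
theorem line_lowerN [CharZero M] 
    (hW : ∀ s s' : EP n d P, D (Sum.inl s) (a s'.1.1 s'.1.2.1) = if s = s' then 1 else 0)
    (hδ : ∀ (i : Fin m) (s : ES n d), D (Sum.inr i) (a s.1 s.2.1) = 0) {x u v : Fin n → M} {z : M}
    (hx : ∀ l, x l = u l + z * v l)
    (hind : LinearIndependent M (fun (i : Fin m) (l : Fin n) => D (Sum.inr i) (x l)))
    {V : Submodule M (EP n d P ⊕ Fin m → M)} (hu : ∀ l, rowD D (u l) ∈ V)
    (hv : ∀ l, rowD D (v l) ∈ V) {k l : Fin n} (huk : u k = 1) (hul : u l = 0) (hvk : v k = 0)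
    (hvl : v l = 1)
    (hg : ∀ᶠ N : ℕ in Filter.cofinite, ∀ j,
      rowD D (Fval (d j) (a j) (fun l => u l + N * v l)) ∈ V) :
    ∑ j, (d j + 1) + m ≤ P.card + finrank M V + 1 := by
  classical
  set B : Set ℕ := {N : ℕ | ∀ j, rowD D (Fval (d j) (a j) (fun l => u l + N * v l)) ∈ V} with hB
  have hBi : B.Infinite := by
    have h1 : Bᶜ.Finite := hg
    exact Set.infinite_of_finite_compl h1
  have hyV : ∀ (N : ℕ) l, rowD D (u l + N * v l) ∈ V := by
    intro N l
    rw [rowD_add, rowD_mul]
    have h1 : rowD D ((N : ℕ) : M) = 0 := by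
      funext t
      exact (D t).map_natCast N
    rw [h1, smul_zero, add_zero]
    exact V.add_mem (hu l) (V.smul_mem _ (hv l))
  have h1 := le_finrank_line (Z := V.comap (cR D a)) (y := fun N l => u l + (N : M) * v l)
    (k := k) (l := l) (fun N => by rw [huk, hvk, mul_zero, add_zero])
    (fun N => by rw [hul, hvl, mul_one, zero_add]) (jj := id) Function.injective_id hBi
    (fun N hN b => by
      refine ⟨Pi.single b 1, fun b' => ?_, ?_⟩
      · rw [id, Pi.single_apply]
      · rw [Finset.sum_eq_single b]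
        · rw [Pi.single_eq_same, one_smul, Submodule.mem_comap, cR_xB]
          exact V.sub_mem (hN b) (V.sum_mem fun l _ => V.smul_mem _ (hyV N l))
        · intro j _ hj
          rw [Pi.single_eq_of_ne hj, zero_smul]
        · intro h
          exact absurd (Finset.mem_univ _) h)
  have h2 := finrank_comap_cR hW hδ hx hind hu hv
  simp only [id] at h1
  omega

end

end Pool.Agent.Lib.MP_44a246_ntR
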