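import Mathlib
import Pool.Agent.Lib.MP_44a246_ntS.SP1b
import Pool.Agent.Lib.MP_44a246_ntR.R09

/-!
Lines contained in a section: an upper bound for the rank of the rows of the coordinates of the
line, and lines through points with many algebraically independent coordinates.
-/

namespace Pool.Agent.Lib.MP_44a246_ntR

open Pool.Agent.Lib.MP_44a246_ntF
open Pool.Agent.Lib.MP_44a246_ntD
open Pool.Agent.Lib.MP_44a246_nt
open Pool.Agent.Lib.MP_44a246_ntL
open Pool.Agent.Lib.MP_44a246_ntS
open Pool.Agent.Lib.MP_44a246_ntU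
open Pool.Agent.Lib.MP_44a246_ntK
open Pool.Agent.Lib.MP_e52354_nt
open Module MvPolynomial

section

variable {M : Type*} [Field M] {n : ℕ} {T : Type*} [Fintype T]

/-- one moving point of a line -/
theorem finrank_movT {D : T → Derivation ℤ M M} {δ : Derivation ℤ M M} {τ : M} (hδτ : δ τ = 1)
    (hDτ : ∀ t, D t τ = 0) {u v : Fin n → M} (hδu : ∀ l, δ (u l) = 0) (hδv : ∀ l, δ (v l) = 0)
    {l : Fin n} (hul : u l = 0) (hvl : v l = 1) {r q : ℕ} (hq : q ≤ r) {j : Fin q → Fin n}
    {c : Fin n → Fin q → M}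
    (hD : ∀ t i, D t (u i + τ * v i) = ∑ s, c i s * D t (u (j s) + τ * v (j s)))
    (hδ : ∀ i, δ (u i + τ * v i) = ∑ s, c i s * δ (u (j s) + τ * v (j s))) :
    finrank M (Submodule.span M (Set.range fun i => rowD D (u i + τ * v i))) + 1 ≤ r := by
  classical
  set W := Submodule.span M (Set.range fun i => rowD D (u i + τ * v i)) with hW
  let D' : Option T → Derivation ℤ M M := fun o => o.elim δ D
  set R := Submodule.span M (Set.range fun i => rowD D' (u i + τ * v i)) with hR
  let ι' : (T → M) →ₗ[M] (Option T → M) :=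
    { toFun := fun w o => o.elim 0 w
      map_add' := fun w w' => by
        funext o
        rcases o with _ | t
        · simp
        · rfl
      map_smul' := fun s w => by
        funext o
        rcases o with _ | t
        · simp
        · rfl }
  have hι : Function.Injective ι' := by
    intro w w' h
    funext t
    exact congrFun h (some t)
  have hRr : finrank M R ≤ r := by
    have h1 : R ≤ Submodule.span M (Set.range fun s => rowD D' (u (j s) + τ * v (j s))) := by
      rw [hR, Submodule.span_le]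
      rintro _ ⟨i, rfl⟩
      have h2 : rowD D' (u i + τ * v i) = ∑ s, c i s • rowD D' (u (j s) + τ * v (j s)) := by
        funext o
        rw [Finset.sum_apply]
        rcases o with _ | t
        · exact hδ i
        · exact hD t i
      rw [SetLike.mem_coe]
      beta_reduce
      rw [h2]
      exact Submodule.sum_mem _ fun s _ => Submodule.smul_mem _ _ (Submodule.subset_span ⟨s, rfl⟩)
    refine (Submodule.finrank_mono h1).trans ((finrank_range_le_card _).trans ?_)
    rw [Fintype.card_fin]
    exact hq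
  have hδi : ∀ i, δ (u i + τ * v i) = v i := by
    intro i
    rw [map_add, Derivation.leibniz, hδu, hδv, hδτ]
    simp
  have hnone : (Pi.single none 1 : Option T → M) = rowD D' (u l + τ * v l) := by
    funext o
    rcases o with _ | t
    · rw [Pi.single_eq_same]
      show 1 = δ (u l + τ * v l)
      rw [hδi, hvl]
    · rw [Pi.single_eq_of_ne (by simp)]
      show 0 = D t (u l + τ * v l)
      rw [hul, hvl, zero_add, mul_one, hDτ]
  have hnR : (Pi.single none 1 : Option T → M) ∈ R := by
    rw [hnone]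
    exact Submodule.subset_span ⟨l, rfl⟩
  have hle : W.map ι' ≤ R := by
    rw [Submodule.map_le_iff_le_comap, hW, Submodule.span_le]
    rintro _ ⟨i, rfl⟩
    rw [SetLike.mem_coe, Submodule.mem_comap]
    have h1 : ι' (rowD D (u i + τ * v i)) = rowD D' (u i + τ * v i) -
        v i • (Pi.single none 1 : Option T → M) := by
      funext o
      rcases o with _ | t
      · show 0 = δ (u i + τ * v i) - v i * (Pi.single none 1 : Option T → M) none
        rw [hδi, Pi.single_eq_same, mul_one, sub_self]
      · show D t (u i + τ * v i) = D t (u i + τ * v i) -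
          v i * (Pi.single none 1 : Option T → M) (some t)
        rw [Pi.single_eq_of_ne (by simp), mul_zero, sub_zero]
    beta_reduce
    rw [h1]
    exact R.sub_mem (Submodule.subset_span ⟨i, rfl⟩) (R.smul_mem _ hnR)
  have hlt : W.map ι' < R := by
    refine lt_of_le_of_ne hle fun h1 => ?_
    rw [← h1] at hnR
    obtain ⟨w, -, hw⟩ := hnR
    have h2 := congrFun hw none
    rw [Pi.single_eq_same] at h2
    exact zero_ne_one h2
  have h1 := Submodule.finrank_lt_finrank_of_lt hlt
  rw [← (Submodule.equivMapOfInjective ι' hι W).finrank_eq] at h1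
  omega

end

section

variable {M : Type*} [Field M] {n p : ℕ} {T : Type*} [Fintype T]

/-- **The upper bound for a line.** -/
theorem line_upper [CharZero M] {k₀ : Type*} [Field k₀] [CharZero k₀] [Algebra k₀ M]
    {D : T → Derivation ℤ M M} (hDk : ∀ t, ∀ c : k₀, D t (algebraMap k₀ M c) = 0)
    {δ : Derivation ℤ M M} (hδk : ∀ c : k₀, δ (algebraMap k₀ M c) = 0) {τ : M} (hδτ : δ τ = 1)
    (hDτ : ∀ t, D t τ = 0) {u v : Fin n → M} (hδu : ∀ l, δ (u l) = 0) (hδv : ∀ l, δ (v l) = 0)
    {k l : Fin n} (huk : u k = 1) (hul : u l = 0) (hvk : v k = 0) (hvl : v l = 1) {r : ℕ}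
    {d : Fin p → ℕ} {ι : Type*} {f : ι → MvPolynomial (Fin p ⊕ Fin n) k₀} {e : ι → ℕ}
    (hf : ∀ i, (f i).IsWeightedHomogeneous (wtP n d) (e i))
    (hI : ringKrullDim (MvPolynomial (Fin n) k₀ ⧸ imI f) ≤ ((r + 1 : ℕ) : ℕ))
    (hz : ∀ N : ℕ, ∃ η : Fin p → M, ∀ i, aeval (Sum.elim η (fun l => u l + (τ + N) * v l) :
      Fin p ⊕ Fin n → M) (f i) = 0) :
    finrank M (Submodule.span M (Set.range (Sum.elim (fun l => rowD D (u l))
      (fun l => rowD D (v l))))) + 2 ≤ 2 * r := by
  classical
  have key : ∀ N : ℕ, finrank M (Submodule.span M (Set.range fun i =>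
      rowD D (u i + (τ + N) * v i))) + 1 ≤ r := by
    intro N
    obtain ⟨η, hη⟩ := hz N
    obtain ⟨q, j, c, hq, hc⟩ := exists_der_comb (k := k₀) (γ := fun i => u i + (τ + N) * v i)
      (r := r) fun q j hj => card_le_of_dimI_norm hf hI hη (ξ := Pi.single k 1) (by
        rw [Finset.sum_eq_single k]
        · rw [Pi.single_eq_same, huk, hvk, mul_zero, add_zero, Nat.cast_one, one_mul]
        · intro j _ hj
          rw [Pi.single_eq_of_ne hj, Nat.cast_zero, zero_mul]
        · intro h
          exact absurd (Finset.mem_univ _) h) hj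
    have h1 : ∀ E : Derivation ℤ M M, E (τ + N) = E τ := by
      intro E
      rw [map_add, E.map_natCast, add_zero]
    exact finrank_movT (τ := τ + N) (by rw [h1, hδτ]) (fun t => by rw [h1, hDτ]) hδu hδv hul hvl
      hq (fun t i => hc (D t) (hDk t) i) (fun i => hc δ hδk i)
  set W : ℕ → Submodule M (T → M) := fun N => Submodule.span M (Set.range fun i =>
      rowD D (u i + (τ + N) * v i)) with hW
  have hrow : ∀ (N : ℕ) i, rowD D (u i + (τ + N) * v i) =
      rowD D (u i) + (τ + N) • rowD D (v i) := by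
    intro N i
    rw [rowD_add, rowD_mul]
    have h1 : rowD D (τ + N) = 0 := by
      funext t
      show D t (τ + N) = 0
      rw [map_add, (D t).map_natCast, add_zero, hDτ]
    rw [h1, smul_zero, add_zero]
  have hv : ∀ i, rowD D (v i) ∈ W 0 ⊔ W 1 := by
    intro i
    have h1 : rowD D (v i) = rowD D (u i + (τ + (1 : ℕ)) * v i) -
        rowD D (u i + (τ + (0 : ℕ)) * v i) := by
      rw [hrow, hrow, Nat.cast_one, Nat.cast_zero, add_zero, add_smul, one_smul]
      abel
    rw [h1]
    exact Submodule.sub_mem _ (Submodule.mem_sup_right (Submodule.subset_span ⟨i, rfl⟩))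
      (Submodule.mem_sup_left (Submodule.subset_span ⟨i, rfl⟩))
  have hu : ∀ i, rowD D (u i) ∈ W 0 ⊔ W 1 := by
    intro i
    have h1 : rowD D (u i) = rowD D (u i + (τ + (0 : ℕ)) * v i) -
        (τ + (0 : ℕ)) • rowD D (v i) := by
      rw [hrow, add_sub_cancel_right]
    rw [h1]
    exact Submodule.sub_mem _ (Submodule.mem_sup_left (Submodule.subset_span ⟨i, rfl⟩))
      (Submodule.smul_mem _ _ (hv i))
  have hle : Submodule.span M (Set.range (Sum.elim (fun l => rowD D (u l))
      (fun l => rowD D (v l)))) ≤ W 0 ⊔ W 1 := by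
    rw [Submodule.span_le]
    rintro _ ⟨i | i, rfl⟩
    · exact hu i
    · exact hv i
  have h1 := (Submodule.finrank_mono hle).trans (Submodule.finrank_add_le_finrank_add_finrank _ _)
  have h2 := key 0
  have h3 := key 1
  change finrank M (W 0) + 1 ≤ r at h2
  change finrank M (W 1) + 1 ≤ r at h3
  omega

end

section

/-- the values of a polynomial on a line -/
theorem exists_polyLine {M : Type*} [Field M] {k₀ : Type*} [Field k₀] [Algebra k₀ M] {n p : ℕ}
    (η : Fin p → Polynomial M) (u v : Fin n → M) (f : MvPolynomial (Fin p ⊕ Fin n) k₀) :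
    ∃ q : Polynomial M, ∀ w : M, q.eval w = aeval (Sum.elim (fun j => (η j).eval w)
      (fun l => u l + w * v l) : Fin p ⊕ Fin n → M) f := by
  refine ⟨aeval (Sum.elim η (fun l => Polynomial.C (u l) + Polynomial.X * Polynomial.C (v l)) :
    Fin p ⊕ Fin n → Polynomial M) f, fun w => ?_⟩
  let ψ : Polynomial M →ₐ[k₀] M := (Polynomial.aeval w).restrictScalars k₀
  have hψ : ∀ q, ψ q = Polynomial.eval w q := fun q => by
    show Polynomial.aeval w q = _
    rw [Polynomial.aeval_def, Algebra.algebraMap_self, Polynomial.eval₂_id]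
  rw [← hψ, comp_aeval_apply]
  congr 1
  congr 1
  funext t
  rcases t with j | l
  · rw [hψ]
    rfl
  · rw [hψ]
    simp only [Sum.elim_inr]
    rw [Polynomial.eval_add, Polynomial.eval_mul, Polynomial.eval_C, Polynomial.eval_C,
      Polynomial.eval_X]

/-- the nondegenerate points of a line -/
theorem nDegP_cofinite {M : Type*} [Field M] [CharZero M] {k₀ : Type*} [Field k₀] [Algebra k₀ M]
    {n p : ℕ} {ι : Type*} {f : ι → MvPolynomial (Fin p ⊕ Fin n) k₀} {u v : Fin n → M} {z : M}
    (h : NDegP f (fun l => u l + z * v l)) :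
    ∀ᶠ N : ℕ in Filter.cofinite, NDegP f (fun l => u l + N * v l) := by
  have h1 : ∀ j : Fin p, ∀ᶠ N : ℕ in Filter.cofinite,
      ∃ i, (∀ j' : Fin p, j' ≠ j → Sum.inl j' ∉ (f i).vars) ∧
      ∃ τ : M, aeval (Sum.elim (fun _ => τ) (fun l => u l + N * v l) : Fin p ⊕ Fin n → M)
        (f i) ≠ 0 := by
    intro j
    obtain ⟨i, hi, τ, hτ⟩ := h j
    obtain ⟨q, hq⟩ := exists_polyLine (fun _ => Polynomial.C τ) u v (f i)
    simp only [Polynomial.eval_C] at hq
    have hq0 : q ≠ 0 := by
      intro h0
      apply hτ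
      rw [← hq, h0, Polynomial.eval_zero]
    have h2 : ∀ᶠ N : ℕ in Filter.cofinite, q.eval (N : M) ≠ 0 := by
      rw [Filter.eventually_cofinite]
      refine ((Polynomial.finite_setOf_isRoot hq0).preimage (f := fun N : ℕ => (N : M))
        (Nat.cast_injective.injOn)).subset ?_
      intro N hN
      rw [Set.mem_setOf_eq, not_not] at hN
      exact hN
    filter_upwards [h2] with N hN
    refine ⟨i, hi, τ, ?_⟩
    rw [← hq]
    exact hN
  rw [← Filter.eventually_all] at h1
  exact h1

/-- the value of a form on a line, as a polynomial -/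
theorem exists_polyFval {M : Type*} [Field M] {n : ℕ} (d : ℕ) (a : (Fin n →₀ ℕ) → M)
    (u v : Fin n → M) :
    ∃ q : Polynomial M, ∀ w : M, q.eval w = Fval d a (fun l => u l + w * v l) := by
  refine ⟨∑ I ∈ expo (Fin n) d, Polynomial.C (a I) *
    ∏ l, (Polynomial.C (u l) + Polynomial.X * Polynomial.C (v l)) ^ I l, fun w => ?_⟩
  unfold Fval mon
  rw [Polynomial.eval_finset_sum]
  refine Finset.sum_congr rfl fun I _ => ?_
  rw [Polynomial.eval_mul, Polynomial.eval_C, Polynomial.eval_prod]
  congr 1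
  refine Finset.prod_congr rfl fun l _ => ?_
  rw [Polynomial.eval_pow, Polynomial.eval_add, Polynomial.eval_mul, Polynomial.eval_C,
    Polynomial.eval_C, Polynomial.eval_X]

/-- Lines through a point with many algebraically independent coordinates, with an extension of
the field. -/
theorem no_lineR_aux {κ : Type*} [Field κ] [CharZero κ] {k₀ : Type*} [Field k₀] [CharZero k₀]
    [Algebra k₀ κ] {M : Type*} [Field M] [CharZero M] [Algebra κ M] [Algebra k₀ M]
    [IsScalarTower k₀ κ M] {X₀ : M} (ht : Transcendental κ X₀)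
    (halg : Algebra.IsAlgebraic (IntermediateField.adjoin κ {X₀}) M)
    {n m p r c ρ : ℕ} {d : Fin p → ℕ}
    (hd : ∀ A : Finset (Fin p), A.card = ρ → 2 * r + c ≤ (∑ j ∈ A, d j) + m + ρ)
    {ι : Type*} {e : ι → ℕ} {f : ι → MvPolynomial (Fin p ⊕ Fin n) k₀}
    (hf : ∀ i, (f i).IsWeightedHomogeneous (wtP n d) (e i))
    (hI : ringKrullDim (MvPolynomial (Fin n) k₀ ⧸ imI f) ≤ ((r + 1 : ℕ) : ℕ))
    {a : Fin p → (Fin n →₀ ℕ) → κ} {P : Finset (Fin p × (Fin n →₀ ℕ))} (hP : P.card ≤ c)
    {D : EP n d P ⊕ Fin m → Derivation ℤ κ κ}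
    (hDk : ∀ t, ∀ u : k₀, D t (algebraMap k₀ κ u) = 0)
    (hW : ∀ s s' : EP n d P, D (Sum.inl s) (a s'.1.1 s'.1.2.1) = if s = s' then 1 else 0)
    (hδ : ∀ (i : Fin m) (s : ES n d), D (Sum.inr i) (a s.1 s.2.1) = 0) {x u v : Fin n → κ} {z : κ}
    (hx : ∀ l, x l = u l + z * v l)
    (hind : LinearIndependent κ (fun (i : Fin m) (l : Fin n) => D (Sum.inr i) (x l)))
    {k l : Fin n} (huk : u k = 1) (hul : u l = 0) (hvk : v k = 0) (hvl : v l = 1)
    (hz : ∀ (i : ι) (N : ℕ), aeval (Sum.elim (fun j => Fval (d j) (a j) (fun l => u l + N * v l))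
      (fun l => u l + N * v l) : Fin p ⊕ Fin n → κ) (f i) = 0)
    (hJ : JRank ρ f (Sum.elim (fun j => Fval (d j) (a j) x) x : Fin p ⊕ Fin n → κ) ∨
      (ρ = p ∧ NDegP f x)) : False := by
  classical
  choose D' hD' hD'X using fun t => exists_der_ext ht halg (D t) 0
  obtain ⟨δ, hδ', hδX⟩ := exists_der_ext ht halg (0 : Derivation ℤ κ κ) 1
  have hδ0 : ∀ y : κ, δ (algebraMap κ M y) = 0 := fun y => by
    rw [hδ', Derivation.zero_apply, map_zero]
  have hDk' : ∀ t, ∀ y : k₀, D' t (algebraMap k₀ M y) = 0 := fun t y => by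
    rw [IsScalarTower.algebraMap_apply k₀ κ M, hD', hDk, map_zero]
  have hδk' : ∀ y : k₀, δ (algebraMap k₀ M y) = 0 := fun y => by
    rw [IsScalarTower.algebraMap_apply k₀ κ M, hδ0]
  set φ := algebraMap κ M with hφ
  -- the equations on the line
  have hFφ : ∀ (y : Fin n → κ) j, Fval (d j) (fun I => φ (a j I)) (fun l => φ (y l)) =
      φ (Fval (d j) (a j) y) := by
    intro y j
    unfold Fval mon
    rw [map_sum]
    refine Finset.sum_congr rfl fun I _ => ?_
    rw [map_mul, map_prod]
    simp only [map_pow]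
  have hzM : ∀ (i : ι) (w : M), aeval (Sum.elim
      (fun j => Fval (d j) (fun I => φ (a j I)) (fun l => φ (u l) + w * φ (v l)))
      (fun l => φ (u l) + w * φ (v l)) : Fin p ⊕ Fin n → M) (f i) = 0 := by
    intro i w
    -- the polynomial
    choose ηX hηX using fun j => exists_polyFval (d j) (fun I => φ (a j I)) (fun l => φ (u l))
      (fun l => φ (v l))
    obtain ⟨q, hev⟩ := exists_polyLine (k₀ := k₀) ηX (fun l => φ (u l)) (fun l => φ (v l)) (f i)
    simp only [hηX] at hev
    have hq0 : q = 0 := by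
      refine Polynomial.eq_zero_of_infinite_isRoot q ?_
      refine (Set.infinite_range_of_injective (f := fun N : ℕ => (N : M))
        Nat.cast_injective).mono ?_
      rintro _ ⟨N, rfl⟩
      show Polynomial.eval (N : M) q = 0
      rw [hev]
      have h1 := hz i N
      have h2 := congrArg φ h1
      rw [map_zero] at h2
      rw [← h2]
      have h3 : φ (aeval (Sum.elim (fun j => Fval (d j) (a j) (fun l => u l + N * v l))
          (fun l => u l + N * v l) : Fin p ⊕ Fin n → κ) (f i)) = aeval (fun t => φ ((Sum.elim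
          (fun j => Fval (d j) (a j) (fun l => u l + N * v l))
          (fun l => u l + N * v l) : Fin p ⊕ Fin n → κ) t)) (f i) :=
        comp_aeval_apply (f := (Sum.elim
          (fun j => Fval (d j) (a j) (fun l => u l + N * v l))
          (fun l => u l + N * v l) : Fin p ⊕ Fin n → κ)) (IsScalarTower.toAlgHom k₀ κ M) _
      rw [h3]
      congr 1
      congr 1
      funext t
      rcases t with j | l
      · simp only [Sum.elim_inl]
        rw [← hFφ]
        congr 1
        funext l
        rw [map_add, map_mul, map_natCast]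
      · simp only [Sum.elim_inr]
        rw [map_add, map_mul, map_natCast]
    rw [← hev, hq0, Polynomial.eval_zero]
  set V : Submodule M (EP n d P ⊕ Fin m → M) := Submodule.span M (Set.range (Sum.elim
    (fun l => rowD D' (φ (u l))) (fun l => rowD D' (φ (v l))))) with hV
  have huV : ∀ l, rowD D' (φ (u l)) ∈ V := fun l => Submodule.subset_span ⟨Sum.inl l, rfl⟩
  have hvV : ∀ l, rowD D' (φ (v l)) ∈ V := fun l => Submodule.subset_span ⟨Sum.inr l, rfl⟩
  have hup : finrank M V + 2 ≤ 2 * r := by
    refine line_upper (T := EP n d P ⊕ Fin m) (D := D') hDk' hδk' hδX hD'X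
      (fun l => hδ0 (u l)) (fun l => hδ0 (v l)) (k := k) (l := l)
      (by rw [huk, map_one]) (by rw [hul, map_zero]) (by rw [hvk, map_zero]) (by rw [hvl, map_one])
      hf hI fun N => ⟨_, fun i => hzM i (X₀ + N)⟩
  have hW' : ∀ s s' : EP n d P, D' (Sum.inl s) (φ (a s'.1.1 s'.1.2.1)) =
      if s = s' then 1 else 0 := by
    intro s s'
    rw [hD', hW]
    split_ifs
    · exact map_one _
    · exact map_zero _
  have hδ'' : ∀ (i : Fin m) (s : ES n d), D' (Sum.inr i) (φ (a s.1 s.2.1)) = 0 := by
    intro i s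
    rw [hD', hδ, map_zero]
  have hx' : ∀ l, φ (x l) = φ (u l) + φ z * φ (v l) := fun l => by rw [hx, map_add, map_mul]
  have hind' : LinearIndependent M (fun (i : Fin m) (l : Fin n) => D' (Sum.inr i) (φ (x l))) := by
    have h1 : (fun (i : Fin m) (l : Fin n) => D' (Sum.inr i) (φ (x l))) =
        fun (i : Fin m) (l : Fin n) => φ (D (Sum.inr i) (x l)) := by
      funext i l
      exact hD' _ _
    rw [h1]
    exact linearIndependent_algebraMap_comp_iff.2 hind
  have hyx : (fun l => φ (x l)) = fun l => φ (u l) + φ z * φ (v l) := funext hx'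
  rcases hJ with hJ | ⟨hρ, hN⟩
  · have hJ' : JRank ρ f (Sum.elim (fun j => Fval (d j) (fun I => φ (a j I)) (fun l => φ (x l)))
        (fun l => φ (x l)) : Fin p ⊕ Fin n → M) := by
      have h1 := hJ.map (IsScalarTower.toAlgHom k₀ κ M)
      convert h1 using 1
      funext t
      rcases t with j | l
      · simp only [Sum.elim_inl]
        exact hFφ x j
      · rfl
    obtain ⟨A, hA, hA'⟩ := line_lowerJ (a := fun j I => φ (a j I)) hDk' hW' hδ'' hx' hind' huV hvV
      (k := k) (l := l)
      (by rw [huk, map_one]) (by rw [hul, map_zero]) (by rw [hvk, map_zero]) (by rw [hvl, map_one])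
      (g := f) (fun i => Filter.Eventually.of_forall fun N => by
        rw [hzM i (N : M), rowD_zero]
        exact V.zero_mem) hJ'
    have h1 := hd A hA
    rw [Finset.sum_add_distrib, Finset.sum_const, hA, smul_eq_mul, mul_one] at hA'
    omega
  · subst hρ
    have hN' : NDegP f (fun l => φ (x l)) := by
      have : Infinite κ := inferInstance
      exact (nDegP_map (k := k₀) φ (fun y => (IsScalarTower.algebraMap_apply k₀ κ M y).symm)).2 hN
    have hA' := line_lowerN (a := fun j I => φ (a j I)) hW' hδ'' hx' hind' huV hvV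
      (k := k) (l := l)
      (by rw [huk, map_one]) (by rw [hul, map_zero]) (by rw [hvk, map_zero]) (by rw [hvl, map_one])
      (by
        have h1 := nDegP_cofinite (u := fun l => φ (u l)) (v := fun l => φ (v l)) (z := φ z)
          (by rw [← hyx]; exact hN')
        filter_upwards [h1] with N hN1 j
        obtain ⟨c', hc', -⟩ := hN1.rel hf (hzM · (N : M)) j
        have h2 : rowD D' (Fval (d j) (fun I => φ (a j I)) (fun l => φ (u l) + N * φ (v l))) =
            ∑ l, c' l • rowD D' (φ (u l) + N * φ (v l)) := by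
          funext t
          rw [Finset.sum_apply]
          exact hc' (D' t) (hDk' t)
        rw [h2]
        refine V.sum_mem fun l _ => V.smul_mem _ ?_
        rw [rowD_add, rowD_mul]
        have h3 : rowD D' ((N : ℕ) : M) = 0 := by
          funext t
          exact (D' t).map_natCast N
        rw [h3, smul_zero, add_zero]
        exact V.add_mem (huV l) (V.smul_mem _ (hvV l)))
    have h1 := hd Finset.univ (by rw [Finset.card_univ, Fintype.card_fin])
    rw [Finset.sum_add_distrib, Finset.sum_const, Finset.card_univ, Fintype.card_fin, smul_eq_mul,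
      mul_one] at hA'
    omega

/-- **Lines through a point with many algebraically independent coordinates.** -/
theorem no_lineR {κ : Type*} [Field κ] [CharZero κ] {k₀ : Type*} [Field k₀] [CharZero k₀]
    [Algebra k₀ κ] {n m p r c ρ : ℕ} {d : Fin p → ℕ}
    (hd : ∀ A : Finset (Fin p), A.card = ρ → 2 * r + c ≤ (∑ j ∈ A, d j) + m + ρ)
    {ι : Type*} {e : ι → ℕ} {f : ι → MvPolynomial (Fin p ⊕ Fin n) k₀}
    (hf : ∀ i, (f i).IsWeightedHomogeneous (wtP n d) (e i))
    (hI : ringKrullDim (MvPolynomial (Fin n) k₀ ⧸ imI f) ≤ ((r + 1 : ℕ) : ℕ))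
    {a : Fin p → (Fin n →₀ ℕ) → κ} {P : Finset (Fin p × (Fin n →₀ ℕ))} (hP : P.card ≤ c)
    {D : EP n d P ⊕ Fin m → Derivation ℤ κ κ}
    (hDk : ∀ t, ∀ u : k₀, D t (algebraMap k₀ κ u) = 0)
    (hW : ∀ s s' : EP n d P, D (Sum.inl s) (a s'.1.1 s'.1.2.1) = if s = s' then 1 else 0)
    (hδ : ∀ (i : Fin m) (s : ES n d), D (Sum.inr i) (a s.1 s.2.1) = 0) {x u v : Fin n → κ} {z : κ}
    (hx : ∀ l, x l = u l + z * v l)
    (hind : LinearIndependent κ (fun (i : Fin m) (l : Fin n) => D (Sum.inr i) (x l)))
    {k l : Fin n} (huk : u k = 1) (hul : u l = 0) (hvk : v k = 0) (hvl : v l = 1)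
    (hz : ∀ (i : ι) (N : ℕ), aeval (Sum.elim (fun j => Fval (d j) (a j) (fun l => u l + N * v l))
      (fun l => u l + N * v l) : Fin p ⊕ Fin n → κ) (f i) = 0)
    (hJ : JRank ρ f (Sum.elim (fun j => Fval (d j) (a j) x) x : Fin p ⊕ Fin n → κ) ∨
      (ρ = p ∧ NDegP f x)) : False := by
  have hcM : CharZero (RatFunc κ) :=
    charZero_of_injective_algebraMap (algebraMap κ (RatFunc κ)).injective
  have halg : Algebra.IsAlgebraic (IntermediateField.adjoin κ {(RatFunc.X : RatFunc κ)})
      (RatFunc κ) := by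
    have h1 : IntermediateField.adjoin κ {(RatFunc.X : RatFunc κ)} = ⊤ := RatFunc.adjoin_X
    rw [h1]
    refine ⟨fun y => ?_⟩
    exact isAlgebraic_algebraMap (⟨y, trivial⟩ : (⊤ : IntermediateField κ (RatFunc κ)))
  exact no_lineR_aux (M := RatFunc κ) RatFunc.transcendental_X halg hd hf hI hP hDk hW hδ hx hind
    huk hul hvk hvl hz hJ

end

end Pool.Agent.Lib.MP_44a246_ntR
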