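import Mathlib
import Pool.Agent.Lib.MP_44a246_ntR.R10
import Pool.Agent.Lib.MP_44a246_ntQ.Q10
import Pool.Agent.Lib.MP_44a246_ntD.D20
import Pool.Agent.Lib.MP_44a246_ntD.D10

/-!
Lines contained in a section and compactness.
-/

namespace Pool.Agent.Lib.MP_44a246_ntR

open Pool.Agent.Lib.MP_44a246_ntF
open Pool.Agent.Lib.MP_44a246_ntD
open Pool.Agent.Lib.MP_44a246_ntQ
open Pool.Agent.Lib.MP_44a246_nt
open Pool.Agent.Lib.MP_44a246_ntL
open Pool.Agent.Lib.MP_44a246_ntS
open Pool.Agent.Lib.MP_44a246_ntG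
open Pool.Agent.Lib.MP_44a246_ntU
open Pool.Agent.Lib.MP_44a246_ntK
open Pool.Agent.Lib.MP_e52354_nt
open Module

/-- the point `x` lies on a line on which the forms vanish, normalised at the coordinate `k` -/
def LnAt {L : Type*} [Field L] {n : ℕ} {ι : Type*} (e : ι → ℕ) (a : ι → (Fin n →₀ ℕ) → L)
    (k : Fin n) (x : Fin n → L) : Prop :=
  ∃ (u v : Fin n → L) (z : L) (ξ : Fin n → L), u k = 1 ∧ v k = 0 ∧ (∑ j, ξ j * v j = 1) ∧
    (∀ l, x l = u l + z * v l) ∧ ∀ (i : ι) (N : ℕ), Fval (e i) (a i) (fun l => u l + N * v l) = 0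

section

variable {L : Type*} [Field L] {n : ℕ} {ι : Type*} {e : ι → ℕ}

theorem onLine_lnAt [Infinite L] {a : ι → (Fin (n + 1) →₀ ℕ) → L} {x : Fin (n + 1) → L}
    (h : OnLine e a x) {k : Fin (n + 1)} (hk : x k = 1) : LnAt e a k x := by
  classical
  obtain ⟨p₀, q₀, hpq₀, ⟨u₀, v₀, hx₀⟩, hzero⟩ := h
  have hF : finrank L (Submodule.span L (Set.range ![p₀, q₀])) = 2 := by
    rw [finrank_span_eq_card hpq₀, Fintype.card_fin]
  have hmemF : ∀ y : Fin (n + 1) → L, y ∈ Submodule.span L (Set.range ![p₀, q₀]) ↔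
      ∃ u v : L, u • p₀ + v • q₀ = y := by
    intro y
    rw [Matrix.range_cons, Matrix.range_cons, Matrix.range_empty, Set.union_empty,
      Set.singleton_union, Submodule.mem_span_pair]
  have hxF : x ∈ Submodule.span L (Set.range ![p₀, q₀]) := (hmemF x).2 ⟨u₀, v₀, hx₀.symm⟩
  obtain ⟨l, p, q, hC⟩ := exists_chart_at hF hxF (k := k) (by rw [hk]; exact one_ne_zero)
  refine ⟨p, q, x l, Pi.single l 1, hC.ek, hC.fk, ?_, ?_, ?_⟩
  · rw [Finset.sum_eq_single l]
    · rw [Pi.single_eq_same, one_mul, hC.fl]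
    · intro j _ hj
      rw [Pi.single_eq_of_ne hj, zero_mul]
    · intro hj
      exact absurd (Finset.mem_univ _) hj
  · intro j
    have h1 := hC.mem_apply hxF j
    rw [hk, one_mul] at h1
    exact h1
  · intro i N
    obtain ⟨u, v, huv⟩ := (hmemF (p + (N : L) • q)).1
      (Submodule.add_mem _ hC.eE (Submodule.smul_mem _ _ hC.fE))
    have h1 := hzero i u v
    rw [huv] at h1
    exact h1

/-- change of the basis of the line -/
theorem LnAt.chart [CharZero L] {a : ι → (Fin n →₀ ℕ) → L} {k : Fin n} {x : Fin n → L}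
    (h : LnAt e a k x) :
    ∃ (l : Fin n) (u v : Fin n → L) (z : L), u k = 1 ∧ u l = 0 ∧ v k = 0 ∧ v l = 1 ∧
      (∀ l, x l = u l + z * v l) ∧
      ∀ (i : ι) (w : L), Fval (e i) (a i) (fun l => u l + w * v l) = 0 := by
  obtain ⟨u, v, z, ξ, huk, hvk, hξ, hx, hF⟩ := h
  obtain ⟨l, hl⟩ : ∃ l, v l ≠ 0 := by
    by_contra hcon
    push Not at hcon
    simp only [hcon, mul_zero, Finset.sum_const_zero] at hξ
    exact zero_ne_one hξ
  have hF' : ∀ (i : ι) (w : L), Fval (e i) (a i) (fun l => u l + w * v l) = 0 := by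
    intro i w
    obtain ⟨q, hq⟩ := exists_polyFval (e i) (a i) u v
    have hq0 : q = 0 := by
      refine Polynomial.eq_zero_of_infinite_isRoot q ?_
      refine (Set.infinite_range_of_injective (f := fun N : ℕ => (N : L))
        Nat.cast_injective).mono ?_
      rintro _ ⟨N, rfl⟩
      show Polynomial.eval (N : L) q = 0
      rw [hq]
      exact hF i N
    rw [← hq, hq0, Polynomial.eval_zero]
  refine ⟨l, fun j => u j - (u l / v l) * v j, fun j => (v l)⁻¹ * v j, z * v l + u l, ?_, ?_, ?_,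
    ?_, ?_, ?_⟩
  · beta_reduce
    rw [hvk, mul_zero, sub_zero, huk]
  · beta_reduce
    rw [div_mul_cancel₀ _ hl, sub_self]
  · beta_reduce
    rw [hvk, mul_zero]
  · exact inv_mul_cancel₀ hl
  · intro j
    rw [hx]
    field_simp
    ring
  · intro i w
    have h1 : (fun j => u j - u l / v l * v j + w * ((v l)⁻¹ * v j)) =
        fun j => u j + (w * (v l)⁻¹ - u l / v l) * v j := by
      funext j
      ring
    rw [h1]
    exact hF' i _

theorem ring_Fval {Ω : Type*} [Field Ω] (φ : (ℕ → L) →+* Ω) (d : ℕ) (a : (Fin n →₀ ℕ) → L)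
    (y : ℕ → Fin n → L) :
    φ (fun N => Fval d a (y N)) = Fval d (fun I => φ (fun _ => a I)) (fun l => φ (fun N => y N l)) := by
  unfold Fval mon
  have h1 : (fun N : ℕ => ∑ I ∈ expo (Fin n) d, a I * ∏ j, y N j ^ I j) =
      ∑ I ∈ expo (Fin n) d, (fun _ => a I) * ∏ j, (fun N : ℕ => y N j) ^ I j := by
    funext N
    rw [Finset.sum_apply]
    refine Finset.sum_congr rfl fun I _ => ?_
    rw [Pi.mul_apply, Finset.prod_apply]
    rfl
  rw [h1, map_sum]
  refine Finset.sum_congr rfl fun I _ => ?_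
  rw [map_mul, map_prod]
  simp only [map_pow]

/-- germs of points on lines -/
theorem LnAt.germ {Ω : Type*} [Field Ω] (ψ : UP L →+* Ω) {a : ι → (Fin n →₀ ℕ) → L} {k : Fin n}
    {x : ℕ → Fin n → L} (h : ∀ N, LnAt e a k (x N)) :
    LnAt e (fun i I => ψ (constHom (a i I))) k (fun l => ψ (germHom (fun N => x N l))) := by
  choose u v z ξ huk hvk hξ hx hF using h
  refine ⟨fun l => ψ (germHom (fun N => u N l)), fun l => ψ (germHom (fun N => v N l)),
    ψ (germHom z), fun l => ψ (germHom (fun N => ξ N l)), ?_, ?_, ?_, ?_, ?_⟩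
  · have h1 : (fun N => u N k) = 1 := funext fun N => huk N
    beta_reduce
    rw [h1, map_one, map_one]
  · have h1 : (fun N => v N k) = 0 := funext fun N => hvk N
    beta_reduce
    rw [h1, map_zero, map_zero]
  · have h1 : (∑ j, (fun N => ξ N j) * (fun N => v N j) : ℕ → L) = 1 := by
      funext N
      rw [Finset.sum_apply]
      exact hξ N
    have h2 := congrArg (fun y => ψ (germHom y)) h1
    simp only [map_sum, map_mul, map_one] at h2
    exact h2
  · intro l
    have h1 : (fun N => x N l) = (fun N => u N l) + z * (fun N => v N l) := by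
      funext N
      exact hx N l
    beta_reduce
    rw [h1, map_add, map_mul, map_add, map_mul]
  · intro i N'
    have h1 := ring_Fval (ψ.comp germHom) (e i) (a i) (fun N l => u N l + N' * v N l)
    have h2 : (fun N => Fval (e i) (a i) (fun l => u N l + N' * v N l)) = 0 :=
      funext fun N => hF N i N'
    rw [h2, map_zero] at h1
    have h3 : (fun l => (ψ.comp germHom) (fun N => u N l + (N' : L) * v N l)) = fun l =>
        ψ (germHom (fun N => u N l)) + (N' : Ω) * ψ (germHom (fun N => v N l)) := by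
      funext l
      have h4 : (fun N => u N l + (N' : L) * v N l) = (fun N => u N l) +
          ((N' : ℕ) : ℕ → L) * (fun N => v N l) := by
        funext N
        rfl
      rw [h4, map_add, map_mul, map_natCast]
      rfl
    rw [h3] at h1
    exact h1.symm

/-- homotheties -/
theorem OnLine.smul {a : ι → (Fin (n + 1) →₀ ℕ) → L} {x : Fin (n + 1) → L} (h : OnLine e a x)
    (c : L) : OnLine e a (fun l => c * x l) := by
  obtain ⟨p', q', hpq, ⟨u', v', huv⟩, hz'⟩ := h
  refine ⟨p', q', hpq, ⟨c * u', c * v', ?_⟩, hz'⟩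
  have h4 : (fun l => c * x l) = c • x := rfl
  rw [h4, huv, smul_add, smul_smul, smul_smul]

open Polynomial in
theorem resl_map {M : Type*} [Field M] (φ : L →+* M) (d : ℕ) (a : (Fin (n + 1) →₀ ℕ) → L)
    (p q : Fin (n + 1) → L) : (resl d a p q).map φ =
      resl d (fun I => φ (a I)) (fun l => φ (p l)) (fun l => φ (q l)) := by
  unfold resl
  rw [Polynomial.map_sum]
  refine Finset.sum_congr rfl fun I _ => ?_
  rw [Polynomial.map_mul, Polynomial.map_C, Polynomial.map_prod]
  congr 1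
  refine Finset.prod_congr rfl fun j _ => ?_
  rw [Polynomial.map_pow, Polynomial.map_add, Polynomial.map_mul, Polynomial.map_C,
    Polynomial.map_C, Polynomial.map_X]

/-- extensions of the field -/
theorem OnLine.map [Infinite L] {M : Type*} [Field M] (φ : L →+* M)
    {a : ι → (Fin (n + 1) →₀ ℕ) → L} {x : Fin (n + 1) → L} (h : OnLine e a x) :
    OnLine e (fun i I => φ (a i I)) (fun l => φ (x l)) := by
  have : Infinite M := Infinite.of_injective φ φ.injective
  obtain ⟨p, q, hpq, ⟨u, v, huv⟩, hz⟩ := h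
  refine ⟨fun l => φ (p l), fun l => φ (q l), ?_, ⟨φ u, φ v, ?_⟩, fun i => Fval_line ?_⟩
  · let _ := φ.toAlgebra
    have h1 := (linearIndependent_algebraMap_comp_iff (S := M)).2 hpq
    have h2 : (fun i => (algebraMap L M) ∘ (![p, q] : Fin 2 → Fin (n + 1) → L) i) =
        ![fun l => φ (p l), fun l => φ (q l)] := by
      funext i
      fin_cases i
      · rfl
      · rfl
    rw [h2] at h1
    exact h1
  · funext l
    have h1 := congrFun huv l
    rw [Pi.add_apply, Pi.smul_apply, Pi.smul_apply, smul_eq_mul, smul_eq_mul] at h1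
    rw [h1, map_add, map_mul, map_mul]
    rfl
  · rw [← resl_map, resl_eq_zero, Polynomial.map_zero]
    intro w
    have h1 := hz i 1 w
    rwa [one_smul] at h1

end

section

variable {k L : Type*} [Field k] [Field L] [Algebra k L] {n p : ℕ}

/-- germs of points with the rank condition -/
theorem JRank.germ {Ω : Type*} [Field Ω] [Algebra k Ω]
    (ψ : UP L →+* Ω) (hψ : ∀ u : k, ψ (constHom (algebraMap k L u)) = algebraMap k Ω u)
    {ρ : ℕ} {ι : Type*} [Finite ι] {f : ι → MvPolynomial (Fin p ⊕ Fin n) k}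
    {y : ℕ → Fin p ⊕ Fin n → L} (h : ∀ N, JRank ρ f (y N)) :
    JRank ρ f (fun t => ψ (germHom (fun N => y N t))) := by
  choose i j hdet using h
  by_contra hcon
  have h1 : ∀ ij : (Fin ρ → ι) × (Fin ρ → Fin p),
      ∀ᶠ N in (Filter.hyperfilter ℕ : Filter ℕ), (Matrix.of fun a b =>
        MvPolynomial.aeval (y N) (MvPolynomial.pderiv (Sum.inl (ij.2 b)) (f (ij.1 a)))).det = 0 := by
    intro ij
    by_contra h2
    apply hcon
    refine ⟨ij.1, ij.2, fun h3 => h2 ?_⟩
    have h4 : (Matrix.of fun a b => MvPolynomial.aeval (fun t => ψ (germHom (fun N => y N t)))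
        (MvPolynomial.pderiv (Sum.inl (ij.2 b)) (f (ij.1 a)))) = (ψ.comp germHom).mapMatrix
        (Matrix.of fun a b => (fun N => MvPolynomial.aeval (y N)
          (MvPolynomial.pderiv (Sum.inl (ij.2 b)) (f (ij.1 a)))) :
          Matrix (Fin ρ) (Fin ρ) (ℕ → L)) := by
      ext a b
      rw [RingHom.mapMatrix_apply, Matrix.map_apply, Matrix.of_apply, Matrix.of_apply]
      exact germ_aeval ψ hψ y _
    rw [h4, ← RingHom.map_det, RingHom.comp_apply, map_eq_zero, germHom_eq_zero_iff] at h3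
    refine h3.mono fun N hN => ?_
    rw [← hN]
    have h5 := RingHom.map_det (Pi.evalRingHom (fun _ : ℕ => L) N)
      (Matrix.of fun a b => (fun N => MvPolynomial.aeval (y N)
          (MvPolynomial.pderiv (Sum.inl (ij.2 b)) (f (ij.1 a)))) :
          Matrix (Fin ρ) (Fin ρ) (ℕ → L))
    rw [Pi.evalRingHom_apply] at h5
    rw [h5]
    rfl
  have : Finite ((Fin ρ → ι) × (Fin ρ → Fin p)) := inferInstance
  rw [← Filter.eventually_all] at h1
  obtain ⟨N, hN⟩ := h1.exists
  exact hdet N (hN (i N, j N))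

end

/-- **Lines through a point with many algebraically independent coordinates.** -/
theorem no_lineR_closed {κ : Type*} [Field κ] [CharZero κ] {k : Type*} [Field k]
    [CharZero k] [Algebra k κ] {n m p r ρ c : ℕ} {d : Fin p → ℕ}
    (hd : ∀ A : Finset (Fin p), A.card = ρ → 2 * r + c ≤ (∑ j ∈ A, d j) + m + ρ)
    {ι : Type*} {e : ι → ℕ}
    {f : ι → MvPolynomial (Fin p ⊕ Fin (n + 1)) k}
    (hf : ∀ i, (f i).IsWeightedHomogeneous (wtP (n + 1) d) (e i))
    (hI : ringKrullDim (MvPolynomial (Fin (n + 1)) k ⧸ imI f) ≤ ((r + 1 : ℕ) : ℕ))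
    {a : Fin p → (Fin (n + 1) →₀ ℕ) → κ} {P : Finset (Fin p × (Fin (n + 1) →₀ ℕ))}
    (hP : P.card ≤ c)
    (ha : AlgebraicIndependent k (fun s : {s // s ∈ jexpo n d ∧ s ∉ P} => a s.1.1 s.1.2))
    {k₂ : Type*} [Field k₂] [CharZero k₂] [Algebra k k₂] [Algebra k₂ κ] [IsScalarTower k k₂ κ]
    {a₂ : Fin p → (Fin (n + 1) →₀ ℕ) → k₂}
    (ha₂ : ∀ j, ∀ I ∈ expo (Fin (n + 1)) (d j), algebraMap k₂ κ (a₂ j I) = a j I)
    {x : Fin (n + 1) → κ} {l : Fin (n + 1)} (hl : x l = 1) {j : Fin m → Fin (n + 1)}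
    (hind : AlgebraicIndependent k₂ (fun i : Fin m => x (j i)))
    (hne : JRank ρ f (Sum.elim (fun j => Fval (d j) (a j) x) x : Fin p ⊕ Fin (n + 1) → κ) ∨
      (ρ = p ∧ NDegP f x)) :
    ¬ LnAt e (aWP d a f) l x := by
  classical
  intro hln
  obtain ⟨l', u, v, z, huk, hul, hvk, hvl, hx, hF⟩ := hln.chart
  choose δ hδ using fun i : Fin m => exists_der_indepV hind (fun i' => if i = i' then 1 else 0)
  choose W hW using fun I : Fin p × (Fin (n + 1) →₀ ℕ) => exists_der_indepV ha
    (fun J => if I = J.1 then (1 : κ) else 0)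
  refine no_lineR (D := Sum.elim (fun s : EP (n + 1) d P => W (s.1.1, s.1.2.1)) δ) (k := l)
    (l := l') hd hf hI hP ?_ ?_ ?_ hx ?_ huk hul hvk hvl ?_ hne
  · rintro (s | i) y
    · exact (hW _).1 y
    · rw [IsScalarTower.algebraMap_apply k k₂ κ]
      exact (hδ i).1 _
  · intro s s'
    have h1 := (hW (s.1.1, s.1.2.1)).2 ⟨(s'.1.1, s'.1.2.1), mem_jexpo.2 s'.1.2.2, s'.2⟩
    refine h1.trans ?_
    rcases eq_or_ne s s' with rfl | hne
    · rw [if_pos rfl, if_pos rfl]
    · rw [if_neg hne, if_neg]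
      intro h2
      apply hne
      obtain ⟨⟨i, I⟩, hs⟩ := s
      obtain ⟨⟨i', I'⟩, hs'⟩ := s'
      simp only [Prod.mk.injEq] at h2
      obtain ⟨rfl, h3⟩ := h2
      have h4 : I = I' := Subtype.ext h3
      subst h4
      rfl
  · intro i s
    show δ i (a s.1 s.2.1) = 0
    rw [← ha₂ s.1 s.2.1 s.2.2]
    exact (hδ i).1 _
  · have h1 := indep_pointE (x := x) (l := l) (j := j) (by rw [hl]; exact one_ne_zero) δ
      (fun i i' => by rw [hl, div_one]; exact (hδ i).2 i')
    exact (linearIndependent_finCons.1 h1).1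
  · intro i N
    have h1 := hF i N
    rw [Fval_aWP' hf] at h1
    exact h1

end Pool.Agent.Lib.MP_44a246_ntR
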