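import Mathlib
import Pool.Agent.Lib.MP_44a246_ntF.F18
import Pool.Agent.Lib.MP_44a246_ntR.R08
import Pool.Agent.Lib.MP_44a246_ntR.R12

/-!
Algebraic points over function fields: generic sections of weighted projective varieties, the case
without boundary; points of large height lie on lines.
-/

namespace Pool.Agent.Lib.MP_44a246_ntR

open Pool.Agent.Lib.MP_44a246_ntF
open Pool.Agent.Lib.MP_44a246_ntD
open Pool.Agent.Lib.MP_44a246_ntQ
open Pool.Agent.Lib.MP_44a246_nt
open Pool.Agent.Lib.MP_e52354_ntK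
open Pool.Agent.Lib.MP_44a246_ntL
open Pool.Agent.Lib.MP_44a246_ntS
open Pool.Agent.Lib.MP_44a246_ntX
open Pool.Agent.Lib.MP_44a246_ntG
open Pool.Agent.Lib.MP_44a246_ntU
open Pool.Agent.Lib.MP_44a246_ntK
open Pool.Agent.Lib.MP_e52354_nt
open MvPolynomial Module

universe u v w

/-- **Points of large height are on lines.** -/
theorem slope_mainR {κ : Type u} {K : Type v} [Field κ] [IsAlgClosed κ] [CharZero κ] [Field K]
    [CharZero K] [Algebra κ K] (htr : Cardinal.aleph0 ≤ Algebra.trdeg ℚ κ)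
    {t : K} (ht : Transcendental κ t) [FiniteDimensional (IntermediateField.adjoin κ {t}) K]
    {k : Type*} [Field k] [CharZero k] [Algebra k K] (hk : Algebra.trdeg ℚ k < Cardinal.aleph0)
    {n p r ρ c s m P Q m' : ℕ} {d : Fin p → ℕ} {ι : Type*} [Finite ι] {e : ι → ℕ}
    {f : ι → MvPolynomial (Fin p ⊕ Fin (n + 1)) k}
    (hf : ∀ i, (f i).IsWeightedHomogeneous (Sum.elim d fun _ => 1) (e i))
    (hI : ringKrullDim (MvPolynomial (Fin (n + 1)) k ⧸
      (Ideal.span (Set.range f)).comap (rename (Sum.inr : Fin (n + 1) → Fin p ⊕ Fin (n + 1)))) ≤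
        ((r + 1 : ℕ) : WithBot ℕ∞))
    (hr1 : 1 ≤ r) (hρ1 : 1 ≤ ρ) (hd1 : ∀ j, 1 ≤ d j)
    (hms : ∀ A : Finset (Fin p), A.card = ρ → m + s ≤ ∑ j ∈ A, d j)
    (hN : 3 * r + 3 + c ≤ 2 * m + ρ) (hpm : p + 3 ≤ m + ρ)
    (hC : r + p + 2 ≤ m ∨ 2 * r + c + 2 ≤ m + ρ ∨ 3 * r + 4 + c ≤ 2 * m + ρ)
    (hQ : (p + 6) * (m + ρ) + 2 * p * m + Q = (m + ρ) ^ 2 + 9 + 5 * p)
    (he : ∀ i, 2 * p * s * (e i + 1) < Q ∨ 2 * p * (e i + 1) ≤ P ∨ 2 * r + c + 2 ≤ m + ρ)
    (hm' : ∀ A : Finset (Fin p), A.card = ρ → 2 * r + c ≤ (∑ j ∈ A, d j) + m' + ρ)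
    (H : Fin p → MvPolynomial (Fin (n + 1)) K) (hH : ∀ j, (H j).IsHomogeneous (d j))
    (hgen : (Nat.card {I : Fin p × (Fin (n + 1) →₀ ℕ) // I.2.degree = d I.1} : Cardinal) ≤
      Algebra.trdeg k (IntermediateField.adjoin k
        (Set.range fun I : {I : Fin p × (Fin (n + 1) →₀ ℕ) // I.2.degree = d I.1} =>
          (H I.1.1).coeff I.1.2)) + c) :
    ∃ (l : ℕ) (G : Fin l → MvPolynomial (Fin (n + 1)) K), (∀ i, ∃ E, (G i).IsHomogeneous E) ∧
      ringKrullDim (MvPolynomial (Fin (n + 1)) K ⧸ Ideal.span (Set.range G)) ≤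
        (m' : WithBot ℕ∞) ∧
      ∃ C : ℕ, ∀ (L : Type w) [Field L] [Algebra K L] [FiniteDimensional K L] [Algebra κ L]
        [IsScalarTower κ K L] [Algebra k L] [IsScalarTower k K L] (x : Fin (n + 1) → L), x ≠ 0 →
        (∀ i, aeval (Sum.elim (fun j => aeval x (H j)) x : Fin p ⊕ Fin (n + 1) → L) (f i) = 0) →
        (JRank ρ f (Sum.elim (fun j => aeval x (H j)) x : Fin p ⊕ Fin (n + 1) → L) ∨
          (ρ = p ∧ NDegP f x)) →
        ((s * height κ x < ramDeg κ L K ∨ (Q : ℤ) * height κ x ≤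
            C * finrank K L + P * ramDeg κ L K) ∧
          (pointField K x = ⊤ → 2 * finrank K L ≤ s + 2 → 2 * P * (finrank K L - 1) < Q →
            height κ x ≤ C * finrank K L)) ∨
          (∀ i, aeval x (G i) = 0) ∧
            ∃ y z : Fin (n + 1) → L, LinearIndependent L ![y, z] ∧
              (∃ u v : L, x = u • y + v • z) ∧ ∀ (i : ι) (u v : L),
                aeval (Sum.elim (fun j => aeval (u • y + v • z) (H j)) (u • y + v • z) :
                  Fin p ⊕ Fin (n + 1) → L) (f i) = 0 := by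
  obtain ⟨G₀, hG₀, ha⟩ := exists_fewK (fun j I => (H j).coeff I) hgen
  have hf' : ∀ i, (f i).IsWeightedHomogeneous (wtP (n + 1) d) (e i) := hf
  have hI' : ringKrullDim (MvPolynomial (Fin (n + 1)) k ⧸ imI f) ≤ ((r + 1 : ℕ) : ℕ) := hI
  have hK : IsFF κ K := ⟨t, ht, inferInstance⟩
  have hkc : Countable k := countable_of_trdeg hk
  obtain ⟨l, G, hG1, hG2, hG3⟩ := exists_excFormsR.{v, w} (ρ := ρ) (m := m')
    (a := fun j I => (H j).coeff I) hm' hf' hI' hG₀ ha
  obtain ⟨C, hCC⟩ := heightR_base.{u, v, w} (κ := κ) (K := K) (Λ := Fin 0) (ρ := ρ) (s := s)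
    hK htr hk hr1 hd1
    (by rw [Fintype.card_fin]; exact hρ1) (by simpa using hms) hN hpm hC hQ
    (e := e) (P := P) he hf' hI' (g := Fin.elim0) (E := Fin.elim0) (fun l => l.elim0)
    (S := ∅) Set.finite_empty
    (a := fun j I => (H j).coeff I) hG₀ ha
  refine ⟨l, G, hG1, by exact_mod_cast hG2, C, ?_⟩
  intro L _ _ _ _ _ _ _ x hx hfx hne
  have hval : ∀ (i : ι) (y : Fin (n + 1) → L),
      Fval (e i) (aWP d (fun j I => algebraMap K L ((H j).coeff I)) f i) y =
        aeval (Sum.elim (fun j => aeval y (H j)) y : Fin p ⊕ Fin (n + 1) → L) (f i) := by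
    intro i y
    rw [show (fun j => aeval y (H j)) =
      fun j => Fval (d j) (fun I => algebraMap K L ((H j).coeff I)) y from
      funext fun j => Pool.Agent.Lib.MP_44a246_ntU.aeval_eq_Fval (hH j) y]
    rw [Fval_aWP' hf']
  have hfx' : ∀ i, Fval (e i) (aWP d (fun j I => algebraMap K L ((H j).coeff I)) f i) x = 0 :=
    fun i => by rw [hval, hfx]
  have hne' : GoodR ρ d f (fun j I => algebraMap K L ((H j).coeff I)) x := by
    rcases hne with h | h
    · left
      rw [show (fun j => aeval x (H j)) =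
        fun j => Fval (d j) (fun I => algebraMap K L ((H j).coeff I)) x from
        funext fun j => Pool.Agent.Lib.MP_44a246_ntU.aeval_eq_Fval (hH j) x] at h
      exact h
    · exact Or.inr h
  have hL : IsFF κ L := hK.of_finite
  have hHt : 0 ≤ height κ x := hL.height_nonneg hx
  have hRam : (0 : ℤ) ≤ ramDeg κ L K := Int.natCast_nonneg _
  have hfr : 1 ≤ finrank K L := Module.finrank_pos
  have key := hCC L x hx hfx' (fun l => l.elim0) (by
    rcases hne' with h | ⟨h1, h2⟩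
    · left
      obtain ⟨i, j, hdet⟩ := h
      rw [Fintype.card_fin, add_zero]
      exact ⟨fun a => Sum.inl (i a), j, hdet⟩
    · exact Or.inr ⟨Fintype.card_fin 0, h1, h2⟩)
  simp only [IsEmpty.exists_iff, and_false, Set.setOf_false, Set.ncard_empty, Nat.cast_zero,
    zero_add] at key
  rcases key with h | h | h
  · left
    refine ⟨Or.inl h, fun hgx h2 _ => ?_⟩
    have h3 : (ramDeg κ L K : ℤ) ≤ 2 * ((Module.finrank K L : ℤ) - 1) * height κ x := by
      refine hK.ind ?_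
      intro _ _ _ _ _ _ _ _ _
      exact (ram_point (κ := κ) (K := K) x hx hgx).1
    exfalso
    have h4 : 2 * ((Module.finrank K L : ℤ) - 1) ≤ s := by
      have : 2 * (Module.finrank K L : ℤ) ≤ s + 2 := by exact_mod_cast h2
      linarith
    have h5 := mul_le_mul_of_nonneg_right h4 hHt
    linarith
  · left
    refine ⟨Or.inr h, fun hgx h2 h8 => ?_⟩
    have h3 : (ramDeg κ L K : ℤ) ≤ 2 * ((Module.finrank K L : ℤ) - 1) * height κ x := by
      refine hK.ind ?_
      intro _ _ _ _ _ _ _ _ _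
      exact (ram_point (κ := κ) (K := K) x hx hgx).1
    have h9 : 2 * (P : ℤ) * ((finrank K L : ℤ) - 1) + 1 ≤ Q := by
      have h10 : 2 * P * (finrank K L - 1) + 1 ≤ Q := h8
      have h11 : ((finrank K L - 1 : ℕ) : ℤ) = (finrank K L : ℤ) - 1 := by
        rw [Nat.cast_sub hfr, Nat.cast_one]
      rw [← h11]
      exact_mod_cast h10
    have hc : (0 : ℤ) ≤ P := by positivity
    have h12 := mul_le_mul_of_nonneg_left h3 hc
    have h13 := mul_le_mul_of_nonneg_right h9 hHt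
    nlinarith
  · right
    refine ⟨hG3 L x h hne', ?_⟩
    obtain ⟨y, z, hyz, huv, hz⟩ := h
    exact ⟨y, z, hyz, huv, fun i u v => by rw [← hval, hz]⟩

end Pool.Agent.Lib.MP_44a246_ntR
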