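import Mathlib
import Pool.Agent.Lib.MP_44a246_ntC.C15
import Pool.Agent.Lib.MP_44a246_ntR.R07
import Pool.Agent.Lib.MP_44a246_ntU.U14
import Pool.Agent.Lib.MP_e52354_ntV.V3

/-!
The height theorem over the base field, the case without boundary; curves of degree at most `b`.
-/

namespace Pool.Agent.Lib.MP_44a246_ntR

open Pool.Agent.Lib.MP_44a246_nt
open Pool.Agent.Lib.MP_44a246_ntF
open Pool.Agent.Lib.MP_44a246_ntC
open Pool.Agent.Lib.MP_44a246_ntL
open Pool.Agent.Lib.MP_44a246_ntS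
open Pool.Agent.Lib.MP_44a246_ntX
open Pool.Agent.Lib.MP_44a246_ntD
open Pool.Agent.Lib.MP_44a246_ntG
open Pool.Agent.Lib.MP_44a246_ntU
open Pool.Agent.Lib.MP_44a246_ntZ
open Pool.Agent.Lib.MP_44a246_ntK
open Pool.Agent.Lib.MP_e52354_nt
open Pool.Agent.Lib.MP_e52354_ntV
open WithZero Module

universe u v w

/-- **The height theorem over the base field**, the case without boundary and with curves of degree
at most `b`. -/
theorem heightC_base {κ : Type u} {K : Type v} [Field κ] [IsAlgClosed κ] [CharZero κ] [Field K]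
    [CharZero K] [Algebra κ K] (hK : IsFF κ K) (htr : Cardinal.aleph0 ≤ Algebra.trdeg ℚ κ)
    {k : Type*} [Field k] [CharZero k] [Algebra k K]
    (hk : Algebra.trdeg ℚ k < Cardinal.aleph0) {n p r ρ c s b l P Q m : ℕ} {d : Fin p → ℕ}
    (hb : 1 ≤ b) (hl : 1 ≤ l) (hp : 1 ≤ p)
    (hms : ∀ A : Finset (Fin p), A.card = ρ → m + s ≤ ∑ j ∈ A, d j)
    (hd : ∀ j, 10 * b ^ 2 ≤ d j ∧ r + c ≤ l * d j ∧ 150 * (b * l) ≤ d j ∧
      100 * (b * (s + 3)) ≤ d j ∧ Q ≤ d j ^ 2)
    (hN : 21 * (r + c) + 20 * b * (r + c + 2 + 12 * b * l * ρ + 2 * b * ρ) ≤ 20 * b * (m + ρ))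
    {ι : Type*} [Finite ι] {e : ι → ℕ}
    (he : ∀ i, 100 * (b * (s + 3) * e i) ≤ Q ∨ 9 * b * e i ≤ P)
    {f : ι → MvPolynomial (Fin p ⊕ Fin (n + 1)) k}
    (hf : ∀ i, (f i).IsWeightedHomogeneous (wtP (n + 1) d) (e i))
    (hI : ringKrullDim (MvPolynomial (Fin (n + 1)) k ⧸ imI f) ≤ ((r + 1 : ℕ) : ℕ))
    {a : Fin p → (Fin (n + 1) →₀ ℕ) → K} {G : Finset (Fin p × (Fin (n + 1) →₀ ℕ))}
    (hcc : G.card ≤ c)
    (ha : AlgebraicIndependent k (fun s : {s // s ∈ jexpo n d ∧ s ∉ G} => a s.1.1 s.1.2)) :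
    ∃ C : ℕ, ∀ (L : Type w) [Field L] [Algebra K L] [FiniteDimensional K L]
      [Algebra κ L] [IsScalarTower κ K L] [Algebra k L] [IsScalarTower k K L]
      (x : Fin (n + 1) → L), x ≠ 0 →
      (∀ i, Fval (e i) (aWP d (fun j I => algebraMap K L (a j I)) f i) x = 0) →
      (JRank ρ f (Sum.elim
        (fun j => Fval (d j) (fun I => algebraMap K L (a j I)) x) x : Fin p ⊕ Fin (n + 1) → L) ∨
        (ρ = p ∧ NDegP f x)) →
      s * height κ x < ramDeg κ L K ∨
        (Q : ℤ) * height κ x ≤ C * finrank K L + P * ramDeg κ L K ∨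
        CertV e (aWP d (fun j I => algebraMap K L (a j I)) f) b x := by
  classical
  have := Fintype.ofFinite ι
  obtain ⟨C, b', hCb⟩ := exists_dataR.{u, v, w} (ρ := ρ) (Λ := Fin 0) hK htr hk hf hI
    (g := Fin.elim0) (E := Fin.elim0) (fun l => l.elim0) (S := ∅) Set.finite_empty ha
  obtain ⟨j₀, -, hj₀⟩ := Finset.exists_min_image (Finset.univ : Finset (Fin p)) d
    ⟨⟨0, hp⟩, Finset.mem_univ _⟩
  refine ⟨d j₀ ^ 2 * ((27 * (∑ j, d j) ^ 2 + 2 * b * (P / (9 * b))) * (2 * C)), ?_⟩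
  intro L _ _ _ _ _ _ _ x hx hfx hne
  obtain ⟨Y, c', ε, τ, η, hc, hYx, hh, hΔ, hR, hη, hε, hηε, hεs, hv, hr, hτ, hτs, hco, hz⟩ :=
    hCb L x hx hfx (fun l => l.elim0) (by
      rcases hne with h | ⟨h1, h2⟩
      · left
        obtain ⟨i, j, hdet⟩ := h
        rw [Fintype.card_fin, add_zero]
        exact ⟨fun a => Sum.inl (i a), j, hdet⟩
      · exact Or.inr ⟨Fintype.card_fin 0, h1, h2⟩)
  have hL : IsFF κ L := hK.of_finite
  have hchar : CharZero L := charZero_of_injective_algebraMap (algebraMap K L).injective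
  rcases lt_or_ge (s * height κ x) (ramDeg κ L K : ℤ) with hle | hgt
  · exact Or.inl hle
  right
  have hv' : ρ ≤ finrank L ((fU Y ⊔ fB Y (fun s : ↥G => algebraMap κ L (b' s))) ⊓ xsp d Y.x :
      Submodule L (ES (n + 1) d → L)) := by
    have h1 : fL Y η = ⊥ := by
      unfold fL
      rw [Set.range_eq_empty, Submodule.span_empty]
    rw [h1, sup_bot_eq, Fintype.card_fin, add_zero] at hv
    exact hv
  have hht : 0 ≤ height κ x := hL.height_nonneg hx
  have hmain := height_jointR hL (r := r + c) (r₀ := r) (q := s) (g := ρ) (M := P / (9 * b))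
    (D := ∑ j, d j) (d₀ := d j₀) (m := fun _ => l) hb (fun _ => hl) (fun j => (hd j).1)
    (fun j => (hd j).2.1) (fun j => (hd j).2.2.1) (fun j => (hd j).2.2.2.1) (fun A hA => by
      have h1 := hms A hA
      rw [Finset.sum_const, hA, smul_eq_mul]
      have h2 : 20 * b * (m + ρ) + 20 * b * s ≤ 20 * b * (∑ j ∈ A, d j + ρ) := by
        rw [← Nat.mul_add]
        exact Nat.mul_le_mul_left _ (by omega)
      refine le_trans (le_of_eq ?_) ((Nat.add_le_add_right hN (20 * b * s)).trans h2)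
      ring) (fun j => hj₀ j (Finset.mem_univ j)) (by
      have h2 := (hd j₀).1
      have h3 : 1 ≤ b ^ 2 := Nat.one_le_pow _ _ hb
      omega) (fun j => Finset.single_le_sum (f := d) (fun _ _ => Nat.zero_le _)
        (Finset.mem_univ j)) Y (β := fun s : ↥G => algebraMap κ L (b' s))
    (fun s w => place_const_le w _) hv' hr (by rw [Fintype.card_coe]; omega)
    (by rw [hR, hh]; exact hgt) hτ (e := e)
    (a := aWP d (fun j I => algebraMap K L (a j I)) f) (fun i => by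
      rcases he i with h1 | h1
      · exact Or.inl (h1.trans (hd j₀).2.2.2.2)
      · right
        rw [Nat.le_div_iff_mul_le (by omega)]
        rw [mul_comm]
        exact h1) hco hz
  rcases hmain with h | h
  · left
    rw [hh, hR] at h
    have h1 : Y.Δ + ∑ᶠ w, (τ w : ℤ) ≤ 2 * C * finrank K L := by linarith
    have h2 : (0 : ℤ) ≤ (d j₀ : ℤ) ^ 2 * (27 * ((∑ j, d j : ℕ) : ℤ) ^ 2 +
        2 * b * ((P / (9 * b) : ℕ) : ℤ)) := by positivity
    have h3 := mul_le_mul_of_nonneg_left h1 h2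
    have h4 : (9 * b * (P / (9 * b)) : ℕ) ≤ P := Nat.mul_div_le P (9 * b)
    have h5 : ((9 * b * (P / (9 * b)) : ℕ) : ℤ) * (ramDeg κ L K : ℤ) ≤ P * ramDeg κ L K :=
      mul_le_mul_of_nonneg_right (by exact_mod_cast h4) (Int.natCast_nonneg _)
    have h6 : (Q : ℤ) * height κ x ≤ (d j₀ : ℤ) ^ 2 * height κ x :=
      mul_le_mul_of_nonneg_right (by exact_mod_cast (hd j₀).2.2.2.2) hht
    push_cast at h2 h3 h5 h ⊢
    linarith
  · right
    rw [hYx] at h
    exact certV_of_smul hc h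

end Pool.Agent.Lib.MP_44a246_ntR
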