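import Mathlib
import Pool.Agent.Lib.MP_44a246_ntC.C20
import Pool.Agent.Lib.MP_44a246_ntK.K26
import Pool.Agent.Lib.MP_44a246_ntR.R13
import Pool.Agent.Lib.MP_44a246_ntR.R24
import Pool.Agent.Lib.MP_e52354_ntR.H8

/-!
Algebraic points over function fields: generic sections of weighted projective varieties, the case
without boundary; both versions of the exceptional set.
-/

namespace Pool.Agent.Lib.MP_44a246_ntR

open Pool.Agent.Lib.MP_e52354_ntR
open Pool.Agent.Lib.MP_44a246_ntC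
open Pool.Agent.Lib.MP_44a246_ntF
open Pool.Agent.Lib.MP_44a246_ntD
open Pool.Agent.Lib.MP_44a246_ntQ
open Pool.Agent.Lib.MP_44a246_nt
open Pool.Agent.Lib.MP_e52354_ntK
open Pool.Agent.Lib.MP_44a246_ntL
open Pool.Agent.Lib.MP_44a246_ntS
open Pool.Agent.Lib.MP_44a246_ntX
open Pool.Agent.Lib.MP_44a246_ntG
open Pool.Agent.Lib.MP_44a246_ntU
open Pool.Agent.Lib.MP_44a246_ntK
open Pool.Agent.Lib.MP_e52354_nt
open MvPolynomial Module

universe u v w

/-- **The union of two closed sets**, which are given by forms. -/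
theorem exists_unionL {k : Type v} [Field k] {N m t t' : ℕ} {G : Fin t → MvPolynomial (Fin N) k}
    {G' : Fin t' → MvPolynomial (Fin N) k} (hG : ∀ i, ∃ E, (G i).IsHomogeneous E)
    (hG' : ∀ i, ∃ E, (G' i).IsHomogeneous E)
    (hd : ringKrullDim (MvPolynomial (Fin N) k ⧸ Ideal.span (Set.range G)) ≤
      ((m : ℕ) : WithBot ℕ∞))
    (hd' : ringKrullDim (MvPolynomial (Fin N) k ⧸ Ideal.span (Set.range G')) ≤
      ((m : ℕ) : WithBot ℕ∞)) :
    ∃ (u : ℕ) (F : Fin u → MvPolynomial (Fin N) k), (∀ i, ∃ E, (F i).IsHomogeneous E) ∧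
      ringKrullDim (MvPolynomial (Fin N) k ⧸ Ideal.span (Set.range F)) ≤
        ((m : ℕ) : WithBot ℕ∞) ∧
      ∀ (L : Type w) [Field L] [Algebra k L] (x : Fin N → L),
        ((∀ i, aeval x (G i) = 0) ∨ (∀ i, aeval x (G' i) = 0)) → ∀ i, aeval x (F i) = 0 := by
  let eq := Fintype.equivFin (Fin t × Fin t')
  refine ⟨_, fun i => G (eq.symm i).1 * G' (eq.symm i).2, fun i => ?_, ?_,
    fun L _ _ x h i => ?_⟩
  · obtain ⟨E, hE⟩ := hG (eq.symm i).1
    obtain ⟨E', hE'⟩ := hG' (eq.symm i).2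
    exact ⟨_, hE.mul hE'⟩
  · have h1 : Ideal.span (Set.range fun i => G (eq.symm i).1 * G' (eq.symm i).2) =
        Ideal.span (Set.range G) * Ideal.span (Set.range G') := by
      rw [Ideal.span_mul_span']
      congr 1
      ext q
      constructor
      · rintro ⟨i, rfl⟩
        exact Set.mul_mem_mul ⟨_, rfl⟩ ⟨_, rfl⟩
      · rintro ⟨_, ⟨i, rfl⟩, _, ⟨j, rfl⟩, rfl⟩
        refine ⟨eq (i, j), ?_⟩
        beta_reduce
        rw [Equiv.symm_apply_apply]
    rw [h1]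
    exact dim_mul_le hd hd'
  · rw [map_mul]
    rcases h with h | h
    · rw [h, zero_mul]
    · rw [h, mul_zero]

/-- the inequality for the points of bounded degree -/
theorem bounded_of_ram {κ : Type u} {K : Type v} [Field κ] [IsAlgClosed κ] [CharZero κ] [Field K]
    [CharZero K] [Algebra κ K] (hK : IsFF κ K) {L : Type w} [Field L] [Algebra K L]
    [FiniteDimensional K L] [Algebra κ L] [IsScalarTower κ K L] {n s P Q C : ℕ}
    {x : Fin (n + 1) → L} (hx : x ≠ 0)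
    (h : s * height κ x < ramDeg κ L K ∨ (Q : ℤ) * height κ x ≤
      C * finrank K L + P * ramDeg κ L K) :
    (s * height κ x < ramDeg κ L K ∨ (Q : ℤ) * height κ x ≤
      C * finrank K L + P * ramDeg κ L K) ∧
    (pointField K x = ⊤ → 2 * finrank K L ≤ s + 2 → 2 * P * (finrank K L - 1) < Q →
      height κ x ≤ C * finrank K L) := by
  refine ⟨h, fun hgx h2 h8 => ?_⟩
  have hL : IsFF κ L := hK.of_finite
  have hHt : 0 ≤ height κ x := hL.height_nonneg hx
  have hfr : 1 ≤ finrank K L := Module.finrank_pos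
  have h3 : (ramDeg κ L K : ℤ) ≤ 2 * ((Module.finrank K L : ℤ) - 1) * height κ x := by
    refine hK.ind ?_
    intro _ _ _ _ _ _ _ _ _
    exact (ram_point (κ := κ) (K := K) x hx hgx).1
  rcases h with h | h
  · exfalso
    have h4 : 2 * ((Module.finrank K L : ℤ) - 1) ≤ s := by
      have : 2 * (Module.finrank K L : ℤ) ≤ s + 2 := by exact_mod_cast h2
      linarith
    have h5 := mul_le_mul_of_nonneg_right h4 hHt
    linarith
  · have h9 : 2 * (P : ℤ) * ((finrank K L : ℤ) - 1) + 1 ≤ Q := by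
      have h10 : 2 * P * (finrank K L - 1) + 1 ≤ Q := h8
      have h11 : ((finrank K L - 1 : ℕ) : ℤ) = (finrank K L : ℤ) - 1 := by
        rw [Nat.cast_sub hfr, Nat.cast_one]
      rw [← h11]
      exact_mod_cast h10
    have hc : (0 : ℤ) ≤ P := by positivity
    have h12 := mul_le_mul_of_nonneg_left h3 hc
    have h13 := mul_le_mul_of_nonneg_right h9 hHt
    nlinarith

/-- **Points of large height are in a closed set of small dimension**: lines, or curves of degree at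
most `b`. -/
theorem slope_mainRC {κ : Type u} {K : Type v} [Field κ] [IsAlgClosed κ] [CharZero κ] [Field K]
    [CharZero K] [Algebra κ K] (htr : Cardinal.aleph0 ≤ Algebra.trdeg ℚ κ)
    {t : K} (ht : Transcendental κ t) [FiniteDimensional (IntermediateField.adjoin κ {t}) K]
    {k : Type*} [Field k] [CharZero k] [Algebra k K] (hk : Algebra.trdeg ℚ k < Cardinal.aleph0)
    {n p r ρ c s m b l P Q m' : ℕ} {d : Fin p → ℕ} {ι : Type*} [Finite ι] {e : ι → ℕ}
    {f : ι → MvPolynomial (Fin p ⊕ Fin (n + 1)) k}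
    (hf : ∀ i, (f i).IsWeightedHomogeneous (Sum.elim d fun _ => 1) (e i))
    (hI : ringKrullDim (MvPolynomial (Fin (n + 1)) k ⧸
      (Ideal.span (Set.range f)).comap (rename (Sum.inr : Fin (n + 1) → Fin p ⊕ Fin (n + 1)))) ≤
        ((r + 1 : ℕ) : WithBot ℕ∞))
    (hr1 : 1 ≤ r) (hρ1 : 1 ≤ ρ) (hρp : ρ ≤ p)
    (hms : ∀ A : Finset (Fin p), A.card = ρ → m + s ≤ ∑ j ∈ A, d j)
    (hd : (b = 0 ∧ (∀ j, 1 ≤ d j) ∧ 3 * r + 3 + c ≤ 2 * m + ρ ∧ p + 3 ≤ m + ρ ∧
        (r + p + 2 ≤ m ∨ 2 * r + c + 2 ≤ m + ρ ∨ 3 * r + 4 + c ≤ 2 * m + ρ) ∧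
        (p + 6) * (m + ρ) + 2 * p * m + Q ≤ (m + ρ) ^ 2 + 9 + 5 * p ∧
        ∀ i, 2 * p * s * (e i + 1) < Q ∨ 2 * p * (e i + 1) ≤ P ∨ 2 * r + c + 2 ≤ m + ρ) ∨
      (1 ≤ b ∧ 1 ≤ l ∧ (∀ j, 10 * b ^ 2 ≤ d j ∧ r + c ≤ l * d j ∧ 150 * (b * l) ≤ d j ∧
        100 * (b * (s + 3)) ≤ d j ∧ Q ≤ d j ^ 2) ∧
        21 * (r + c) + 20 * b * (r + c + 2 + 12 * b * l * ρ + 2 * b * ρ) ≤ 20 * b * (m + ρ) ∧
        ∀ i, 100 * (b * (s + 3) * e i) ≤ Q ∨ 9 * b * e i ≤ P))
    (hm' : ∀ A : Finset (Fin p), A.card = ρ → 2 * r + 2 * b + c ≤ (∑ j ∈ A, d j) + m' + ρ)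
    (H : Fin p → MvPolynomial (Fin (n + 1)) K) (hH : ∀ j, (H j).IsHomogeneous (d j))
    (hgen : (Nat.card {I : Fin p × (Fin (n + 1) →₀ ℕ) // I.2.degree = d I.1} : Cardinal) ≤
      Algebra.trdeg k (IntermediateField.adjoin k
        (Set.range fun I : {I : Fin p × (Fin (n + 1) →₀ ℕ) // I.2.degree = d I.1} =>
          (H I.1.1).coeff I.1.2)) + c) :
    ∃ (a : ℕ) (G : Fin a → MvPolynomial (Fin (n + 1)) K), (∀ i, ∃ E, (G i).IsHomogeneous E) ∧
      ringKrullDim (MvPolynomial (Fin (n + 1)) K ⧸ Ideal.span (Set.range G)) ≤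
        (m' : WithBot ℕ∞) ∧
      ∃ C : ℕ, ∀ (L : Type w) [Field L] [Algebra K L] [FiniteDimensional K L] [Algebra κ L]
        [IsScalarTower κ K L] [Algebra k L] [IsScalarTower k K L] (x : Fin (n + 1) → L), x ≠ 0 →
        (∀ i, aeval (Sum.elim (fun j => aeval x (H j)) x : Fin p ⊕ Fin (n + 1) → L) (f i) = 0) →
        ((∃ (i : Fin ρ → ι) (j : Fin ρ → Fin p), (Matrix.of fun a b =>
            aeval (Sum.elim (fun j => aeval x (H j)) x : Fin p ⊕ Fin (n + 1) → L)
              (pderiv (Sum.inl (j b)) (f (i a)))).det ≠ 0) ∨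
          (ρ = p ∧ (b = 0 ∨ ringKrullDim (MvPolynomial (Fin p ⊕ Fin (n + 1)) k ⧸
              Ideal.span (Set.range f)) ≤ ((r + 1 : ℕ) : WithBot ℕ∞)) ∧
            ∀ j : Fin p, ∃ i, (∀ j' : Fin p, j' ≠ j → Sum.inl j' ∉ (f i).vars) ∧
              ∃ τ : L, aeval (Sum.elim (fun _ => τ) x : Fin p ⊕ Fin (n + 1) → L) (f i) ≠ 0)) →
        ((s * height κ x < ramDeg κ L K ∨ (Q : ℤ) * height κ x ≤
            C * finrank K L + P * ramDeg κ L K) ∧
          (pointField K x = ⊤ → 2 * finrank K L ≤ s + 2 → 2 * P * (finrank K L - 1) < Q →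
            height κ x ≤ C * finrank K L)) ∨
          (∀ i, aeval x (G i) = 0) ∧ (b = 0 →
            ∃ y z : Fin (n + 1) → L, LinearIndependent L ![y, z] ∧
              (∃ u v : L, x = u • y + v • z) ∧ ∀ (i : ι) (u v : L),
                aeval (Sum.elim (fun j => aeval (u • y + v • z) (H j)) (u • y + v • z) :
                  Fin p ⊕ Fin (n + 1) → L) (f i) = 0) := by
  classical
  have hK : IsFF κ K := ⟨t, ht, inferInstance⟩
  rcases hd with ⟨hb, hd1, hN, hpm, hC, hQ, he⟩ | ⟨hb, hl, hd1, hN, he⟩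
  · subst hb
    obtain ⟨Q', hQ'⟩ : ∃ Q', (p + 6) * (m + ρ) + 2 * p * m + Q' = (m + ρ) ^ 2 + 9 + 5 * p :=
      ⟨(m + ρ) ^ 2 + 9 + 5 * p - ((p + 6) * (m + ρ) + 2 * p * m), by omega⟩
    have hQQ : Q ≤ Q' := by omega
    obtain ⟨a, G, hG, hGd, C, hmain⟩ := slope_mainR.{u, v, w} htr ht hk hf hI hr1 hρ1 hd1 hms hN
      hpm hC hQ' (P := P) (fun i => by
        rcases he i with h | h
        · exact Or.inl (h.trans_le hQQ)
        · exact Or.inr h) (m' := m') (fun A hA => by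
        have := hm' A hA
        omega) H hH hgen
    refine ⟨a, G, hG, hGd, C, ?_⟩
    intro L _ _ _ _ _ _ _ x hx hfx hgood
    have hL : IsFF κ L := hK.of_finite
    have hHt : 0 ≤ height κ x := hL.height_nonneg hx
    rcases hmain L x hx hfx (by
      rcases hgood with h | ⟨h1, -, h2⟩
      · exact Or.inl h
      · exact Or.inr ⟨h1, h2⟩) with h | ⟨h1, h2⟩
    · left
      refine bounded_of_ram hK hx ?_
      rcases h.1 with h3 | h3
      · exact Or.inl h3
      · right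
        exact (mul_le_mul_of_nonneg_right (by exact_mod_cast hQQ) hHt).trans h3
    · exact Or.inr ⟨h1, fun _ => h2⟩
  · obtain ⟨G₀, hG₀, ha⟩ := exists_fewK (fun j I => (H j).coeff I) hgen
    have hf' : ∀ i, (f i).IsWeightedHomogeneous (wtP (n + 1) d) (e i) := hf
    have hI' : ringKrullDim (MvPolynomial (Fin (n + 1)) k ⧸ imI f) ≤ ((r + 1 : ℕ) : ℕ) := hI
    have hkc : Countable k := countable_of_trdeg hk
    obtain ⟨a₁, G₁, hG1, hd1', hF1⟩ := exists_excFormsER.{v, w} (b := b) (ρ := ρ) (m := m')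
      (a := fun j I => (H j).coeff I) hm' hf' hI' hG₀ ha
    have hex : ∃ (a₂ : ℕ) (G₂ : Fin a₂ → MvPolynomial (Fin (n + 1)) K),
        (∀ i, ∃ E, (G₂ i).IsHomogeneous E) ∧
        ringKrullDim (MvPolynomial (Fin (n + 1)) K ⧸ Ideal.span (Set.range G₂)) ≤
          (m' : WithBot ℕ∞) ∧
        (ρ = p → ringKrullDim (MvPolynomial (Fin p ⊕ Fin (n + 1)) k ⧸
              Ideal.span (Set.range f)) ≤ ((r + 1 : ℕ) : WithBot ℕ∞) →
          ∀ (L : Type w) [Field L] [Algebra K L] [Algebra.IsAlgebraic K L] [Algebra k L]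
          [IsScalarTower k K L] (x : Fin (n + 1) → L),
          CertV e (aWP d (fun j I => algebraMap K L ((H j).coeff I)) f) b x → NDegP f x →
            ∀ i, aeval x (G₂ i) = 0) := by
      by_cases hcase : ρ = p ∧ ringKrullDim (MvPolynomial (Fin p ⊕ Fin (n + 1)) k ⧸
              Ideal.span (Set.range f)) ≤ ((r + 1 : ℕ) : WithBot ℕ∞)
      · obtain ⟨h1, h2⟩ := hcase
        subst h1
        obtain ⟨a₂, G₂, h3, h4, h5⟩ := exists_excFormsEK.{v, w} (b := b) (m := m')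
          (a := fun j I => (H j).coeff I)
          (hm' Finset.univ (by rw [Finset.card_univ, Fintype.card_fin])) hf' h2 hG₀ ha
        exact ⟨a₂, G₂, h3, h4, fun _ _ => h5⟩
      · exact ⟨a₁, G₁, hG1, hd1', fun h1 h2 => absurd ⟨h1, h2⟩ hcase⟩
    obtain ⟨a₂, G₂, hG2, hd2', hF2⟩ := hex
    obtain ⟨a, G, hG, hdG, hvan⟩ := exists_unionL.{v, w} hG1 hG2 hd1' hd2'
    obtain ⟨C, hCC⟩ := heightC_base.{u, v, w} (κ := κ) (K := K) (ρ := ρ) (s := s) (P := P)
      hK htr hk hb hl (hρ1.trans hρp) hms hd1 hN he hf' hI'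
      (a := fun j I => (H j).coeff I) hG₀ ha
    refine ⟨a, G, hG, hdG, C, ?_⟩
    intro L _ _ _ _ _ _ _ x hx hfx hgood
    have hL : IsFF κ L := hK.of_finite
    have hval : ∀ (i : ι) (y : Fin (n + 1) → L),
        Fval (e i) (aWP d (fun j I => algebraMap K L ((H j).coeff I)) f i) y =
          aeval (Sum.elim (fun j => aeval y (H j)) y : Fin p ⊕ Fin (n + 1) → L) (f i) := by
      intro i y
      rw [show (fun j => aeval y (H j)) =
        fun j => Fval (d j) (fun I => algebraMap K L ((H j).coeff I)) y from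
        funext fun j => Pool.Agent.Lib.MP_44a246_ntU.aeval_eq_Fval (hH j) y]
      rw [Fval_aWP' hf']
    have hfx' : ∀ i, Fval (e i) (aWP d (fun j I => algebraMap K L ((H j).coeff I)) f i) x = 0 :=
      fun i => by rw [hval, hfx]
    have hev : (fun j => aeval x (H j)) =
        fun j => Fval (d j) (fun I => algebraMap K L ((H j).coeff I)) x :=
      funext fun j => Pool.Agent.Lib.MP_44a246_ntU.aeval_eq_Fval (hH j) x
    have hgood' : JRank ρ f (Sum.elim (fun j => Fval (d j)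
          (fun I => algebraMap K L ((H j).coeff I)) x) x : Fin p ⊕ Fin (n + 1) → L) ∨
        (ρ = p ∧ ringKrullDim (MvPolynomial (Fin p ⊕ Fin (n + 1)) k ⧸
              Ideal.span (Set.range f)) ≤ ((r + 1 : ℕ) : WithBot ℕ∞) ∧ NDegP f x) := by
      rcases hgood with h | ⟨h1, h2, h3⟩
      · left
        rw [hev] at h
        exact h
      · exact Or.inr ⟨h1, h2.resolve_left (by omega), h3⟩
    rcases hCC L x hx hfx' (by
      rcases hgood' with h | ⟨h1, -, h2⟩
      · exact Or.inl h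
      · exact Or.inr ⟨h1, h2⟩) with h | h | h
    · exact Or.inl (bounded_of_ram hK hx (Or.inl h))
    · exact Or.inl (bounded_of_ram hK hx (Or.inr h))
    · right
      refine ⟨hvan L x ?_, fun h0 => by omega⟩
      rcases hgood' with h1 | ⟨h1, h2, h3⟩
      · exact Or.inl (hF1 L x h h1)
      · exact Or.inr (hF2 h1 h2 L x h h3)

end Pool.Agent.Lib.MP_44a246_ntR
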