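import Mathlib
import Pool.Agent.Lib.MP_44a246_ntL.LThree
import Pool.Agent.Lib.MP_44a246_ntR.R13

/-!
A point of a line which contains three points of the divisor: the sharp constant for the truncated
counting function.
-/

namespace Pool.Agent.Lib.MP_44a246_ntR

open Pool.Agent.Lib.MP_44a246_ntL
open Pool.Agent.Lib.MP_44a246_nt
open Pool.Agent.Lib.MP_e52354_nt
open Pool.Agent.Lib.MP_e52354_ntG
open WithZero

universe w

section

variable {κ K : Type*} [Field κ] [IsAlgClosed κ] [CharZero κ] [Field K] [Algebra κ K]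

/-- If a form vanishes at a point of the line but not at the point `x` of the line, then the two
points meet only at places at which `x` meets the form, at places at which the line degenerates
and at places over a finite set. -/
theorem meet_point_set (hK : IsFF κ K) {s q : ℕ} (d : Fin q → ℕ) (a : Fin q → (Fin s →₀ ℕ) → K)
    {S : Set (Place κ K)} (hS : S.Finite) :
    ∃ T : Set (Place κ K), T.Finite ∧ ∀ (L : Type w) [Field L] [Algebra κ L] [Algebra K L]
      [IsScalarTower κ K L] [FiniteDimensional K L] (x p' Q : Fin s → L) (i₀ j₀ : Fin s),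
      plu x p' i₀ j₀ ≠ 0 → (∃ α β : L, Q = fun k => x k * α + p' k * β) → ∀ f : Fin q,
      Fval (d f) (fun I => algebraMap K L (a f I)) Q = 0 →
      Fval (d f) (fun I => algebraMap K L (a f I)) x ≠ 0 →
      {w : Place κ L | w.1 (plu x Q i₀ j₀) < vmax w.1 x * vmax w.1 Q} ⊆
        meetSet (κ := κ) d a S x ∪ ({w : Place κ L | w.1 (pluV x p' (i₀, j₀)) <
          vmax w.1 (pluV x p')} ∪ {w : Place κ L | below K w ∈ T}) := by
  classical
  set B : Set (Place κ K) := ⋃ f : Fin q, ⋃ I ∈ (expo (Fin s) (d f) : Set (Fin s →₀ ℕ)),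
    {v : Place κ K | 1 < v.1 (a f I)} with hB
  have hBfin : B.Finite := by
    refine Set.finite_iUnion fun f => Set.Finite.biUnion (Finset.finite_toSet _) fun I _ => ?_
    by_cases h0 : a f I = 0
    · refine Set.Finite.subset Set.finite_empty fun v hv => ?_
      have hv' : 1 < v.1 (a f I) := hv
      rw [h0, map_zero] at hv'
      exact absurd hv' (not_lt.mpr zero_le)
    · exact (hK.place_finite h0).subset fun v hv => ne_of_gt hv
  have hT : (S ∪ B).Finite := hS.union hBfin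
  refine ⟨S ∪ B, hT, ?_⟩
  intro L _ _ _ _ _ x p' Q i₀ j₀ hij hline f hFQ hFx
  have hL : IsFF κ L := hK.of_finite
  have hxn : x ≠ 0 := plu_ne_left hij
  intro w hw
  by_contra hcon
  have hc1 : w ∉ meetSet (κ := κ) d a S x := fun h1 => hcon (Or.inl h1)
  have hc2 : ¬ (w.1 (pluV x p' (i₀, j₀)) < vmax w.1 (pluV x p')) :=
    fun h1 => hcon (Or.inr (Or.inl h1))
  have hc3 : below K w ∉ S ∪ B := fun h1 => hcon (Or.inr (Or.inr h1))
  have hw' : w.1 (plu x Q i₀ j₀) < vmax w.1 x * vmax w.1 Q := hw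
  have hxp : 0 < vmax w.1 x := zero_lt_iff.mpr (vmax_ne _ hxn)
  have hQn : Q ≠ 0 := by
    rintro rfl
    rw [(vmax_eq_zero_iff w.1).mpr rfl, mul_zero] at hw'
    exact absurd hw' (not_lt.mpr zero_le)
  have hpi : ∀ k l, w.1 (plu x p' k l) ≤ w.1 (plu x p' i₀ j₀) := fun k l =>
    (le_vmax w.1 (pluV x p') (k, l)).trans (not_lt.mp hc2)
  have hpn : w.1 (plu x p' i₀ j₀) ≠ 0 := (w.1.ne_zero_iff).mpr hij
  -- points of the line
  have hpt : ∀ P : Fin s → L, (∃ α β : L, P = fun k => x k * α + p' k * β) → ∀ k,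
      w.1 (P k) ≤ max (w.1 (P i₀)) (w.1 (P j₀)) := by
    intro P hP k
    have h1 := plu_line hP i₀ j₀ k
    have h2 : w.1 (plu x p' i₀ j₀) * w.1 (P k) ≤
        w.1 (plu x p' i₀ j₀) * max (w.1 (P i₀)) (w.1 (P j₀)) := by
      rw [← map_mul, h1]
      refine (Valuation.map_sub w.1 _ _).trans (max_le ?_ ?_)
      · rw [map_mul, mul_comm]
        exact mul_le_mul' (hpi _ _) (le_max_right _ _)
      · rw [map_mul, mul_comm]
        exact mul_le_mul' (hpi _ _) (le_max_left _ _)
    exact (mul_le_mul_iff_right₀ (zero_lt_iff.mpr hpn)).mp h2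
  obtain ⟨α, β, hαβ⟩ := hline
  -- the maximal coordinate of `Q`
  have hm : ∃ m, Q m ≠ 0 ∧ vmax w.1 Q = w.1 (Q m) ∧
      ∀ k, w.1 (Q m * x k - x m * Q k) ≤ w.1 (plu x Q i₀ j₀) := by
    have hline' : ∀ m, ∃ α' β' : L, (fun k => Q m * x k - x m * Q k) =
        fun k => x k * α' + p' k * β' := by
      intro m
      refine ⟨Q m - x m * α, - x m * β, ?_⟩
      funext k
      rw [hαβ]
      ring
    rcases le_total (w.1 (Q i₀)) (w.1 (Q j₀)) with hle | hle
    · have e1 : vmax w.1 Q = w.1 (Q j₀) := by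
        refine le_antisymm (vmax_le _ fun k => ?_) (le_vmax _ _ _)
        exact (hpt Q ⟨α, β, hαβ⟩ k).trans (max_le hle le_rfl)
      refine ⟨j₀, ?_, e1, ?_⟩
      · intro h0
        rw [h0, map_zero] at e1
        exact vmax_ne w.1 hQn e1
      · intro k
        refine (hpt _ (hline' j₀) k).trans (max_le ?_ ?_)
        · have e2 : Q j₀ * x i₀ - x j₀ * Q i₀ = plu x Q i₀ j₀ := by
            unfold plu
            ring
          simp only [e2, le_refl]
        · have e2 : Q j₀ * x j₀ - x j₀ * Q j₀ = 0 := by ring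
          simp only [e2, map_zero, zero_le]
    · have e1 : vmax w.1 Q = w.1 (Q i₀) := by
        refine le_antisymm (vmax_le _ fun k => ?_) (le_vmax _ _ _)
        exact (hpt Q ⟨α, β, hαβ⟩ k).trans (max_le le_rfl hle)
      refine ⟨i₀, ?_, e1, ?_⟩
      · intro h0
        rw [h0, map_zero] at e1
        exact vmax_ne w.1 hQn e1
      · intro k
        refine (hpt _ (hline' i₀) k).trans (max_le ?_ ?_)
        · have e2 : Q i₀ * x i₀ - x i₀ * Q i₀ = 0 := by ring
          simp only [e2, map_zero, zero_le]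
        · have e2 : Q i₀ * x j₀ - x i₀ * Q j₀ = - plu x Q i₀ j₀ := by
            unfold plu
            ring
          simp only [e2, Valuation.map_neg, le_refl]
  obtain ⟨m, hm0, hmax, hmk⟩ := hm
  have hmp : 0 < w.1 (Q m) := zero_lt_iff.mpr ((w.1.ne_zero_iff).mpr hm0)
  set lam : L := x m / Q m with hlam
  have hd1 : ∀ k, w.1 (x k - lam * Q k) < vmax w.1 x := by
    intro k
    have e2 : Q m * (x k - lam * Q k) = Q m * x k - x m * Q k := by
      rw [hlam]
      field_simp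
    have h1 : w.1 (Q m) * w.1 (x k - lam * Q k) < w.1 (Q m) * vmax w.1 x := by
      rw [← map_mul, e2]
      refine (hmk k).trans_lt ?_
      rw [mul_comm, ← hmax]
      exact hw'
    exact (mul_lt_mul_iff_right₀ hmp).mp h1
  have hd2 : ∀ k, w.1 (lam * Q k) ≤ vmax w.1 x := by
    intro k
    have e2 : Q m * (lam * Q k) = x m * Q k := by
      rw [hlam]
      field_simp
    have h1 : w.1 (Q m) * w.1 (lam * Q k) ≤ w.1 (Q m) * vmax w.1 x := by
      rw [← map_mul, e2, map_mul, mul_comm (w.1 (Q m))]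
      refine mul_le_mul' (le_vmax _ _ _) ?_
      rw [← hmax]
      exact le_vmax _ _ _
    exact (mul_le_mul_iff_right₀ hmp).mp h1
  have hcoef : ∀ I ∈ expo (Fin s) (d f), w.1 (algebraMap K L (a f I)) ≤ 1 := by
    intro I hI
    rw [below_pow]
    refine pow_le_one' (not_lt.mp fun h1 => hc3 (Or.inr ?_)) _
    exact Set.mem_iUnion.mpr ⟨f, Set.mem_iUnion₂.mpr ⟨I, hI, h1⟩⟩
  have hlt := Fval_sub_lt w.1 (vmax_ne _ hxn) (fun k => le_vmax w.1 x k) hd2 hd1 (d f)
    (fun I => algebraMap K L (a f I)) hcoef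
  rw [Fval_smul, hFQ, mul_zero, sub_zero] at hlt
  exact hc1 ⟨fun h1 => hc3 (Or.inl h1), f, hFx, hlt⟩

/-- The bound for a point of a line which contains three points of the divisor. -/
theorem cross_sharp (hK : IsFF κ K) {s q : ℕ} (d : Fin q → ℕ) (a : Fin q → (Fin s →₀ ℕ) → K)
    {S : Set (Place κ K)} (hS : S.Finite) :
    ∃ C : ℕ, ∀ (L : Type w) [Field L] [Algebra κ L] [Algebra K L] [IsScalarTower κ K L]
      [FiniteDimensional K L] (x p' : Fin s → L) (i₀ j₀ : Fin s), plu x p' i₀ j₀ ≠ 0 →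
      ∀ (Q : Fin 3 → Fin s → L) (f : Fin 3 → Fin q),
      (∀ i, ∃ α β : L, Q i = fun k => x k * α + p' k * β) →
      (∀ i j, i ≠ j → plu (Q i) (Q j) i₀ j₀ ≠ 0) →
      (∀ i, Fval (d (f i)) (fun I => algebraMap K L (a (f i) I)) (Q i) = 0) →
      (∀ i, Fval (d (f i)) (fun I => algebraMap K L (a (f i) I)) x ≠ 0) →
      height κ x ≤ ((meetSet (κ := κ) d a S x).ncard : ℤ) + 3 * ∑ i, height κ (Q i) +
        height κ (pluV x p') + (ramDeg κ L K : ℤ) + (C : ℤ) * Module.finrank K L := by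
  obtain ⟨T, hT, hC₁⟩ := meet_point_set hK d a hS
  obtain ⟨C₂, hC₂⟩ := mason (κ := κ) (K := K) hK
  refine ⟨T.ncard + C₂, ?_⟩
  intro L _ _ _ _ _ x p' i₀ j₀ hij Q f hline hQQ hFQ hFx
  have hL : IsFF κ L := hK.of_finite
  have hxn : x ≠ 0 := plu_ne_left hij
  have hxQ : ∀ i, plu x (Q i) i₀ j₀ ≠ 0 := by
    intro i
    obtain ⟨α, β, hαβ⟩ := hline i
    have e : plu x (Q i) i₀ j₀ = β * plu x p' i₀ j₀ := by
      rw [hαβ]
      unfold plu
      ring
    rw [e]
    refine mul_ne_zero (fun h0 => ?_) hij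
    have e1 : Q i = fun k => α * x k := by
      rw [hαβ, h0]
      funext k
      ring
    have h1 := hFQ i
    rw [e1, Fval_smul] at h1
    have h2 : α ^ d (f i) = 0 := (mul_eq_zero.mp h1).resolve_right (hFx i)
    have h3 : α = 0 := eq_zero_of_pow_eq_zero h2
    have h4 : Q i = 0 := by
      rw [e1, h3]
      funext k
      simp
    have h5 : ∀ i : Fin 3, i + 1 ≠ i := by decide
    exact plu_ne_right (hQQ (i + 1) i (h5 i)) h4
  obtain ⟨y, hy0, hy1, hhx, hsub⟩ := cross_ratio hL hij hline hQQ hxQ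
  have hm := hC₂ L y hy0 hy1
  obtain ⟨hofin, hocard⟩ := over_card hK hT (L := L)
  have hz : pluV x p' (i₀, j₀) ≠ 0 := hij
  obtain ⟨hcfin, hccard⟩ := ncard_coord_lt hL hz
  have hmfin := meetSet_finite hK d a S hxn
  have hne : ∀ i : Fin 3, i ≠ i + 1 := by decide
  have hfin2 : ∀ i : Fin 3, {w : Place κ L | w.1 (plu (Q i) (Q (i + 1)) i₀ j₀) <
      vmax w.1 (Q i) * vmax w.1 (Q (i + 1))}.Finite := fun i =>
    (ncard_plu_lt hL (hQQ i (i + 1) (hne i))).1
  have hc1 : (⋃ i, {w : Place κ L | w.1 (plu x (Q i) i₀ j₀) < vmax w.1 x * vmax w.1 (Q i)}) ⊆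
      meetSet (κ := κ) d a S x ∪ ({w : Place κ L | w.1 (pluV x p' (i₀, j₀)) <
          vmax w.1 (pluV x p')} ∪ {w : Place κ L | below K w ∈ T}) :=
    Set.iUnion_subset fun i => hC₁ L x p' (Q i) i₀ j₀ hij (hline i) (f i) (hFQ i) (hFx i)
  have hc2 : ∀ i : Fin 3, (({w : Place κ L | w.1 (plu (Q i) (Q (i + 1)) i₀ j₀) <
      vmax w.1 (Q i) * vmax w.1 (Q (i + 1))}.ncard : ℕ) : ℤ) ≤
      height κ (Q i) + height κ (Q (i + 1)) := fun i =>
    (ncard_plu_lt hL (hQQ i (i + 1) (hne i))).2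
  have hun : ∀ A : Fin 3 → Set (Place κ L), (⋃ i, A i).ncard ≤
      (A 0).ncard + (A 1).ncard + (A 2).ncard := by
    intro A
    have e : (⋃ i, A i) = A 0 ∪ A 1 ∪ A 2 := by
      ext w
      rw [Set.mem_iUnion]
      constructor
      · rintro ⟨i, hi⟩
        fin_cases i
        · exact Or.inl (Or.inl hi)
        · exact Or.inl (Or.inr hi)
        · exact Or.inr hi
      · rintro ((hi | hi) | hi)
        · exact ⟨0, hi⟩
        · exact ⟨1, hi⟩
        · exact ⟨2, hi⟩
    rw [e]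
    exact (Set.ncard_union_le _ _).trans (Nat.add_le_add_right (Set.ncard_union_le _ _) _)
  have hfin1 := hmfin.union (hcfin.union hofin)
  have hle1 := Set.ncard_le_ncard hc1 hfin1
  have hle1' := hle1.trans ((Set.ncard_union_le _ _).trans
    (Nat.add_le_add_left (Set.ncard_union_le _ _) _))
  have hle := Set.ncard_le_ncard hsub ((hfin1.subset hc1).union (Set.finite_iUnion hfin2))
  have hle2 := hle.trans (Set.ncard_union_le _ _)
  have hle3 := hle2.trans (Nat.add_le_add hle1' (hun _))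
  have hle4 : (({w : Place κ L | w.1 y ≠ 1 ∨ w.1 (1 - y) ≠ 1}.ncard : ℕ) : ℤ) ≤
      ((meetSet (κ := κ) d a S x).ncard : ℤ) + height κ (pluV x p') +
          ((T.ncard : ℕ) : ℤ) * Module.finrank K L + 2 * ∑ i, height κ (Q i) := by
    have k0 : _ ≤ height κ (Q 0) + height κ (Q 1) := hc2 0
    have k1 : _ ≤ height κ (Q 1) + height κ (Q 2) := hc2 1
    have k2 : _ ≤ height κ (Q 2) + height κ (Q 0) := hc2 2
    rw [Fin.sum_univ_three]
    have hle5 := (Int.ofNat_le.mpr hle3)
    push_cast at hle5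
    linarith
  push_cast
  linarith

end

end Pool.Agent.Lib.MP_44a246_ntR
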