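import Mathlib
import Pool.Agent.Lib.MP_44a246_ntR.R14

/-!
A point of a line which contains three points of the divisor: the sharp constant for the truncated
counting function.
-/

namespace Pool.Agent.Lib.MP_44a246_ntR

open Pool.Agent.Lib.MP_44a246_ntL
open Pool.Agent.Lib.MP_44a246_nt
open Pool.Agent.Lib.MP_e52354_nt
open Pool.Agent.Lib.MP_e52354_ntG
open WithZero

universe w

private theorem r15_end {m R N D h E C e : ℤ} (hN : 1 ≤ N) (hE : 0 ≤ E * e) (hC : 0 ≤ C * e) :
    m + R + ((6 * N + 3) * (D + 1) + 1) * h + (6 * N + 3) * (E * e) + C * e ≤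
      m + R + ((6 * N + 3) * (D + 1) + 1) * h + (9 * E + C) * N * e := by
  linarith [mul_nonneg hE (sub_nonneg.2 hN), mul_nonneg hC (sub_nonneg.2 hN)]

theorem line_sharp_M {κ K : Type*} [Field κ] [IsAlgClosed κ] [CharZero κ] [Field K] [Algebra κ K]
    (hK : IsFF κ K) {s q : ℕ} (d : Fin q → ℕ) (a : Fin q → (Fin s →₀ ℕ) → K)
    {S : Set (Place κ K)} (hS : S.Finite) {D : ℕ} (hdD : ∀ j, d j ≤ D) :
    ∃ C : ℕ, ∀ (L M : Type w) [Field L] [Algebra κ L] [Algebra K L] [IsScalarTower κ K L]
      [FiniteDimensional K L] [Field M] [Algebra κ M] [Algebra K M] [Algebra L M]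
      [IsScalarTower κ K M] [IsScalarTower κ L M] [IsScalarTower K L M]
      [FiniteDimensional K M] [FiniteDimensional L M] (x p' : Fin s → L) (i₀ j₀ : Fin s),
      plu x p' i₀ j₀ ≠ 0 →
      ∀ (ρ : Fin 3 → M) (f : Fin 3 → Fin q), (∀ i j, i ≠ j → ρ i ≠ ρ j) →
      (⨆ i, IntermediateField.adjoin L {ρ i} = ⊤) →
      (∀ i, Fval (d (f i)) (fun I => algebraMap K M (a (f i) I))
        (fun k => algebraMap L M (p' k) + algebraMap L M (x k) * ρ i) = 0) →
      (∀ i, Fval (d (f i)) (fun I => algebraMap K L (a (f i) I)) x ≠ 0) →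
      height κ x ≤ ((meetSet (κ := κ) d a S x).ncard : ℤ) + (ramDeg κ L K : ℤ) +
        ((6 * Module.finrank L M + 3) * (D + 1) + 1) * height κ (pluV x p') +
        (C : ℤ) * Module.finrank L M * Module.finrank K L := by
  classical
  choose C₁ hC₁ using fun j => line_root_height.{w} hK (d j) (a j)
  obtain ⟨C₂, hC₂⟩ := cross_sharp.{w} hK d a hS
  set E : ℕ := ∑ j, C₁ j with hE
  refine ⟨9 * E + C₂, ?_⟩
  intro L M _ _ _ _ _ _ _ _ _ _ _ _ _ _ x p' i₀ j₀ hplu ρ f hρ hgen hroot hne
  have hL : IsFF κ L := hK.of_finite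
  have hM : IsFF κ M := hK.of_finite
  -- the data over `M`
  set X : Fin s → M := fun k => algebraMap L M (x k) with hX
  set P : Fin s → M := fun k => algebraMap L M (p' k) with hP
  set Q : Fin 3 → Fin s → M := fun i k => algebraMap L M (p' k) + algebraMap L M (x k) * ρ i with hQ
  have hx0 : x ≠ 0 := by
    rintro rfl
    apply hplu
    simp [plu]
  have hpV : pluV x p' ≠ 0 := fun h => hplu (congrFun h (i₀, j₀))
  have hXP : ∀ i j, plu X P i j = algebraMap L M (plu x p' i j) := by
    intro i j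
    simp only [plu, hX, hP, map_sub, map_mul]
  have hXPn : plu X P i₀ j₀ ≠ 0 := by
    rw [hXP]
    exact (_root_.map_ne_zero _).2 hplu
  have hQX : ∀ i k l, plu (Q i) X k l = -algebraMap L M (plu x p' k l) := by
    intro i k l
    simp only [plu, hX, hQ, map_sub, map_mul]
    ring
  have hQQ : ∀ i j, i ≠ j → plu (Q i) (Q j) i₀ j₀ ≠ 0 := by
    intro i j hij hcon
    have h1 : plu (Q i) (Q j) i₀ j₀ = (ρ i - ρ j) * algebraMap L M (plu x p' i₀ j₀) := by
      simp only [plu, hQ, map_sub, map_mul]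
      ring
    rw [h1] at hcon
    rcases mul_eq_zero.1 hcon with h2 | h2
    · exact hρ i j hij (sub_eq_zero.1 h2)
    · exact hplu ((_root_.map_eq_zero _).1 h2)
  have hQline : ∀ i, ∃ α β : M, Q i = fun k => X k * α + P k * β := by
    intro i
    refine ⟨ρ i, 1, ?_⟩
    funext k
    simp only [hQ, hX, hP]
    ring
  have hneX : ∀ i, Fval (d (f i)) (fun I => algebraMap K M (a (f i) I)) X ≠ 0 := by
    intro i
    have h1 : (fun I => algebraMap K M (a (f i) I)) =
        fun I => algebraMap L M (algebraMap K L (a (f i) I)) := by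
      funext I
      exact IsScalarTower.algebraMap_apply K L M _
    rw [h1, Fval_map]
    exact (_root_.map_ne_zero _).2 (hne i)
  -- heights of the three points
  set N : ℤ := (Module.finrank L M : ℤ) with hN
  have hN1 : 1 ≤ N := by
    have : 0 < Module.finrank L M := Module.finrank_pos
    omega
  set h := height κ (pluV x p') with hh
  have hh0 : 0 ≤ h := hL.height_nonneg hpV
  set e : ℤ := (Module.finrank K L : ℤ) with he
  have he0 : 0 ≤ e := by positivity
  have hKM : (Module.finrank K M : ℤ) = e * N := by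
    rw [he, hN, ← Nat.cast_mul, Module.finrank_mul_finrank]
  have hpluM : height κ (pluV X P) = N * h := by
    have h1 : pluV X P = fun ij => algebraMap L M (pluV x p' ij) := by
      funext ij
      exact hXP ij.1 ij.2
    rw [h1, hM.height_ext hpV]
  have hpluQ : ∀ i, height κ (pluV (Q i) X) = N * h := by
    intro i
    have h1 : pluV (Q i) X = fun ij => (-1 : M) * algebraMap L M (pluV x p' ij) := by
      funext ij
      rw [neg_one_mul]
      exact hQX i ij.1 ij.2
    rw [h1, hM.height_smul (x := fun ij => algebraMap L M (pluV x p' ij)) (neg_ne_zero.2 one_ne_zero),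
      hM.height_ext hpV]
  have hQne : ∀ i, Q i ≠ 0 := by
    intro i hcon
    have h1 := hQX i i₀ j₀
    rw [hcon] at h1
    apply hplu
    have h2 : plu (0 : Fin s → M) X i₀ j₀ = 0 := by simp [plu]
    rw [h2] at h1
    exact (_root_.map_eq_zero _).1 (neg_eq_zero.1 h1.symm)
  have hQheight : ∀ i, height κ (Q i) ≤ N * (((D : ℤ) + 1) * h + E * e) := by
    intro i
    have h1 := hC₁ (f i) M (Q i) X ⟨i₀, j₀, by
      rw [hQX]
      exact neg_ne_zero.2 ((_root_.map_ne_zero _).2 hplu)⟩ (hroot i) ⟨0, 1, by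
      have h2 : (fun k => Q i k * 0 + X k * 1) = X := by
        funext k
        ring
      rw [h2]
      exact hneX i⟩
    rw [hpluQ, hKM] at h1
    have h3 : (d (f i) : ℤ) ≤ D := by exact_mod_cast hdD (f i)
    have h4 : (C₁ (f i) : ℤ) ≤ E := by
      have : C₁ (f i) ≤ E :=
        Finset.single_le_sum (f := C₁) (fun _ _ => Nat.zero_le _) (Finset.mem_univ _)
      exact_mod_cast this
    calc height κ (Q i) ≤ ((d (f i) : ℤ) + 1) * (N * h) + (C₁ (f i) : ℤ) * (e * N) := h1
      _ ≤ ((D : ℤ) + 1) * (N * h) + (E : ℤ) * (e * N) := by gcongr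
      _ = _ := by ring
  have hsum : ∑ i, height κ (Q i) ≤ 3 * (N * (((D : ℤ) + 1) * h + E * e)) := by
    refine (Finset.sum_le_sum fun i _ => hQheight i).trans (le_of_eq ?_)
    simp
  have hsum0 : 0 ≤ ∑ i, height κ (Q i) := Finset.sum_nonneg fun i _ => hM.height_nonneg (hQne i)
  -- ramification
  have hgen' : ⨆ i, pointField L (Q i) = ⊤ := by
    rw [eq_top_iff, ← hgen]
    refine iSup_mono fun i => ?_
    rw [IntermediateField.adjoin_simple_le_iff]
    exact mem_pointField hplu (ρ i)
  have hram := ram_points hL Q hQne hgen'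
  have hram2 := ramDeg_trans (κ := κ) (K := K) (L := L) (M := M) hK
  -- the places
  have hmeet : ((meetSet (κ := κ) d a S X).ncard : ℤ) ≤ N * ((meetSet (κ := κ) d a S x).ncard : ℤ) := by
    obtain ⟨hfin, hcard⟩ := ncard_above (κ := κ) (L := L) (M := M) hM (meetSet (κ := κ) d a S x)
      (meetSet_finite hK d a S hx0)
    have hsub : meetSet (κ := κ) d a S X ⊆ {w : Place κ M | below L w ∈ meetSet (κ := κ) d a S x} := by
      rintro w ⟨hw1, j, hj1, hj2⟩
      have h1 : (fun I => algebraMap K M (a j I)) =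
          fun I => algebraMap L M (algebraMap K L (a j I)) := by
        funext I
        exact IsScalarTower.algebraMap_apply K L M _
      rw [h1, Fval_map] at hj1 hj2
      refine ⟨?_, j, fun h0 => hj1 (by rw [h0, map_zero]), ?_⟩
      · rw [below_below]
        exact hw1
      · rw [below_pow] at hj2
        have he := one_le_ramIdx (K := L) w.1 w.2.1
        have h2 : vmax w.1 X = vmax (below L w).1 x ^ ramIdx L w.1 := by
          apply le_antisymm
          · refine vmax_le _ fun i => ?_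
            rw [hX]
            simp only
            rw [below_pow]
            exact pow_le_pow_left₀ zero_le (le_vmax _ _ _) _
          · obtain ⟨l, -, hl, -⟩ := exists_vmax (below L w).1 hx0
            rw [hl, ← below_pow]
            exact le_vmax w.1 X l
        rw [h2, ← pow_mul, mul_comm, pow_mul] at hj2
        exact lt_of_pow_lt_pow_left₀ _ zero_le hj2
    have h3 := Set.ncard_le_ncard hsub hfin
    have h4 := h3.trans hcard
    rw [hN]
    exact_mod_cast h4
  have hmain := hC₂ M X P i₀ j₀ hXPn Q f hQline hQQ hroot hneX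
  rw [hpluM, hKM, hM.height_ext hx0] at hmain
  set m : ℤ := ((meetSet (κ := κ) d a S x).ncard : ℤ) with hm
  set R : ℤ := (ramDeg κ L K : ℤ) with hR
  have hm0 : 0 ≤ m := by positivity
  have hR0 : 0 ≤ R := by positivity
  have hram3 : (ramDeg κ M K : ℤ) ≤ (ramDeg κ M L : ℤ) + N * R := by
    rw [hN, hR]
    exact_mod_cast hram2
  set A : ℤ := ((D : ℤ) + 1) * h + E * e with hA
  have hA0 : 0 ≤ A := by positivity
  have hram4 : (ramDeg κ M L : ℤ) ≤ 2 * (N - 1) * (3 * (N * A)) :=
    hram.trans (mul_le_mul_of_nonneg_left hsum (by linarith))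
  have hfinal : N * height κ x ≤ N * (m + R + 9 * A + h + 6 * (N - 1) * A + C₂ * e) := by
    have : N * height κ x ≤ N * m + 3 * (3 * (N * A)) + N * h +
        (2 * (N - 1) * (3 * (N * A)) + N * R) + C₂ * (e * N) := by linarith
    refine this.trans (le_of_eq ?_)
    ring
  have hfinal2 := le_of_mul_le_mul_left hfinal (by omega)
  refine hfinal2.trans ?_
  have hE0 : (0:ℤ) ≤ E := by positivity
  have hC20 : (0:ℤ) ≤ C₂ := by positivity
  have hEe : 0 ≤ (E : ℤ) * e := by positivity
  have hC2e : 0 ≤ (C₂ : ℤ) * e := by positivity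
  have e3 : 9 * A + h + 6 * (N - 1) * A = ((6 * N + 3) * ((D : ℤ) + 1) + 1) * h +
      (6 * N + 3) * (E * e) := by
    rw [hA]
    ring
  have e4 : m + R + 9 * A + h + 6 * (N - 1) * A + C₂ * e = m + R +
      ((6 * N + 3) * ((D : ℤ) + 1) + 1) * h + (6 * N + 3) * (E * e) + C₂ * e := by
    linarith
  rw [e4]
  push_cast
  exact r15_end hN1 hEe hC2e

/-- the bound for a point of a line which is not exceptional -/
theorem line_sharp {κ K : Type*} [Field κ] [IsAlgClosed κ] [CharZero κ] [Field K] [Algebra κ K]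
    (hK : IsFF κ K) {s q : ℕ} (d : Fin q → ℕ) (a : Fin q → (Fin s →₀ ℕ) → K)
    {S : Set (Place κ K)} (hS : S.Finite) {D : ℕ} (hdD : ∀ j, d j ≤ D) :
    ∃ C : ℕ, ∀ (L : Type w) [Field L] [Algebra κ L] [Algebra K L] [IsScalarTower κ K L]
      [FiniteDimensional K L] (x p' : Fin s → L), (∃ i j, plu x p' i j ≠ 0) →
      (∀ j, Fval (d j) (fun I => algebraMap K L (a j I)) x ≠ 0) →
      2 < ((restP d (fun j I => algebraMap K L (a j I)) x p').rootSet
        (AlgebraicClosure L)).ncard →
      height κ x ≤ ((meetSet (κ := κ) d a S x).ncard : ℤ) + (ramDeg κ L K : ℤ) +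
        ((6 * D ^ 3 + 3) * (D + 1) + 1) * height κ (pluV x p') +
        (C : ℤ) * Module.finrank K L := by
  classical
  obtain ⟨C₂, hC₂⟩ := line_sharp_M.{w} hK d a hS hdD
  refine ⟨C₂ * D ^ 3, ?_⟩
  intro L _ _ _ _ _ x p' hex hx h1
  obtain ⟨i₀, j₀, hplu⟩ := hex
  have hL : IsFF κ L := hK.of_finite
  have hpV : pluV x p' ≠ 0 := fun h => hplu (congrFun h (i₀, j₀))
  set h := height κ (pluV x p') with hh
  have hh0 : 0 ≤ h := hL.height_nonneg hpV
  set e : ℤ := (Module.finrank K L : ℤ) with he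
  have he0 : 0 ≤ e := by positivity
  set m : ℤ := ((meetSet (κ := κ) d a S x).ncard : ℤ) with hm
  set R : ℤ := (ramDeg κ L K : ℤ) with hR
  have hm0 : 0 ≤ m := by positivity
  have hR0 : 0 ≤ R := by positivity
  have hD0 : (0:ℤ) ≤ D := by positivity
  have hC20 : (0:ℤ) ≤ C₂ := by positivity
  rw [Set.two_lt_ncard_iff (Polynomial.rootSet_finite _ _)] at h1
  obtain ⟨r0, r1, r2, hr0, hr1, hr2, h01, h02, h12⟩ := h1
  have hroot : ∀ r ∈ (restP d (fun j I => algebraMap K L (a j I)) x p').rootSet (AlgebraicClosure L),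
      ∃ j, Fval (d j) (fun I => algebraMap K L (a j I)) x ≠ 0 ∧
        lineP (d j) (fun I => algebraMap K L (a j I)) p' x ≠ 0 ∧
        Polynomial.aeval r (lineP (d j) (fun I => algebraMap K L (a j I)) p' x) = 0 := by
    intro r hr
    rw [Polynomial.mem_rootSet] at hr
    obtain ⟨hr1, hr2⟩ := hr
    unfold restP at hr1 hr2
    rw [map_prod, Finset.prod_eq_zero_iff] at hr2
    obtain ⟨j, hj, hj2⟩ := hr2
    rw [Finset.prod_ne_zero_iff] at hr1
    exact ⟨j, (Finset.mem_filter.1 hj).2, hr1 j hj, hj2⟩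
  set ρ : Fin 3 → AlgebraicClosure L := ![r0, r1, r2] with hρ
  have hρroot : ∀ i, ∃ j, Fval (d j) (fun I => algebraMap K L (a j I)) x ≠ 0 ∧
        lineP (d j) (fun I => algebraMap K L (a j I)) p' x ≠ 0 ∧
        Polynomial.aeval (ρ i) (lineP (d j) (fun I => algebraMap K L (a j I)) p' x) = 0 := by
    intro i
    fin_cases i
    · exact hroot r0 hr0
    · exact hroot r1 hr1
    · exact hroot r2 hr2
  have hρinj : ∀ i j, i ≠ j → ρ i ≠ ρ j := inj_three h01 h02 h12
  choose f hf1 hf2 hf3 using hρroot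
  set M : IntermediateField L (AlgebraicClosure L) := ⨆ i, IntermediateField.adjoin L {ρ i} with hM
  have hfD : ∀ i, d (f i) ≤ D := fun i => hdD (f i)
  obtain ⟨hfd, hfr⟩ := finrank_three (D := D) ρ
    (fun i => lineP (d (f i)) (fun I => algebraMap K L (a (f i) I)) p' x) hf2
    (fun i => (natDegree_lineP_le _ _ _ _).trans (hfD i)) hf3
  rw [← hM] at hfd hfr
  have hKMfin : FiniteDimensional K M := FiniteDimensional.trans K L M
  have hsc : IsScalarTower κ K M := IsScalarTower.of_algebraMap_eq fun c => by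
    rw [IsScalarTower.algebraMap_apply κ L M, IsScalarTower.algebraMap_apply K L M,
      ← IsScalarTower.algebraMap_apply κ K L]
  have hmem : ∀ i, ρ i ∈ M := fun i =>
    (le_iSup (fun i => IntermediateField.adjoin L {ρ i}) i)
      (IntermediateField.mem_adjoin_simple_self L (ρ i))
  set σ : Fin 3 → M := fun i => ⟨ρ i, hmem i⟩ with hσ
  have hres := hC₂ L M x p' i₀ j₀ hplu σ f
    (fun i j hij hcon => hρinj i j hij (congrArg Subtype.val hcon))
    (lift_gen ρ M hM σ fun i => rfl)
    (by
      intro i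
      have h3 : Polynomial.aeval (σ i) (lineP (d (f i)) (fun I => algebraMap K L (a (f i) I)) p' x) = 0 := by
        have h4 := hf3 i
        have h5 : ρ i = algebraMap M (AlgebraicClosure L) (σ i) := rfl
        rw [h5, Polynomial.aeval_algebraMap_eq_zero_iff] at h4
        exact h4
      rw [Polynomial.aeval_def, ← Polynomial.eval_map, lineP_map, eval_lineP] at h3
      have h6 : (fun I => algebraMap K M (a (f i) I)) =
          fun I => algebraMap L M (algebraMap K L (a (f i) I)) := by
        funext I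
        exact IsScalarTower.algebraMap_apply K L M _
      rw [h6]
      exact h3)
    hf1
  refine hres.trans ?_
  have hfr' : (Module.finrank L M : ℤ) ≤ (D : ℤ) ^ 3 := by exact_mod_cast hfr
  have g1 : ((6 * (Module.finrank L M : ℤ) + 3) * (D + 1) + 1) * h ≤
      ((6 * (D : ℤ) ^ 3 + 3) * (D + 1) + 1) * h := by gcongr
  have g2 : (C₂ : ℤ) * Module.finrank L M * e ≤ (C₂ : ℤ) * (D : ℤ) ^ 3 * e := by gcongr
  push_cast
  linarith

end Pool.Agent.Lib.MP_44a246_ntR
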