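import Mathlib
import Pool.Agent.Lib.MP_44a246_ntR.R15

/-!
A point of a line which contains several points of the divisor: the truncated counting function
grows with the number of the points.
-/

namespace Pool.Agent.Lib.MP_44a246_ntR

open Pool.Agent.Lib.MP_44a246_ntL
open Pool.Agent.Lib.MP_44a246_nt
open Pool.Agent.Lib.MP_e52354_nt
open Pool.Agent.Lib.MP_e52354_ntG
open WithZero

universe w

/-- three indices with small values -/
theorem exists_three {B : ℕ} (hB : 2 ≤ B) (c : Fin (B + 1) → ℕ) :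
    ∃ σ : Fin 3 → Fin (B + 1), Function.Injective σ ∧
      (B + 1) * ∑ i, c (σ i) ≤ 3 * ∑ i, c i := by
  obtain ⟨t, -, ht⟩ : ∃ t ∈ (Finset.univ : Finset (Fin (B + 1))),
      (B + 1) * (c t + c (t + 1) + c (t + 2)) ≤ 3 * ∑ i, c i := by
    by_contra hcon
    push Not at hcon
    have h1 : ∑ _t : Fin (B + 1), 3 * ∑ i, c i <
        ∑ t, (B + 1) * (c t + c (t + 1) + c (t + 2)) :=
      Finset.sum_lt_sum_of_nonempty Finset.univ_nonempty fun t ht => hcon t ht
    have h2 : ∑ t, c (t + 1) = ∑ t, c t := Equiv.sum_comp (Equiv.addRight (1 : Fin (B + 1))) c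
    have h3 : ∑ t, c (t + 2) = ∑ t, c t := Equiv.sum_comp (Equiv.addRight (2 : Fin (B + 1))) c
    have h4 : ∑ t, (B + 1) * (c t + c (t + 1) + c (t + 2)) = (B + 1) * (3 * ∑ i, c i) := by
      rw [← Finset.mul_sum, Finset.sum_add_distrib, Finset.sum_add_distrib, h2, h3]
      ring
    rw [h4, Finset.sum_const, Finset.card_univ, Fintype.card_fin, smul_eq_mul] at h1
    exact lt_irrefl _ h1
  have hv1 : ((1 : Fin (B + 1)) : ℕ) = 1 := by
    rw [Fin.val_one', Nat.mod_eq_of_lt (by omega)]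
  have hv2 : ((2 : Fin (B + 1)) : ℕ) = 2 := by
    show 2 % (B + 1) = 2
    exact Nat.mod_eq_of_lt (by omega)
  have h10 : (1 : Fin (B + 1)) ≠ 0 := by
    intro h
    rw [h, Fin.val_zero] at hv1
    omega
  have h20 : (2 : Fin (B + 1)) ≠ 0 := by
    intro h
    rw [h, Fin.val_zero] at hv2
    omega
  have h21 : (2 : Fin (B + 1)) ≠ 1 := by
    intro h
    rw [h, hv1] at hv2
    omega
  refine ⟨![t, t + 1, t + 2], ?_, ?_⟩
  · have h01 : t ≠ t + 1 := fun h => h10 (by simpa using h)
    have h02 : t ≠ t + 2 := fun h => h20 (by simpa using h)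
    have h12 : t + 1 ≠ t + 2 := fun h => h21 (add_left_cancel h).symm
    intro i j hij
    by_contra hne
    exact inj_three h01 h02 h12 i j hne hij
  · rw [Fin.sum_univ_three]
    exact ht

/-- counting with multiplicities -/
theorem sum_ncard_le {α : Type*} {N : ℕ} (A : Fin N → Set α) {M : Set α} (hM : M.Finite)
    (hA : ∀ i, A i ⊆ M) :
    ∑ i, (A i).ncard ≤ M.ncard + ∑ i, ∑ j ∈ Finset.univ.erase i, (A i ∩ A j).ncard := by
  classical
  set U : Finset α := hM.toFinset with hU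
  obtain ⟨ind, hind1, hind0⟩ : ∃ ind : Set α → α → ℕ, (∀ X w, w ∈ X → ind X w = 1) ∧
      ∀ X w, w ∉ X → ind X w = 0 :=
    ⟨fun X w => if w ∈ X then 1 else 0, fun X w h => if_pos h, fun X w h => if_neg h⟩
  have hn : ∀ X : Set α, X ⊆ M → X.ncard = ∑ w ∈ U, ind X w := by
    intro X hX
    have h1 : ∑ w ∈ U, ind X w = ∑ w ∈ U.filter (· ∈ X), 1 := by
      rw [Finset.sum_filter]
      refine Finset.sum_congr rfl fun w _ => ?_
      by_cases hw : w ∈ X
      · rw [if_pos hw, hind1 X w hw]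
      · rw [if_neg hw, hind0 X w hw]
    rw [h1, Finset.sum_const, smul_eq_mul, mul_one, ← Set.ncard_coe_finset]
    congr 1
    ext w
    rw [Finset.coe_filter, Set.mem_setOf_eq]
    constructor
    · intro hw
      exact ⟨by rw [hU, Set.Finite.mem_toFinset]; exact hX hw, hw⟩
    · exact fun hw => hw.2
  have e1 : ∑ i, (A i).ncard = ∑ w ∈ U, ∑ i, ind (A i) w := by
    rw [Finset.sum_comm]
    exact Finset.sum_congr rfl fun i _ => hn (A i) (hA i)
  have e2 : ∑ i, ∑ j ∈ Finset.univ.erase i, (A i ∩ A j).ncard =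
      ∑ w ∈ U, ∑ i, ∑ j ∈ Finset.univ.erase i, ind (A i ∩ A j) w := by
    rw [Finset.sum_comm]
    refine Finset.sum_congr rfl fun i _ => ?_
    rw [Finset.sum_comm]
    exact Finset.sum_congr rfl fun j _ => hn _ (Set.inter_subset_left.trans (hA i))
  rw [e1, e2, hn M subset_rfl, ← Finset.sum_add_distrib]
  refine Finset.sum_le_sum fun w hw => ?_
  have hwM : w ∈ M := by
    rw [hU, Set.Finite.mem_toFinset] at hw
    exact hw
  rw [hind1 M w hwM]
  set I : Finset (Fin N) := Finset.univ.filter fun i => w ∈ A i with hI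
  have h2 : ∑ i, ind (A i) w = I.card := by
    rw [hI, Finset.card_filter]
    refine Finset.sum_congr rfl fun i _ => ?_
    by_cases hi : w ∈ A i
    · rw [if_pos hi, hind1 _ w hi]
    · rw [if_neg hi, hind0 _ w hi]
  have h3 : ∀ i ∈ I, I.card - 1 ≤ ∑ j ∈ Finset.univ.erase i, ind (A i ∩ A j) w := by
    intro i hi
    rw [hI, Finset.mem_filter] at hi
    have h5 : (I.erase i).card = I.card - 1 :=
      Finset.card_erase_of_mem (by rw [hI, Finset.mem_filter]; exact hi)
    rw [← h5, Finset.card_eq_sum_ones]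
    refine (Finset.sum_le_sum fun j hj => ?_).trans
      (Finset.sum_le_sum_of_subset (Finset.erase_subset_erase i (Finset.subset_univ I)))
    rw [Finset.mem_erase, hI, Finset.mem_filter] at hj
    rw [hind1 (A i ∩ A j) w ⟨hi.2, hj.2.2⟩]
  have h4 : I.card * (I.card - 1) ≤ ∑ i, ∑ j ∈ Finset.univ.erase i, ind (A i ∩ A j) w := by
    refine le_trans ?_ (Finset.sum_le_sum_of_subset (Finset.subset_univ I))
    rw [← smul_eq_mul]
    exact Finset.card_nsmul_le_sum I _ _ h3
  rw [h2]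
  rcases Nat.lt_or_ge I.card 2 with h | h
  · omega
  · have h5 : I.card * 1 ≤ I.card * (I.card - 1) := Nat.mul_le_mul_left _ (by omega)
    omega

/-- the degree of the field generated by several roots -/
theorem finrank_many {L Ω : Type*} [Field L] [Field Ω] [Algebra L Ω] {D k : ℕ}
    (ρ : Fin k → Ω) (P : Fin k → Polynomial L) (hP0 : ∀ i, P i ≠ 0)
    (hP : ∀ i, (P i).natDegree ≤ D) (hr : ∀ i, Polynomial.aeval (ρ i) (P i) = 0) :
    FiniteDimensional L (⨆ i, IntermediateField.adjoin L {ρ i} : IntermediateField L Ω) ∧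
      Module.finrank L (⨆ i, IntermediateField.adjoin L {ρ i} : IntermediateField L Ω) ≤ D ^ k := by
  classical
  have hint : ∀ i, IsIntegral L (ρ i) := fun i => IsAlgebraic.isIntegral ⟨P i, hP0 i, hr i⟩
  have hfin : ∀ i, FiniteDimensional L (IntermediateField.adjoin L {ρ i}) := fun i =>
    IntermediateField.adjoin.finiteDimensional (hint i)
  refine ⟨IntermediateField.finiteDimensional_iSup_of_finite, ?_⟩
  have hdeg : ∀ i, Module.finrank L (IntermediateField.adjoin L {ρ i}) ≤ D := by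
    intro i
    rw [IntermediateField.adjoin.finrank (hint i)]
    exact (Polynomial.natDegree_le_of_dvd (minpoly.dvd L (ρ i) (hr i)) (hP0 i)).trans (hP i)
  have key : ∀ s : Finset (Fin k), Module.finrank L
      (⨆ i ∈ s, IntermediateField.adjoin L {ρ i} : IntermediateField L Ω) ≤ D ^ s.card := by
    intro s
    induction s using Finset.induction_on with
    | empty =>
      have h0 : (⨆ i ∈ (∅ : Finset (Fin k)), IntermediateField.adjoin L {ρ i} :
          IntermediateField L Ω) = ⊥ := by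
        simp
      rw [h0, IntermediateField.finrank_bot, Finset.card_empty, pow_zero]
    | insert a s ha ih =>
      rw [Finset.iSup_insert, Finset.card_insert_of_notMem ha]
      refine (IntermediateField.finrank_sup_le _ _).trans ?_
      rw [pow_succ, mul_comm]
      exact Nat.mul_le_mul ih (hdeg a)
  have h1 := key Finset.univ
  have h2 : (⨆ i ∈ (Finset.univ : Finset (Fin k)), IntermediateField.adjoin L {ρ i} :
      IntermediateField L Ω) = ⨆ i, IntermediateField.adjoin L {ρ i} := by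
    simp
  rw [h2, Finset.card_univ, Fintype.card_fin] at h1
  exact h1

section

variable {κ : Type*} [Field κ] [IsAlgClosed κ] [CharZero κ]

/-- If a point of a line is close to two points of the line, then these are close. -/
theorem both_close {L : Type*} [Field L] (v : Valuation L ℤᵐ⁰) {s : ℕ} {x p' Q R : Fin s → L}
    {i₀ j₀ : Fin s} (hij : plu x p' i₀ j₀ ≠ 0)
    (hpi : ∀ k l, v (plu x p' k l) ≤ v (plu x p' i₀ j₀))
    (hQ : v (plu x Q i₀ j₀) < vmax v x * vmax v Q)
    (hR : v (plu x R i₀ j₀) < vmax v x * vmax v R) :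
    v (plu Q R i₀ j₀) < vmax v Q * vmax v R := by
  have hxn : x ≠ 0 := plu_ne_left hij
  have hxp : 0 < vmax v x := zero_lt_iff.mpr (vmax_ne _ hxn)
  have hQ0 : 0 < vmax v Q := by
    rw [zero_lt_iff]
    intro h0
    rw [h0, mul_zero] at hQ
    exact absurd hQ (not_lt.mpr zero_le)
  have hR0 : 0 < vmax v R := by
    rw [zero_lt_iff]
    intro h0
    rw [h0, mul_zero] at hR
    exact absurd hR (not_lt.mpr zero_le)
  have hpn : v (plu x p' i₀ j₀) ≠ 0 := (v.ne_zero_iff).mpr hij
  have hpt : ∀ k, v (x k) ≤ max (v (x i₀)) (v (x j₀)) := by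
    intro k
    have h1 := plu_line (x := x) (p' := p') (P := x) ⟨1, 0, by funext k; ring⟩ i₀ j₀ k
    have h2 : v (plu x p' i₀ j₀) * v (x k) ≤
        v (plu x p' i₀ j₀) * max (v (x i₀)) (v (x j₀)) := by
      rw [← map_mul, h1]
      refine (Valuation.map_sub v _ _).trans (max_le ?_ ?_)
      · rw [map_mul, mul_comm]
        exact mul_le_mul' (hpi _ _) (le_max_right _ _)
      · rw [map_mul, mul_comm]
        exact mul_le_mul' (hpi _ _) (le_max_left _ _)
    exact (mul_le_mul_iff_right₀ (zero_lt_iff.mpr hpn)).mp h2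
  obtain ⟨t, hmax, hid⟩ : ∃ t, vmax v x = v (x t) ∧
      x t * plu Q R i₀ j₀ = Q t * plu x R i₀ j₀ - R t * plu x Q i₀ j₀ := by
    rcases le_total (v (x i₀)) (v (x j₀)) with hle | hle
    · refine ⟨j₀, le_antisymm (vmax_le _ fun k => ?_) (le_vmax _ _ _), ?_⟩
      · exact (hpt k).trans (max_le hle le_rfl)
      · unfold plu
        ring
    · refine ⟨i₀, le_antisymm (vmax_le _ fun k => ?_) (le_vmax _ _ _), ?_⟩
      · exact (hpt k).trans (max_le le_rfl hle)
      · unfold plu
        ring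
  have h1 : v (x t) * v (plu Q R i₀ j₀) < v (x t) * (vmax v Q * vmax v R) := by
    rw [← map_mul, hid]
    refine (Valuation.map_sub v _ _).trans_lt (max_lt ?_ ?_)
    · rw [map_mul, ← hmax]
      calc v (Q t) * v (plu x R i₀ j₀) ≤ vmax v Q * v (plu x R i₀ j₀) :=
            mul_le_mul' (le_vmax _ _ _) le_rfl
        _ < vmax v Q * (vmax v x * vmax v R) := by
            rw [mul_lt_mul_iff_right₀ hQ0]
            exact hR
        _ = vmax v x * (vmax v Q * vmax v R) := by
            rw [← mul_assoc, ← mul_assoc, mul_comm (vmax v Q)]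
    · rw [map_mul, ← hmax]
      calc v (R t) * v (plu x Q i₀ j₀) ≤ vmax v R * v (plu x Q i₀ j₀) :=
            mul_le_mul' (le_vmax _ _ _) le_rfl
        _ < vmax v R * (vmax v x * vmax v Q) := by
            rw [mul_lt_mul_iff_right₀ hR0]
            exact hQ
        _ = vmax v x * (vmax v Q * vmax v R) := by
            rw [mul_comm (vmax v R), mul_assoc]
  rw [← hmax] at h1
  exact (mul_lt_mul_iff_right₀ hxp).mp h1

/-- The bound for a point of a line which contains several points of the divisor. -/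
theorem cross_multi {K : Type*} [Field K] [Algebra κ K] (hK : IsFF κ K) {s q : ℕ} (d : Fin q → ℕ)
    (a : Fin q → (Fin s →₀ ℕ) → K) {S : Set (Place κ K)} (hS : S.Finite) {B : ℕ} (hB : 2 ≤ B) :
    ∃ C : ℕ, ∀ (L : Type w) [Field L] [Algebra κ L] [Algebra K L] [IsScalarTower κ K L]
      [FiniteDimensional K L] (x p' : Fin s → L) (i₀ j₀ : Fin s), plu x p' i₀ j₀ ≠ 0 →
      ∀ (Q : Fin (B + 1) → Fin s → L) (f : Fin (B + 1) → Fin q),
      (∀ i, ∃ α β : L, Q i = fun k => x k * α + p' k * β) →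
      (∀ i j, i ≠ j → plu (Q i) (Q j) i₀ j₀ ≠ 0) →
      (∀ i, Fval (d (f i)) (fun I => algebraMap K L (a (f i) I)) (Q i) = 0) →
      (∀ i, Fval (d (f i)) (fun I => algebraMap K L (a (f i) I)) x ≠ 0) →
      (B + 1) * height κ x ≤ 3 * ((meetSet (κ := κ) d a S x).ncard : ℤ) +
        (B + 1) * (9 * ∑ i, height κ (Q i)) +
        (B + 1) * (3 * height κ (pluV x p') + (ramDeg κ L K : ℤ) +
          (C : ℤ) * Module.finrank K L) := by
  classical
  obtain ⟨T, hT, hC₁⟩ := meet_point_set hK d a hS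
  obtain ⟨C₂, hC₂⟩ := mason (κ := κ) (K := K) hK
  refine ⟨3 * T.ncard + C₂, ?_⟩
  intro L _ _ _ _ _ x p' i₀ j₀ hij Q f hline hQQ hFQ hFx
  have hL : IsFF κ L := hK.of_finite
  have hxn : x ≠ 0 := plu_ne_left hij
  have hxQ : ∀ i, plu x (Q i) i₀ j₀ ≠ 0 := by
    intro i
    obtain ⟨α, β, hαβ⟩ := hline i
    have e : plu x (Q i) i₀ j₀ = β * plu x p' i₀ j₀ := by
      rw [hαβ]
      unfold plu
      ring
    rw [e]
    refine mul_ne_zero (fun h0 => ?_) hij
    have e1 : Q i = fun k => α * x k := by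
      rw [hαβ, h0]
      funext k
      ring
    have h1 := hFQ i
    rw [e1, Fval_smul] at h1
    have h2 : α ^ d (f i) = 0 := (mul_eq_zero.mp h1).resolve_right (hFx i)
    have h3 : α = 0 := eq_zero_of_pow_eq_zero h2
    have h4 : Q i = 0 := by
      rw [e1, h3]
      funext k
      simp
    obtain ⟨j, hj⟩ : ∃ j : Fin (B + 1), j ≠ i := by
      have : Nontrivial (Fin (B + 1)) := Fin.nontrivial_iff_two_le.2 (by omega)
      exact exists_ne i
    exact plu_ne_right (hQQ j i hj) h4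
  -- the sets of places
  set W : Fin (B + 1) → Set (Place κ L) := fun i =>
    {w : Place κ L | w.1 (plu x (Q i) i₀ j₀) < vmax w.1 x * vmax w.1 (Q i)} with hW
  set Bad : Set (Place κ L) := {w : Place κ L | w.1 (pluV x p' (i₀, j₀)) <
          vmax w.1 (pluV x p')} ∪ {w : Place κ L | below K w ∈ T} with hBad
  obtain ⟨hofin, hocard⟩ := over_card hK hT (L := L)
  have hz : pluV x p' (i₀, j₀) ≠ 0 := hij
  obtain ⟨hcfin, hccard⟩ := ncard_coord_lt hL hz
  have hmfin := meetSet_finite hK d a S hxn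
  have hBadfin : Bad.Finite := hcfin.union hofin
  have hBadcard : (Bad.ncard : ℤ) ≤ height κ (pluV x p') +
      ((T.ncard : ℕ) : ℤ) * Module.finrank K L := by
    have h1 := Set.ncard_union_le {w : Place κ L | w.1 (pluV x p' (i₀, j₀)) <
          vmax w.1 (pluV x p')} {w : Place κ L | below K w ∈ T}
    have h2 : (Bad.ncard : ℤ) ≤ (({w : Place κ L | w.1 (pluV x p' (i₀, j₀)) <
          vmax w.1 (pluV x p')}.ncard : ℕ) : ℤ) + (({w : Place κ L | below K w ∈ T}.ncard : ℕ) : ℤ) := by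
      exact_mod_cast h1
    linarith
  have hWsub : ∀ i, W i ⊆ meetSet (κ := κ) d a S x ∪ Bad := fun i =>
    hC₁ L x p' (Q i) i₀ j₀ hij (hline i) (f i) (hFQ i) (hFx i)
  have hWfin : ∀ i, (W i).Finite := fun i => (hmfin.union hBadfin).subset (hWsub i)
  have hWB : ∀ i, (W i).ncard ≤ (W i \ Bad).ncard + Bad.ncard := fun i =>
    (Set.ncard_le_ncard (by
      intro w hw
      by_cases h : w ∈ Bad
      · exact Or.inr h
      · exact Or.inl ⟨hw, h⟩) (((hWfin i).subset Set.diff_subset).union hBadfin)).trans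
      (Set.ncard_union_le _ _)
  have hpair : ∀ i j, i ≠ j → ((((W i \ Bad) ∩ (W j \ Bad)).ncard : ℕ) : ℤ) ≤
      height κ (Q i) + height κ (Q j) := by
    intro i j hne
    obtain ⟨hf1, hf2⟩ := ncard_plu_lt hL (hQQ i j hne)
    refine le_trans ?_ hf2
    have h1 : (W i \ Bad) ∩ (W j \ Bad) ⊆ {w : Place κ L | w.1 (plu (Q i) (Q j) i₀ j₀) <
        vmax w.1 (Q i) * vmax w.1 (Q j)} := by
      rintro w ⟨⟨hwi, hwB⟩, hwj, -⟩
      refine both_close w.1 hij (fun k l => ?_) hwi hwj
      have h2 : ¬ (w.1 (pluV x p' (i₀, j₀)) < vmax w.1 (pluV x p')) := fun h3 => hwB (Or.inl h3)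
      exact (le_vmax w.1 (pluV x p') (k, l)).trans (not_lt.mp h2)
    exact_mod_cast Set.ncard_le_ncard h1 hf1
  have hsum : ((∑ i, (W i).ncard : ℕ) : ℤ) ≤ ((meetSet (κ := κ) d a S x).ncard : ℤ) +
      (B + 1) * Bad.ncard + 2 * (B * ∑ i, height κ (Q i)) := by
    have h1 := sum_ncard_le (fun i => W i \ Bad) hmfin (fun i => by
      rintro w ⟨hw, hwB⟩
      rcases hWsub i hw with h2 | h2
      · exact h2
      · exact absurd h2 hwB)
    have h2 : ∑ i, (W i).ncard ≤ ∑ i, (W i \ Bad).ncard + (B + 1) * Bad.ncard := by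
      refine (Finset.sum_le_sum fun i _ => hWB i).trans (le_of_eq ?_)
      rw [Finset.sum_add_distrib, Finset.sum_const, Finset.card_univ, Fintype.card_fin,
        smul_eq_mul]
    have h3 : ((∑ i, ∑ j ∈ Finset.univ.erase i, ((W i \ Bad) ∩ (W j \ Bad)).ncard : ℕ) : ℤ) ≤
        2 * (B * ∑ i, height κ (Q i)) := by
      push_cast
      calc ∑ i, ∑ j ∈ Finset.univ.erase i, ((((W i \ Bad) ∩ (W j \ Bad)).ncard : ℕ) : ℤ) ≤
            ∑ i, ∑ j ∈ Finset.univ.erase i, (height κ (Q i) + height κ (Q j)) := by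
            refine Finset.sum_le_sum fun i _ => Finset.sum_le_sum fun j hj => hpair i j ?_
            exact (Finset.ne_of_mem_erase hj).symm
        _ = 2 * (B * ∑ i, height κ (Q i)) := by
            have e1 : ∀ i, ∑ j ∈ Finset.univ.erase i, (height κ (Q i) + height κ (Q j)) =
                (B - 1 : ℤ) * height κ (Q i) + ∑ j, height κ (Q j) := by
              intro i
              rw [Finset.sum_add_distrib, Finset.sum_const, Finset.card_erase_of_mem
                (Finset.mem_univ _), Finset.card_univ, Fintype.card_fin, Nat.add_sub_cancel,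
                nsmul_eq_mul, Finset.sum_erase_eq_sub (Finset.mem_univ _)]
              ring
            rw [Finset.sum_congr rfl fun i _ => e1 i, Finset.sum_add_distrib, ← Finset.mul_sum,
              Finset.sum_const, Finset.card_univ, Fintype.card_fin, nsmul_eq_mul]
            push_cast
            ring
    have h4 : ((∑ i, (W i).ncard : ℕ) : ℤ) ≤ ((∑ i, (W i \ Bad).ncard : ℕ) : ℤ) +
        (B + 1) * Bad.ncard := by exact_mod_cast h2
    have h5 : ((∑ i, (W i \ Bad).ncard : ℕ) : ℤ) ≤ ((meetSet (κ := κ) d a S x).ncard : ℤ) +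
        ((∑ i, ∑ j ∈ Finset.univ.erase i, ((W i \ Bad) ∩ (W j \ Bad)).ncard : ℕ) : ℤ) := by
      exact_mod_cast h1
    linarith
  -- three points
  obtain ⟨σ, hσ, hσs⟩ := exists_three hB fun i => (W i).ncard
  obtain ⟨y, hy0, hy1, hhx, hsub⟩ := cross_ratio hL hij (Q := fun i => Q (σ i))
    (fun i => hline _) (fun i j hne => hQQ _ _ fun h => hne (hσ h)) fun i => hxQ _
  have hm := hC₂ L y hy0 hy1
  have hne : ∀ i : Fin 3, i ≠ i + 1 := by decide
  have hfin2 : ∀ i : Fin 3, {w : Place κ L | w.1 (plu (Q (σ i)) (Q (σ (i + 1))) i₀ j₀) <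
      vmax w.1 (Q (σ i)) * vmax w.1 (Q (σ (i + 1)))}.Finite := fun i =>
    (ncard_plu_lt hL (hQQ _ _ fun h => hne i (hσ h))).1
  have hc2 : ∀ i : Fin 3, (({w : Place κ L | w.1 (plu (Q (σ i)) (Q (σ (i + 1))) i₀ j₀) <
      vmax w.1 (Q (σ i)) * vmax w.1 (Q (σ (i + 1)))}.ncard : ℕ) : ℤ) ≤
      height κ (Q (σ i)) + height κ (Q (σ (i + 1))) := fun i =>
    (ncard_plu_lt hL (hQQ _ _ fun h => hne i (hσ h))).2
  have hun : ∀ A : Fin 3 → Set (Place κ L), (⋃ i, A i).ncard ≤
      (A 0).ncard + (A 1).ncard + (A 2).ncard := by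
    intro A
    have e : (⋃ i, A i) = A 0 ∪ A 1 ∪ A 2 := by
      ext w
      rw [Set.mem_iUnion]
      constructor
      · rintro ⟨i, hi⟩
        fin_cases i
        · exact Or.inl (Or.inl hi)
        · exact Or.inl (Or.inr hi)
        · exact Or.inr hi
      · rintro ((hi | hi) | hi)
        · exact ⟨0, hi⟩
        · exact ⟨1, hi⟩
        · exact ⟨2, hi⟩
    rw [e]
    exact (Set.ncard_union_le _ _).trans (Nat.add_le_add_right (Set.ncard_union_le _ _) _)
  have hle := Set.ncard_le_ncard hsub ((Set.finite_iUnion fun i => hWfin (σ i)).union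
    (Set.finite_iUnion hfin2))
  have hle2 := hle.trans (Set.ncard_union_le _ _)
  have hle3 := hle2.trans (Nat.add_le_add (hun _) (hun _))
  have hQ0 : ∀ i, 0 ≤ height κ (Q i) := fun i => hL.height_nonneg (plu_ne_right (hxQ i))
  have hQσ : ∑ i, height κ (Q (σ i)) ≤ ∑ i, height κ (Q i) := by
    have h1 : ∑ i, height κ (Q (σ i)) = ∑ j ∈ Finset.univ.image σ, height κ (Q j) := by
      rw [Finset.sum_image (fun i _ j _ h => hσ h)]
    rw [h1]
    exact Finset.sum_le_sum_of_subset_of_nonneg (Finset.subset_univ _) fun i _ _ => hQ0 i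
  have hle4 : (({w : Place κ L | w.1 y ≠ 1 ∨ w.1 (1 - y) ≠ 1}.ncard : ℕ) : ℤ) ≤
      ((∑ i, (W (σ i)).ncard : ℕ) : ℤ) + 2 * ∑ i, height κ (Q (σ i)) := by
    have k0 : _ ≤ height κ (Q (σ 0)) + height κ (Q (σ 1)) := hc2 0
    have k1 : _ ≤ height κ (Q (σ 1)) + height κ (Q (σ 2)) := hc2 1
    have k2 : _ ≤ height κ (Q (σ 2)) + height κ (Q (σ 0)) := hc2 2
    rw [Fin.sum_univ_three, Fin.sum_univ_three]
    have hle5 := (Int.ofNat_le.mpr hle3)
    push_cast at hle5 ⊢
    linarith
  have hB0 : (0 : ℤ) ≤ (B : ℤ) + 1 := by positivity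
  have hσs' : ((B : ℤ) + 1) * ((∑ i, (W (σ i)).ncard : ℕ) : ℤ) ≤
      3 * ((∑ i, (W i).ncard : ℕ) : ℤ) := by exact_mod_cast hσs
  have hS0 : 0 ≤ ∑ i, height κ (Q i) := Finset.sum_nonneg fun i _ => hQ0 i
  have hx1 : height κ x ≤ ((∑ i, (W (σ i)).ncard : ℕ) : ℤ) + 3 * ∑ i, height κ (Q i) +
      (ramDeg κ L K : ℤ) + (C₂ : ℤ) * Module.finrank K L := by
    linarith
  have hx2 := mul_le_mul_of_nonneg_left hx1 hB0
  have hx3 : (B : ℤ) * ∑ i, height κ (Q i) ≤ ((B : ℤ) + 1) * ∑ i, height κ (Q i) := by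
    nlinarith
  have hx4 := mul_le_mul_of_nonneg_left hBadcard hB0
  push_cast
  nlinarith

end

end Pool.Agent.Lib.MP_44a246_ntR
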