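import Mathlib
import Pool.Agent.Lib.MP_44a246_ntF.F15
import Pool.Agent.Lib.MP_44a246_ntR.R15

/-!
A point of large height lies on a line of small height on which the forms vanish.
-/

namespace Pool.Agent.Lib.MP_44a246_ntR

open Pool.Agent.Lib.MP_44a246_ntF
open Pool.Agent.Lib.MP_44a246_nt
open Pool.Agent.Lib.MP_44a246_ntL
open Pool.Agent.Lib.MP_44a246_ntS
open Pool.Agent.Lib.MP_44a246_ntX
open Pool.Agent.Lib.MP_44a246_ntG
open Pool.Agent.Lib.MP_44a246_ntK
open Pool.Agent.Lib.MP_e52354_nt
open Polynomial WithZero Module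

section

variable {κ L : Type*} [Field κ] [IsAlgClosed κ] [CharZero κ] [Field L] [Algebra κ L]

/-- **A point on a line of bounded height.** -/
theorem line_of_heightF (h : IsFF κ L) {n : ℕ} {x : Fin (n + 1) → L} (hx0 : x ≠ 0)
    {F : Submodule L (Fin (n + 1) → L)} (hxF : x ∈ F) (hF : finrank L F = 2)
    {τ : Place κ L → ℕ} (hτ : (Function.support τ).Finite)
    {ι : Type*} {e : ι → ℕ} {a : ι → (Fin (n + 1) →₀ ℕ) → L}
    (ha : ∀ i, ∀ I ∈ expo (Fin (n + 1)) (e i), ∀ w : Place κ L, w.1 (a i I) ≤ exp (τ w : ℤ))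
    (hz : ∀ i, Fval (e i) (a i) x = 0) :
    (∃ i, height κ x ≤ (e i + 1) * ht κ F + ∑ᶠ w, (τ w : ℤ)) ∨
      ∀ i, ∀ y ∈ F, Fval (e i) (a i) y = 0 := by
  classical
  obtain ⟨k, hk⟩ := Function.ne_iff.1 hx0
  rw [Pi.zero_apply] at hk
  obtain ⟨l, p, q, hC⟩ := exists_chart_at hF hxF hk
  obtain ⟨z, hzdef⟩ : ∃ z, z = x l / x k := ⟨_, rfl⟩
  have hx : x = x k • (p + z • q) := by
    conv_lhs => rw [hC.mem x hxF]
    rw [smul_add, smul_smul, hzdef, mul_div_cancel₀ _ hk]
  obtain ⟨hpq, hspan, -⟩ := hC.finrank_eq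
  have hFh : ht κ F = ∑ᶠ w : Place κ L, log (pl w.1 ![p, q]) := by
    rw [← ht_span h hpq, hspan]
  have hfx : ∀ i, (resl (e i) (a i) p q).eval z = 0 := by
    intro i
    have h1 := hz i
    rw [hx] at h1
    have h2 : Fval (e i) (a i) (x k • (p + z • q)) = x k ^ e i * Fval (e i) (a i) (p + z • q) :=
      Fval_smul (e i) (a i) (x k) (p + z • q)
    rw [h2, mul_eq_zero] at h1
    rw [eval_resl]
    exact h1.resolve_left (pow_ne_zero _ hk)
  -- local bounds for the coordinates of the basis
  have hpl1 : ∀ w : Place κ L, 1 ≤ pl w.1 ![p, q] := by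
    intro w
    refine le_trans (le_of_eq ?_) (le_vmax w.1 (fun c : Fin 2 → Fin (n + 1) => (Matrix.of
      fun i j => (![p, q] : Fin 2 → Fin (n + 1) → L) i (c j)).det) ![k, l])
    rw [Matrix.det_fin_two]
    simp [hC.ek, hC.el, hC.fk, hC.fl]
  have hplq : ∀ (w : Place κ L) j, w.1 (q j) ≤ pl w.1 ![p, q] := by
    intro w j
    refine le_trans (le_of_eq ?_) (le_vmax w.1 (fun c : Fin 2 → Fin (n + 1) => (Matrix.of
      fun i j => (![p, q] : Fin 2 → Fin (n + 1) → L) i (c j)).det) ![k, j])
    rw [Matrix.det_fin_two]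
    simp [hC.ek, hC.el, hC.fk, hC.fl]
  have hplp : ∀ (w : Place κ L) j, w.1 (p j) ≤ pl w.1 ![p, q] := by
    intro w j
    refine le_trans (le_of_eq ?_) (le_vmax w.1 (fun c : Fin 2 → Fin (n + 1) => (Matrix.of
      fun i j => (![p, q] : Fin 2 → Fin (n + 1) → L) i (c j)).det) ![j, l])
    rw [Matrix.det_fin_two]
    simp [hC.ek, hC.el, hC.fk, hC.fl]
  have hs1 := pl_support h hpq
  have hl0 := ht_nonneg h F
  -- the height of `x`
  have hxz : height κ x ≤ height κ ![1, z] + ht κ F := by
    have h1 : height κ x = height κ (p + z • q) := by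
      conv_lhs => rw [hx]
      exact h.height_smul hk
    have hne : p + z • q ≠ 0 := by
      intro h0
      rw [h0, smul_zero] at hx
      exact hx0 hx
    have hz0 : (![1, z] : Fin 2 → L) ≠ 0 := pair_ne_zero z
    rw [h1, hFh]
    have s2 := h.vmax_support hz0
    have h2 : height κ ![1, z] + ∑ᶠ w : Place κ L, log (pl w.1 ![p, q]) =
        ∑ᶠ w : Place κ L, (log (vmax w.1 ![1, z]) + log (pl w.1 ![p, q])) :=
      (finsum_add_distrib s2 hs1).symm
    rw [h2]
    refine finsum_mono (h.vmax_support hne) ((s2.union hs1).subset (Function.support_add _ _))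
      fun w => ?_
    have n1 : vmax w.1 (p + z • q) ≠ 0 := vmax_ne_zero w.1 hne
    have n2 : vmax w.1 ![1, z] ≠ 0 := vmax_ne_zero w.1 hz0
    have n3 := pl_ne_zero w.1 hpq
    rw [← log_mul n2 n3]
    refine (log_le_log n1 (mul_ne_zero n2 n3)).mpr (vmax_le w.1 fun j => ?_)
    rw [MP_44a246_ntL.vmax_pair, Pi.add_apply, Pi.smul_apply, smul_eq_mul]
    refine (w.1.map_add _ _).trans (max_le ?_ ?_)
    · calc w.1 (p j) = 1 * w.1 (p j) := (one_mul _).symm
        _ ≤ _ := mul_le_mul' (le_max_left _ _) (hplp w j)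
    · rw [map_mul]
      exact mul_le_mul' (le_max_right _ _) (hplq w j)
  by_cases hall : ∀ i, resl (e i) (a i) p q = 0
  · -- the line is contained in the variety
    have hinf : Infinite κ := inferInstance
    have hinf' : Infinite L := Infinite.of_injective (algebraMap κ L) (algebraMap κ L).injective
    right
    intro i y hy
    rw [hC.mem y hy]
    exact Fval_line (hall i) _ _
  · -- the point is one of finitely many
    left
    push Not at hall
    obtain ⟨i, hi⟩ := hall
    refine ⟨i, ?_⟩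
    set g := resl (e i) (a i) p q with hg
    set c : Fin (g.natDegree + 1) → L := fun m => g.coeff m with hc
    have hc0 : c ≠ 0 := by
      intro h0
      have h1 := congrFun h0 (Fin.last g.natDegree)
      simp only [hc, Fin.val_last, Pi.zero_apply] at h1
      exact hi (leadingCoeff_eq_zero.1 h1)
    have hroot := root_height h hc0 (z := z) (by
      rw [← hfx i, eval_eq_sum_range]
      exact Fin.sum_univ_eq_sum_range (fun m => g.coeff m * z ^ m) (g.natDegree + 1))
    have hcoef : ∀ (w : Place κ L) m, w.1 (g.coeff m) ≤ exp (τ w : ℤ) * pl w.1 ![p, q] ^ e i := by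
      intro w m
      rw [hg]
      unfold resl
      rw [finset_sum_coeff]
      refine Valuation.map_sum_le w.1 fun I hI => ?_
      rw [coeff_C_mul, map_mul]
      refine mul_le_mul' (ha i I hI w) ?_
      have h1 := coeff_prod_le w.1 Finset.univ (P := fun j => C (p j) + C (q j) * X)
        (a := pl w.1 ![p, q]) (fun j m => by
          rw [coeff_add, coeff_C, coeff_C_mul, coeff_X]
          refine (w.1.map_add _ _).trans (max_le ?_ ?_)
          · split_ifs
            · exact hplp w j
            · rw [map_zero]; exact zero_le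
          · split_ifs
            · rw [mul_one]; exact hplq w j
            · rw [mul_zero, map_zero]; exact zero_le) I m
      have h2 : ∑ j, I j = e i := by
        have := mem_expo.1 hI
        rwa [Finsupp.degree_eq_sum] at this
      rwa [h2] at h1
    have s3 : (Function.support fun w : Place κ L => (τ w : ℤ)).Finite := by
      refine hτ.subset fun w hw h1 => hw ?_
      simp only
      rw [h1, Nat.cast_zero]
    have s4 : (Function.support fun w : Place κ L => (e i : ℤ) *
        log (pl w.1 ![p, q])).Finite := by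
      refine hs1.subset fun w hw h1 => hw ?_
      simp only at h1 ⊢
      rw [h1, mul_zero]
    have hch : height κ c ≤ e i * ht κ F + ∑ᶠ w, (τ w : ℤ) := by
      have h1 : (e i : ℤ) * ht κ F + ∑ᶠ w : Place κ L, (τ w : ℤ) =
          ∑ᶠ w : Place κ L, ((e i : ℤ) * log (pl w.1 ![p, q]) + (τ w : ℤ)) := by
        rw [finsum_add_distrib s4 s3, hFh, mul_finsum]
      rw [h1]
      refine finsum_mono (h.vmax_support hc0) ((s4.union s3).subset (Function.support_add _ _))
        fun w => ?_
      have n1 : vmax w.1 c ≠ 0 := vmax_ne_zero w.1 hc0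
      have n3 := pl_ne_zero w.1 hpq
      have h2 : vmax w.1 c ≤ exp (τ w : ℤ) * pl w.1 ![p, q] ^ e i :=
        vmax_le w.1 fun m => hcoef w m
      have h3 := (log_le_log n1 (mul_ne_zero exp_ne_zero (pow_ne_zero _ n3))).mpr h2
      rw [log_mul exp_ne_zero (pow_ne_zero _ n3), log_exp, log_pow, nsmul_eq_mul] at h3
      linarith
    linarith

end

end Pool.Agent.Lib.MP_44a246_ntR
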