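import Mathlib
import Pool.Agent.Lib.MP_44a246_ntL.LPoly
import Pool.Agent.Lib.MP_44a246_ntR.R15n
import Pool.Agent.Lib.MP_44a246_ntR.R17

/-!
The height theorem over the base field for pairs: a point of large height lies on a line in the
variety which has at most two points in common with the boundary, or its truncated counting
function is large.
-/

namespace Pool.Agent.Lib.MP_44a246_ntR

open Pool.Agent.Lib.MP_44a246_ntD
open Pool.Agent.Lib.MP_44a246_ntF
open Pool.Agent.Lib.MP_44a246_ntQ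
open Pool.Agent.Lib.MP_44a246_nt
open Pool.Agent.Lib.MP_44a246_ntL
open Pool.Agent.Lib.MP_44a246_ntV
open Pool.Agent.Lib.MP_44a246_ntS
open Pool.Agent.Lib.MP_44a246_ntX
open Pool.Agent.Lib.MP_44a246_ntG
open Pool.Agent.Lib.MP_44a246_ntU
open Pool.Agent.Lib.MP_44a246_ntZ
open Pool.Agent.Lib.MP_44a246_ntK
open Pool.Agent.Lib.MP_e52354_nt
open Pool.Agent.Lib.MP_e52354_ntG
open WithZero Module

universe u v w

section

variable {L : Type*} [Field L] {n q : ℕ}

/-- the parameters, over the algebraic closure, of the points `y + z x` of a line at which one of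
the forms vanishes -/
def zerosL (E : Fin q → ℕ) (b : Fin q → (Fin n →₀ ℕ) → L) (x y : Fin n → L) :
    Set (AlgebraicClosure L) :=
  {z | ∃ l, Fval (E l) (fun I => algebraMap L (AlgebraicClosure L) (b l I))
    (fun k => algebraMap L (AlgebraicClosure L) (y k) +
      algebraMap L (AlgebraicClosure L) (x k) * z) = 0}

theorem zerosL_eq [Infinite L] {E : Fin q → ℕ} {b : Fin q → (Fin n →₀ ℕ) → L} {x : Fin n → L}
    (hx : ∀ l, Fval (E l) (b l) x ≠ 0) (y : Fin n → L) :
    (restP E b x y).rootSet (AlgebraicClosure L) = zerosL E b x y := by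
  classical
  have h0 : ∀ l, lineP (E l) (b l) y x ≠ 0 := by
    intro l h1
    apply hx l
    have h2 := Fval_comb (E l) (b l) h1 inferInstance 0 1
    have h3 : (fun j => y j * 0 + x j * 1) = x := by
      funext j
      ring
    rwa [h3] at h2
  have hr : restP E b x y ≠ 0 := by
    unfold restP
    exact Finset.prod_ne_zero_iff.2 fun l _ => h0 l
  ext z
  rw [Polynomial.mem_rootSet]
  unfold restP
  rw [map_prod, Finset.prod_eq_zero_iff]
  constructor
  · rintro ⟨-, l, -, hl⟩
    refine ⟨l, ?_⟩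
    rw [← eval_lineP, ← lineP_map, Polynomial.eval_map, ← Polynomial.aeval_def]
    exact hl
  · rintro ⟨l, hl⟩
    refine ⟨hr, l, Finset.mem_filter.2 ⟨Finset.mem_univ _, hx l⟩, ?_⟩
    rw [← eval_lineP, ← lineP_map, Polynomial.eval_map, ← Polynomial.aeval_def] at hl
    exact hl

/-- The point `x` lies on a line on which the forms `(e, a)` vanish and which has at most `B`
points, over an algebraic closure, at which one of the forms `(E, b)` vanishes. -/
def OnLineP (B : ℕ) {ι : Type*} (e : ι → ℕ) (a : ι → (Fin n →₀ ℕ) → L) (E : Fin q → ℕ)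
    (b : Fin q → (Fin n →₀ ℕ) → L) (x : Fin n → L) : Prop :=
  ∃ y : Fin n → L, LinearIndependent L ![x, y] ∧
    (∀ (i : ι) (u v : L), Fval (e i) (a i) (u • x + v • y) = 0) ∧ (zerosL E b x y).encard ≤ B

end

section

variable {κ L : Type*} [Field κ] [IsAlgClosed κ] [CharZero κ] [Field L] [Algebra κ L] {n : ℕ}

/-- the height of a line -/
theorem ht_pluV (h : IsFF κ L) {x y : Fin n → L} (hxy : LinearIndependent L ![x, y]) :
    ht κ (Submodule.span L (Set.range ![x, y])) = height κ (pluV x y) := by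
  rw [ht_span h hxy]
  unfold height
  refine finsum_congr fun w => ?_
  congr 1
  have hdet : ∀ c : Fin 2 → Fin n, (Matrix.of fun i j => (![x, y] : Fin 2 → Fin n → L) i (c j)).det =
      pluV x y (c 0, c 1) := by
    intro c
    rw [Matrix.det_fin_two]
    have h2 : pluV x y (c 0, c 1) = x (c 0) * y (c 1) - x (c 1) * y (c 0) := rfl
    rw [h2]
    simp only [Matrix.of_apply, Matrix.cons_val_zero, Matrix.cons_val_one]
    try ring
  apply le_antisymm
  · unfold pl
    refine vmax_le w.1 fun c => ?_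
    rw [hdet]
    exact le_vmax w.1 (pluV x y) (c 0, c 1)
  · refine vmax_le w.1 fun ij => ?_
    have h1 := le_vmax w.1 (fun c : Fin 2 → Fin n =>
      (Matrix.of fun i j => (![x, y] : Fin 2 → Fin n → L) i (c j)).det) ![ij.1, ij.2]
    beta_reduce at h1
    rw [hdet] at h1
    exact h1

/-- a second point of a line -/
theorem exists_second {F : Submodule L (Fin n → L)} (hF : finrank L F = 2) {x : Fin n → L}
    (hx : x ≠ 0) (hxF : x ∈ F) : ∃ y : Fin n → L, LinearIndependent L ![x, y] ∧
      Submodule.span L (Set.range ![x, y]) = F := by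
  obtain ⟨y, hyF, hy⟩ : ∃ y ∈ F, y ∉ Submodule.span L {x} := by
    by_contra hcon
    push Not at hcon
    have h1 : F ≤ Submodule.span L {x} := hcon
    have h2 := Submodule.finrank_mono h1
    rw [hF, finrank_span_singleton hx] at h2
    omega
  have hli : LinearIndependent L ![x, y] := by
    rw [LinearIndependent.pair_iff]
    intro s t hst
    have ht : t = 0 := by
      by_contra ht
      apply hy
      rw [Submodule.mem_span_singleton]
      refine ⟨-(t⁻¹ * s), ?_⟩
      have h1 : t • y = -(s • x) := by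
        rw [eq_neg_iff_add_eq_zero, add_comm]
        exact hst
      have h2 : y = t⁻¹ • (t • y) := by rw [smul_smul, inv_mul_cancel₀ ht, one_smul]
      rw [h2, h1, smul_neg, smul_smul, neg_smul]
    rw [ht, zero_smul, add_zero, smul_eq_zero] at hst
    exact ⟨hst.resolve_right hx, ht⟩
  refine ⟨y, hli, ?_⟩
  refine Submodule.eq_of_le_of_finrank_eq ?_ ?_
  · rw [Submodule.span_le]
    rintro _ ⟨i, rfl⟩
    fin_cases i
    · exact hxF
    · exact hyF
  · rw [finrank_span_eq_card hli, hF, Fintype.card_fin]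

end

/-- **The height theorem over the base field for pairs.** -/
theorem heightP_base {κ : Type u} {K : Type v} [Field κ] [IsAlgClosed κ] [CharZero κ] [Field K]
    [CharZero K] [Algebra κ K] (hK : IsFF κ K) (htr : Cardinal.aleph0 ≤ Algebra.trdeg ℚ κ)
    {k : Type*} [Field k] [CharZero k] [Algebra k K]
    (hk : Algebra.trdeg ℚ k < Cardinal.aleph0) {n p r ρ c s m P Q q D B : ℕ} {d : Fin p → ℕ}
    (hr1 : 1 ≤ r) (hd1 : ∀ j, 1 ≤ d j) (hρ1 : 1 ≤ ρ + q)
    (hms : ∀ A : Finset (Fin p), A.card = ρ + q → m + s ≤ ∑ j ∈ A, d j)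
    (hN : 3 * r + 3 + c ≤ 2 * m + ρ) (hpm : p + 3 ≤ m + ρ)
    (hC : r + p + 2 ≤ m ∨ 2 * r + c + 2 ≤ m + ρ ∨ 3 * r + 4 + c ≤ 2 * m + ρ)
    (hQ : (p + 6) * (m + ρ) + 2 * p * m + Q = (m + ρ) ^ 2 + 9 + 5 * p)
    {ι : Type*} [Finite ι] {e : ι → ℕ}
    (he : ∀ i, 2 * p * s * (e i + 1) < Q ∨ 2 * p * (e i + 1) ≤ P ∨ 2 * r + c + 2 ≤ m + ρ)
    {f : ι → MvPolynomial (Fin p ⊕ Fin (n + 1)) k}
    (hf : ∀ i, (f i).IsWeightedHomogeneous (wtP (n + 1) d) (e i))
    (hI : ringKrullDim (MvPolynomial (Fin (n + 1)) k ⧸ imI f) ≤ ((r + 1 : ℕ) : ℕ))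
    {g : Fin q → MvPolynomial (Fin p ⊕ Fin (n + 1)) k} {E : Fin q → ℕ}
    (hg : ∀ l, (g l).IsWeightedHomogeneous (wtP (n + 1) d) (E l)) (hE : ∀ l, E l ≤ D)
    (hB : 2 ≤ B ∨ q = 0)
    (hP : ∀ _ : Fin q, Q + 2 * p * ((B + 1) * (2 * D ^ (B + 1) + 7) * (D + 1) + 3) ≤ P)
    {S : Set (Place κ K)} (hS : S.Finite)
    {a : Fin p → (Fin (n + 1) →₀ ℕ) → K} {G : Finset (Fin p × (Fin (n + 1) →₀ ℕ))}
    (hcc : G.card ≤ c)
    (ha : AlgebraicIndependent k (fun s : {s // s ∈ jexpo n d ∧ s ∉ G} => a s.1.1 s.1.2)) :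
    ∃ C : ℕ, ∀ (L : Type w) [Field L] [Algebra K L] [FiniteDimensional K L]
      [Algebra κ L] [IsScalarTower κ K L] [Algebra k L] [IsScalarTower k K L]
      (x : Fin (n + 1) → L), x ≠ 0 →
      (∀ i, Fval (e i) (aWP d (fun j I => algebraMap K L (a j I)) f i) x = 0) →
      (∀ l, Fval (E l) (aWP d (fun j I => algebraMap K L (a j I)) g l) x ≠ 0) →
      (JRank (ρ + q) (Sum.elim f g) (Sum.elim
        (fun j => Fval (d j) (fun I => algebraMap K L (a j I)) x) x : Fin p ⊕ Fin (n + 1) → L) ∨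
        (q = 0 ∧ ρ = p ∧ NDegP f x)) →
      s * height κ x < Set.ncard {w : Place κ L |
          (∀ v ∈ S, ¬ (w.1.comap (algebraMap K L)).IsEquiv v.1) ∧
          ∃ l, w.1 (Fval (E l) (aWP d (fun j I => algebraMap K L (a j I)) g l) x) <
            vmax w.1 x ^ E l} + ramDeg κ L K ∨
        (Q : ℤ) * ((B + 1) * height κ x) ≤ 3 * (Q * Set.ncard {w : Place κ L |
          (∀ v ∈ S, ¬ (w.1.comap (algebraMap K L)).IsEquiv v.1) ∧
          ∃ l, w.1 (Fval (E l) (aWP d (fun j I => algebraMap K L (a j I)) g l) x) <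
            vmax w.1 x ^ E l}) + (B + 1) * (C * finrank K L + P * ramDeg κ L K) ∨
        OnLineP B e (aWP d (fun j I => algebraMap K L (a j I)) f) E
          (aWP d (fun j I => algebraMap K L (a j I)) g) x := by
  classical
  have := Fintype.ofFinite ι
  obtain ⟨M, hM⟩ : ∃ M, ∀ i, e i ≤ M :=
    ⟨∑ i, e i, fun i => Finset.single_le_sum (f := e) (fun _ _ => Nat.zero_le _)
      (Finset.mem_univ i)⟩
  have hcq : Fintype.card (Fin q) = q := Fintype.card_fin q
  obtain ⟨C, b, hCb⟩ := exists_dataR.{u, v, w} (Λ := Fin q) (ρ := ρ) hK htr hk hf hI hg hS ha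
  obtain ⟨C₁, hC₁⟩ : ∃ C₁ : ℕ, 2 ≤ B → ∀ (L : Type w) [Field L] [Algebra κ L] [Algebra K L]
      [IsScalarTower κ K L] [FiniteDimensional K L] (x p' : Fin (n + 1) → L),
      (∃ i j, plu x p' i j ≠ 0) →
      (∀ j, Fval (E j) (fun I => algebraMap K L (aWP d a g j I)) x ≠ 0) →
      B < ((restP E (fun j I => algebraMap K L (aWP d a g j I)) x p').rootSet
        (AlgebraicClosure L)).ncard →
      (B + 1) * height κ x ≤ 3 * ((meetSet (κ := κ) E (aWP d a g) S x).ncard : ℤ) +
        (B + 1) * ((ramDeg κ L K : ℤ) +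
        ((B + 1) * (2 * D ^ (B + 1) + 7) * (D + 1) + 3) * height κ (pluV x p') +
        (C₁ : ℤ) * Module.finrank K L) := by
    by_cases hB2 : 2 ≤ B
    · obtain ⟨C₁, hC₁⟩ := line_multi.{w} hK E (aWP d a g) hS hE hB2
      exact ⟨C₁, fun _ => hC₁⟩
    · exact ⟨0, fun h => absurd h hB2⟩
  obtain ⟨C₀, hC₀⟩ : ∃ C₀ : ℕ, C₀ = ((m + ρ) ^ 2 + 9 + 5 * p) * ((r + (c + Fintype.card (Fin q))) *
            (4 * r + 2 * (c + Fintype.card (Fin q)) + 2)) + P * (2 * r + (c + 1)) +
          ((m + ρ) ^ 2 + 9 + 5 * p) * (2 * p * (M + 1) * (2 * r + (c + 1))) +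
          ((m + ρ) ^ 2 + 9 + 5 * p) * ((m + ρ) ^ 2 + 9 + 5 * p) := ⟨_, rfl⟩
  refine ⟨C₀ * (3 * C) + P * ((2 * r + c) * C) + Q * C₁, ?_⟩
  intro L _ _ _ _ _ _ _ x hx hfx hgx hne
  rw [hcq] at hCb
  obtain ⟨Y, c', ε, τ, η, hc, hYx, hh, hΔ, hR, hη, hε, hηε, hεs, hv, hr, hτ, hτs, hco, hz⟩ :=
    hCb L x hx hfx hgx hne
  have hL : IsFF κ L := hK.of_finite
  set N := Set.ncard {w : Place κ L |
          (∀ v ∈ S, ¬ (w.1.comap (algebraMap K L)).IsEquiv v.1) ∧
          ∃ l, w.1 (Fval (E l) (aWP d (fun j I => algebraMap K L (a j I)) g l) x) <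
            vmax w.1 x ^ E l} with hNdef
  rcases lt_or_ge (s * height κ x) ((N : ℤ) + (ramDeg κ L K : ℤ)) with hle | hgt
  · exact Or.inl hle
  right
  have hE₀ : (0 : ℤ) ≤ C * finrank K L := by positivity
  have hmain := height_FS hL (P := P) (M := M) hr1 hd1 (Λ := Fin q) (by rwa [hcq])
    (by rwa [hcq]) hN hpm hC hQ Y
    (β := fun s : ↥G => algebraMap κ L (b s)) (fun s w => place_const_le w _) hη hε hηε
    (by rwa [hcq]) hr
    (by rwa [Fintype.card_coe]) hE₀ (by rw [hR, hh]; linarith) hτ (e := e)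
    (a := aWP d (fun j I => algebraMap K L (a j I)) f) he hM hco hz
  rw [← hC₀] at hmain
  have hN0 : (0 : ℤ) ≤ Q * (N : ℤ) := by positivity
  have hR0 : (0 : ℤ) ≤ ramDeg κ L K := Int.natCast_nonneg _
  have hB0 : (0 : ℤ) ≤ (B : ℤ) + 1 := by positivity
  rcases hmain with h | ⟨F, hxF, hF, hFh, hFz⟩
  · left
    rw [hh, hR] at h
    have h1 : Y.Δ + C * finrank K L + ∑ᶠ w, (τ w : ℤ) ≤ 3 * (C * finrank K L) := by linarith
    have h2 := mul_le_mul_of_nonneg_left h1 (show (0 : ℤ) ≤ C₀ by positivity)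
    have h3 : (0 : ℤ) ≤ P * ((2 * r + c) * C) * finrank K L := by positivity
    have h4 : (0 : ℤ) ≤ Q * C₁ * finrank K L := by positivity
    have h5 : (Q : ℤ) * height κ x ≤ ((C₀ * (3 * C) + P * ((2 * r + c) * C) + Q * C₁ : ℕ) : ℤ) *
        finrank K L + P * ramDeg κ L K := by
      push_cast
      linarith
    have h6 := mul_le_mul_of_nonneg_left h5 hB0
    linarith
  · have hxF' : x ∈ F := by
      have h1 : x = c'⁻¹ • Y.x := by
        rw [hYx]
        funext j
        rw [Pi.smul_apply, smul_eq_mul, ← mul_assoc, inv_mul_cancel₀ hc, one_mul]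
      rw [h1]
      exact F.smul_mem _ hxF
    obtain ⟨y, hxy, hspan⟩ := exists_second hF hx hxF'
    have hht : ht κ F = height κ (pluV x y) := by
      rw [← hspan, ht_pluV hL hxy]
    have hfl : ∀ (i : ι) (u v : L), Fval (e i) (aWP d (fun j I => algebraMap K L (a j I)) f i)
        (u • x + v • y) = 0 := by
      intro i u v
      refine hFz i _ (F.add_mem (F.smul_mem _ hxF') (F.smul_mem _ ?_))
      rw [← hspan]
      exact Submodule.subset_span ⟨1, rfl⟩
    have hinf : Infinite κ := inferInstance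
    have hinf' : Infinite L := Infinite.of_injective (algebraMap κ L) (algebraMap κ L).injective
    have hroot := zerosL_eq hgx y
    rcases le_or_gt ((restP E (aWP d (fun j I => algebraMap K L (a j I)) g) x y).rootSet
        (AlgebraicClosure L)).ncard B with h2 | h2
    · right
      refine ⟨y, hxy, hfl, ?_⟩
      rw [← hroot]
      have hfin := Polynomial.rootSet_finite
        (restP E (aWP d (fun j I => algebraMap K L (a j I)) g) x y) (AlgebraicClosure L)
      rw [← hfin.cast_ncard_eq]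
      exact_mod_cast h2
    · left
      have hplu : ∃ i j, plu x y i j ≠ 0 := by
        by_contra hcon
        push Not at hcon
        have h3 : pluV x y = 0 := funext fun ij => hcon ij.1 ij.2
        have h4 := pl_ne_zero (v := (1 : Valuation L ℤᵐ⁰)) hxy
        apply h4
        unfold pl
        rw [vmax_eq_zero_iff]
        funext c
        rw [Matrix.det_fin_two]
        have h5 := congrFun h3 (c 0, c 1)
        have h6 : pluV x y (c 0, c 1) = x (c 0) * y (c 1) - x (c 1) * y (c 0) := rfl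
        rw [h6] at h5
        simp only [Matrix.of_apply, Matrix.cons_val_zero, Matrix.cons_val_one]
        exact h5
      have hA : (fun (j : Fin q) I => algebraMap K L (aWP d a g j I)) =
          aWP d (fun j I => algebraMap K L (a j I)) g := by
        funext j I
        exact map_aWP d a (algebraMap K L) (fun u => (IsScalarTower.algebraMap_apply k K L u).symm)
          g j I
      obtain ⟨l₀⟩ : Nonempty (Fin q) := by
        by_contra hq
        rw [not_nonempty_iff] at hq
        have h4 : zerosL E (aWP d (fun j I => algebraMap K L (a j I)) g) x y = ∅ := by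
          ext z
          rw [Set.mem_empty_iff_false, iff_false]
          rintro ⟨l, -⟩
          exact hq.false l
        rw [hroot, h4, Set.ncard_empty] at h2
        omega
      have hB2 : 2 ≤ B := by
        rcases hB with h4 | h4
        · exact h4
        · exact absurd l₀.2 (by omega)
      have h3 := hC₁ hB2 L x y hplu (by
        intro j
        rw [congrFun hA j]
        exact hgx j) (by
        rw [hA]
        exact h2)
      have hNe : (meetSet (κ := κ) E (aWP d a g) S x).ncard = N := by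
        rw [hNdef]
        congr 1
        ext w
        unfold meetSet
        rw [Set.mem_setOf_eq, Set.mem_setOf_eq]
        refine and_congr ?_ (exists_congr fun l => ?_)
        · constructor
          · intro h4 v hv h5
            rw [below_equiv] at h5
            exact h4 (h5 ▸ hv)
          · intro h4 h5
            exact h4 _ h5 ((below_equiv w _).2 rfl)
        · rw [congrFun hA l]
          exact ⟨fun h4 => h4.2, fun h4 => ⟨hgx l, h4⟩⟩
      have hP' := hP l₀
      rw [hNe, ← hht] at h3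
      obtain ⟨c₁, hc₁⟩ : ∃ c₁ : ℕ, c₁ = (B + 1) * (2 * D ^ (B + 1) + 7) * (D + 1) + 3 := ⟨_, rfl⟩
      rw [← hc₁] at hP'
      have hc₁' : (((B : ℤ) + 1) * (2 * (D : ℤ) ^ (B + 1) + 7) * (D + 1) + 3) = c₁ := by
        rw [hc₁]
        push_cast
        ring
      rw [hc₁'] at h3
      rw [hR] at hFh
      have e1 := mul_le_mul_of_nonneg_left h3 (show (0 : ℤ) ≤ Q by positivity)
      have e2 := mul_le_mul_of_nonneg_left hFh (show (0 : ℤ) ≤ c₁ by positivity)
      have e3 : (2 * (r : ℤ) + c) * Y.Δ ≤ (2 * r + c) * (C * finrank K L) :=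
        mul_le_mul_of_nonneg_left hΔ (by positivity)
      have e4 : (Q : ℤ) + 2 * p * c₁ ≤ P := by exact_mod_cast hP'
      have e5 : (2 * (p : ℤ) * c₁) * ((2 * r + c) * Y.Δ) ≤
          (2 * (p : ℤ) * c₁) * ((2 * r + c) * (C * finrank K L)) :=
        mul_le_mul_of_nonneg_left e3 (by positivity)
      have e6 : (2 * (p : ℤ) * c₁) * ((2 * r + c) * (C * finrank K L)) ≤
          P * ((2 * r + c) * (C * finrank K L)) := by
        refine mul_le_mul_of_nonneg_right ?_ (by positivity)
        have : (0 : ℤ) ≤ Q := by positivity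
        linarith
      have e7 : ((Q : ℤ) + 2 * p * c₁) * ramDeg κ L K ≤ P * ramDeg κ L K :=
        mul_le_mul_of_nonneg_right e4 hR0
      have e8 : (0 : ℤ) ≤ C₀ * (3 * C) * finrank K L := by positivity
      have e9 : (Q : ℤ) * ((ramDeg κ L K : ℤ) + c₁ * ht κ F + (C₁ : ℤ) * finrank K L) ≤
          ((C₀ * (3 * C) + P * ((2 * r + c) * C) + Q * C₁ : ℕ) : ℤ) * finrank K L +
            P * ramDeg κ L K := by
        push_cast
        linarith
      have e10 := mul_le_mul_of_nonneg_left e9 hB0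
      linarith

end Pool.Agent.Lib.MP_44a246_ntR
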