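import Mathlib
import Pool.Agent.Lib.MP_44a246_ntB.Frame
import Pool.Agent.Lib.MP_44a246_ntR.R18

/-!
Lines in the variety with few points on the boundary, over an algebraically closed field.
-/

namespace Pool.Agent.Lib.MP_44a246_ntR

open Pool.Agent.Lib.MP_44a246_ntF
open Pool.Agent.Lib.MP_44a246_ntD
open Pool.Agent.Lib.MP_44a246_ntQ
open Pool.Agent.Lib.MP_44a246_nt
open Pool.Agent.Lib.MP_44a246_ntL
open Pool.Agent.Lib.MP_44a246_ntS
open Pool.Agent.Lib.MP_44a246_ntG
open Pool.Agent.Lib.MP_44a246_ntU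
open Pool.Agent.Lib.MP_44a246_ntK
open Pool.Agent.Lib.MP_e52354_nt
open Pool.Agent.Lib.MP_e52354_ntG
open Module

section

variable {L : Type*} [Field L] {n q : ℕ}

theorem rootSet_restP [Infinite L] {Ω : Type*} [Field Ω] [Algebra L Ω] {E : Fin q → ℕ}
    {b : Fin q → (Fin n →₀ ℕ) → L} {x : Fin n → L}
    (hx : ∀ l, Fval (E l) (b l) x ≠ 0) (y : Fin n → L) :
    (restP E b x y).rootSet Ω = {z : Ω | ∃ l, Fval (E l) (fun I => algebraMap L Ω (b l I))
      (fun k => algebraMap L Ω (y k) + algebraMap L Ω (x k) * z) = 0} := by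
  classical
  have h0 : ∀ l, lineP (E l) (b l) y x ≠ 0 := by
    intro l h1
    apply hx l
    have h2 := Fval_comb (E l) (b l) h1 inferInstance 0 1
    have h3 : (fun j => y j * 0 + x j * 1) = x := by
      funext j
      ring
    rwa [h3] at h2
  have hr : restP E b x y ≠ 0 := by
    unfold restP
    exact Finset.prod_ne_zero_iff.2 fun l _ => h0 l
  ext z
  rw [Polynomial.mem_rootSet]
  unfold restP
  rw [map_prod, Finset.prod_eq_zero_iff]
  constructor
  · rintro ⟨-, l, -, hl⟩
    refine ⟨l, ?_⟩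
    rw [← eval_lineP, ← lineP_map, Polynomial.eval_map, ← Polynomial.aeval_def]
    exact hl
  · rintro ⟨l, hl⟩
    refine ⟨hr, l, Finset.mem_filter.2 ⟨Finset.mem_univ _, hx l⟩, ?_⟩
    rw [← eval_lineP, ← lineP_map, Polynomial.eval_map, ← Polynomial.aeval_def] at hl
    exact hl

/-- The point `x` lies on a line on which the forms `(e, a)` vanish and which has at most `B`
points, besides `x`, at which one of the forms `(E, b)` vanishes. -/
def OnLineA (B : ℕ) {ι : Type*} (e : ι → ℕ) (a : ι → (Fin n →₀ ℕ) → L) (E : Fin q → ℕ)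
    (b : Fin q → (Fin n →₀ ℕ) → L) (x : Fin n → L) : Prop :=
  ∃ y : Fin n → L, LinearIndependent L ![x, y] ∧
    (∀ (i : ι) (u v : L), Fval (e i) (a i) (u • x + v • y) = 0) ∧
    {z : L | ∃ l, Fval (E l) (b l) (y + z • x) = 0}.encard ≤ B

end

section

variable {L : Type*} [Field L] {n q : ℕ}

/-- extensions of the field -/
theorem OnLineP.map [Infinite L] {Ω : Type*} [Field Ω] [IsAlgClosed Ω] (φ : L →+* Ω) {B : ℕ}
    {ι : Type*}
    {e : ι → ℕ} {a : ι → (Fin (n + 1) →₀ ℕ) → L} {E : Fin q → ℕ}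
    {b : Fin q → (Fin (n + 1) →₀ ℕ) → L} {x : Fin (n + 1) → L}
    (hx : ∀ l, Fval (E l) (b l) x ≠ 0) (h : OnLineP B e a E b x) :
    OnLineA B e (fun i I => φ (a i I)) E (fun i I => φ (b i I)) (fun l => φ (x l)) := by
  have : Infinite Ω := Infinite.of_injective φ φ.injective
  obtain ⟨y, hxy, hz, hcard⟩ := h
  let _ := φ.toAlgebra
  refine ⟨fun l => φ (y l), ?_, fun i => Fval_line ?_, ?_⟩
  · have h1 := (linearIndependent_algebraMap_comp_iff (S := Ω)).2 hxy
    have h2 : (fun i => (algebraMap L Ω) ∘ (![x, y] : Fin 2 → Fin (n + 1) → L) i) =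
        ![fun l => φ (x l), fun l => φ (y l)] := by
      funext i
      fin_cases i
      · rfl
      · rfl
    rw [h2] at h1
    exact h1
  · rw [← resl_map, resl_eq_zero, Polynomial.map_zero]
    intro w
    have h1 := hz i 1 w
    rwa [one_smul] at h1
  · have h1 : {z : Ω | ∃ l, Fval (E l) (fun I => φ (b l I)) ((fun l => φ (y l)) +
        z • (fun l => φ (x l))) = 0} = (restP E b x y).rootSet Ω := by
      rw [rootSet_restP hx y]
      ext z
      rw [Set.mem_setOf_eq, Set.mem_setOf_eq]
      refine exists_congr fun l => ?_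
      have h2 : ((fun l => φ (y l)) + z • (fun l => φ (x l)) : Fin (n + 1) → Ω) =
          fun k => algebraMap L Ω (y k) + algebraMap L Ω (x k) * z := by
        funext k
        rw [Pi.add_apply, Pi.smul_apply, smul_eq_mul, mul_comm]
        rfl
      rw [h2]
      rfl
    rw [h1]
    rw [← zerosL_eq hx y] at hcard
    let ψ : AlgebraicClosure L →ₐ[L] Ω := IsAlgClosed.lift
    have hsp : ((restP E b x y).map (algebraMap L (AlgebraicClosure L))).Splits :=
      IsAlgClosed.splits _
    rw [← hsp.image_rootSet ψ]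
    exact (Set.encard_image_le _ _).trans hcard

theorem OnLineA.smul {B : ℕ} {ι : Type*}
    {e : ι → ℕ} {a : ι → (Fin n →₀ ℕ) → L} {E : Fin q → ℕ}
    {b : Fin q → (Fin n →₀ ℕ) → L} {x : Fin n → L} (h : OnLineA B e a E b x) {c : L}
    (hc : c ≠ 0) : OnLineA B e a E b (fun l => c * x l) := by
  obtain ⟨y, hxy, hz, hcard⟩ := h
  have h0 : (fun l => c * x l) = c • x := rfl
  refine ⟨y, ?_, fun i u v => ?_, ?_⟩
  · rw [LinearIndependent.pair_iff] at hxy ⊢
    intro s t hst
    rw [h0, smul_smul] at hst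
    obtain ⟨h1, h2⟩ := hxy _ _ hst
    exact ⟨(mul_eq_zero.1 h1).resolve_right hc, h2⟩
  · rw [h0, smul_smul]
    exact hz i _ _
  · have h1 : (fun z => c * z) '' {z : L | ∃ l, Fval (E l) (b l) (y + z • fun l => c * x l) = 0} ⊆
        {z : L | ∃ l, Fval (E l) (b l) (y + z • x) = 0} := by
      rintro _ ⟨z, ⟨l, hl⟩, rfl⟩
      refine ⟨l, ?_⟩
      rw [h0, smul_smul, mul_comm] at hl
      exact hl
    have h2 : Function.Injective (fun z => c * z) := mul_right_injective₀ hc
    rw [← h2.encard_image]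
    exact (Set.encard_le_encard h1).trans hcard

/-- The point `x` lies on a line on which the forms `(e, a)` vanish and on which the forms
`(E, b)` have `B` given zeros with given multiplicities, normalised at the coordinate `k`. -/
def LnPAt {B : ℕ} {ι : Type*} (e : ι → ℕ) (a : ι → (Fin n →₀ ℕ) → L) (E : Fin q → ℕ)
    (b : Fin q → (Fin n →₀ ℕ) → L) (μ : Fin q → Fin B → ℕ) (k : Fin n) (x : Fin n → L) : Prop :=
  ∃ (u v : Fin n → L) (z : L) (ξ : Fin n → L) (ζ : Fin B → L) (c : Fin q → L),
    u k = 1 ∧ v k = 0 ∧ (∑ j, ξ j * v j = 1) ∧ (∀ l, x l = u l + z * v l) ∧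
    (∀ (i : ι) (N : ℕ), Fval (e i) (a i) (fun l => u l + N * v l) = 0) ∧
    ∀ (l : Fin q) (N : ℕ), Fval (E l) (b l) (fun j => u j + N * v j) =
      c l * ∏ t, ((N : L) - ζ t) ^ μ l t

/-- the factorisation of polynomials which have few zeros -/
theorem exists_factor [IsAlgClosed L] [CharZero L] {B : ℕ} {P : Fin q → Polynomial L} (hP : ∀ l, P l ≠ 0)
    (hcard : {w : L | ∃ l, (P l).eval w = 0}.encard ≤ B) :
    ∃ (ζ : Fin B → L) (c : Fin q → L) (μ : Fin q → Fin B → ℕ),
      (∀ l t, μ l t ≤ (P l).natDegree) ∧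
      ∀ l, P l = Polynomial.C (c l) * ∏ t, (Polynomial.X - Polynomial.C (ζ t)) ^ μ l t := by
  classical
  choose R m c hc hm hR hPR using fun l => Pool.Agent.Lib.MP_44a246_ntB.prod_form (P l) (hP l)
  have hfin : {w : L | ∃ l, (P l).eval w = 0}.Finite := Set.finite_of_encard_le_coe hcard
  set Z : Finset L := hfin.toFinset with hZ
  have hZc : Z.card ≤ B := by
    have h1 : (Z.card : ℕ∞) ≤ B := by
      rw [← Set.encard_coe_eq_coe_finsetCard, hZ, Set.Finite.coe_toFinset]
      exact hcard
    exact_mod_cast h1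
  have hRZ : ∀ l, R l ⊆ Z := by
    intro l w hw
    rw [hZ, Set.Finite.mem_toFinset]
    exact ⟨l, (hR l w).2 hw⟩
  let ε : Fin Z.card ≃ ↥Z := Z.equivFin.symm
  let ζ : Fin B → L := fun t => if h : (t : ℕ) < Z.card then (ε ⟨t, h⟩ : L) else 0
  let μ : Fin q → Fin B → ℕ := fun l t =>
    if h : (t : ℕ) < Z.card then (if (ε ⟨t, h⟩ : L) ∈ R l then m l (ε ⟨t, h⟩) else 0) else 0
  have key : ∀ l, P l = Polynomial.C (c l) * ∏ t, (Polynomial.X - Polynomial.C (ζ t)) ^ μ l t := by
    intro l
    conv_lhs => rw [hPR l]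
    congr 1
    have h1 : ∏ w ∈ R l, (Polynomial.X - Polynomial.C w) ^ m l w =
        ∏ w ∈ Z, (Polynomial.X - Polynomial.C w) ^ (if w ∈ R l then m l w else 0) := by
      rw [← Finset.prod_subset (hRZ l)]
      · exact Finset.prod_congr rfl fun w hw => by rw [if_pos hw]
      · intro w _ hw
        rw [if_neg hw, pow_zero]
    rw [h1, ← Finset.prod_coe_sort]
    have h2 : ∏ w : ↥Z, (Polynomial.X - Polynomial.C (w : L)) ^
          (if (w : L) ∈ R l then m l w else 0) =
        ∏ s : Fin Z.card, (Polynomial.X - Polynomial.C (ε s : L)) ^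
          (if (ε s : L) ∈ R l then m l (ε s) else 0) :=
      (Equiv.prod_comp ε (fun w : ↥Z => (Polynomial.X - Polynomial.C (w : L)) ^
          (if (w : L) ∈ R l then m l w else 0))).symm
    rw [h2]
    have h3 : ∏ t : Fin B, (Polynomial.X - Polynomial.C (ζ t)) ^ μ l t =
        ∏ t ∈ (Finset.univ.image (Fin.castLE hZc) : Finset (Fin B)),
          (Polynomial.X - Polynomial.C (ζ t)) ^ μ l t := by
      symm
      refine Finset.prod_subset (Finset.subset_univ _) fun t _ ht => ?_
      have h4 : ¬ (t : ℕ) < Z.card := by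
        intro h5
        apply ht
        rw [Finset.mem_image]
        exact ⟨⟨t, h5⟩, Finset.mem_univ _, Fin.ext rfl⟩
      have h5 : μ l t = 0 := dif_neg h4
      rw [h5, pow_zero]
    rw [h3, Finset.prod_image (Fin.castLE_injective hZc).injOn]
    refine Finset.prod_congr rfl fun s _ => ?_
    have h4 : ((Fin.castLE hZc s : Fin B) : ℕ) < Z.card := s.2
    have h5 : ζ (Fin.castLE hZc s) = ε s := dif_pos h4
    have h6 : μ l (Fin.castLE hZc s) = if (ε s : L) ∈ R l then m l (ε s) else 0 := dif_pos h4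
    rw [h5, h6]
  refine ⟨ζ, c, μ, fun l t => ?_, key⟩
  have h1 : (Polynomial.X - Polynomial.C (ζ t)) ^ μ l t ∣ P l := by
    rw [key l]
    exact (Finset.dvd_prod_of_mem _ (Finset.mem_univ t)).mul_left _
  have h2 := Polynomial.natDegree_le_of_dvd h1 (hP l)
  rwa [Polynomial.natDegree_pow, Polynomial.natDegree_X_sub_C, mul_one] at h2

theorem onLineA_lnPAt [IsAlgClosed L] [CharZero L] {B : ℕ} {ι : Type*} {e : ι → ℕ}
    {a : ι → (Fin (n + 1) →₀ ℕ) → L} {E : Fin q → ℕ} {b : Fin q → (Fin (n + 1) →₀ ℕ) → L}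
    {x : Fin (n + 1) → L} (hx : ∀ l, Fval (E l) (b l) x ≠ 0) (h : OnLineA B e a E b x)
    {k : Fin (n + 1)} (hk : x k = 1) :
    ∃ μ : Fin q → Fin B → ℕ, (∀ l t, μ l t ≤ E l) ∧ LnPAt e a E b μ k x := by
  classical
  have hinf : Infinite L := inferInstance
  obtain ⟨y, hxy, hzero, hcard⟩ := h
  set F := Submodule.span L (Set.range ![x, y]) with hFdef
  have hF : finrank L F = 2 := by
    rw [hFdef, finrank_span_eq_card hxy, Fintype.card_fin]
  have hmemF : ∀ w : Fin (n + 1) → L, w ∈ F ↔ ∃ s t : L, s • x + t • y = w := by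
    intro w
    rw [hFdef, Matrix.range_cons, Matrix.range_cons, Matrix.range_empty, Set.union_empty,
      Set.singleton_union, Submodule.mem_span_pair]
  have hxF : x ∈ F := (hmemF x).2 ⟨1, 0, by rw [one_smul, zero_smul, add_zero]⟩
  obtain ⟨l, p, q', hC⟩ := exists_chart_at hF hxF (k := k) (by rw [hk]; exact one_ne_zero)
  have hxp : ∀ j, x j = p j + x l * q' j := by
    intro j
    have h1 := hC.mem_apply hxF j
    rw [hk, one_mul] at h1
    exact h1
  -- the values of the forms on the line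
  choose P hPe using fun l' => exists_polyFval (E l') (b l') p q'
  have hP0 : ∀ l', P l' ≠ 0 := by
    intro l' h0
    apply hx l'
    have h1 := hPe l' (x l)
    rw [h0, Polynomial.eval_zero] at h1
    have h2 : x = fun j => p j + x l * q' j := funext hxp
    rw [h2]
    exact h1.symm
  have hPd : ∀ l', (P l').natDegree ≤ E l' := by
    intro l'
    have h1 : P l' = lineP (E l') (b l') p q' := by
      refine Polynomial.funext fun w => ?_
      rw [hPe, eval_lineP]
      congr 1
      funext j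
      rw [mul_comm]
    rw [h1]
    exact natDegree_lineP_le _ _ _ _
  have hcard' : {w : L | ∃ l', (P l').eval w = 0}.encard ≤ B := by
    -- the second coordinate of the points of the line
    have hex : ∀ w : L, ∃ α β : L, α • x + β • y = (fun j => p j + w * q' j) := by
      intro w
      refine (hmemF _).1 ?_
      have h1 : (fun j => p j + w * q' j) = p + w • q' := rfl
      rw [h1]
      exact F.add_mem hC.eE (F.smul_mem _ hC.fE)
    choose α β hαβ using hex
    refine le_trans ?_ hcard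
    have hβ : ∀ w ∈ {w : L | ∃ l', (P l').eval w = 0}, β w ≠ 0 := by
      rintro w ⟨l', hl'⟩ h0
      rw [hPe, ← hαβ w, h0, zero_smul, add_zero] at hl'
      have h1 : Fval (E l') (b l') (α w • x) = α w ^ E l' * Fval (E l') (b l') x :=
        Fval_smul (E l') (b l') (α w) x
      rw [h1] at hl'
      have h2 : α w = 0 := by
        rcases mul_eq_zero.1 hl' with h3 | h3
        · exact eq_zero_of_pow_eq_zero h3
        · exact absurd h3 (hx l')
      have h3 := congrFun (hαβ w) k
      rw [h0, h2, zero_smul, zero_smul, add_zero, hC.ek, hC.fk, mul_zero, add_zero] at h3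
      exact zero_ne_one h3
    have hinj : Set.InjOn (fun w => α w / β w) {w : L | ∃ l', (P l').eval w = 0} := by
      intro w hw w' hw' h
      have h1 := hβ w hw
      have h2 := hβ w' hw'
      have h3 : α w * β w' = α w' * β w := (div_eq_div_iff h1 h2).1 h
      have h4 : β w' • (fun j => p j + w * q' j) = β w • (fun j => p j + w' * q' j) := by
        rw [← hαβ w, ← hαβ w', smul_add, smul_add, smul_smul, smul_smul, smul_smul, smul_smul]
        congr 1
        · rw [mul_comm, h3, mul_comm]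
        · rw [mul_comm]
      have h5 := congrFun h4 k
      simp only [Pi.smul_apply, smul_eq_mul, hC.ek, hC.fk, mul_zero, add_zero, mul_one] at h5
      have h6 := congrFun h4 l
      simp only [Pi.smul_apply, smul_eq_mul, hC.el, hC.fl, zero_add, mul_one] at h6
      rw [h5] at h6
      exact mul_left_cancel₀ h1 h6
    rw [← hinj.encard_image]
    refine Set.encard_le_encard ?_
    rintro _ ⟨w, hw, rfl⟩
    have h1 := hβ w hw
    obtain ⟨l', hl'⟩ := hw
    refine ⟨l', ?_⟩
    rw [hPe, ← hαβ w] at hl'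
    have h2 : α w • x + β w • y = β w • (y + (α w / β w) • x) := by
      rw [smul_add, smul_smul, mul_div_cancel₀ _ h1]
      exact add_comm _ _
    have h3 : Fval (E l') (b l') (β w • (y + (α w / β w) • x)) =
        β w ^ E l' * Fval (E l') (b l') (y + (α w / β w) • x) :=
      Fval_smul (E l') (b l') (β w) _
    rw [h2, h3] at hl'
    exact (mul_eq_zero.1 hl').resolve_left (pow_ne_zero _ h1)
  obtain ⟨ζ, c, μ, hμ, hfac⟩ := exists_factor hP0 hcard'
  refine ⟨μ, fun l' t => (hμ l' t).trans (hPd l'), p, q', x l, Pi.single l 1, ζ, c, hC.ek, hC.fk,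
    ?_, hxp, ?_, ?_⟩
  · rw [Finset.sum_eq_single l]
    · rw [Pi.single_eq_same, one_mul, hC.fl]
    · intro j _ hj
      rw [Pi.single_eq_of_ne hj, zero_mul]
    · intro hj
      exact absurd (Finset.mem_univ _) hj
  · intro i N
    obtain ⟨s, t, hst⟩ := (hmemF (p + (N : L) • q')).1
      (Submodule.add_mem _ hC.eE (Submodule.smul_mem _ _ hC.fE))
    have h1 := hzero i s t
    rw [hst] at h1
    exact h1
  · intro l' N
    rw [← hPe l' N, hfac l']
    simp only [Polynomial.eval_mul, Polynomial.eval_C, Polynomial.eval_prod, Polynomial.eval_pow,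
      Polynomial.eval_sub, Polynomial.eval_X]

end

end Pool.Agent.Lib.MP_44a246_ntR
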