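import Mathlib
import Pool.Agent.Lib.MP_44a246_ntR.R19

/-!
Lines in the variety with few points on the boundary: germs and the count of the rows.
-/

namespace Pool.Agent.Lib.MP_44a246_ntR

open Pool.Agent.Lib.MP_44a246_ntF
open Pool.Agent.Lib.MP_44a246_ntD
open Pool.Agent.Lib.MP_44a246_ntQ
open Pool.Agent.Lib.MP_44a246_nt
open Pool.Agent.Lib.MP_44a246_ntL
open Pool.Agent.Lib.MP_44a246_ntS
open Pool.Agent.Lib.MP_44a246_ntG
open Pool.Agent.Lib.MP_44a246_ntU
open Pool.Agent.Lib.MP_44a246_ntK
open Pool.Agent.Lib.MP_e52354_nt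
open Module MvPolynomial

section

variable {L : Type*} [Field L] {n q B : ℕ} {ι : Type*} {e : ι → ℕ} {E : Fin q → ℕ}

/-- change of the basis of the line -/
theorem LnPAt.chart [CharZero L] {a : ι → (Fin n →₀ ℕ) → L} {b : Fin q → (Fin n →₀ ℕ) → L}
    {μ : Fin q → Fin B → ℕ} {k : Fin n} {x : Fin n → L} (h : LnPAt e a E b μ k x) :
    ∃ (l : Fin n) (u v : Fin n → L) (z : L) (ζ : Fin B → L) (c : Fin q → L), u k = 1 ∧ u l = 0 ∧
      v k = 0 ∧ v l = 1 ∧ (∀ l, x l = u l + z * v l) ∧
      (∀ (i : ι) (w : L), Fval (e i) (a i) (fun l => u l + w * v l) = 0) ∧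
      ∀ (l : Fin q) (w : L), Fval (E l) (b l) (fun j => u j + w * v j) =
        c l * ∏ t, (w - ζ t) ^ μ l t := by
  obtain ⟨u, v, z, ξ, ζ, c, huk, hvk, hξ, hx, hF, hG⟩ := h
  obtain ⟨l, hl⟩ : ∃ l, v l ≠ 0 := by
    by_contra hcon
    push Not at hcon
    simp only [hcon, mul_zero, Finset.sum_const_zero] at hξ
    exact zero_ne_one hξ
  have hF' : ∀ (i : ι) (w : L), Fval (e i) (a i) (fun l => u l + w * v l) = 0 := by
    intro i w
    obtain ⟨q, hq⟩ := exists_polyFval (e i) (a i) u v
    have hq0 : q = 0 := by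
      refine Polynomial.eq_zero_of_infinite_isRoot q ?_
      refine (Set.infinite_range_of_injective (f := fun N : ℕ => (N : L))
        Nat.cast_injective).mono ?_
      rintro _ ⟨N, rfl⟩
      show Polynomial.eval (N : L) q = 0
      rw [hq]
      exact hF i N
    rw [← hq, hq0, Polynomial.eval_zero]
  have hG' : ∀ (l : Fin q) (w : L), Fval (E l) (b l) (fun j => u j + w * v j) =
      c l * ∏ t, (w - ζ t) ^ μ l t := by
    intro l' w
    obtain ⟨P, hP⟩ := exists_polyFval (E l') (b l') u v
    have hev : ∀ w : L, (Polynomial.C (c l') * ∏ t, (Polynomial.X - Polynomial.C (ζ t)) ^ μ l' t :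
        Polynomial L).eval w = c l' * ∏ t, (w - ζ t) ^ μ l' t := by
      intro w
      simp only [Polynomial.eval_mul, Polynomial.eval_C, Polynomial.eval_prod, Polynomial.eval_pow,
        Polynomial.eval_sub, Polynomial.eval_X]
    have hq0 : P - Polynomial.C (c l') * ∏ t, (Polynomial.X - Polynomial.C (ζ t)) ^ μ l' t = 0 := by
      refine Polynomial.eq_zero_of_infinite_isRoot _ ?_
      refine (Set.infinite_range_of_injective (f := fun N : ℕ => (N : L))
        Nat.cast_injective).mono ?_
      rintro _ ⟨N, rfl⟩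
      show Polynomial.eval (N : L) _ = 0
      rw [Polynomial.eval_sub, hP, hev, hG l' N, sub_self]
    rw [← hP, ← hev, sub_eq_zero.1 hq0]
  refine ⟨l, fun j => u j - (u l / v l) * v j, fun j => (v l)⁻¹ * v j, z * v l + u l,
    fun t => u l + v l * ζ t, fun l' => c l' * ∏ t, ((v l)⁻¹) ^ μ l' t, ?_, ?_, ?_,
    ?_, ?_, ?_, ?_⟩
  · beta_reduce
    rw [hvk, mul_zero, sub_zero, huk]
  · beta_reduce
    rw [div_mul_cancel₀ _ hl, sub_self]
  · beta_reduce
    rw [hvk, mul_zero]
  · exact inv_mul_cancel₀ hl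
  · intro j
    rw [hx]
    field_simp
    ring
  · intro i w
    have h1 : (fun j => u j - u l / v l * v j + w * ((v l)⁻¹ * v j)) =
        fun j => u j + (w * (v l)⁻¹ - u l / v l) * v j := by
      funext j
      ring
    rw [h1]
    exact hF' i _
  · intro l' w
    have h1 : (fun j => u j - u l / v l * v j + w * ((v l)⁻¹ * v j)) =
        fun j => u j + (w * (v l)⁻¹ - u l / v l) * v j := by
      funext j
      ring
    rw [h1, hG' l', mul_assoc, ← Finset.prod_mul_distrib]
    congr 1
    refine Finset.prod_congr rfl fun t _ => ?_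
    rw [← mul_pow]
    congr 1
    field_simp
    ring

/-- germs of points on lines -/
theorem LnPAt.germ {Ω : Type*} [Field Ω] (ψ : UP L →+* Ω) {a : ι → (Fin n →₀ ℕ) → L}
    {b : Fin q → (Fin n →₀ ℕ) → L} {μ : Fin q → Fin B → ℕ} {k : Fin n}
    {x : ℕ → Fin n → L} (h : ∀ N, LnPAt e a E b μ k (x N)) :
    LnPAt e (fun i I => ψ (constHom (a i I))) E (fun i I => ψ (constHom (b i I))) μ k
      (fun l => ψ (germHom (fun N => x N l))) := by
  choose u v z ξ ζ c huk hvk hξ hx hF hG using h
  have hline : ∀ N' : ℕ, (fun l => (ψ.comp germHom) (fun N => u N l + (N' : L) * v N l)) = fun l =>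
        ψ (germHom (fun N => u N l)) + (N' : Ω) * ψ (germHom (fun N => v N l)) := by
    intro N'
    funext l
    have h4 : (fun N => u N l + (N' : L) * v N l) = (fun N => u N l) +
        ((N' : ℕ) : ℕ → L) * (fun N => v N l) := by
      funext N
      rfl
    rw [h4, map_add, map_mul, map_natCast]
    rfl
  refine ⟨fun l => ψ (germHom (fun N => u N l)), fun l => ψ (germHom (fun N => v N l)),
    ψ (germHom z), fun l => ψ (germHom (fun N => ξ N l)), fun t => ψ (germHom (fun N => ζ N t)),
    fun l => ψ (germHom (fun N => c N l)), ?_, ?_, ?_, ?_, ?_, ?_⟩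
  · have h1 : (fun N => u N k) = 1 := funext fun N => huk N
    beta_reduce
    rw [h1, map_one, map_one]
  · have h1 : (fun N => v N k) = 0 := funext fun N => hvk N
    beta_reduce
    rw [h1, map_zero, map_zero]
  · have h1 : (∑ j, (fun N => ξ N j) * (fun N => v N j) : ℕ → L) = 1 := by
      funext N
      rw [Finset.sum_apply]
      exact hξ N
    have h2 := congrArg (fun y => ψ (germHom y)) h1
    simp only [map_sum, map_mul, map_one] at h2
    exact h2
  · intro l
    have h1 : (fun N => x N l) = (fun N => u N l) + z * (fun N => v N l) := by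
      funext N
      exact hx N l
    beta_reduce
    rw [h1, map_add, map_mul, map_add, map_mul]
  · intro i N'
    have h1 := ring_Fval (ψ.comp germHom) (e i) (a i) (fun N l => u N l + N' * v N l)
    have h2 : (fun N => Fval (e i) (a i) (fun l => u N l + N' * v N l)) = 0 :=
      funext fun N => hF N i N'
    rw [h2, map_zero, hline] at h1
    exact h1.symm
  · intro l N'
    have h1 := ring_Fval (ψ.comp germHom) (E l) (b l) (fun N l => u N l + N' * v N l)
    rw [hline] at h1
    refine h1.symm.trans ?_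
    have h2 : (fun N => Fval (E l) (b l) (fun l => u N l + N' * v N l)) =
        (fun N => c N l) * ∏ t, ((N' : ℕ → L) - fun N => ζ N t) ^ μ l t := by
      funext N
      rw [hG N l N', Pi.mul_apply, Finset.prod_apply]
      rfl
    rw [h2, map_mul, map_prod]
    congr 1
    refine Finset.prod_congr rfl fun t _ => ?_
    rw [map_pow, map_sub, map_natCast]
    rfl

end

/-- the row of a product -/
theorem rowD_prod_mem {M T : Type*} [Field M] {D : T → Derivation ℤ M M} {V : Submodule M (T → M)}
    {B : ℕ} {c : M} {ζ : Fin B → M} (hc : rowD D c ∈ V) (hζ : ∀ t, rowD D (ζ t) ∈ V)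
    (μ : Fin B → ℕ) (N : ℕ) : rowD D (c * ∏ t, ((N : M) - ζ t) ^ μ t) ∈ V := by
  classical
  have h0 : ∀ t, rowD D ((N : M) - ζ t) ∈ V := by
    intro t
    have h1 : rowD D ((N : M) - ζ t) = -rowD D (ζ t) := by
      funext s
      show D s ((N : M) - ζ t) = -D s (ζ t)
      rw [map_sub, (D s).map_natCast, zero_sub]
    rw [h1]
    exact V.neg_mem (hζ t)
  have h1 : ∀ (y : M) (e : ℕ), rowD D y ∈ V → rowD D (y ^ e) ∈ V := by
    intro y e hy
    induction e with
    | zero =>
      rw [pow_zero]
      have h2 : rowD D (1 : M) = 0 := by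
        funext s
        exact (D s).map_one_eq_zero
      rw [h2]
      exact V.zero_mem
    | succ e ih =>
      rw [pow_succ, rowD_mul]
      exact V.add_mem (V.smul_mem _ hy) (V.smul_mem _ ih)
  have h2 : ∀ S : Finset (Fin B), rowD D (∏ t ∈ S, ((N : M) - ζ t) ^ μ t) ∈ V := by
    intro S
    induction S using Finset.induction_on with
    | empty =>
      rw [Finset.prod_empty]
      have h2 : rowD D (1 : M) = 0 := by
        funext s
        exact (D s).map_one_eq_zero
      rw [h2]
      exact V.zero_mem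
    | insert t S ht ih =>
      rw [Finset.prod_insert ht, rowD_mul]
      exact V.add_mem (V.smul_mem _ ih) (V.smul_mem _ (h1 _ _ (h0 t)))
  rw [rowD_mul]
  exact V.add_mem (V.smul_mem _ (h2 _)) (V.smul_mem _ hc)

end Pool.Agent.Lib.MP_44a246_ntR
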