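import Mathlib
import Pool.Agent.Lib.MP_44a246_ntR.R20

/-!
Lines in the variety with few points on the boundary through a point with many algebraically
independent coordinates.
-/

namespace Pool.Agent.Lib.MP_44a246_ntR

open Pool.Agent.Lib.MP_44a246_ntF
open Pool.Agent.Lib.MP_44a246_ntD
open Pool.Agent.Lib.MP_44a246_ntQ
open Pool.Agent.Lib.MP_44a246_nt
open Pool.Agent.Lib.MP_44a246_ntL
open Pool.Agent.Lib.MP_44a246_ntS
open Pool.Agent.Lib.MP_44a246_ntG
open Pool.Agent.Lib.MP_44a246_ntU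
open Pool.Agent.Lib.MP_44a246_ntK
open Pool.Agent.Lib.MP_e52354_nt
open Module MvPolynomial

/-- Lines through a point with many algebraically independent coordinates, with an extension of
the field. -/
theorem no_lineP_aux {κ : Type*} [Field κ] [CharZero κ] {k₀ : Type*} [Field k₀] [CharZero k₀]
    [Algebra k₀ κ] {M : Type*} [Field M] [CharZero M] [Algebra κ M] [Algebra k₀ M]
    [IsScalarTower k₀ κ M] {X₀ : M} (ht : Transcendental κ X₀)
    (halg : Algebra.IsAlgebraic (IntermediateField.adjoin κ {X₀}) M)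
    {n m p r c ρ q B : ℕ} {d : Fin p → ℕ}
    (hd : ∀ A : Finset (Fin p), A.card = ρ + q → 2 * r + c + B ≤ (∑ j ∈ A, d j) + m + ρ)
    {ι : Type*} {e : ι → ℕ} {f : ι → MvPolynomial (Fin p ⊕ Fin n) k₀}
    (hf : ∀ i, (f i).IsWeightedHomogeneous (wtP n d) (e i))
    (hI : ringKrullDim (MvPolynomial (Fin n) k₀ ⧸ imI f) ≤ ((r + 1 : ℕ) : ℕ))
    {a : Fin p → (Fin n →₀ ℕ) → κ} {P : Finset (Fin p × (Fin n →₀ ℕ))} (hP : P.card ≤ c)
    {D : EP n d P ⊕ Fin m → Derivation ℤ κ κ}
    (hDk : ∀ t, ∀ u : k₀, D t (algebraMap k₀ κ u) = 0)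
    (hW : ∀ s s' : EP n d P, D (Sum.inl s) (a s'.1.1 s'.1.2.1) = if s = s' then 1 else 0)
    (hδ : ∀ (i : Fin m) (s : ES n d), D (Sum.inr i) (a s.1 s.2.1) = 0) {x u v : Fin n → κ} {z : κ}
    (hx : ∀ l, x l = u l + z * v l)
    (hind : LinearIndependent κ (fun (i : Fin m) (l : Fin n) => D (Sum.inr i) (x l)))
    {k l : Fin n} (huk : u k = 1) (hul : u l = 0) (hvk : v k = 0) (hvl : v l = 1)
    (hz : ∀ (i : ι) (N : ℕ), aeval (Sum.elim (fun j => Fval (d j) (a j) (fun l => u l + N * v l))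
      (fun l => u l + N * v l) : Fin p ⊕ Fin n → κ) (f i) = 0)
    {g : Fin q → MvPolynomial (Fin p ⊕ Fin n) k₀} {μ : Fin q → Fin B → ℕ} {ζ : Fin B → κ}
    {cc : Fin q → κ}
    (hG : ∀ (i : Fin q) (N : ℕ), aeval (Sum.elim
      (fun j => Fval (d j) (a j) (fun l => u l + N * v l))
      (fun l => u l + N * v l) : Fin p ⊕ Fin n → κ) (g i) = cc i * ∏ t, ((N : κ) - ζ t) ^ μ i t)
    (hJ : JRank (ρ + q) (Sum.elim f g)
      (Sum.elim (fun j => Fval (d j) (a j) x) x : Fin p ⊕ Fin n → κ)) : False := by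
  classical
  choose D' hD' hD'X using fun t => exists_der_ext ht halg (D t) 0
  obtain ⟨δ, hδ', hδX⟩ := exists_der_ext ht halg (0 : Derivation ℤ κ κ) 1
  have hδ0 : ∀ y : κ, δ (algebraMap κ M y) = 0 := fun y => by
    rw [hδ', Derivation.zero_apply, map_zero]
  have hDk' : ∀ t, ∀ y : k₀, D' t (algebraMap k₀ M y) = 0 := fun t y => by
    rw [IsScalarTower.algebraMap_apply k₀ κ M, hD', hDk, map_zero]
  have hδk' : ∀ y : k₀, δ (algebraMap k₀ M y) = 0 := fun y => by
    rw [IsScalarTower.algebraMap_apply k₀ κ M, hδ0]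
  set φ := algebraMap κ M with hφ
  -- the equations on the line
  have hFφ : ∀ (y : Fin n → κ) j, Fval (d j) (fun I => φ (a j I)) (fun l => φ (y l)) =
      φ (Fval (d j) (a j) y) := by
    intro y j
    unfold Fval mon
    rw [map_sum]
    refine Finset.sum_congr rfl fun I _ => ?_
    rw [map_mul, map_prod]
    simp only [map_pow]
  have hzM : ∀ (i : ι) (w : M), aeval (Sum.elim
      (fun j => Fval (d j) (fun I => φ (a j I)) (fun l => φ (u l) + w * φ (v l)))
      (fun l => φ (u l) + w * φ (v l)) : Fin p ⊕ Fin n → M) (f i) = 0 := by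
    intro i w
    -- the polynomial
    choose ηX hηX using fun j => exists_polyFval (d j) (fun I => φ (a j I)) (fun l => φ (u l))
      (fun l => φ (v l))
    obtain ⟨q, hev⟩ := exists_polyLine (k₀ := k₀) ηX (fun l => φ (u l)) (fun l => φ (v l)) (f i)
    simp only [hηX] at hev
    have hq0 : q = 0 := by
      refine Polynomial.eq_zero_of_infinite_isRoot q ?_
      refine (Set.infinite_range_of_injective (f := fun N : ℕ => (N : M))
        Nat.cast_injective).mono ?_
      rintro _ ⟨N, rfl⟩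
      show Polynomial.eval (N : M) q = 0
      rw [hev]
      have h1 := hz i N
      have h2 := congrArg φ h1
      rw [map_zero] at h2
      rw [← h2]
      have h3 : φ (aeval (Sum.elim (fun j => Fval (d j) (a j) (fun l => u l + N * v l))
          (fun l => u l + N * v l) : Fin p ⊕ Fin n → κ) (f i)) = aeval (fun t => φ ((Sum.elim
          (fun j => Fval (d j) (a j) (fun l => u l + N * v l))
          (fun l => u l + N * v l) : Fin p ⊕ Fin n → κ) t)) (f i) :=
        comp_aeval_apply (f := (Sum.elim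
          (fun j => Fval (d j) (a j) (fun l => u l + N * v l))
          (fun l => u l + N * v l) : Fin p ⊕ Fin n → κ)) (IsScalarTower.toAlgHom k₀ κ M) _
      rw [h3]
      congr 1
      congr 1
      funext t
      rcases t with j | l
      · simp only [Sum.elim_inl]
        rw [← hFφ]
        congr 1
        funext l
        rw [map_add, map_mul, map_natCast]
      · simp only [Sum.elim_inr]
        rw [map_add, map_mul, map_natCast]
    rw [← hev, hq0, Polynomial.eval_zero]
  set V₀ : Submodule M (EP n d P ⊕ Fin m → M) := Submodule.span M (Set.range (Sum.elim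
    (fun l => rowD D' (φ (u l))) (fun l => rowD D' (φ (v l))))) with hV₀
  set V₁ : Submodule M (EP n d P ⊕ Fin m → M) := Submodule.span M (Set.range (Sum.elim
    (fun t => rowD D' (φ (ζ t))) (fun l => rowD D' (φ (cc l))))) with hV₁
  set V : Submodule M (EP n d P ⊕ Fin m → M) := V₀ ⊔ V₁ with hV
  have huV : ∀ l, rowD D' (φ (u l)) ∈ V := fun l =>
    Submodule.mem_sup_left (Submodule.subset_span ⟨Sum.inl l, rfl⟩)
  have hvV : ∀ l, rowD D' (φ (v l)) ∈ V := fun l =>
    Submodule.mem_sup_left (Submodule.subset_span ⟨Sum.inr l, rfl⟩)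
  have hζV : ∀ t, rowD D' (φ (ζ t)) ∈ V := fun t =>
    Submodule.mem_sup_right (Submodule.subset_span ⟨Sum.inl t, rfl⟩)
  have hccV : ∀ l, rowD D' (φ (cc l)) ∈ V := fun l =>
    Submodule.mem_sup_right (Submodule.subset_span ⟨Sum.inr l, rfl⟩)
  have hV₁r : finrank M V₁ ≤ B + q := by
    refine (finrank_range_le_card _).trans ?_
    rw [Fintype.card_sum, Fintype.card_fin, Fintype.card_fin]
  have hVr : finrank M V ≤ finrank M V₀ + (B + q) :=
    (Submodule.finrank_add_le_finrank_add_finrank _ _).trans (Nat.add_le_add_left hV₁r _)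
  have hup : finrank M V₀ + 2 ≤ 2 * r := by
    refine line_upper (T := EP n d P ⊕ Fin m) (D := D') hDk' hδk' hδX hD'X
      (fun l => hδ0 (u l)) (fun l => hδ0 (v l)) (k := k) (l := l)
      (by rw [huk, map_one]) (by rw [hul, map_zero]) (by rw [hvk, map_zero]) (by rw [hvl, map_one])
      hf hI fun N => ⟨_, fun i => hzM i (X₀ + N)⟩
  have hW' : ∀ s s' : EP n d P, D' (Sum.inl s) (φ (a s'.1.1 s'.1.2.1)) =
      if s = s' then 1 else 0 := by
    intro s s'
    rw [hD', hW]
    split_ifs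
    · exact map_one _
    · exact map_zero _
  have hδ'' : ∀ (i : Fin m) (s : ES n d), D' (Sum.inr i) (φ (a s.1 s.2.1)) = 0 := by
    intro i s
    rw [hD', hδ, map_zero]
  have hx' : ∀ l, φ (x l) = φ (u l) + φ z * φ (v l) := fun l => by rw [hx, map_add, map_mul]
  have hind' : LinearIndependent M (fun (i : Fin m) (l : Fin n) => D' (Sum.inr i) (φ (x l))) := by
    have h1 : (fun (i : Fin m) (l : Fin n) => D' (Sum.inr i) (φ (x l))) =
        fun (i : Fin m) (l : Fin n) => φ (D (Sum.inr i) (x l)) := by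
      funext i l
      exact hD' _ _
    rw [h1]
    exact linearIndependent_algebraMap_comp_iff.2 hind
  have hyx : (fun l => φ (x l)) = fun l => φ (u l) + φ z * φ (v l) := funext hx'
  have hJ' : JRank (ρ + q) (Sum.elim f g)
      (Sum.elim (fun j => Fval (d j) (fun I => φ (a j I)) (fun l => φ (x l)))
        (fun l => φ (x l)) : Fin p ⊕ Fin n → M) := by
    have h1 := hJ.map (IsScalarTower.toAlgHom k₀ κ M)
    convert h1 using 1
    funext t
    rcases t with j | l
    · simp only [Sum.elim_inl]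
      exact hFφ x j
    · rfl
  obtain ⟨A, hA, hA'⟩ := line_lowerJ (a := fun j I => φ (a j I)) hDk' hW' hδ'' hx' hind' huV hvV
    (k := k) (l := l)
    (by rw [huk, map_one]) (by rw [hul, map_zero]) (by rw [hvk, map_zero]) (by rw [hvl, map_one])
    (g := Sum.elim f g) (by
      rintro (i | i)
      · refine Filter.Eventually.of_forall fun N => ?_
        show rowD D' (aeval _ (f i)) ∈ V
        rw [hzM i (N : M), rowD_zero]
        exact V.zero_mem
      · refine Filter.Eventually.of_forall fun N => ?_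
        show rowD D' (aeval _ (g i)) ∈ V
        have h1 : aeval (Sum.elim
            (fun j => Fval (d j) (fun I => φ (a j I)) (fun l => φ (u l) + (N : M) * φ (v l)))
            (fun l => φ (u l) + (N : M) * φ (v l)) : Fin p ⊕ Fin n → M) (g i) =
            φ (cc i) * ∏ t, ((N : M) - φ (ζ t)) ^ μ i t := by
          have h2 := congrArg φ (hG i N)
          have h3 : φ (aeval (Sum.elim (fun j => Fval (d j) (a j) (fun l => u l + N * v l))
              (fun l => u l + N * v l) : Fin p ⊕ Fin n → κ) (g i)) = aeval (fun t => φ ((Sum.elim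
              (fun j => Fval (d j) (a j) (fun l => u l + N * v l))
              (fun l => u l + N * v l) : Fin p ⊕ Fin n → κ) t)) (g i) :=
            comp_aeval_apply (f := (Sum.elim
              (fun j => Fval (d j) (a j) (fun l => u l + N * v l))
              (fun l => u l + N * v l) : Fin p ⊕ Fin n → κ)) (IsScalarTower.toAlgHom k₀ κ M) _
          rw [h3, map_mul, map_prod] at h2
          simp only [map_pow, map_sub, map_natCast] at h2
          rw [← h2]
          congr 1
          congr 1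
          funext t
          rcases t with j | l
          · simp only [Sum.elim_inl]
            rw [← hFφ]
            congr 1
            funext l
            rw [map_add, map_mul, map_natCast]
          · simp only [Sum.elim_inr]
            rw [map_add, map_mul, map_natCast]
        rw [h1]
        exact rowD_prod_mem (hccV i) hζV (μ i) N) hJ'
  have h1 := hd A hA
  rw [Finset.sum_add_distrib, Finset.sum_const, hA, smul_eq_mul, mul_one] at hA'
  omega

/-- **Lines through a point with many algebraically independent coordinates.** -/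
theorem no_lineP {κ : Type*} [Field κ] [CharZero κ] {k₀ : Type*} [Field k₀] [CharZero k₀]
    [Algebra k₀ κ] {n m p r c ρ q B : ℕ} {d : Fin p → ℕ}
    (hd : ∀ A : Finset (Fin p), A.card = ρ + q → 2 * r + c + B ≤ (∑ j ∈ A, d j) + m + ρ)
    {ι : Type*} {e : ι → ℕ} {f : ι → MvPolynomial (Fin p ⊕ Fin n) k₀}
    (hf : ∀ i, (f i).IsWeightedHomogeneous (wtP n d) (e i))
    (hI : ringKrullDim (MvPolynomial (Fin n) k₀ ⧸ imI f) ≤ ((r + 1 : ℕ) : ℕ))
    {a : Fin p → (Fin n →₀ ℕ) → κ} {P : Finset (Fin p × (Fin n →₀ ℕ))} (hP : P.card ≤ c)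
    {D : EP n d P ⊕ Fin m → Derivation ℤ κ κ}
    (hDk : ∀ t, ∀ u : k₀, D t (algebraMap k₀ κ u) = 0)
    (hW : ∀ s s' : EP n d P, D (Sum.inl s) (a s'.1.1 s'.1.2.1) = if s = s' then 1 else 0)
    (hδ : ∀ (i : Fin m) (s : ES n d), D (Sum.inr i) (a s.1 s.2.1) = 0) {x u v : Fin n → κ} {z : κ}
    (hx : ∀ l, x l = u l + z * v l)
    (hind : LinearIndependent κ (fun (i : Fin m) (l : Fin n) => D (Sum.inr i) (x l)))
    {k l : Fin n} (huk : u k = 1) (hul : u l = 0) (hvk : v k = 0) (hvl : v l = 1)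
    (hz : ∀ (i : ι) (N : ℕ), aeval (Sum.elim (fun j => Fval (d j) (a j) (fun l => u l + N * v l))
      (fun l => u l + N * v l) : Fin p ⊕ Fin n → κ) (f i) = 0)
    {g : Fin q → MvPolynomial (Fin p ⊕ Fin n) k₀} {μ : Fin q → Fin B → ℕ} {ζ : Fin B → κ}
    {cc : Fin q → κ}
    (hG : ∀ (i : Fin q) (N : ℕ), aeval (Sum.elim
      (fun j => Fval (d j) (a j) (fun l => u l + N * v l))
      (fun l => u l + N * v l) : Fin p ⊕ Fin n → κ) (g i) = cc i * ∏ t, ((N : κ) - ζ t) ^ μ i t)
    (hJ : JRank (ρ + q) (Sum.elim f g)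
        (Sum.elim (fun j => Fval (d j) (a j) x) x : Fin p ⊕ Fin n → κ) ∨
      (q = 0 ∧ ρ = p ∧ NDegP f x)) : False := by
  rcases hJ with hJ | ⟨hq, hρ, hN⟩
  swap
  · subst hq
    exact no_lineR (fun A hA => by
      have := hd A (by rw [hA, add_zero])
      omega) hf hI hP hDk hW hδ hx hind huk hul hvk hvl hz (Or.inr ⟨hρ, hN⟩)
  have hcM : CharZero (RatFunc κ) :=
    charZero_of_injective_algebraMap (algebraMap κ (RatFunc κ)).injective
  have halg : Algebra.IsAlgebraic (IntermediateField.adjoin κ {(RatFunc.X : RatFunc κ)})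
      (RatFunc κ) := by
    have h1 : IntermediateField.adjoin κ {(RatFunc.X : RatFunc κ)} = ⊤ := RatFunc.adjoin_X
    rw [h1]
    refine ⟨fun y => ?_⟩
    exact isAlgebraic_algebraMap (⟨y, trivial⟩ : (⊤ : IntermediateField κ (RatFunc κ)))
  exact no_lineP_aux (M := RatFunc κ) RatFunc.transcendental_X halg hd hf hI hP hDk hW hδ hx hind
    huk hul hvk hvl hz hG hJ

/-- **Lines through a point with many algebraically independent coordinates.** -/
theorem no_lineP_closed {κ : Type*} [Field κ] [CharZero κ] {k : Type*} [Field k]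
    [CharZero k] [Algebra k κ] {n m p r ρ c q B : ℕ} {d : Fin p → ℕ}
    (hd : ∀ A : Finset (Fin p), A.card = ρ + q → 2 * r + c + B ≤ (∑ j ∈ A, d j) + m + ρ)
    {ι : Type*} {e : ι → ℕ}
    {f : ι → MvPolynomial (Fin p ⊕ Fin (n + 1)) k}
    (hf : ∀ i, (f i).IsWeightedHomogeneous (wtP (n + 1) d) (e i))
    (hI : ringKrullDim (MvPolynomial (Fin (n + 1)) k ⧸ imI f) ≤ ((r + 1 : ℕ) : ℕ))
    {g : Fin q → MvPolynomial (Fin p ⊕ Fin (n + 1)) k} {E : Fin q → ℕ}
    (hg : ∀ l, (g l).IsWeightedHomogeneous (wtP (n + 1) d) (E l)) {μ : Fin q → Fin B → ℕ}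
    {a : Fin p → (Fin (n + 1) →₀ ℕ) → κ} {P : Finset (Fin p × (Fin (n + 1) →₀ ℕ))}
    (hP : P.card ≤ c)
    (ha : AlgebraicIndependent k (fun s : {s // s ∈ jexpo n d ∧ s ∉ P} => a s.1.1 s.1.2))
    {k₂ : Type*} [Field k₂] [CharZero k₂] [Algebra k k₂] [Algebra k₂ κ] [IsScalarTower k k₂ κ]
    {a₂ : Fin p → (Fin (n + 1) →₀ ℕ) → k₂}
    (ha₂ : ∀ j, ∀ I ∈ expo (Fin (n + 1)) (d j), algebraMap k₂ κ (a₂ j I) = a j I)
    {x : Fin (n + 1) → κ} {l : Fin (n + 1)} (hl : x l = 1) {j : Fin m → Fin (n + 1)}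
    (hind : AlgebraicIndependent k₂ (fun i : Fin m => x (j i)))
    (hne : JRank (ρ + q) (Sum.elim f g)
        (Sum.elim (fun j => Fval (d j) (a j) x) x : Fin p ⊕ Fin (n + 1) → κ) ∨
      (q = 0 ∧ ρ = p ∧ NDegP f x)) :
    ¬ LnPAt e (aWP d a f) E (aWP d a g) μ l x := by
  classical
  intro hln
  obtain ⟨l', u, v, z, ζ, cc, huk, hul, hvk, hvl, hx, hF, hG⟩ := hln.chart
  choose δ hδ using fun i : Fin m => exists_der_indepV hind (fun i' => if i = i' then 1 else 0)
  choose W hW using fun I : Fin p × (Fin (n + 1) →₀ ℕ) => exists_der_indepV ha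
    (fun J => if I = J.1 then (1 : κ) else 0)
  refine no_lineP (D := Sum.elim (fun s : EP (n + 1) d P => W (s.1.1, s.1.2.1)) δ) (k := l)
    (l := l') (μ := μ) (ζ := ζ) (cc := cc) hd hf hI hP ?_ ?_ ?_ hx ?_ huk hul hvk hvl ?_ ?_ hne
  · rintro (s | i) y
    · exact (hW _).1 y
    · rw [IsScalarTower.algebraMap_apply k k₂ κ]
      exact (hδ i).1 _
  · intro s s'
    have h1 := (hW (s.1.1, s.1.2.1)).2 ⟨(s'.1.1, s'.1.2.1), mem_jexpo.2 s'.1.2.2, s'.2⟩
    refine h1.trans ?_
    rcases eq_or_ne s s' with rfl | hne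
    · rw [if_pos rfl, if_pos rfl]
    · rw [if_neg hne, if_neg]
      intro h2
      apply hne
      obtain ⟨⟨i, I⟩, hs⟩ := s
      obtain ⟨⟨i', I'⟩, hs'⟩ := s'
      simp only [Prod.mk.injEq] at h2
      obtain ⟨rfl, h3⟩ := h2
      have h4 : I = I' := Subtype.ext h3
      subst h4
      rfl
  · intro i s
    show δ i (a s.1 s.2.1) = 0
    rw [← ha₂ s.1 s.2.1 s.2.2]
    exact (hδ i).1 _
  · have h1 := indep_pointE (x := x) (l := l) (j := j) (by rw [hl]; exact one_ne_zero) δ
      (fun i i' => by rw [hl, div_one]; exact (hδ i).2 i')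
    exact (linearIndependent_finCons.1 h1).1
  · intro i N
    have h1 := hF i N
    rw [Fval_aWP' hf] at h1
    exact h1
  · intro i N
    have h1 := hG i N
    rw [Fval_aWP' hg] at h1
    exact h1

end Pool.Agent.Lib.MP_44a246_ntR
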