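import Mathlib
import Pool.Agent.Lib.MP_44a246_ntR.R21

/-!
The exceptional set of the lines with at most two points on the boundary.
-/

namespace Pool.Agent.Lib.MP_44a246_ntR

open Pool.Agent.Lib.MP_44a246_ntF
open Pool.Agent.Lib.MP_44a246_ntD
open Pool.Agent.Lib.MP_44a246_ntQ
open Pool.Agent.Lib.MP_44a246_nt
open Pool.Agent.Lib.MP_44a246_ntL
open Pool.Agent.Lib.MP_44a246_ntS
open Pool.Agent.Lib.MP_44a246_ntG
open Pool.Agent.Lib.MP_44a246_ntU
open Pool.Agent.Lib.MP_44a246_ntK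
open Pool.Agent.Lib.MP_e52354_nt
open MvPolynomial

universe v w

section

variable {k L : Type*} [Field k] [Field L] [Algebra k L] {n p q : ℕ}

theorem OnLineA.mono {B : ℕ} {ι : Type*} {e : ι → ℕ} {a : ι → (Fin n →₀ ℕ) → L} {E : Fin q → ℕ}
    {b : Fin q → (Fin n →₀ ℕ) → L} {x : Fin n → L} (h : OnLineA 2 e a E b x)
    (hB : 2 ≤ B ∨ q = 0) : OnLineA B e a E b x := by
  obtain ⟨y, hxy, hz, hc⟩ := h
  refine ⟨y, hxy, hz, ?_⟩
  rcases hB with hB | hB
  · refine hc.trans ?_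
    exact_mod_cast hB
  · subst hB
    have h1 : {z : L | ∃ l : Fin 0, Fval (E l) (b l) (y + z • x) = 0} = ∅ := by
      ext z
      rw [Set.mem_empty_iff_false, iff_false]
      rintro ⟨l, -⟩
      exact l.elim0
    rw [h1, Set.encard_empty]
    exact zero_le

/-- the two conditions for a point of a pair -/
def GdP (b : Bool) (ρ : ℕ) (d : Fin p → ℕ) {ι : Type*} (f : ι → MvPolynomial (Fin p ⊕ Fin n) k)
    (g : Fin q → MvPolynomial (Fin p ⊕ Fin n) k)
    (a : Fin p → (Fin n →₀ ℕ) → L) (x : Fin n → L) : Prop :=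
  match b with
  | true => GdB true (ρ + q) d (Sum.elim f g) a x
  | false => q = 0 ∧ GdB false ρ d f a x

/-- the condition for a point of a pair -/
def GoodP (ρ : ℕ) (d : Fin p → ℕ) {ι : Type*} (f : ι → MvPolynomial (Fin p ⊕ Fin n) k)
    (g : Fin q → MvPolynomial (Fin p ⊕ Fin n) k)
    (a : Fin p → (Fin n →₀ ℕ) → L) (x : Fin n → L) : Prop :=
  JRank (ρ + q) (Sum.elim f g) (Sum.elim (fun j => Fval (d j) (a j) x) x : Fin p ⊕ Fin n → L) ∨
    (q = 0 ∧ ρ = p ∧ NDegP f x)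

theorem goodP_iff {ρ : ℕ} {d : Fin p → ℕ} {ι : Type*} {f : ι → MvPolynomial (Fin p ⊕ Fin n) k}
    {g : Fin q → MvPolynomial (Fin p ⊕ Fin n) k}
    {a : Fin p → (Fin n →₀ ℕ) → L} {x : Fin n → L} :
    GoodP ρ d f g a x ↔ ∃ b, GdP b ρ d f g a x := by
  constructor
  · rintro (h | h)
    · exact ⟨true, h⟩
    · exact ⟨false, h⟩
  · rintro ⟨b, h⟩
    cases b
    · exact Or.inr h
    · exact Or.inl h

variable {b : Bool} {ρ : ℕ} {d : Fin p → ℕ} {ι : Type*} {e : ι → ℕ} {E : Fin q → ℕ}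
  {f : ι → MvPolynomial (Fin p ⊕ Fin n) k} {g : Fin q → MvPolynomial (Fin p ⊕ Fin n) k}

theorem GdP.smul (hf : ∀ i, (f i).IsWeightedHomogeneous (wtP n d) (e i))
    (hg : ∀ i, (g i).IsWeightedHomogeneous (wtP n d) (E i)) {a : Fin p → (Fin n →₀ ℕ) → L}
    {x : Fin n → L} (h : GdP b ρ d f g a x) {c : L} (hc : c ≠ 0) :
    GdP b ρ d f g a (fun l => c * x l) := by
  cases b
  · exact ⟨h.1, GdB.smul hf h.2 hc⟩
  · exact GdB.smul (b := true) (e := Sum.elim e E) (by
      rintro (i | i)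
      · exact hf i
      · exact hg i) h hc

theorem GdP.map [Infinite L] {M : Type*} [Field M] [Algebra k M] (φ : L →+* M)
    (hφ : ∀ u : k, φ (algebraMap k L u) = algebraMap k M u)
    {a : Fin p → (Fin n →₀ ℕ) → L} {x : Fin n → L} (h : GdP b ρ d f g a x) :
    GdP b ρ d f g (fun j I => φ (a j I)) (fun l => φ (x l)) := by
  cases b
  · exact ⟨h.1, GdB.map φ hφ h.2⟩
  · exact GdB.map (b := true) φ hφ h

theorem GdP.congr {a a' : Fin p → (Fin n →₀ ℕ) → L} {x : Fin n → L}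
    (haa : ∀ j, ∀ I ∈ expo (Fin n) (d j), a j I = a' j I) (h : GdP b ρ d f g a x) :
    GdP b ρ d f g a' x := by
  cases b
  · exact ⟨h.1, GdB.congr haa h.2⟩
  · exact GdB.congr (b := true) haa h

theorem GdP.germ [Finite ι] {Ω : Type*} [Field Ω] [Algebra k Ω]
    (ψ : UP L →+* Ω) (hψ : ∀ u : k, ψ (constHom (algebraMap k L u)) = algebraMap k Ω u)
    {a : Fin p → (Fin n →₀ ℕ) → L} {x : ℕ → Fin n → L} (h : ∀ N, GdP b ρ d f g a (x N)) :
    GdP b ρ d f g (fun j I => ψ (constHom (a j I))) (fun l => ψ (germHom (fun N => x N l))) := by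
  cases b
  · exact ⟨(h 0).1, GdB.germ ψ hψ fun N => (h N).2⟩
  · exact GdB.germ (b := true) ψ hψ h

end

/-- The contradiction in an algebraically closed extension of the ultrapower. -/
private theorem excP_aux {k k₂ L : Type*} [Field k] [CharZero k] [Field k₂] [CharZero k₂]
    [Field L] [CharZero L] [Algebra k k₂] [Algebra k₂ L] [Algebra k L] [IsScalarTower k k₂ L]
    {Ω : Type*} [Field Ω] [CharZero Ω] [Algebra k₂ Ω] [Algebra k Ω]
    [IsScalarTower k k₂ Ω]
    (ψ : UP L →+* Ω) (hψ : ∀ u : k₂, ψ (constHom (algebraMap k₂ L u)) = algebraMap k₂ Ω u)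
    {n m p r ρ c q B : ℕ} {d : Fin p → ℕ}
    (hd : ∀ A : Finset (Fin p), A.card = ρ + q → 2 * r + c + B ≤ (∑ j ∈ A, d j) + m + ρ)
    {ι : Type*} [Finite ι] {e : ι → ℕ}
    {f : ι → MvPolynomial (Fin p ⊕ Fin (n + 1)) k}
    (hf : ∀ i, (f i).IsWeightedHomogeneous (wtP (n + 1) d) (e i))
    (hI : ringKrullDim (MvPolynomial (Fin (n + 1)) k ⧸ imI f) ≤ ((r + 1 : ℕ) : ℕ))
    {g : Fin q → MvPolynomial (Fin p ⊕ Fin (n + 1)) k} {E : Fin q → ℕ}
    (hg : ∀ l, (g l).IsWeightedHomogeneous (wtP (n + 1) d) (E l)) {μ : Fin q → Fin B → ℕ}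
    {a : Fin p → (Fin (n + 1) →₀ ℕ) → k₂}
    {P : Finset (Fin p × (Fin (n + 1) →₀ ℕ))} (hP : P.card ≤ c)
    (ha : AlgebraicIndependent k (fun s : {s // s ∈ jexpo n d ∧ s ∉ P} => a s.1.1 s.1.2))
    {l : Fin (n + 1)} {j : Fin m → Fin (n + 1)} {b : Bool}
    {z : ℕ → Fin m → L} {x : ℕ → Fin (n + 1) → L}
    (hz : ∀ H : MvPolynomial (Fin m) k₂, H ≠ 0 →
      ∃ N₀, ∀ N ≥ N₀, MvPolynomial.aeval (z N) H ≠ 0)
    (hx1 : ∀ N, LnPAt e (aWP d (fun j I => algebraMap k₂ L (a j I)) f) E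
      (aWP d (fun j I => algebraMap k₂ L (a j I)) g) μ l (x N))
    (hxn : ∀ N, GdP b ρ d f g (fun j I => algebraMap k₂ L (a j I)) (x N))
    (hx2 : ∀ N, x N l = 1) (hx3 : ∀ N i, z N i = x N (j i)) : False := by
  have hψk : ∀ u : k, ψ (constHom (algebraMap k L u)) = algebraMap k Ω u := by
    intro u
    rw [IsScalarTower.algebraMap_apply k k₂ L, hψ, ← IsScalarTower.algebraMap_apply k k₂ Ω]
  have hcg := LnPAt.germ ψ hx1
  have hx0 : germHom (fun N => x N l) = 1 := by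
    have : (fun N => x N l) = 1 := funext fun N => hx2 N
    rw [this, map_one]
  have hA : (fun (i : ι) (I : Fin (n + 1) →₀ ℕ) =>
      ψ (constHom (aWP d (fun j I => algebraMap k₂ L (a j I)) f i I))) =
      aWP d (fun j I => algebraMap k₂ Ω (a j I)) f := by
    funext i I
    refine (map_aWP d (fun j I => algebraMap k₂ L (a j I)) (ψ.comp constHom) hψk f i I).trans ?_
    refine congrFun (congrFun (aWP_congr (fun j I _ => ?_) f) i) I
    exact hψ _
  have hA' : (fun (i : Fin q) (I : Fin (n + 1) →₀ ℕ) =>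
      ψ (constHom (aWP d (fun j I => algebraMap k₂ L (a j I)) g i I))) =
      aWP d (fun j I => algebraMap k₂ Ω (a j I)) g := by
    funext i I
    refine (map_aWP d (fun j I => algebraMap k₂ L (a j I)) (ψ.comp constHom) hψk g i I).trans ?_
    refine congrFun (congrFun (aWP_congr (fun j I _ => ?_) g) i) I
    exact hψ _
  rw [hA, hA'] at hcg
  refine no_lineP_closed hd hf hI hg (l := l) (j := j) hP ?_ (k₂ := k₂) (a₂ := a)
    (fun j I _ => rfl) ?_ ?_ (goodP_iff.2 ⟨b, GdP.congr (fun j I _ => hψ _)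
      (GdP.germ ψ hψk hxn)⟩) hcg
  · have h1 := ha.map' (f := IsScalarTower.toAlgHom k k₂ Ω) (algebraMap k₂ Ω).injective
    exact h1
  · show ψ (germHom (fun N => x N l)) = 1
    rw [hx0, map_one]
  · have h1 := algIndep_germV ψ hψ (z := z) hz
    convert h1 using 1
    funext i
    congr 2
    funext N
    exact (hx3 N i).symm

private theorem excP_aux2 {k k₂ L : Type*} [Field k] [CharZero k] [Field k₂] [CharZero k₂]
    [Field L] [CharZero L] [Algebra k k₂] [Algebra k₂ L] [Algebra k L] [IsScalarTower k k₂ L]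
    {Ω : Type*} [Field Ω] [CharZero Ω] (ψ : UP L →+* Ω)
    {n m p r ρ c q B : ℕ} {d : Fin p → ℕ}
    (hd : ∀ A : Finset (Fin p), A.card = ρ + q → 2 * r + c + B ≤ (∑ j ∈ A, d j) + m + ρ)
    {ι : Type*} [Finite ι] {e : ι → ℕ}
    {f : ι → MvPolynomial (Fin p ⊕ Fin (n + 1)) k}
    (hf : ∀ i, (f i).IsWeightedHomogeneous (wtP (n + 1) d) (e i))
    (hI : ringKrullDim (MvPolynomial (Fin (n + 1)) k ⧸ imI f) ≤ ((r + 1 : ℕ) : ℕ))
    {g : Fin q → MvPolynomial (Fin p ⊕ Fin (n + 1)) k} {E : Fin q → ℕ}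
    (hg : ∀ l, (g l).IsWeightedHomogeneous (wtP (n + 1) d) (E l)) {μ : Fin q → Fin B → ℕ}
    {a : Fin p → (Fin (n + 1) →₀ ℕ) → k₂}
    {P : Finset (Fin p × (Fin (n + 1) →₀ ℕ))} (hP : P.card ≤ c)
    (ha : AlgebraicIndependent k (fun s : {s // s ∈ jexpo n d ∧ s ∉ P} => a s.1.1 s.1.2))
    {l : Fin (n + 1)} {j : Fin m → Fin (n + 1)} {b : Bool}
    {z : ℕ → Fin m → L} {x : ℕ → Fin (n + 1) → L}
    (hz : ∀ H : MvPolynomial (Fin m) k₂, H ≠ 0 →
      ∃ N₀, ∀ N ≥ N₀, MvPolynomial.aeval (z N) H ≠ 0)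
    (hx1 : ∀ N, LnPAt e (aWP d (fun j I => algebraMap k₂ L (a j I)) f) E
      (aWP d (fun j I => algebraMap k₂ L (a j I)) g) μ l (x N))
    (hxn : ∀ N, GdP b ρ d f g (fun j I => algebraMap k₂ L (a j I)) (x N))
    (hx2 : ∀ N, x N l = 1) (hx3 : ∀ N i, z N i = x N (j i)) : False := by
  let _ : Algebra k₂ Ω := (ψ.comp (constHom.comp (algebraMap k₂ L))).toAlgebra
  let _ : Algebra k Ω := ((algebraMap k₂ Ω).comp (algebraMap k k₂)).toAlgebra
  have t : IsScalarTower k k₂ Ω := IsScalarTower.of_algebraMap_eq fun u => rfl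
  exact excP_aux ψ (fun u => rfl) hd hf hI hg hP ha hz hx1 hxn hx2 hx3

/-- **Compactness.** -/
theorem exists_excP {k K L : Type*} [Field k] [CharZero k] [Countable k] [Field K] [CharZero K]
    [Field L] [CharZero L] [Algebra k K] [Algebra K L] [Algebra k L] [IsScalarTower k K L]
    {n m p r ρ c q B : ℕ} {d : Fin p → ℕ}
    (hd : ∀ A : Finset (Fin p), A.card = ρ + q → 2 * r + c + B ≤ (∑ j ∈ A, d j) + m + ρ)
    {ι : Type*} [Finite ι] {e : ι → ℕ}
    {f : ι → MvPolynomial (Fin p ⊕ Fin (n + 1)) k}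
    (hf : ∀ i, (f i).IsWeightedHomogeneous (wtP (n + 1) d) (e i))
    (hI : ringKrullDim (MvPolynomial (Fin (n + 1)) k ⧸ imI f) ≤ ((r + 1 : ℕ) : ℕ))
    {g : Fin q → MvPolynomial (Fin p ⊕ Fin (n + 1)) k} {E : Fin q → ℕ}
    (hg : ∀ l, (g l).IsWeightedHomogeneous (wtP (n + 1) d) (E l)) {μ : Fin q → Fin B → ℕ}
    {a : Fin p → (Fin (n + 1) →₀ ℕ) → K}
    {P : Finset (Fin p × (Fin (n + 1) →₀ ℕ))} (hP : P.card ≤ c)
    (ha : AlgebraicIndependent k (fun s : {s // s ∈ jexpo n d ∧ s ∉ P} => a s.1.1 s.1.2))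
    (l : Fin (n + 1)) (j : Fin m → Fin (n + 1)) (b : Bool) :
    ∃ h : MvPolynomial (Fin m) K, h ≠ 0 ∧ ∀ x : Fin (n + 1) → L,
      LnPAt e (aWP d (fun j I => algebraMap K L (a j I)) f) E
        (aWP d (fun j I => algebraMap K L (a j I)) g) μ l x →
      GdP b ρ d f g (fun j I => algebraMap K L (a j I)) x → x l = 1 →
        MvPolynomial.aeval (fun i => x (j i)) h = 0 := by
  classical
  -- the field of the coefficients
  set k₂ : IntermediateField k K := IntermediateField.adjoin k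
    (Set.range fun I : ↥(jexpo n d) => a I.1.1 I.1.2) with hk₂
  have hc2 : Countable k₂ := countable_adjoin _
  obtain ⟨a₂, ha₂⟩ : ∃ a₂ : Fin p → (Fin (n + 1) →₀ ℕ) → k₂,
      ∀ j, ∀ I ∈ expo (Fin (n + 1)) (d j), (a₂ j I : K) = a j I :=
    ⟨fun j I => if hI : I ∈ expo (Fin (n + 1)) (d j) then ⟨a j I,
      IntermediateField.subset_adjoin k _ ⟨⟨(j, I), mem_jexpo.2 hI⟩, rfl⟩⟩ else 0,
      fun j I hI => by simp only [dif_pos hI]⟩
  have ha' : AlgebraicIndependent k
      (fun s : {s // s ∈ jexpo n d ∧ s ∉ P} => a₂ s.1.1 s.1.2) := by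
    refine AlgebraicIndependent.of_comp k₂.val ?_
    have h1 : (k₂.val ∘ fun s : {s // s ∈ jexpo n d ∧ s ∉ P} => a₂ s.1.1 s.1.2) =
        fun s : {s // s ∈ jexpo n d ∧ s ∉ P} => a s.1.1 s.1.2 := by
      funext I
      exact ha₂ I.1.1 I.1.2 (mem_jexpo.1 I.2.1)
    rw [h1]
    exact ha
  set S : Set (Fin m → L) := {z | ∃ x : Fin (n + 1) → L,
    LnPAt e (aWP d (fun j I => algebraMap K L (a j I)) f) E
        (aWP d (fun j I => algebraMap K L (a j I)) g) μ l x ∧
      GdP b ρ d f g (fun j I => algebraMap K L (a j I)) x ∧ x l = 1 ∧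
      ∀ i : Fin m, z i = x (j i)} with hS
  have key : ∃ h : MvPolynomial (Fin m) K, h ≠ 0 ∧ ∀ z ∈ S, MvPolynomial.aeval z h = 0 := by
    by_contra hcon
    push Not at hcon
    obtain ⟨z, hzS, hz⟩ := exists_generic_seqC (k := k₂) (L := L) (S := S) fun g hg => by
      obtain ⟨z, hz1, hz2⟩ := hcon g hg
      exact ⟨z, hz1, hz2⟩
    choose x hx1 hxn hx2 hx3 using hzS
    have hcU : CharZero (UP L) := charZero_of_injective_ringHom (constHom (L := L)).injective
    have hA : aWP d (fun j I => algebraMap K L (a j I)) f =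
        aWP d (fun j I => algebraMap k₂ L (a₂ j I)) f := by
      refine aWP_congr (fun j I hI => ?_) f
      rw [← ha₂ j I hI]
      rfl
    have hA' : aWP d (fun j I => algebraMap K L (a j I)) g =
        aWP d (fun j I => algebraMap k₂ L (a₂ j I)) g := by
      refine aWP_congr (fun j I hI => ?_) g
      rw [← ha₂ j I hI]
      rfl
    rw [hA, hA'] at hx1
    exact excP_aux2 (a := a₂) (l := l) (j := j) (z := z) (x := x)
      (RingHom.id (UP L)) hd hf hI hg hP ha' hz hx1 (fun N => (hxn N).congr (fun j I hI => by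
        rw [← ha₂ j I hI]
        rfl)) hx2 hx3
  obtain ⟨h, hh0, hh⟩ := key
  exact ⟨h, hh0, fun x hx hxn hx0 => hh _ ⟨x, hx, hxn, hx0, fun i => rfl⟩⟩

/-- **The exceptional set of the lines**, for the points over algebraic extensions: it is given by
finitely many forms and its (affine) dimension is at most `m`. -/
theorem exists_excFormsP {k : Type*} {K : Type v} [Field k] [CharZero k] [Countable k] [Field K]
    [CharZero K] [Algebra k K] {n m p r ρ c q B : ℕ} {d : Fin p → ℕ}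
    (hd : ∀ A : Finset (Fin p), A.card = ρ + q → 2 * r + c + B ≤ (∑ j ∈ A, d j) + m + ρ)
    {ι : Type*} [Finite ι]
    {e : ι → ℕ} {f : ι → MvPolynomial (Fin p ⊕ Fin (n + 1)) k}
    (hf : ∀ i, (f i).IsWeightedHomogeneous (wtP (n + 1) d) (e i))
    (hI : ringKrullDim (MvPolynomial (Fin (n + 1)) k ⧸ imI f) ≤ ((r + 1 : ℕ) : ℕ))
    {g : Fin q → MvPolynomial (Fin p ⊕ Fin (n + 1)) k} {E : Fin q → ℕ}
    (hg : ∀ l, (g l).IsWeightedHomogeneous (wtP (n + 1) d) (E l))
    {a : Fin p → (Fin (n + 1) →₀ ℕ) → K}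
    {P : Finset (Fin p × (Fin (n + 1) →₀ ℕ))} (hP : P.card ≤ c)
    (ha : AlgebraicIndependent k (fun s : {s // s ∈ jexpo n d ∧ s ∉ P} => a s.1.1 s.1.2)) :
    ∃ (s' : ℕ) (G : Fin s' → MvPolynomial (Fin (n + 1)) K), (∀ i, ∃ E, (G i).IsHomogeneous E) ∧
      ringKrullDim (MvPolynomial (Fin (n + 1)) K ⧸ Ideal.span (Set.range G)) ≤ ((m : ℕ) : ℕ) ∧
      ∀ (L : Type w) [Field L] [Algebra K L] [Algebra.IsAlgebraic K L] [Algebra k L]
        [IsScalarTower k K L] (x : Fin (n + 1) → L),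
        OnLineP B e (aWP d (fun j I => algebraMap K L (a j I)) f) E
          (aWP d (fun j I => algebraMap K L (a j I)) g) x →
        (∀ l, Fval (E l) (aWP d (fun j I => algebraMap K L (a j I)) g l) x ≠ 0) →
        GoodP ρ d f g (fun j I => algebraMap K L (a j I)) x → ∀ i, aeval x (G i) = 0 := by
  classical
  have hex : ∀ (l : Fin (n + 1)) (j : Fin m → Fin (n + 1)),
      ∃ h : MvPolynomial (Fin m) K, h ≠ 0 ∧ ∀ x : Fin (n + 1) → AlgebraicClosure K,
        OnLineA B e (aWP d (fun j I => algebraMap K (AlgebraicClosure K) (a j I)) f) E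
          (aWP d (fun j I => algebraMap K (AlgebraicClosure K) (a j I)) g) x →
        (∀ l, Fval (E l) (aWP d (fun j I => algebraMap K (AlgebraicClosure K) (a j I)) g l) x ≠
          0) →
        GoodP ρ d f g (fun j I => algebraMap K (AlgebraicClosure K) (a j I)) x → x l ≠ 0 →
            MvPolynomial.aeval (fun i => x (j i) / x l) h = 0 := by
    intro l j
    choose h h0 hh using fun (μ : Fin q → Fin B → Fin (∑ l, E l + 1)) (b : Bool) =>
      exists_excP (L := AlgebraicClosure K) hd hf hI hg (μ := fun l t => (μ l t : ℕ)) hP ha l j b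
    refine ⟨∏ μ, ∏ b, h μ b, Finset.prod_ne_zero_iff.2 fun μ _ =>
      Finset.prod_ne_zero_iff.2 fun b _ => h0 μ b, fun x hx hgx hxn hx0 => ?_⟩
    have hx1 := hx.smul (inv_ne_zero hx0)
    have hgx1 : ∀ l', Fval (E l') (aWP d (fun j I => algebraMap K (AlgebraicClosure K) (a j I)) g l')
        (fun k => (x l)⁻¹ * x k) ≠ 0 := by
      intro l'
      rw [Fval_smul]
      exact mul_ne_zero (pow_ne_zero _ (inv_ne_zero hx0)) (hgx l')
    obtain ⟨μ, hμ, hln⟩ := onLineA_lnPAt hgx1 hx1 (inv_mul_cancel₀ hx0)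
    obtain ⟨b, hb⟩ := goodP_iff.1 hxn
    have hb1 := hb.smul hf hg (inv_ne_zero hx0)
    have hμ' : ∀ l' t, μ l' t < ∑ l, E l + 1 := by
      intro l' t
      have h1 := hμ l' t
      have h2 := Finset.single_le_sum (f := E) (fun _ _ => Nat.zero_le _) (Finset.mem_univ l')
      omega
    have h1 := hh (fun l' t => ⟨μ l' t, hμ' l' t⟩) b (fun k => (x l)⁻¹ * x k) hln hb1
      (inv_mul_cancel₀ hx0)
    have h2 : (fun i => x (j i) / x l) = fun i => (x l)⁻¹ * x (j i) :=
      funext fun i => div_eq_inv_mul _ _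
    rw [h2, map_prod, Finset.prod_eq_zero (Finset.mem_univ (fun l' t => ⟨μ l' t, hμ' l' t⟩))]
    rw [map_prod]
    exact Finset.prod_eq_zero (Finset.mem_univ b) h1
  choose h hh0 hh using hex
  have hex2 : ∀ (l : Fin (n + 1)) (j : Fin m → Fin (n + 1)),
      ∃ (E' : ℕ) (G : MvPolynomial (Fin (n + 1)) K), G.IsHomogeneous E' ∧
        ∀ {L : Type v} [Field L] [Algebra K L] (x : Fin (n + 1) → L),
          (x l = 0 → aeval x G = 0) ∧
            (x l ≠ 0 → aeval x G = x l ^ E' * aeval (fun i => x (j i) / x l) (h l j)) :=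
    fun l j => exists_homogV (h l j) l j
  choose E' G hGh hG using hex2
  let eq := Fintype.equivFin (Fin (n + 1) × (Fin m → Fin (n + 1)))
  refine ⟨_, fun i => G (eq.symm i).1 (eq.symm i).2, fun i => ⟨_, hGh _ _⟩, ?_, ?_⟩
  · refine dim_excE hh0 (E := E') (G := G) (fun l j L _ _ x hx => (hG l j x).2 hx) ?_
    intro l j
    refine Ideal.subset_span ⟨eq (l, j), ?_⟩
    simp only [Equiv.symm_apply_apply]
  · intro L _ _ _ _ _ x hx hgx hxn i
    let φ : L →ₐ[K] AlgebraicClosure K := IsAlgClosed.lift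
    have hφk : ∀ u : k, φ.toRingHom (algebraMap k L u) = algebraMap k (AlgebraicClosure K) u := by
      intro u
      show φ (algebraMap k L u) = _
      rw [IsScalarTower.algebraMap_apply k K L, φ.commutes,
        ← IsScalarTower.algebraMap_apply k K (AlgebraicClosure K)]
    have : Infinite L := Infinite.of_injective (algebraMap K L) (algebraMap K L).injective
    have h1 := OnLineP.map φ.toRingHom hgx hx
    have h2 : (fun i I => φ.toRingHom (aWP d (fun j I => algebraMap K L (a j I)) f i I)) =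
        aWP d (fun j I => algebraMap K (AlgebraicClosure K) (a j I)) f := by
      funext o I
      rw [map_aWP d _ φ.toRingHom hφk f o I]
      exact congrFun (congrFun (aWP_congr (fun j I _ => φ.commutes _) f) o) I
    have h2g : (fun i I => φ.toRingHom (aWP d (fun j I => algebraMap K L (a j I)) g i I)) =
        aWP d (fun j I => algebraMap K (AlgebraicClosure K) (a j I)) g := by
      funext o I
      rw [map_aWP d _ φ.toRingHom hφk g o I]
      exact congrFun (congrFun (aWP_congr (fun j I _ => φ.commutes _) g) o) I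
    rw [h2, h2g] at h1
    have hgφ : ∀ l, Fval (E l) (aWP d (fun j I => algebraMap K (AlgebraicClosure K) (a j I)) g l)
        (fun l => φ.toRingHom (x l)) ≠ 0 := by
      intro l'
      rw [← congrFun h2g l', Fval_ringHom]
      exact (map_ne_zero φ.toRingHom).2 (hgx l')
    have h1n : GoodP ρ d f g (fun j I => algebraMap K (AlgebraicClosure K) (a j I))
        (fun l => φ.toRingHom (x l)) := by
      obtain ⟨b, hb⟩ := goodP_iff.1 hxn
      exact goodP_iff.2 ⟨b, (hb.map φ.toRingHom hφk).congr fun j I _ => φ.commutes _⟩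
    have h3 : ∀ l j, aeval x (G l j) = 0 := by
      intro l j
      have h4 : aeval (fun j => φ.toRingHom (x j)) (G l j) = φ (aeval x (G l j)) := by
        have h5 := congrArg (fun g => g (G l j)) (MvPolynomial.comp_aeval (R := K) (f := x) φ)
        exact h5.symm
      have h6 : aeval (fun j => φ.toRingHom (x j)) (G l j) = 0 := by
        by_cases hl : φ.toRingHom (x l) = 0
        · exact (hG l j (fun j => φ.toRingHom (x j))).1 hl
        · rw [(hG l j (fun j => φ.toRingHom (x j))).2 hl, hh l j _ h1 hgφ h1n hl, mul_zero]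
      rw [h4] at h6
      exact (map_eq_zero φ).1 h6
    exact h3 _ _

end Pool.Agent.Lib.MP_44a246_ntR
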