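import Mathlib
import Pool.Agent.Lib.MP_44a246_ntR.R22

/-!
Algebraic points over function fields: pairs which are given by generic forms; a point of large
height has a large truncated counting function or lies on a line which has at most two points in
common with the boundary.
-/

namespace Pool.Agent.Lib.MP_44a246_ntR

open Pool.Agent.Lib.MP_44a246_ntF
open Pool.Agent.Lib.MP_44a246_ntD
open Pool.Agent.Lib.MP_44a246_ntQ
open Pool.Agent.Lib.MP_44a246_nt
open Pool.Agent.Lib.MP_e52354_ntK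
open Pool.Agent.Lib.MP_44a246_ntL
open Pool.Agent.Lib.MP_44a246_ntS
open Pool.Agent.Lib.MP_44a246_ntX
open Pool.Agent.Lib.MP_44a246_ntG
open Pool.Agent.Lib.MP_44a246_ntU
open Pool.Agent.Lib.MP_44a246_ntK
open Pool.Agent.Lib.MP_e52354_nt
open MvPolynomial Module

universe u v w

/-- **Points of large height are on lines.** -/
theorem pair_mainR {κ : Type u} {K : Type v} [Field κ] [IsAlgClosed κ] [CharZero κ] [Field K]
    [CharZero K] [Algebra κ K] (htr : Cardinal.aleph0 ≤ Algebra.trdeg ℚ κ)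
    {t : K} (ht : Transcendental κ t) [FiniteDimensional (IntermediateField.adjoin κ {t}) K]
    {k : Type*} [Field k] [CharZero k] [Algebra k K] (hk : Algebra.trdeg ℚ k < Cardinal.aleph0)
    {n p r ρ q c s m P Q D B m' : ℕ} {d : Fin p → ℕ} {ι : Type*} [Finite ι] {e : ι → ℕ}
    {f : ι → MvPolynomial (Fin p ⊕ Fin (n + 1)) k}
    (hf : ∀ i, (f i).IsWeightedHomogeneous (Sum.elim d fun _ => 1) (e i))
    {g : Fin q → MvPolynomial (Fin p ⊕ Fin (n + 1)) k} {E : Fin q → ℕ}
    (hg : ∀ l, (g l).IsWeightedHomogeneous (Sum.elim d fun _ => 1) (E l)) (hE : ∀ l, E l ≤ D)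
    (hI : ringKrullDim (MvPolynomial (Fin (n + 1)) k ⧸
      (Ideal.span (Set.range f)).comap (rename (Sum.inr : Fin (n + 1) → Fin p ⊕ Fin (n + 1)))) ≤
        ((r + 1 : ℕ) : WithBot ℕ∞))
    (hr1 : 1 ≤ r) (hρ1 : 1 ≤ ρ + q) (hd1 : ∀ j, 1 ≤ d j)
    (hms : ∀ A : Finset (Fin p), A.card = ρ + q → m + s ≤ ∑ j ∈ A, d j)
    (hN : 3 * r + 3 + c ≤ 2 * m + ρ) (hpm : p + 3 ≤ m + ρ)
    (hC : r + p + 2 ≤ m ∨ 2 * r + c + 2 ≤ m + ρ ∨ 3 * r + 4 + c ≤ 2 * m + ρ)
    (hQ : (p + 6) * (m + ρ) + 2 * p * m + Q = (m + ρ) ^ 2 + 9 + 5 * p)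
    (he : ∀ i, 2 * p * s * (e i + 1) < Q ∨ 2 * p * (e i + 1) ≤ P ∨ 2 * r + c + 2 ≤ m + ρ)
    (hB : 2 ≤ B ∨ q = 0)
    (hP : ∀ _ : Fin q, Q + 2 * p * ((B + 1) * (2 * D ^ (B + 1) + 7) * (D + 1) + 3) ≤ P)
    (hm' : ∀ A : Finset (Fin p), A.card = ρ + q → 2 * r + c + B ≤ (∑ j ∈ A, d j) + m' + ρ)
    {S : Set (Place κ K)} (hS : S.Finite)
    (H : Fin p → MvPolynomial (Fin (n + 1)) K) (hH : ∀ j, (H j).IsHomogeneous (d j))
    (hgen : (Nat.card {I : Fin p × (Fin (n + 1) →₀ ℕ) // I.2.degree = d I.1} : Cardinal) ≤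
      Algebra.trdeg k (IntermediateField.adjoin k
        (Set.range fun I : {I : Fin p × (Fin (n + 1) →₀ ℕ) // I.2.degree = d I.1} =>
          (H I.1.1).coeff I.1.2)) + c) :
    ∃ (l : ℕ) (G : Fin l → MvPolynomial (Fin (n + 1)) K), (∀ i, ∃ E, (G i).IsHomogeneous E) ∧
      ringKrullDim (MvPolynomial (Fin (n + 1)) K ⧸ Ideal.span (Set.range G)) ≤
        (m' : WithBot ℕ∞) ∧
      ∃ C : ℕ, ∀ (L : Type w) [Field L] [Algebra K L] [FiniteDimensional K L] [Algebra κ L]
        [IsScalarTower κ K L] [Algebra k L] [IsScalarTower k K L] (x : Fin (n + 1) → L), x ≠ 0 →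
        (∀ i, aeval (Sum.elim (fun j => aeval x (H j)) x : Fin p ⊕ Fin (n + 1) → L) (f i) = 0) →
        (∀ i, aeval (Sum.elim (fun j => aeval x (H j)) x : Fin p ⊕ Fin (n + 1) → L) (g i) ≠ 0) →
        (JRank (ρ + q) (Sum.elim f g)
            (Sum.elim (fun j => aeval x (H j)) x : Fin p ⊕ Fin (n + 1) → L) ∨
          (q = 0 ∧ ρ = p ∧ NDegP f x)) →
        ((s * height κ x < Set.ncard {w : Place κ L |
              (∀ v ∈ S, ¬ (w.1.comap (algebraMap K L)).IsEquiv v.1) ∧
              ∃ l, w.1 (aeval (Sum.elim (fun j => aeval x (H j)) x : Fin p ⊕ Fin (n + 1) → L)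
                (g l)) < vmax w.1 x ^ E l} + ramDeg κ L K ∨
            (Q : ℤ) * ((B + 1) * height κ x) ≤ 3 * (Q * Set.ncard {w : Place κ L |
              (∀ v ∈ S, ¬ (w.1.comap (algebraMap K L)).IsEquiv v.1) ∧
              ∃ l, w.1 (aeval (Sum.elim (fun j => aeval x (H j)) x : Fin p ⊕ Fin (n + 1) → L)
                (g l)) < vmax w.1 x ^ E l}) +
              (B + 1) * (C * finrank K L + P * ramDeg κ L K)) ∧
          (q = 0 → pointField K x = ⊤ → 2 * finrank K L ≤ s + 2 →
            2 * P * (finrank K L - 1) < Q → height κ x ≤ C * finrank K L)) ∨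
          (∀ i, aeval x (G i) = 0) ∧
            ∃ y : Fin (n + 1) → L, LinearIndependent L ![x, y] ∧
              (∀ (i : ι) (u v : L),
                aeval (Sum.elim (fun j => aeval (u • x + v • y) (H j)) (u • x + v • y) :
                  Fin p ⊕ Fin (n + 1) → L) (f i) = 0) ∧
              {z : AlgebraicClosure L | ∃ l, aeval (Sum.elim
                (fun j => aeval (fun i => z * algebraMap L (AlgebraicClosure L) (x i) +
                  algebraMap L (AlgebraicClosure L) (y i)) (H j))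
                (fun i => z * algebraMap L (AlgebraicClosure L) (x i) +
                  algebraMap L (AlgebraicClosure L) (y i)) :
                  Fin p ⊕ Fin (n + 1) → AlgebraicClosure L) (g l) = 0}.encard ≤ B := by
  classical
  obtain ⟨G₀, hG₀, ha⟩ := exists_fewK (fun j I => (H j).coeff I) hgen
  have hf' : ∀ i, (f i).IsWeightedHomogeneous (wtP (n + 1) d) (e i) := hf
  have hg' : ∀ i, (g i).IsWeightedHomogeneous (wtP (n + 1) d) (E i) := hg
  have hI' : ringKrullDim (MvPolynomial (Fin (n + 1)) k ⧸ imI f) ≤ ((r + 1 : ℕ) : ℕ) := hI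
  have hK : IsFF κ K := ⟨t, ht, inferInstance⟩
  have hkc : Countable k := countable_of_trdeg hk
  obtain ⟨l, G, hG1, hG2, hG3⟩ := exists_excFormsP.{v, w} (ρ := ρ) (m := m') (B := B)
    (a := fun j I => (H j).coeff I) hm' hf' hI' hg' hG₀ ha
  obtain ⟨C, hCC⟩ := heightP_base.{u, v, w} (κ := κ) (K := K) (ρ := ρ) (s := s)
    hK htr hk hr1 hd1 hρ1 hms hN hpm hC hQ
    (e := e) (P := P) he hf' hI' hg' hE hB hP hS
    (a := fun j I => (H j).coeff I) hG₀ ha
  refine ⟨l, G, hG1, by exact_mod_cast hG2, C, ?_⟩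
  intro L _ _ _ _ _ _ _ x hx hfx hgx hne
  have hH' : ∀ (y : Fin (n + 1) → L), (fun j => aeval y (H j)) =
      fun j => Fval (d j) (fun I => algebraMap K L ((H j).coeff I)) y := fun y =>
    funext fun j => Pool.Agent.Lib.MP_44a246_ntU.aeval_eq_Fval (hH j) y
  have hvf : ∀ (i : ι) (y : Fin (n + 1) → L),
      Fval (e i) (aWP d (fun j I => algebraMap K L ((H j).coeff I)) f i) y =
        aeval (Sum.elim (fun j => aeval y (H j)) y : Fin p ⊕ Fin (n + 1) → L) (f i) := by
    intro i y
    rw [hH' y, Fval_aWP' hf']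
  have hvg : ∀ (i : Fin q) (y : Fin (n + 1) → L),
      Fval (E i) (aWP d (fun j I => algebraMap K L ((H j).coeff I)) g i) y =
        aeval (Sum.elim (fun j => aeval y (H j)) y : Fin p ⊕ Fin (n + 1) → L) (g i) := by
    intro i y
    rw [hH' y, Fval_aWP' hg']
  have hfx' : ∀ i, Fval (e i) (aWP d (fun j I => algebraMap K L ((H j).coeff I)) f i) x = 0 :=
    fun i => by rw [hvf, hfx]
  have hgx' : ∀ i, Fval (E i) (aWP d (fun j I => algebraMap K L ((H j).coeff I)) g i) x ≠ 0 :=
    fun i => by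
      rw [hvg]
      exact hgx i
  have hne' : JRank (ρ + q) (Sum.elim f g) (Sum.elim
      (fun j => Fval (d j) (fun I => algebraMap K L ((H j).coeff I)) x) x :
        Fin p ⊕ Fin (n + 1) → L) ∨ (q = 0 ∧ ρ = p ∧ NDegP f x) := by
    rw [← hH' x]
    exact hne
  have hL : IsFF κ L := hK.of_finite
  have hHt : 0 ≤ height κ x := hL.height_nonneg hx
  have hRam : (0 : ℤ) ≤ ramDeg κ L K := Int.natCast_nonneg _
  have hfr : 1 ≤ finrank K L := Module.finrank_pos
  have key := hCC L x hx hfx' hgx' hne'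
  simp only [hvg] at key
  have hbd : q = 0 → Set.ncard {w : Place κ L |
              (∀ v ∈ S, ¬ (w.1.comap (algebraMap K L)).IsEquiv v.1) ∧
              ∃ l, w.1 (aeval (Sum.elim (fun j => aeval x (H j)) x : Fin p ⊕ Fin (n + 1) → L)
                (g l)) < vmax w.1 x ^ E l} = 0 := by
    intro hq
    have h1 : {w : Place κ L |
              (∀ v ∈ S, ¬ (w.1.comap (algebraMap K L)).IsEquiv v.1) ∧
              ∃ l, w.1 (aeval (Sum.elim (fun j => aeval x (H j)) x : Fin p ⊕ Fin (n + 1) → L)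
                (g l)) < vmax w.1 x ^ E l} = ∅ := by
      ext w
      rw [Set.mem_setOf_eq, Set.mem_empty_iff_false, iff_false]
      rintro ⟨-, l, -⟩
      exact absurd l.2 (by omega)
    rw [h1, Set.ncard_empty]
  rcases key with h | h | h
  · left
    refine ⟨Or.inl h, fun hq hgx h2 _ => ?_⟩
    rw [hbd hq] at h
    have h3 : (ramDeg κ L K : ℤ) ≤ 2 * ((Module.finrank K L : ℤ) - 1) * height κ x := by
      refine hK.ind ?_
      intro _ _ _ _ _ _ _ _ _
      exact (ram_point (κ := κ) (K := K) x hx hgx).1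
    exfalso
    have h4 : 2 * ((Module.finrank K L : ℤ) - 1) ≤ s := by
      have : 2 * (Module.finrank K L : ℤ) ≤ s + 2 := by exact_mod_cast h2
      linarith
    have h5 := mul_le_mul_of_nonneg_right h4 hHt
    push_cast at h
    linarith
  · left
    refine ⟨Or.inr h, fun hq hgx h2 h8 => ?_⟩
    rw [hbd hq] at h
    have h3 : (ramDeg κ L K : ℤ) ≤ 2 * ((Module.finrank K L : ℤ) - 1) * height κ x := by
      refine hK.ind ?_
      intro _ _ _ _ _ _ _ _ _
      exact (ram_point (κ := κ) (K := K) x hx hgx).1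
    have h9 : 2 * (P : ℤ) * ((finrank K L : ℤ) - 1) + 1 ≤ Q := by
      have h10 : 2 * P * (finrank K L - 1) + 1 ≤ Q := h8
      have h11 : ((finrank K L - 1 : ℕ) : ℤ) = (finrank K L : ℤ) - 1 := by
        rw [Nat.cast_sub hfr, Nat.cast_one]
      rw [← h11]
      exact_mod_cast h10
    have hc : (0 : ℤ) ≤ P := by positivity
    have hB0 : (0 : ℤ) < (B : ℤ) + 1 := by positivity
    have h14 : (Q : ℤ) * height κ x ≤ C * finrank K L + P * ramDeg κ L K := by
      push_cast at h
      refine le_of_mul_le_mul_left ?_ hB0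
      linarith
    have h12 := mul_le_mul_of_nonneg_left h3 hc
    have h13 := mul_le_mul_of_nonneg_right h9 hHt
    nlinarith
  · right
    have hgood : GoodP ρ d f g (fun j I => algebraMap K L ((H j).coeff I)) x := by
      rcases hne' with h1 | h1
      · exact Or.inl h1
      · exact Or.inr h1
    refine ⟨hG3 L x h hgx' hgood, ?_⟩
    obtain ⟨y, hxy, hz, hcard⟩ := h
    refine ⟨y, hxy, fun i u v => by rw [← hvf, hz], ?_⟩
    refine le_trans (Set.encard_le_encard ?_) hcard
    rintro z ⟨l, hl⟩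
    refine ⟨l, ?_⟩
    have hv : (fun i => z * algebraMap L (AlgebraicClosure L) (x i) +
        algebraMap L (AlgebraicClosure L) (y i)) = fun i => algebraMap L (AlgebraicClosure L) (y i) +
          algebraMap L (AlgebraicClosure L) (x i) * z := by
      funext i
      ring
    rw [hv] at hl
    have hmap : (fun I => algebraMap L (AlgebraicClosure L)
        (aWP d (fun j I => algebraMap K L ((H j).coeff I)) g l I)) =
        aWP d (fun j I => algebraMap K (AlgebraicClosure L) ((H j).coeff I)) g l := by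
      funext I
      rw [map_aWP d _ (algebraMap L (AlgebraicClosure L))
        (fun u => (IsScalarTower.algebraMap_apply k L (AlgebraicClosure L) u).symm) g l I]
      refine congrFun (congrFun (aWP_congr (fun j I _ => ?_) g) l) I
      exact (IsScalarTower.algebraMap_apply K L (AlgebraicClosure L) _).symm
    have hF : (fun j => aeval (fun i => algebraMap L (AlgebraicClosure L) (y i) +
          algebraMap L (AlgebraicClosure L) (x i) * z) (H j)) =
        fun j => Fval (d j) (fun I => algebraMap K (AlgebraicClosure L) ((H j).coeff I))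
          (fun i => algebraMap L (AlgebraicClosure L) (y i) +
            algebraMap L (AlgebraicClosure L) (x i) * z) :=
      funext fun j => Pool.Agent.Lib.MP_44a246_ntU.aeval_eq_Fval (hH j) _
    rw [hF] at hl
    rw [hmap, Fval_aWP' hg']
    exact hl

end Pool.Agent.Lib.MP_44a246_ntR
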