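import Mathlib
import Pool.Agent.Lib.MP_44a246_ntR.GR6
import Pool.Agent.Lib.MP_44a246_ntR.GR9

/-!
From bounds over the rational function field to bounds in terms of the genus.
-/

namespace Pool.Agent.Lib.MP_44a246_ntR

open Pool.Agent.Lib.MP_44a246_nt Pool.Agent.Lib.MP_44a246_ntL
open WithZero

universe u w

variable {κ : Type u} [Field κ] [IsAlgClosed κ] [CharZero κ]

/-- a point of a projective space over a function field lies on a line of zeros (defined over the
algebraic closure) of a polynomial -/
def OnLine {L : Type w} [Field L] [Algebra κ L] {n : ℕ} (F : MvPolynomial (Fin (n + 1)) κ)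
    (x : Fin (n + 1) → L) : Prop :=
  ∃ y : Fin (n + 1) → AlgebraicClosure L,
    LinearIndependent (AlgebraicClosure L) ![fun i => algebraMap L (AlgebraicClosure L) (x i), y] ∧
    ∀ u v : AlgebraicClosure L,
      MvPolynomial.aeval (fun i => u * algebraMap L (AlgebraicClosure L) (x i) + v * y i) F = 0

/-- two algebraically closed fields algebraic over the same field are isomorphic -/
private theorem exists_equiv {K S M : Type*} [Field K] [Field S] [Field M] [IsAlgClosed S]
    [IsAlgClosed M] (a : K →+* S) (b : K →+* M) (ha : a.IsIntegral) (hb : b.IsIntegral) :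
    ∃ ψ : S ≃+* M, ∀ z, ψ (a z) = b z := by
  letI := a.toAlgebra
  letI := b.toAlgebra
  have h1 : Algebra.IsIntegral K S := ⟨ha⟩
  have h2 : Algebra.IsIntegral K M := ⟨hb⟩
  have h3 : IsAlgClosure K S := ⟨inferInstance, inferInstance⟩
  have h4 : IsAlgClosure K M := ⟨inferInstance, inferInstance⟩
  refine ⟨(IsAlgClosure.equiv K S M).toRingEquiv, fun z => ?_⟩
  exact (IsAlgClosure.equiv K S M).commutes z

/-- lines are preserved by a change of the structure -/
private theorem onLine_transfer {K : Type*} [Field K] [Algebra κ K] {L : Type w} [Field L]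
    [Algebra κ L] {n : ℕ} (F : MvPolynomial (Fin (n + 1)) κ) (φ φ' : K →+* L)
    (hφ : ∀ c, φ (algebraMap κ K c) = algebraMap κ L c)
    (hφ' : ∀ c, φ' (algebraMap κ K c) = algebraMap κ L c) (hi : φ.IsIntegral)
    (hi' : φ'.IsIntegral) (z : Fin (n + 1) → K) (h : OnLine F fun i => φ' (z i)) :
    OnLine F fun i => φ (z i) := by
  obtain ⟨y, hy, hF⟩ := h
  have hL : (algebraMap L (AlgebraicClosure L)).IsIntegral := algebraMap_isIntegral_iff.2 inferInstance
  obtain ⟨ψ, hψ⟩ := exists_equiv ((algebraMap L (AlgebraicClosure L)).comp φ')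
    ((algebraMap L (AlgebraicClosure L)).comp φ) (RingHom.IsIntegral.trans _ _ hi' hL)
    (RingHom.IsIntegral.trans _ _ hi hL)
  simp only [RingHom.comp_apply] at hψ
  have hκ : ∀ c : κ, ψ (algebraMap κ (AlgebraicClosure L) c) = algebraMap κ (AlgebraicClosure L) c := by
    intro c
    rw [IsScalarTower.algebraMap_apply κ L (AlgebraicClosure L) c]
    conv_lhs => rw [← hφ' c]
    rw [hψ, hφ]
  refine ⟨fun i => ψ (y i), ?_, ?_⟩
  · rw [LinearIndependent.pair_iff] at hy ⊢
    intro s t hst
    have h1 := hy (ψ.symm s) (ψ.symm t) (by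
      funext i
      have h2 := congrFun hst i
      simp only [Pi.add_apply, Pi.smul_apply, smul_eq_mul, Pi.zero_apply] at h2 ⊢
      apply ψ.injective
      rw [map_add, map_mul, map_mul, map_zero, ψ.apply_symm_apply, ψ.apply_symm_apply, hψ]
      exact h2)
    simpa using h1
  · intro s t
    have h1 := hF (ψ.symm s) (ψ.symm t)
    have h2 := congrArg ψ h1
    rw [map_zero, MvPolynomial.aeval_def] at h2
    have h3 := MvPolynomial.eval₂_comp_left (ψ : AlgebraicClosure L →+* AlgebraicClosure L)
      (algebraMap κ (AlgebraicClosure L))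
      (fun i => ψ.symm s * algebraMap L (AlgebraicClosure L) (φ' (z i)) + ψ.symm t * y i) F
    have h4 : (ψ : AlgebraicClosure L →+* AlgebraicClosure L).comp
        (algebraMap κ (AlgebraicClosure L)) = algebraMap κ (AlgebraicClosure L) := by
      ext c
      exact hκ c
    have h5 : (⇑(ψ : AlgebraicClosure L →+* AlgebraicClosure L) ∘
        fun i => ψ.symm s * algebraMap L (AlgebraicClosure L) (φ' (z i)) + ψ.symm t * y i) =
        fun i => s * algebraMap L (AlgebraicClosure L) (φ (z i)) + t * ψ (y i) := by
      funext i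
      show ψ (ψ.symm s * algebraMap L (AlgebraicClosure L) (φ' (z i)) + ψ.symm t * y i) = _
      rw [map_add, map_mul, map_mul, ψ.apply_symm_apply, ψ.apply_symm_apply, hψ]
    rw [h4, h5] at h3
    rw [MvPolynomial.aeval_def, ← h3]
    exact h2

/-- the height of a power -/
private theorem height_one_pow {L : Type w} [Field L] [Algebra κ L] (f : L) (e : ℕ) :
    height κ ![1, f ^ e] = e * height κ ![1, f] := by
  have hx : (![1, f] : Fin 2 → L) ≠ 0 := fun h => one_ne_zero (congrFun h 0)
  unfold height
  rw [← smul_eq_mul, smul_finsum]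
  refine finsum_congr fun v => ?_
  have h1 : vmax v.1 ![1, f ^ e] = vmax v.1 ![1, f] ^ e := by
    have h2 : vmax v.1 ![1, f ^ e] = max 1 (v.1 f ^ e) := by
      apply le_antisymm
      · refine vmax_le _ fun i => ?_
        fin_cases i
        · simp
        · simp
      · apply max_le
        · have := le_vmax v.1 ![1, f ^ e] 0
          simpa using this
        · have := le_vmax v.1 ![1, f ^ e] 1
          simpa using this
    have h3 : vmax v.1 ![1, f] = max 1 (v.1 f) := by
      apply le_antisymm
      · refine vmax_le _ fun i => ?_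
        fin_cases i
        · simp
        · simp
      · apply max_le
        · have := le_vmax v.1 ![1, f] 0
          simpa using this
        · have := le_vmax v.1 ![1, f] 1
          simpa using this
    rw [h2, h3]
    rcases le_total (v.1 f) 1 with h | h
    · rw [max_eq_left h, max_eq_left (pow_le_one' h e), one_pow]
    · rw [max_eq_right h, max_eq_right (one_le_pow_of_one_le' h e)]
  rw [h1, log_pow]
  simp

/-- the case of the rational function field -/
private theorem genus_zero {n : ℕ} (F : MvPolynomial (Fin (n + 1)) κ) (C : ℕ) {L : Type w} [Field L]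
    [Algebra κ L] (hL : IsFF κ L) (φ : RatFunc κ →+* L)
    (hφ : ∀ c, φ (algebraMap κ (RatFunc κ) c) = algebraMap κ L c) (hi : φ.IsIntegral) {f : L}
    (hf : Transcendental κ f) (hf1 : height κ ![1, f] = 1)
    (hC : ∀ x : Fin (n + 1) → L, x ≠ 0 → MvPolynomial.aeval x F = 0 →
      height κ x ≤ C ∨ OnLine F x)
    (z : Fin (n + 1) → RatFunc κ) (hz : z ≠ 0) (h0 : MvPolynomial.aeval z F = 0) :
    height κ z ≤ 0 ∨ OnLine F fun i => φ (z i) := by
  have hfN : Transcendental κ (f ^ (C + 1)) := hf.pow (Nat.succ_pos C)
  refine with_ratFunc hL hfN ?_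
  intro iA iT iF hX
  have hfin := finrank_eq_height κ L
  rw [tL, hX, height_one_pow, hf1, mul_one] at hfin
  have hx : (fun i => algebraMap (RatFunc κ) L (z i)) ≠ 0 := by
    intro h
    apply hz
    funext i
    have h1 := congrFun h i
    simp only [Pi.zero_apply, map_eq_zero] at h1
    exact h1
  have hF : MvPolynomial.aeval (fun i => algebraMap (RatFunc κ) L (z i)) F = 0 := by
    have h1 := MvPolynomial.aeval_algebraMap_apply (R := κ) L z F
    rw [h0, map_zero] at h1
    exact h1
  rcases hC _ hx hF with h | h
  · left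
    rw [hL.height_ext (K := RatFunc κ) hz, hfin] at h
    by_contra hcon
    push Not at hcon
    push_cast at h
    have h2 : (0:ℤ) ≤ C := Int.natCast_nonneg C
    nlinarith
  · right
    refine onLine_transfer F φ (algebraMap (RatFunc κ) L) hφ (fun c => ?_) hi
      (algebraMap_isIntegral_iff.2 inferInstance) z h
    rw [← IsScalarTower.algebraMap_apply]

theorem genus_bound {n : ℕ} (F : MvPolynomial (Fin (n + 1)) κ) (C : ℕ)
    (hC : ∀ (L : Type w) [Field L] [Algebra (RatFunc κ) L] [FiniteDimensional (RatFunc κ) L]
      [Algebra κ L] [IsScalarTower κ (RatFunc κ) L] (x : Fin (n + 1) → L), x ≠ 0 →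
      MvPolynomial.aeval x F = 0 →
      height κ x ≤ C * ((ramDeg κ L (RatFunc κ) : ℤ) + Module.finrank (RatFunc κ) L) ∨
      OnLine F x)
    (L : Type w) [Field L] [Algebra κ L] (hL : IsFF κ L) (x : Fin (n + 1) → L) (hx : x ≠ 0)
    (h0 : MvPolynomial.aeval x F = 0) :
    height κ x ≤ (6 * C : ℕ) * (genus κ L : ℤ) ∨ OnLine F x := by
  obtain ⟨f, hf, hfh⟩ := exists_gon hL
  refine with_ratFunc hL hf ?_
  intro iA iT iF hX
  have hfin := finrank_eq_height κ L
  rw [tL, hX] at hfin
  have hram := ramDeg_le κ L
  have hpos : (0:ℤ) < Module.finrank (RatFunc κ) L := by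
    exact_mod_cast Module.finrank_pos (R := RatFunc κ) (M := L)
  have hC0 : (0:ℤ) ≤ C := Int.natCast_nonneg C
  rcases Nat.eq_zero_or_pos (genus κ L) with hg | hg
  · -- genus zero
    rw [hg] at hfh hram
    have hn1 : Module.finrank (RatFunc κ) L = 1 := by
      have : (Module.finrank (RatFunc κ) L : ℤ) = 1 := by
        push_cast at hfh
        linarith
      exact_mod_cast this
    have hr0 : (ramDeg κ L (RatFunc κ) : ℤ) ≤ 0 := by
      rw [hn1] at hram
      push_cast at hram
      linarith
    have hC2 : ∀ x : Fin (n + 1) → L, x ≠ 0 → MvPolynomial.aeval x F = 0 →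
        height κ x ≤ C ∨ OnLine F x := by
      intro x' hx' hF'
      rcases hC L x' hx' hF' with h | h
      · left
        rw [hn1] at h
        push_cast at h
        nlinarith
      · right
        exact h
    have hsurj : ∀ y : L, ∃ c, algebraMap (RatFunc κ) L c = y := by
      intro y
      have h1 : y ∈ (⊤ : Subalgebra (RatFunc κ) L) := Algebra.mem_top
      rw [← Subalgebra.bot_eq_top_iff_finrank_eq_one.2 hn1] at h1
      exact Algebra.mem_bot.1 h1
    choose z hz using fun i => hsurj (x i)
    have hzx : x = fun i => algebraMap (RatFunc κ) L (z i) := by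
      funext i
      exact (hz i).symm
    have hz0 : z ≠ 0 := by
      intro h
      apply hx
      rw [hzx, h]
      funext i
      simp
    have hFz : MvPolynomial.aeval z F = 0 := by
      have h1 := MvPolynomial.aeval_algebraMap_apply (R := κ) L z F
      have h2 : MvPolynomial.aeval (fun i => algebraMap (RatFunc κ) L (z i)) F = 0 := by
        rw [← hzx]
        exact h0
      have h3 : algebraMap (RatFunc κ) L (MvPolynomial.aeval z F) = 0 := by
        rw [← h1]
        exact h2
      exact (map_eq_zero _).1 h3
    have hfin1 : height κ ![1, f] = 1 := by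
      rw [← hfin, hn1]
      rfl
    have hlast := genus_zero F C hL (algebraMap (RatFunc κ) L)
      (fun c => by rw [← IsScalarTower.algebraMap_apply])
      (algebraMap_isIntegral_iff.2 inferInstance) hf hfin1 hC2 z hz0 hFz
    rcases hlast with h | h
    · left
      rw [hzx, hL.height_ext (K := RatFunc κ) hz0, hn1, hg]
      push_cast
      linarith
    · right
      rw [hzx]
      exact h
  · rcases hC L x hx h0 with h | h
    · left
      have hg1 : (1:ℤ) ≤ genus κ L := by exact_mod_cast hg
      refine h.trans ?_
      push_cast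
      have h1 : (ramDeg κ L (RatFunc κ) : ℤ) + Module.finrank (RatFunc κ) L ≤ 6 * genus κ L := by
        linarith
      calc (C : ℤ) * ((ramDeg κ L (RatFunc κ) : ℤ) + Module.finrank (RatFunc κ) L) ≤
            C * (6 * genus κ L) := mul_le_mul_of_nonneg_left h1 hC0
        _ = 6 * C * genus κ L := by ring
    · right
      exact h

end Pool.Agent.Lib.MP_44a246_ntR
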