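import Mathlib
import Pool.Agent.Lib.MP_44a246_ntC.C37
import Pool.Agent.Lib.MP_44a246_ntR.R23

/-!
Algebraic points over function fields: pairs which are given by generic forms; both versions of the
exceptional set, with constants which depend only on the degrees.
-/

namespace Pool.Agent.Lib.MP_44a246_ntR

open Pool.Agent.Lib.MP_44a246_ntC
open Pool.Agent.Lib.MP_44a246_ntF
open Pool.Agent.Lib.MP_44a246_ntD
open Pool.Agent.Lib.MP_44a246_ntQ
open Pool.Agent.Lib.MP_44a246_nt
open Pool.Agent.Lib.MP_e52354_ntK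
open Pool.Agent.Lib.MP_44a246_ntL
open Pool.Agent.Lib.MP_44a246_ntS
open Pool.Agent.Lib.MP_44a246_ntX
open Pool.Agent.Lib.MP_44a246_ntG
open Pool.Agent.Lib.MP_44a246_ntU
open Pool.Agent.Lib.MP_44a246_ntY
open Pool.Agent.Lib.MP_44a246_ntK
open Pool.Agent.Lib.MP_e52354_nt
open MvPolynomial Module

universe u v w x y

/-- the constant of the pair theorem -/
noncomputable def cP (p q b B D : ℕ) : ℕ :=
  (B + 1) * (1 + 2 * p * ((B + 1) * (2 * D ^ (B + 1) + 7) * (D + 1) + 3) + 2 * p * (D + 1)) +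
    9 * b * D + (∑ ε ∈ Finset.range (q * D + 1), MP_44a246_ntY.cE b (ε * b) ε) * (2 * (q * D) + 2)

/-- **Points of large height and small truncated counting function are in a closed set of small
dimension**: lines, or curves of degree at most `b`. -/
theorem pair_mainRC {p q b B D : ℕ} {κ : Type u} {K : Type v} [Field κ] [IsAlgClosed κ]
    [CharZero κ] [Field K] [CharZero K] [Algebra κ K]
    (htr : Cardinal.aleph0 ≤ Algebra.trdeg ℚ κ)
    {t : K} (ht : Transcendental κ t) [FiniteDimensional (IntermediateField.adjoin κ {t}) K]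
    {k : Type x} [Field k] [CharZero k] [Algebra k K] (hk : Algebra.trdeg ℚ k < Cardinal.aleph0)
    {n r ρ c s m l m' : ℕ} {d : Fin p → ℕ} {ι : Type y} [Finite ι] {e : ι → ℕ} {E : Fin q → ℕ}
    {f : ι → MvPolynomial (Fin p ⊕ Fin (n + 1)) k}
    {g : Fin q → MvPolynomial (Fin p ⊕ Fin (n + 1)) k}
    (hf : ∀ i, e i ≤ D ∧ (f i).IsWeightedHomogeneous (Sum.elim d fun _ => 1) (e i))
    (hg : ∀ i, E i ≤ D ∧ (g i).IsWeightedHomogeneous (Sum.elim d fun _ => 1) (E i))
    (hI : ringKrullDim (MvPolynomial (Fin (n + 1)) k ⧸ (Ideal.span (Set.range f)).comap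
      (rename (Sum.inr : Fin (n + 1) → Fin p ⊕ Fin (n + 1)))) ≤ ((r + 1 : ℕ) : WithBot ℕ∞))
    (hr : 1 ≤ r) (hq : 1 ≤ q)
    (hms : ∀ A : Finset (Fin p), A.card = ρ + q → m + s ≤ ∑ j ∈ A, d j)
    (hd : (b = 0 ∧ (∀ j, 1 ≤ d j) ∧ 3 * r + 3 + c ≤ 2 * m + ρ ∧ p + 3 ≤ m + ρ ∧
        (r + p + 2 ≤ m ∨ 2 * r + c + 2 ≤ m + ρ ∨ 3 * r + 4 + c ≤ 2 * m + ρ) ∧
        (p + 6) * (m + ρ) + 2 * p * m < (m + ρ) ^ 2 + 9 + 5 * p ∧ 2 ≤ B ∧
        ∀ A : Finset (Fin p), A.card = ρ + q → 2 * r + B + c ≤ (∑ j ∈ A, d j) + m' + ρ) ∨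
      (1 ≤ b ∧ 1 ≤ l ∧ (∀ j, 10 * b ^ 2 ≤ d j ∧ r + c + q ≤ l * d j ∧ 150 * (b * l) ≤ d j ∧
        100 * (b * (s + 3)) + 10 * q ≤ d j) ∧
        21 * (r + c + q) + 20 * b * (r + 2 + 12 * b * l * (ρ + q) + 2 * b * (ρ + q)) ≤
          20 * b * (m + ρ + q) ∧
        ∀ A : Finset (Fin p), A.card = ρ + q →
          4 * r + 13 * b + 6 + 2 * c ≤ 2 * ((∑ j ∈ A, d j) + m' + ρ)))
    {S : Set (Place κ K)} (hS : S.Finite)
    (H : Fin p → MvPolynomial (Fin (n + 1)) K) (hH : ∀ j, (H j).IsHomogeneous (d j))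
    (hgen : (Nat.card {I : Fin p × (Fin (n + 1) →₀ ℕ) // I.2.degree = d I.1} : Cardinal) ≤
      Algebra.trdeg k (IntermediateField.adjoin k
        (Set.range fun I : {I : Fin p × (Fin (n + 1) →₀ ℕ) // I.2.degree = d I.1} =>
          (H I.1.1).coeff I.1.2)) + c) :
    ∃ (a : ℕ) (G : Fin a → MvPolynomial (Fin (n + 1)) K), (∀ i, ∃ E, (G i).IsHomogeneous E) ∧
      ringKrullDim (MvPolynomial (Fin (n + 1)) K ⧸ Ideal.span (Set.range G)) ≤
        (m' : WithBot ℕ∞) ∧
      ∃ C : ℕ, ∀ (L : Type w) [Field L] [Algebra K L] [FiniteDimensional K L] [Algebra κ L]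
        [IsScalarTower κ K L] [Algebra k L] [IsScalarTower k K L] (x : Fin (n + 1) → L), x ≠ 0 →
        (∀ i, aeval (Sum.elim (fun j => aeval x (H j)) x : Fin p ⊕ Fin (n + 1) → L) (f i) = 0) →
        (∀ i, aeval (Sum.elim (fun j => aeval x (H j)) x : Fin p ⊕ Fin (n + 1) → L) (g i) ≠ 0) →
        (∃ (i : Fin (ρ + q) → ι ⊕ Fin q) (j : Fin (ρ + q) → Fin p), (Matrix.of fun a b =>
            aeval (Sum.elim (fun j => aeval x (H j)) x : Fin p ⊕ Fin (n + 1) → L)
              (pderiv (Sum.inl (j b)) (Sum.elim f g (i a)))).det ≠ 0) →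
        ∀ N : ℕ, N = Set.ncard {w : Place κ L |
              (∀ v ∈ S, ¬ (w.1.comap (algebraMap K L)).IsEquiv v.1) ∧
              ∃ l, w.1 (aeval (Sum.elim (fun j => aeval x (H j)) x : Fin p ⊕ Fin (n + 1) → L)
                (g l)) < vmax w.1 x ^ E l} →
        (s * height κ x < N + ramDeg κ L K ∨
          (b = 0 ∧ (B + 1) * height κ x ≤
            3 * N + cP p q b B D * ramDeg κ L K + C * finrank K L) ∨
          (1 ≤ b ∧ height κ x ≤ cP p q b B D * (N + ramDeg κ L K) + C * finrank K L)) ∨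
        (∀ i, aeval x (G i) = 0) ∧ (b = 0 →
            ∃ y : Fin (n + 1) → L, LinearIndependent L ![x, y] ∧
              (∀ (i : ι) (u v : L),
                aeval (Sum.elim (fun j => aeval (u • x + v • y) (H j)) (u • x + v • y) :
                  Fin p ⊕ Fin (n + 1) → L) (f i) = 0) ∧
              {z : AlgebraicClosure L | ∃ l, aeval (Sum.elim
                (fun j => aeval (fun i => z * algebraMap L (AlgebraicClosure L) (x i) +
                  algebraMap L (AlgebraicClosure L) (y i)) (H j))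
                (fun i => z * algebraMap L (AlgebraicClosure L) (x i) +
                  algebraMap L (AlgebraicClosure L) (y i)) :
                  Fin p ⊕ Fin (n + 1) → AlgebraicClosure L) (g l) = 0}.encard ≤ B) := by
  classical
  have hK : IsFF κ K := ⟨t, ht, inferInstance⟩
  rcases hd with ⟨hb, hd1, hN, hpm, hC, hQ, hB, hm'⟩ | ⟨hb, hl, hd1, hN, hm'⟩
  · subst hb
    obtain ⟨Q, hQ'⟩ : ∃ Q, (p + 6) * (m + ρ) + 2 * p * m + Q = (m + ρ) ^ 2 + 9 + 5 * p :=
      ⟨(m + ρ) ^ 2 + 9 + 5 * p - ((p + 6) * (m + ρ) + 2 * p * m), by omega⟩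
    have hQ1 : 1 ≤ Q := by omega
    set P₁ := 1 + 2 * p * ((B + 1) * (2 * D ^ (B + 1) + 7) * (D + 1) + 3) + 2 * p * (D + 1) with hP₁
    have hPQ : P₁ ≤ Q * P₁ := Nat.le_mul_of_pos_left _ hQ1
    have hcP : (B + 1) * P₁ ≤ cP p q 0 B D := by
      unfold cP
      rw [← hP₁]
      omega
    obtain ⟨a, G, hG, hGd, C, hmain⟩ := pair_mainR.{u, v, w} htr ht hk (fun i => (hf i).2)
      (fun i => (hg i).2) (fun i => (hg i).1) hI hr (ρ := ρ) (by omega) hd1 hms hN hpm hC hQ'
      (P := Q * P₁) (fun i => by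
        right
        left
        have h1 : 2 * p * (e i + 1) ≤ 2 * p * (D + 1) :=
          Nat.mul_le_mul_left _ (Nat.succ_le_succ (hf i).1)
        refine h1.trans (le_trans ?_ hPQ)
        omega) (Or.inl hB) (fun _ => by
        have h1 : Q * (1 + 2 * p * ((B + 1) * (2 * D ^ (B + 1) + 7) * (D + 1) + 3)) ≤ Q * P₁ :=
          Nat.mul_le_mul_left _ (by omega)
        refine le_trans ?_ h1
        rw [Nat.mul_add Q 1, Nat.mul_one]
        exact Nat.add_le_add_left (Nat.le_mul_of_pos_left _ hQ1) _) (m' := m') (fun A hA => by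
        have := hm' A hA
        omega) hS H hH hgen
    refine ⟨a, G, hG, hGd, (B + 1) * C, ?_⟩
    intro L _ _ _ _ _ _ _ x hx hfx hgx hgood N hNN
    have hL : IsFF κ L := hK.of_finite
    have hHt : 0 ≤ height κ x := hL.height_nonneg hx
    rcases hmain L x hx hfx hgx (Or.inl hgood) with h | ⟨h1, h2⟩
    · left
      rw [← hNN] at h
      rcases h.1 with h3 | h3
      · left
        exact h3
      · right
        left
        refine ⟨rfl, ?_⟩
        have h4 : (Q : ℤ) * (((B : ℤ) + 1) * height κ x) ≤ (Q : ℤ) * (3 * N +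
            (B + 1) * P₁ * ramDeg κ L K + (B + 1) * C * finrank K L) := by
          have h5 : (((B : ℤ) + 1) * (C * finrank K L)) ≤
              (Q : ℤ) * ((B + 1) * (C * finrank K L)) := by
            have h6 : (0 : ℤ) ≤ ((B : ℤ) + 1) * (C * finrank K L) := by positivity
            have h7 : (1 : ℤ) ≤ Q := by exact_mod_cast hQ1
            nlinarith
          have h3' : (Q : ℤ) * (((B : ℤ) + 1) * height κ x) ≤ 3 * (Q * N) +
              (B + 1) * (C * finrank K L + (Q * P₁) * ramDeg κ L K) := by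
            push_cast at h3
            linarith
          linarith
        have h5 : ((B : ℤ) + 1) * height κ x ≤ 3 * N +
            (B + 1) * P₁ * ramDeg κ L K + (B + 1) * C * finrank K L :=
          le_of_mul_le_mul_left h4 (by exact_mod_cast hQ1)
        refine h5.trans ?_
        have h6 : ((B : ℤ) + 1) * P₁ * ramDeg κ L K ≤ cP p q 0 B D * ramDeg κ L K :=
          mul_le_mul_of_nonneg_right (by exact_mod_cast hcP) (by positivity)
        push_cast
        linarith
    · exact Or.inr ⟨h1, fun _ => h2⟩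
  · have hp : 1 ≤ p ∨ p = 0 := by omega
    rcases hp with hp | hp
    swap
    · -- no generic forms at all: the rank condition is never satisfied
      subst hp
      refine ⟨1, fun _ => 1, fun _ => ⟨0, isHomogeneous_one _ _⟩, ?_, 0, ?_⟩
      · have h1 : Ideal.span (Set.range fun _ : Fin 1 =>
            (1 : MvPolynomial (Fin (n + 1)) K)) = ⊤ := by
          rw [Ideal.eq_top_iff_one]
          exact Ideal.subset_span ⟨0, rfl⟩
        have h2 : Subsingleton (MvPolynomial (Fin (n + 1)) K ⧸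
            Ideal.span (Set.range fun _ : Fin 1 => (1 : MvPolynomial (Fin (n + 1)) K))) :=
          Ideal.Quotient.subsingleton_iff.2 h1
        rw [ringKrullDim_eq_bot_of_subsingleton]
        exact bot_le
      · intro L _ _ _ _ _ _ _ x hx hfx hgx ⟨_, j, _⟩
        exact (j ⟨0, by omega⟩).elim0
    set σ := ∑ ε ∈ Finset.range (q * D + 1), MP_44a246_ntY.cE b (ε * b) ε with hσ
    have hcP1 : 9 * b * D ≤ cP p q b B D := by
      unfold cP
      omega
    have hcP2 : σ * (2 * (q * D) + 2) ≤ cP p q b B D := by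
      unfold cP
      rw [← hσ]
      exact Nat.le_add_left _ _
    have hS1 : ∑ i, E i ≤ q * D := by
      calc ∑ i, E i ≤ ∑ _i : Fin q, D := Finset.sum_le_sum fun i _ => (hg i).1
        _ = q * D := by rw [Finset.sum_const, Finset.card_univ, Fintype.card_fin, smul_eq_mul]
    have hc1 : MP_44a246_ntY.cE b ((∑ i, E i) * b) (∑ i, E i) ≤ σ := by
      rw [hσ]
      exact Finset.single_le_sum (f := fun ε => MP_44a246_ntY.cE b (ε * b) ε)
        (s := Finset.range (q * D + 1)) (fun _ _ => Nat.zero_le _)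
        (Finset.mem_range.2 (show ∑ i, E i < q * D + 1 by omega))
    obtain ⟨a, G, hG, hGd, C, hmain⟩ := pair_mainC.{u, v, w, y} htr ht hk (fun i => (hf i).2)
      (fun i => (hg i).2) hI (ρ := ρ) (Q := 1) (P := 9 * b * D) hb hl hp hms
      (fun j => ⟨(hd1 j).1, (hd1 j).2.1, (hd1 j).2.2.1, (hd1 j).2.2.2, by
        have h1 := (hd1 j).1
        have h2 : 1 ≤ b ^ 2 := Nat.one_le_pow _ _ hb
        exact Nat.one_le_pow _ _ (by omega)⟩) hN
      (fun i => Or.inr (Nat.mul_le_mul_left _ (hf i).1)) (m' := m') hm' hS H hH hgen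
    refine ⟨a, G, hG, hGd, C, ?_⟩
    intro L _ _ _ _ _ _ _ x hx hfx hgx hgood N hNN
    have hL : IsFF κ L := hK.of_finite
    have hHt : 0 ≤ height κ x := hL.height_nonneg hx
    rcases hmain L x hx hfx hgx hgood with h | ⟨h1, -⟩
    · left
      rw [← hNN] at h
      rcases h with h3 | h3 | ⟨-, h3⟩
      · left
        exact h3
      · right
        right
        refine ⟨hb, ?_⟩
        have h4 : ((9 * b * D : ℕ) : ℤ) * ramDeg κ L K ≤ cP p q b B D * (N + ramDeg κ L K) := by
          have h5 : ((9 * b * D : ℕ) : ℤ) * ramDeg κ L K ≤ cP p q b B D * ramDeg κ L K :=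
            mul_le_mul_of_nonneg_right (by exact_mod_cast hcP1) (by positivity)
          have h6 : (0 : ℤ) ≤ cP p q b B D * N := by positivity
          rw [mul_add]
          linarith
        push_cast at h3 h4
        linarith
      · right
        right
        refine ⟨hb, ?_⟩
        have h4 : ((MP_44a246_ntY.cE b ((∑ i, E i) * b) (∑ i, E i) : ℕ) : ℤ) *
            (N + (2 * (∑ i, E i : ℕ) + 2) * ramDeg κ L K) ≤
            cP p q b B D * (N + ramDeg κ L K) := by
          have h5 : ((MP_44a246_ntY.cE b ((∑ i, E i) * b) (∑ i, E i) : ℕ) : ℤ) ≤ σ := by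
            exact_mod_cast hc1
          have h6 : (((∑ i, E i : ℕ)) : ℤ) ≤ ((q * D : ℕ) : ℤ) := by exact_mod_cast hS1
          have h7 : (0 : ℤ) ≤ ramDeg κ L K := by positivity
          have h8 : (0 : ℤ) ≤ N := by positivity
          have h9 : ((N : ℤ) + (2 * (∑ i, E i : ℕ) + 2) * ramDeg κ L K) ≤
              (2 * ((q * D : ℕ) : ℤ) + 2) * (N + ramDeg κ L K) := by
            have h10 : (2 * ((∑ i, E i : ℕ) : ℤ) + 2) * ramDeg κ L K ≤
                (2 * ((q * D : ℕ) : ℤ) + 2) * ramDeg κ L K :=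
              mul_le_mul_of_nonneg_right (by linarith) h7
            have h11 : (N : ℤ) ≤ (2 * ((q * D : ℕ) : ℤ) + 2) * N := by
              have h12 : (0 : ℤ) ≤ ((q * D : ℕ) : ℤ) := by positivity
              nlinarith
            rw [mul_add]
            linarith
          calc ((MP_44a246_ntY.cE b ((∑ i, E i) * b) (∑ i, E i) : ℕ) : ℤ) *
                (N + (2 * (∑ i, E i : ℕ) + 2) * ramDeg κ L K)
              ≤ σ * (N + (2 * (∑ i, E i : ℕ) + 2) * ramDeg κ L K) :=
                mul_le_mul_of_nonneg_right h5 (by positivity)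
            _ ≤ σ * ((2 * ((q * D : ℕ) : ℤ) + 2) * (N + ramDeg κ L K)) :=
                mul_le_mul_of_nonneg_left h9 (by positivity)
            _ = ((σ * (2 * (q * D) + 2) : ℕ) : ℤ) * (N + ramDeg κ L K) := by
                push_cast
                ring
            _ ≤ cP p q b B D * (N + ramDeg κ L K) :=
                mul_le_mul_of_nonneg_right (by exact_mod_cast hcP2) (by positivity)
        push_cast at h3 h4
        linarith
    · exact Or.inr ⟨h1, fun h => absurd h (by omega)⟩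

end Pool.Agent.Lib.MP_44a246_ntR
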